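import Mathlib
import Pool.Agent.H667R3.FF.Defs
import Pool.Agent.H581R.FF.Defs

/-! Definitions for the isomorphism of the reduced free powers of `C([0,1])`. -/

namespace Pool.Agent.H875R.FP

open Pool.Agent.H667R3.FF (ev splits)
open Pool.Agent.H581R.FF (n2 act)
open scoped ComplexConjugate

/-! ### C*-subalgebras -/

/-- the C*-subalgebra (norm closed star subalgebra) generated by a set -/
noncomputable def CC {A : Type} [CStarAlgebra A] (s : Set A) : StarSubalgebra ℂ A :=
  (StarAlgebra.adjoin ℂ s).topologicalClosure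

instance {A : Type} [CStarAlgebra A] (s : Set A) : IsClosed (CC s : Set A) :=
  StarSubalgebra.isClosed_topologicalClosure _

/-! ### Reduced free powers of `C([0,1])` -/

/-- The C*-algebra `A` is (with the state `τ` and the embeddings `ι i`) the reduced free product
of `n` copies of `(C([0,1]), Lebesgue)`: the `ι i` are unital star homomorphisms which
carry the Lebesgue trace to `τ`, their ranges are free and generate the C*-algebra `A`, and the GNS
representation of `τ` is faithful. -/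
structure RFP (n : ℕ) (A : Type) [CStarAlgebra A] where
  /-- the free product state -/
  τ : A →ₗ[ℂ] ℂ
  /-- the embeddings of the factors -/
  ι : Fin n → (C(unitInterval, ℂ) →⋆ₐ[ℂ] A)
  one : τ 1 = 1
  pos : ∀ x, 0 ≤ (τ (star x * x)).re ∧ (τ (star x * x)).im = 0
  law : ∀ i f, τ (ι i f) = ∫ x, f x
  free : ∀ l : List (Fin n × C(unitInterval, ℂ)), l ≠ [] →
    l.IsChain (fun x y => x.1 ≠ y.1) → (∀ x ∈ l, ∫ t, x.2 t = 0) →
    τ ((l.map fun x => ι x.1 x.2).prod) = 0
  gen : (StarAlgebra.adjoin ℂ (⋃ i, Set.range (ι i))).topologicalClosure = ⊤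
  faith : ∀ x, (∀ y, τ (star (x * y) * (x * y)) = 0) → x = 0

/-! ### Chebyshev polynomials -/

/-- Chebyshev polynomials of the second kind, on `[-2,2]` -/
def Up {R : Type} [Ring R] (x : R) : ℕ → R
  | 0 => 1
  | 1 => x
  | n + 2 => x * Up x (n + 1) - Up x n

/-- the matrix (in the basis `U_m(x) U_n(y)`) of `1 - (x - y) κ(x,y)` -/
def fm (kap : ℕ → ℕ → ℝ) (m n : ℕ) : ℝ :=
  (if m = 0 ∧ n = 0 then 1 else 0) - ((if m = 0 then 0 else kap (m - 1) n) + kap (m + 1) n
    - (if n = 0 then 0 else kap m (n - 1)) - kap m (n + 1))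

/-- the polynomial kernel `κ(x,y) = ∑ kap m n U_m(x) U_n(y)`: antisymmetric,
`2 ∫ κ(x,y) dμ(y) = x` and `1 - (x-y) κ(x,y)` small (`μ` = semicircle law) -/
structure Ker (ε : ℝ) (N : ℕ) (kap : ℕ → ℕ → ℝ) : Prop where
  anti : ∀ m n, kap m n = -kap n m
  supp : ∀ m n, N ≤ m → kap m n = 0
  first : ∀ m, kap m 0 = if m = 1 then 1 / 2 else 0
  small : ∀ y : ℝ, |y| ≤ 2 → ∑ m ∈ Finset.range (N + 1),
    (∑ n ∈ Finset.range (N + 1), fm kap m n * Up y n) ^ 2 ≤ ε ^ 2

/-! ### The combinatorial data in the free group on `a = of false`, `b = of true` -/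

/-- the free group on `a, b` -/
abbrev G2 : Type := FreeGroup Bool

/-- the blocks `a^{2i}` (`i` odd), `b^{2i}` (`i` even) -/
def blk (i : ℕ) : G2 := FreeGroup.of (i % 2 == 0) ^ (2 * i)

/-- `z_i = blk i * blk (i+1) * ⋯ * blk m` -/
def zz (m i : ℕ) : G2 := ((List.range' i (m + 1 - i)).map blk).prod

/-- the word `v = b z_1` -/
def vv (m : ℕ) : G2 := FreeGroup.of true * zz m 1

/-- the generator occurring in the first letter -/
def st (g : G2) : Option Bool := g.toWord.head?.map Prod.fst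

/-- the subgroup generated by `a²` and `b²` -/
def Kev : Subgroup G2 := Subgroup.closure {FreeGroup.of false ^ 2, FreeGroup.of true ^ 2}

/-- `1` if `g` starts with `b^{±1}`, `0` otherwise -/
noncomputable def stb (g : G2) : ℝ := if st g = some true then 1 else 0

/-- `χ(g) = [g v⁻¹ starts with b] - [g starts with b]` -/
noncomputable def chi (m : ℕ) (g : G2) : ℝ := stb (g * (vv m)⁻¹) - stb g

/-- `∑_{i=1}^m (-1)^{i+1} z_i⁻¹ t` -/
noncomputable def Zt (m : ℕ) (t : G2 →₀ ℝ) : G2 →₀ ℝ :=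
  ∑ i ∈ Finset.range m, ((-1 : ℝ) ^ i) • act (zz m (i + 1))⁻¹ t

/-- the coefficients -/
structure Core (ε : ℝ) (m : ℕ) (t : G2 →₀ ℝ) : Prop where
  odd : m % 2 = 1
  supp : ∀ g ∈ t.support, g ∈ Kev
  small : n2 t ≤ ε
  inv : n2 (Zt m t - Finsupp.single 1 1) ≤ ε
  chi : (t.sum fun g c => c * chi m g) = 1

/-! ### Letters, words, derivations -/

/-- the derivative of the word `w` at the point `p` in the direction `η` -/
def dev {L B : Type} [Ring B] (p η : L → B) (w : List L) : B :=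
  ((splits w).map fun t => ev p t.1 * η t.2.1 * ev p t.2.2).sum

/-- letters: `inl i` is the semicircular `i`, `inr (false, true)` is `a`, `inr (false, false)` is
`a⁻¹`, `inr (true, true)` is `b`, `inr (true, false)` is `b⁻¹` -/
abbrev Lt (κ : Type) : Type := κ ⊕ (Bool × Bool)

/-- adjoint letter -/
def linv {κ : Type} : Lt κ → Lt κ
  | Sum.inl i => Sum.inl i
  | Sum.inr (c, e) => Sum.inr (c, !e)

/-! ### The full Fock space -/

/-- The full Fock space of `ℂ^κ`: a Hilbert space with an orthonormal basis indexed by the words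
over `κ`, and the creation operators `e w ↦ e (i :: w)`. -/
structure Fock (κ H : Type) [NormedAddCommGroup H] [InnerProductSpace ℂ H] [CompleteSpace H] where
  e : HilbertBasis (List κ) ℂ H
  cr : κ → (H →L[ℂ] H)
  cr_e : ∀ i w, cr i (e w) = e (i :: w)

namespace Fock

variable {κ H : Type} [NormedAddCommGroup H] [InnerProductSpace ℂ H] [CompleteSpace H]
  (F : Fock κ H)

/-- the vacuum vector -/
noncomputable def Om : H := F.e []

/-- the semicircular operators -/
noncomputable def S (i : κ) : H →L[ℂ] H := F.cr i + star (F.cr i)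

/-- the vacuum state -/
noncomputable def tau (x : H →L[ℂ] H) : ℂ := inner ℂ F.Om (x F.Om)

/-- the projection onto the vacuum vector -/
noncomputable def P0 : H →L[ℂ] H := (innerSL ℂ F.Om).smulRight F.Om

/-- the C*-algebra generated by the `S i`, `i ≠ σ` -/
noncomputable def DD (σ : κ) : StarSubalgebra ℂ (H →L[ℂ] H) := CC (F.S '' {i | i ≠ σ})

/-- the C*-algebra generated by all `S i` -/
noncomputable def AA : StarSubalgebra ℂ (H →L[ℂ] H) := CC (Set.range F.S)

/-- no component of `ξ` starts with the letter `i` -/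
def NotSt (i : κ) (ξ : H) : Prop := ∀ w, inner ℂ (F.e (i :: w)) ξ = 0

/-- all components of `ξ` start with the letter `i` -/
def St (i : κ) (ξ : H) : Prop := ∀ w, (∀ w', w ≠ i :: w') → inner ℂ (F.e w) ξ = 0

/-- the operator `T` of the letter `j` (projection onto the words which end with `j`) -/
structure IsT (j : κ) (T : H →L[ℂ] H) : Prop where
  star : star T = T
  Om : T F.Om = 0
  self : ∀ y ∈ CC {F.S j}, T * y - y * T = y * F.P0 - F.P0 * y
  comm : ∀ x ∈ F.DD j, T * x = x * T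

/-- the operator `R` of the letter `σ` (right creation) -/
structure IsR (σ : κ) (R : H →L[ℂ] H) : Prop where
  Om : R F.Om = F.S σ F.Om
  sOm : Star.star R F.Om = 0
  self : Star.star R * F.S σ - F.S σ * Star.star R = F.P0
  comm : ∀ x ∈ F.DD σ, Star.star R * x = x * Star.star R

end Fock

section setting

variable {κ H : Type} [NormedAddCommGroup H] [InnerProductSpace ℂ H] [CompleteSpace H]

/-- the setting: Haar unitaries `a ∈ C*(S i₀)`, `b ∈ C*(S i₁)`, extra index `σ` -/
structure Setg (F : Fock κ H) (i₀ i₁ σ : κ) (a b : unitary (H →L[ℂ] H)) : Prop where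
  h01 : i₀ ≠ i₁
  h0 : i₀ ≠ σ
  h1 : i₁ ≠ σ
  ma : (a : H →L[ℂ] H) ∈ CC {F.S i₀}
  mb : (b : H →L[ℂ] H) ∈ CC {F.S i₁}
  ha : ∀ k : ℤ, k ≠ 0 → F.tau ((a ^ k : unitary (H →L[ℂ] H)) : H →L[ℂ] H) = 0
  hb : ∀ k : ℤ, k ≠ 0 → F.tau ((b ^ k : unitary (H →L[ℂ] H)) : H →L[ℂ] H) = 0

/-- the representation of the free group given by `a, b` -/
noncomputable def rho (a b : unitary (H →L[ℂ] H)) : G2 →* unitary (H →L[ℂ] H) :=
  FreeGroup.lift fun c => if c then b else a

/-- operator of a group element -/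
noncomputable abbrev ro (a b : unitary (H →L[ℂ] H)) (g : G2) : H →L[ℂ] H :=
  (rho a b g : H →L[ℂ] H)

/-- `P = v⁻¹ S_{i₀} v` -/
noncomputable def PP (F : Fock κ H) (i₀ : κ) (a b : unitary (H →L[ℂ] H)) (m : ℕ) : H →L[ℂ] H :=
  star (ro a b (vv m)) * F.S i₀ * ro a b (vv m)

/-- `∑_{k,l<N} c k l U_k(P) s U_l(P)` -/
noncomputable def bim (P s : H →L[ℂ] H) (N : ℕ) (c : ℕ → ℕ → ℝ) : H →L[ℂ] H :=
  ∑ k ∈ Finset.range N, ∑ l ∈ Finset.range N, (c k l : ℂ) • (Up P k * s * Up P l)

/-- `∑_g t(g) g x g⁻¹` -/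
noncomputable def cj (a b : unitary (H →L[ℂ] H)) (t : G2 →₀ ℝ) (x : H →L[ℂ] H) : H →L[ℂ] H :=
  t.sum fun g r => (r : ℂ) • (ro a b g * x * star (ro a b g))

/-- `K = -i ∑ kap k l U_k(P) s U_l(P)` -/
noncomputable def KK (F : Fock κ H) (i₀ σ : κ) (a b : unitary (H →L[ℂ] H)) (m N : ℕ)
    (kap : ℕ → ℕ → ℝ) : H →L[ℂ] H :=
  (-Complex.I) • bim (PP F i₀ a b m) (F.S σ) N kap

/-- `h = ∑_g t(g) g K g⁻¹` -/
noncomputable def hh (F : Fock κ H) (i₀ σ : κ) (a b : unitary (H →L[ℂ] H)) (m N : ℕ)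
    (kap : ℕ → ℕ → ℝ) (t : G2 →₀ ℝ) : H →L[ℂ] H :=
  cj a b t (KK F i₀ σ a b m N kap)

/-- the basic point -/
noncomputable def pt (F : Fock κ H) (a b : unitary (H →L[ℂ] H)) : Lt κ → (H →L[ℂ] H)
  | Sum.inl i => F.S i
  | Sum.inr (c, e) => if e then (if c then (b : H →L[ℂ] H) else a)
      else star (if c then (b : H →L[ℂ] H) else a)

open Classical in
/-- the vector field: `δ(s) = -Q`, `δ(y) = i [y, h]` for `y = S_{i₁}, b, b⁻¹`, the other letters
are fixed -/
noncomputable def eta (F : Fock κ H) (i₁ σ : κ) (a b : unitary (H →L[ℂ] H)) (h Q : H →L[ℂ] H) :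
    Lt κ → (H →L[ℂ] H)
  | Sum.inl i => if i = σ then -Q else
      if i = i₁ then Complex.I • (F.S i * h - h * F.S i) else 0
  | Sum.inr (c, e) => if c then
      Complex.I • (pt F a b (Sum.inr (c, e)) * h - h * pt F a b (Sum.inr (c, e))) else 0

end setting

end Pool.Agent.H875R.FP
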