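import Mathlib
import Pool.Agent.H875R.FP.Defs

/-! Statements of all the tasks. -/

namespace Pool.Agent.H875R.FP

open Pool.Agent.H667R3.FF (ev splits)
open Pool.Agent.H581R.FF (n2 act)
open scoped ComplexConjugate

/-! ### A. Free group -/

/-- the combinatorial core -/
def S_CORE : Prop := ∀ ε : ℝ, 0 < ε → ∃ (m : ℕ) (t : G2 →₀ ℝ), Core ε m t

/-- first letters of elements of `b K`, `K = ⟨a², b²⟩` -/
def S_VFIRST : Prop := ∀ m : ℕ, (∀ g ∈ Kev, st (vv m * g⁻¹) = some true) ∧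
  (∀ g ∈ Kev, ∀ g' ∈ Kev, g ≠ g' → st (vv m * (g⁻¹ * g') * (vv m)⁻¹) = some true)

/-! ### B. Kernel (real analysis) -/

/-- the kernel -/
def S_KER : Prop := ∀ ε : ℝ, 0 < ε → ∃ (N : ℕ) (kap : ℕ → ℕ → ℝ), Ker ε N kap

/-! ### C. Fock space -/

/-- existence of the Fock space -/
def S_FOCK : Prop := ∀ κ : Type, Nonempty (Fock κ (lp (fun _ : List κ => ℂ) 2))

/-- basic facts -/
def S_BAS : Prop := ∀ (κ H : Type) [NormedAddCommGroup H] [InnerProductSpace ℂ H]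
  [CompleteSpace H] (F : Fock κ H),
  (∀ i, star (F.cr i) (F.e []) = 0) ∧
  (∀ i w, star (F.cr i) (F.e (i :: w)) = F.e w) ∧
  (∀ i j w, i ≠ j → star (F.cr i) (F.e (j :: w)) = 0) ∧
  (∀ i, star (F.cr i) * F.cr i = 1) ∧ (∀ i, ‖F.cr i‖ ≤ 1) ∧
  (∀ i, star (F.S i) = F.S i) ∧ (∀ i, ‖F.S i‖ ≤ 2) ∧ ‖F.Om‖ = 1 ∧
  (∀ ξ, F.P0 ξ = (inner ℂ F.Om ξ : ℂ) • F.Om) ∧ star F.P0 = F.P0

/-- existence of `R` -/
def S_R : Prop := ∀ (κ H : Type) [NormedAddCommGroup H] [InnerProductSpace ℂ H]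
  [CompleteSpace H] (F : Fock κ H) (σ : κ), ∃ R, F.IsR σ R

/-- existence of `T` -/
def S_T : Prop := ∀ (κ H : Type) [NormedAddCommGroup H] [InnerProductSpace ℂ H]
  [CompleteSpace H] (F : Fock κ H) (j : κ), ∃ T, F.IsT j T

/-- trace property -/
def S_TR : Prop := ∀ (κ H : Type) [NormedAddCommGroup H] [InnerProductSpace ℂ H]
  [CompleteSpace H] (F : Fock κ H), ∀ x ∈ F.AA, ∀ y ∈ F.AA, F.tau (x * y) = F.tau (y * x)

/-- the vacuum vector is cyclic -/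
def S_CYC : Prop := ∀ (κ H : Type) [NormedAddCommGroup H] [InnerProductSpace ℂ H]
  [CompleteSpace H] (F : Fock κ H) (ξ : H) (ε : ℝ), 0 < ε →
  ∃ x ∈ Submodule.span ℂ (Set.range (ev F.S)), ‖ξ - x F.Om‖ < ε

/-- `ℓ_σ^* d ℓ_σ = τ(d)` -/
def S_CRE : Prop := ∀ (κ H : Type) [NormedAddCommGroup H] [InnerProductSpace ℂ H]
  [CompleteSpace H] (F : Fock κ H) (σ : κ), ∀ d ∈ F.DD σ,
  star (F.cr σ) * d * F.cr σ = F.tau d • (1 : H →L[ℂ] H)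

/-- centred elements of `C*(S_i)` map vectors not starting with `i` to vectors starting with `i` -/
def S_ST : Prop := ∀ (κ H : Type) [NormedAddCommGroup H] [InnerProductSpace ℂ H]
  [CompleteSpace H] (F : Fock κ H) (i : κ), ∀ y ∈ CC {F.S i}, F.tau y = 0 →
  ∀ ξ : H, F.NotSt i ξ → F.St i (y ξ)

/-- `C([0,1])` inside `C*(S_i)` -/
def S_IOTA : Prop := ∀ (κ H : Type) [NormedAddCommGroup H] [InnerProductSpace ℂ H]
  [CompleteSpace H] (F : Fock κ H) (i : κ),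
  ∃ ι : C(unitInterval, ℂ) →⋆ₐ[ℂ] (H →L[ℂ] H), (∀ f, ι f ∈ CC {F.S i}) ∧
    (∃ g, ι g = F.S i) ∧ ∀ f, F.tau (ι f) = ∫ x, f x

/-- Haar unitaries in `C*(S_i)` -/
def S_HAAR : Prop := ∀ (κ H : Type) [NormedAddCommGroup H] [InnerProductSpace ℂ H]
  [CompleteSpace H] (F : Fock κ H) (i : κ), ∃ a : unitary (H →L[ℂ] H),
  (a : H →L[ℂ] H) ∈ CC {F.S i} ∧
  ∀ k : ℤ, k ≠ 0 → F.tau ((a ^ k : unitary (H →L[ℂ] H)) : H →L[ℂ] H) = 0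

/-- Chebyshev polynomials of `S_i` -/
def S_CHEB : Prop := ∀ (κ H : Type) [NormedAddCommGroup H] [InnerProductSpace ℂ H]
  [CompleteSpace H] (F : Fock κ H) (i : κ),
  (∀ n w, (∀ w', w ≠ i :: w') → Up (F.S i) n (F.e w) = F.e (List.replicate n i ++ w)) ∧
  (∀ m n, F.tau (Up (F.S i) m * Up (F.S i) n) = if m = n then 1 else 0) ∧
  (∀ n, star (Up (F.S i) n) = Up (F.S i) n)

/-- reduced words in `a, b` acting on vectors -/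
def S_STG : Prop := ∀ (κ H : Type) [NormedAddCommGroup H] [InnerProductSpace ℂ H]
  [CompleteSpace H] (F : Fock κ H) (i₀ i₁ σ : κ) (a b : unitary (H →L[ℂ] H)),
  Setg F i₀ i₁ σ a b → ∀ (g : G2) (c c' : Bool), st g = some c → st g⁻¹ = some c' →
  ∀ ξ : H, F.NotSt (if c' then i₁ else i₀) ξ →
    F.St (if c then i₁ else i₀) (ro a b g ξ) ∧
    (inner ℂ F.Om ξ = (0 : ℂ) → ∀ T, F.IsT i₁ T → T (ro a b g ξ) = ro a b g (T ξ))

/-- the vector of a reduced word is an eigenvector of `T` -/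
def S_TOM : Prop := ∀ (κ H : Type) [NormedAddCommGroup H] [InnerProductSpace ℂ H]
  [CompleteSpace H] (F : Fock κ H) (i₀ i₁ σ : κ) (a b : unitary (H →L[ℂ] H)),
  Setg F i₀ i₁ σ a b → ∀ (g : G2) (T : H →L[ℂ] H), F.IsT i₁ T →
  T (ro a b g F.Om) = (stb g⁻¹ : ℂ) • ro a b g F.Om

/-- `T` on the vectors `U_n(P) g⁻¹ Ω` -/
def S_TEIG : Prop := ∀ (κ H : Type) [NormedAddCommGroup H] [InnerProductSpace ℂ H]
  [CompleteSpace H] (F : Fock κ H) (i₀ i₁ σ : κ) (a b : unitary (H →L[ℂ] H)),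
  Setg F i₀ i₁ σ a b → ∀ (m : ℕ) (T : H →L[ℂ] H), F.IsT i₁ T → ∀ g ∈ Kev, ∀ n : ℕ,
  T ((Up (PP F i₀ a b m) n * star (ro a b g)) F.Om) =
    ((if n = 0 then stb g else stb (g * (vv m)⁻¹) : ℝ) : ℂ) •
      (Up (PP F i₀ a b m) n * star (ro a b g)) F.Om

/-- orthonormality of the `g U_k(P)` -/
def S_ORTH : Prop := ∀ (κ H : Type) [NormedAddCommGroup H] [InnerProductSpace ℂ H]
  [CompleteSpace H] (F : Fock κ H) (i₀ i₁ σ : κ) (a b : unitary (H →L[ℂ] H)),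
  Setg F i₀ i₁ σ a b → ∀ (m : ℕ), ∀ g ∈ Kev, ∀ g' ∈ Kev, ∀ k k' : ℕ,
  F.tau (star (ro a b g * Up (PP F i₀ a b m) k) * (ro a b g' * Up (PP F i₀ a b m) k')) =
    if g = g' ∧ k = k' then 1 else 0

/-- norm estimate for the creation part -/
def S_NORM : Prop := ∀ (κ H : Type) [NormedAddCommGroup H] [InnerProductSpace ℂ H]
  [CompleteSpace H] (F : Fock κ H) (i₀ i₁ σ : κ) (a b : unitary (H →L[ℂ] H)),
  Setg F i₀ i₁ σ a b → ∀ (m N : ℕ) (c : ℕ → ℕ → ℝ) (t : G2 →₀ ℝ) (B : ℝ),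
  (∀ g ∈ t.support, g ∈ Kev) → 0 ≤ B →
  (∀ y : ℝ, |y| ≤ 2 → ∑ k ∈ Finset.range N, (∑ l ∈ Finset.range N, c k l * Up y l) ^ 2 ≤ B ^ 2) →
  ‖cj a b t (bim (PP F i₀ a b m) (F.cr σ) N c)‖ ≤ n2 t * B

/-- norm estimate -/
def S_NORMS : Prop := ∀ (κ H : Type) [NormedAddCommGroup H] [InnerProductSpace ℂ H]
  [CompleteSpace H] (F : Fock κ H) (i₀ i₁ σ : κ) (a b : unitary (H →L[ℂ] H)),
  Setg F i₀ i₁ σ a b → ∀ (m N : ℕ) (c : ℕ → ℕ → ℝ) (s : ℝ) (t : G2 →₀ ℝ) (B : ℝ),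
  (s = 1 ∨ s = -1) → (∀ k l, c l k = s * c k l) →
  (∀ g ∈ t.support, g ∈ Kev) → 0 ≤ B →
  (∀ y : ℝ, |y| ≤ 2 → ∑ k ∈ Finset.range N, (∑ l ∈ Finset.range N, c k l * Up y l) ^ 2 ≤ B ^ 2) →
  ‖cj a b t (bim (PP F i₀ a b m) (F.S σ) N c)‖ ≤ 2 * (n2 t * B)

/-! ### D. The derivation -/

/-- abstract form of the invariance of the trace -/
def S_LAWA : Prop := ∀ (L H : Type) [NormedAddCommGroup H] [InnerProductSpace ℂ H]
  [CompleteSpace H] (Ω : H) (p η : L → (H →L[ℂ] H)) (kd : L → Fin 3)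
  (T R P s h Q : H →L[ℂ] H) (J : Type) [Fintype J] (x y : J → (H →L[ℂ] H)),
  (∀ ξ, P ξ = (inner ℂ Ω ξ : ℂ) • Ω) →
  star T = T → T Ω = 0 → star s = s → R Ω = s Ω → star R Ω = 0 → star R * s - s * star R = P →
  T * s = s * T →
  (∀ l, kd l = 0 → T * p l = p l * T ∧ star R * p l = p l * star R ∧ η l = 0) →
  (∀ l, kd l = 1 → T * p l - p l * T = p l * P - P * p l ∧ star R * p l = p l * star R ∧
    η l = Complex.I • (p l * h - h * p l)) →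
  (∀ l, kd l = 2 → p l = s ∧ η l = -Q) →
  (∃ l, kd l = 2) →
  (∀ z ∈ Submodule.span ℂ (Set.range (ev p)), ∀ z' ∈ Submodule.span ℂ (Set.range (ev p)),
    (inner ℂ Ω ((z * z') Ω) : ℂ) = inner ℂ Ω ((z' * z) Ω)) →
  (h = ∑ j, x j * s * y j) →
  (∀ j, x j ∈ Submodule.span ℂ (Set.range (ev p)) ∧ star R * x j = x j * star R) →
  (∀ j, y j ∈ Submodule.span ℂ (Set.range (ev p)) ∧ star R * y j = y j * star R) →
  Q ∈ Submodule.span ℂ (Set.range (ev p)) → star R * Q = Q * star R →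
  (∀ w : List L, Complex.I * ∑ j, (inner ℂ Ω ((x j * (T * ev p w - ev p w * T) * y j) Ω) : ℂ) =
    inner ℂ Ω ((Q * ev p w) Ω)) →
  ∀ w : List L, (inner ℂ Ω (dev p η w Ω) : ℂ) = 0

/-- the key identity -/
def S_KEY : Prop := ∀ (κ H : Type) [NormedAddCommGroup H] [InnerProductSpace ℂ H]
  [CompleteSpace H] (F : Fock κ H) (i₀ i₁ σ : κ) (a b : unitary (H →L[ℂ] H)),
  Setg F i₀ i₁ σ a b → ∀ (m N : ℕ) (kap : ℕ → ℕ → ℝ) (t : G2 →₀ ℝ) (ε ε' : ℝ),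
  Core ε m t → Ker ε' N kap → ∀ T, F.IsT i₁ T → ∀ W ∈ F.AA,
  Complex.I * (t.sum fun g r => ∑ k ∈ Finset.range N, ∑ l ∈ Finset.range N,
    (-Complex.I * (r : ℂ) * (kap k l : ℂ)) *
      (inner ℂ F.Om ((ro a b g * Up (PP F i₀ a b m) k * (T * W - W * T) *
        (Up (PP F i₀ a b m) l * star (ro a b g))) F.Om) : ℂ)) =
    F.tau (PP F i₀ a b m * W)

/-- the field is given by finite combinations of words and compatible with the involution -/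
def S_SPAN : Prop := ∀ (κ H : Type) [NormedAddCommGroup H] [InnerProductSpace ℂ H]
  [CompleteSpace H] (F : Fock κ H) (i₀ i₁ σ : κ) (a b : unitary (H →L[ℂ] H)),
  Setg F i₀ i₁ σ a b → ∀ (m N : ℕ) (kap : ℕ → ℕ → ℝ) (t : G2 →₀ ℝ) (ε' : ℝ), Ker ε' N kap →
  (∀ g, ro a b g ∈ Submodule.span ℂ (Set.range (ev (pt F a b)))) ∧
  (∀ k, Up (PP F i₀ a b m) k ∈ Submodule.span ℂ (Set.range (ev (pt F a b)))) ∧
  (∀ l, eta F i₁ σ a b (hh F i₀ σ a b m N kap t) (PP F i₀ a b m) l ∈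
    Submodule.span ℂ (Set.range (ev (pt F a b)))) ∧
  (∀ l, pt F a b (linv l) = star (pt F a b l)) ∧
  (∀ l, eta F i₁ σ a b (hh F i₀ σ a b m N kap t) (PP F i₀ a b m) (linv l) =
    star (eta F i₁ σ a b (hh F i₀ σ a b m N kap t) (PP F i₀ a b m) l)) ∧
  (∀ l, pt F a b l ∈ F.AA) ∧ (∀ g, ro a b g ∈ F.DD σ) ∧
  (∀ k, Up (PP F i₀ a b m) k ∈ F.DD σ)

/-- the trace is invariant -/
def S_LAW : Prop := ∀ (κ H : Type) [NormedAddCommGroup H] [InnerProductSpace ℂ H]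
  [CompleteSpace H] (F : Fock κ H) (i₀ i₁ σ : κ) (a b : unitary (H →L[ℂ] H)),
  Setg F i₀ i₁ σ a b → ∀ (m N : ℕ) (kap : ℕ → ℕ → ℝ) (t : G2 →₀ ℝ) (ε ε' : ℝ),
  Core ε m t → Ker ε' N kap → ∀ w,
  F.tau (dev (pt F a b) (eta F i₁ σ a b (hh F i₀ σ a b m N kap t) (PP F i₀ a b m)) w) = 0

/-- the derivative of `P` -/
def S_DERV : Prop := ∀ (κ H : Type) [NormedAddCommGroup H] [InnerProductSpace ℂ H]
  [CompleteSpace H] (F : Fock κ H) (i₀ i₁ σ : κ) (a b : unitary (H →L[ℂ] H)),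
  Setg F i₀ i₁ σ a b → ∀ (m : ℕ) (h Q : H →L[ℂ] H), m % 2 = 1 → ∃ w,
  ev (pt F a b) w = PP F i₀ a b m ∧
  dev (pt F a b) (eta F i₁ σ a b h Q) w =
    Complex.I • (PP F i₀ a b m * ((∑ i ∈ Finset.range m, ((-1 : ℂ) ^ i) •
      (star (ro a b (zz m (i + 1))) * h * ro a b (zz m (i + 1)))) -
        star (ro a b (vv m)) * h * ro a b (vv m)) -
      ((∑ i ∈ Finset.range m, ((-1 : ℂ) ^ i) •
      (star (ro a b (zz m (i + 1))) * h * ro a b (zz m (i + 1)))) -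
        star (ro a b (vv m)) * h * ro a b (vv m)) * PP F i₀ a b m)

/-- `∑ (-1)^{i+1} z_i⁻¹ (∑ t(g) g K g⁻¹) z_i = ∑ (Z t)(g) g K g⁻¹` and linearity -/
def S_CJ : Prop := ∀ (H : Type) [NormedAddCommGroup H] [InnerProductSpace ℂ H]
  [CompleteSpace H] (a b : unitary (H →L[ℂ] H)) (m : ℕ) (t t' : G2 →₀ ℝ) (x : H →L[ℂ] H),
  (∑ i ∈ Finset.range m, ((-1 : ℂ) ^ i) •
      (star (ro a b (zz m (i + 1))) * cj a b t x * ro a b (zz m (i + 1)))) = cj a b (Zt m t) x ∧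
  cj a b (t - t') x = cj a b t x - cj a b t' x ∧
  cj a b (Finsupp.single 1 1) x = x

/-- `i [P, K] = s - f(P,P) # s` -/
def S_COMM : Prop := ∀ (H : Type) [NormedAddCommGroup H] [InnerProductSpace ℂ H]
  [CompleteSpace H] (P s : H →L[ℂ] H) (N : ℕ) (kap : ℕ → ℕ → ℝ) (ε : ℝ), Ker ε N kap →
  Complex.I • (P * ((-Complex.I) • bim P s N kap) - ((-Complex.I) • bim P s N kap) * P) =
    s - bim P s (N + 1) (fm kap)

/-! ### E. Flow, rotation, limit -/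

/-- the flow: automorphisms for small times -/
def S_FLOW : Prop := ∀ (L H : Type) [Fintype L] [NormedAddCommGroup H] [InnerProductSpace ℂ H]
  [CompleteSpace H] (Ω : H) (iv : L → L) (p η : L → (H →L[ℂ] H)), ‖Ω‖ = 1 →
  (∀ l, iv (iv l) = l) → (∀ l, p (iv l) = star (p l)) → (∀ l, η (iv l) = star (η l)) →
  (∀ l, η l ∈ Submodule.span ℂ (Set.range (ev p))) →
  (∀ (ξ : H) (ε : ℝ), 0 < ε → ∃ x ∈ Submodule.span ℂ (Set.range (ev p)), ‖ξ - x Ω‖ < ε) →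
  (∀ w : List L, (inner ℂ Ω (dev p η w Ω) : ℂ) = 0) →
  ∃ h₀ : ℝ, 0 < h₀ ∧ ∃ C : List L → ℝ, ∀ h : ℝ, 0 ≤ h → h ≤ h₀ →
    ∃ α : CC (Set.range p) ≃⋆ₐ[ℂ] CC (Set.range p), ∀ (w : List L) (x : CC (Set.range p)),
      (x : H →L[ℂ] H) = ev p w →
      ‖((α x : CC (Set.range p)) : H →L[ℂ] H) - ev p w - (h : ℂ) • dev p η w‖ ≤ C w * h ^ 2

/-- rotation by the angle `π/2` -/
def S_ROT : Prop := ∀ (A : Type) [CStarAlgebra A] (k : ℕ) (P s E : A) (x : Fin k → A)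
  (M : Fin k → ℝ) (h₀ C : ℝ), 0 < h₀ → 0 ≤ C → (∀ i, 0 ≤ M i) →
  (∀ h : ℝ, 0 ≤ h → h ≤ h₀ → ∃ α : A ≃⋆ₐ[ℂ] A, ‖α P - P - (h : ℂ) • (s + E)‖ ≤ C * h ^ 2 ∧
    ‖α s - s + (h : ℂ) • P‖ ≤ C * h ^ 2 ∧ ∀ i, ‖α (x i) - x i‖ ≤ M i * h + C * h ^ 2) →
  ∀ ε : ℝ, 0 < ε → ∃ α : A ≃⋆ₐ[ℂ] A, ‖α P - s‖ ≤ 2 * ‖E‖ + ε ∧
    ∀ i, ‖α (x i) - x i‖ ≤ 2 * M i + ε

/-- the stage lemma -/
def S_STAGE : Prop := ∀ (n : ℕ) (H : Type) [NormedAddCommGroup H] [InnerProductSpace ℂ H]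
  [CompleteSpace H] (F : Fock (Fin (n + 1)) H), 2 ≤ n → ∀ ε : ℝ, 0 < ε →
  ∃ α : F.AA ≃⋆ₐ[ℂ] F.AA,
    (∀ (i : Fin n) (x : F.AA), (x : H →L[ℂ] H) = F.S i.castSucc → ‖α x - x‖ < ε) ∧
    ∃ d : F.AA, (d : H →L[ℂ] H) ∈ F.DD (Fin.last n) ∧
      ‖((α d : F.AA) : H →L[ℂ] H) - F.S (Fin.last n)‖ < ε

/-- one-sided approximate intertwining -/
def S_LIM : Prop := ∀ (A : Type) [CStarAlgebra A] (k : ℕ) (x : Fin k → A) (s : A),
  CC (insert s (Set.range x)) = ⊤ →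
  (∀ ε : ℝ, 0 < ε → ∃ α : A ≃⋆ₐ[ℂ] A, (∀ i, ‖α (x i) - x i‖ < ε) ∧
    ∃ d ∈ CC (Set.range x), ‖α d - s‖ < ε) →
  Nonempty (CC (Set.range x) ≃⋆ₐ[ℂ] A)

/-! ### F. Free powers -/

/-- the structure of a reduced free power determines the algebra -/
def S_UNIQ : Prop := ∀ (n : ℕ) (A B : Type) [CStarAlgebra A] [CStarAlgebra B],
  RFP n A → RFP n B → Nonempty (A ≃⋆ₐ[ℂ] B)

/-- semicirculars generate reduced free powers -/
def S_RFPF : Prop := ∀ (κ H : Type) [NormedAddCommGroup H] [InnerProductSpace ℂ H]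
  [CompleteSpace H] (F : Fock κ H) (n : ℕ) (j : Fin n → κ), Function.Injective j →
  Nonempty (RFP n (CC (Set.range fun i => F.S (j i))))

/-- one step -/
def S_STEP : Prop := ∀ n : ℕ, 2 ≤ n → ∀ (A B : Type) [CStarAlgebra A] [CStarAlgebra B],
  RFP n A → RFP (n + 1) B → Nonempty (A ≃⋆ₐ[ℂ] B)

/-- the main theorem -/
def S_MAIN : Prop := (∀ m n : ℕ, 2 ≤ m → 2 ≤ n → ∀ (A B : Type) [CStarAlgebra A]
    [CStarAlgebra B], RFP m A → RFP n B → Nonempty (A ≃⋆ₐ[ℂ] B)) ∧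
  ∀ n : ℕ, ∃ (A : Type) (_ : CStarAlgebra A), Nonempty (RFP n A)

end Pool.Agent.H875R.FP
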