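import Mathlib
import Pool.Agent.H875R.FP.Stubs

/-! Statements of the auxiliary tasks. -/

namespace Pool.Agent.H875R.FP

open Pool.Agent.H667R3.FF (ev splits InAlg mom)
open Pool.Agent.H581R.FF (n2 act)
open scoped ComplexConjugate

/-! ### A. Free group -/

/-- admissibility of `q` in front of the index word `w` -/
def adm3 (q : ℕ) : List (ℕ × ℕ) → Prop
  | [] => True
  | (p, _) :: _ => p + 3 ≤ q ∨ q + 3 ≤ p

/-- valid index words (positions between `4` and `m - 4`) -/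
def Vdz (m : ℕ) : List (ℕ × ℕ) → Prop
  | [] => True
  | (p, q) :: w => (4 ≤ p ∧ p + 4 ≤ m) ∧ (4 ≤ q ∧ q + 4 ≤ m) ∧ p ≠ q ∧ adm3 q w ∧ Vdz m w

/-- value of an index word: `z_p⁻¹ z_q z_{p'}⁻¹ z_{q'} ⋯` -/
def valz (m : ℕ) : List (ℕ × ℕ) → G2
  | [] => 1
  | (p, q) :: w => (zz m p)⁻¹ * (zz m q * valz m w)

/-- the values of valid index words are distinct -/
def S_INJZ : Prop := ∀ m : ℕ, (∀ w w', Vdz m w → Vdz m w' → valz m w = valz m w' → w = w') ∧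
  ∀ w w' q q', Vdz m w → Vdz m w' → (4 ≤ q ∧ q + 4 ≤ m) → (4 ≤ q' ∧ q' + 4 ≤ m) →
    adm3 q w → adm3 q' w' → zz m q * valz m w = zz m q' * valz m w' → q = q' ∧ w = w'

/-- the values of `χ` -/
def S_CHIZ : Prop := ∀ (m q : ℕ) (w : List (ℕ × ℕ)), Vdz m w → (4 ≤ q ∧ q + 4 ≤ m) → adm3 q w →
  chi m (zz m q * valz m w) = if w = [] then (-1 : ℝ) ^ (q + 1) else 0

/-! ### B. Kernel -/

/-- integration with respect to the semicircle law on `[-2,2]` -/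
noncomputable def mu (f : ℝ → ℝ) : ℝ :=
  (2 / Real.pi) * ∫ θ in (0 : ℝ)..Real.pi, f (2 * Real.cos θ) * Real.sin θ ^ 2

/-- orthonormality of the Chebyshev polynomials -/
def S_KUO : Prop := ∀ m n : ℕ, mu (fun x => Up x m * Up x n) = if m = n then 1 else 0

/-- `κ_M(x,y) = (1 - (1-z²)^M)/(x-y)`, `z = (x-y)/4` -/
noncomputable def kM (M : ℕ) (x y : ℝ) : ℝ :=
  (x - y) / 16 * ∑ j ∈ Finset.range M, (1 - ((x - y) / 4) ^ 2) ^ j

/-- the rows of `f_M = (1-z²)^M` are small -/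
def S_KF : Prop := ∀ ε : ℝ, 0 < ε → ∃ M₀ : ℕ, ∀ M ≥ M₀, ∀ y : ℝ, |y| ≤ 2 →
  mu (fun x => ((1 - ((x - y) / 4) ^ 2) ^ M) ^ 2) ≤ ε

/-- uniform Cauchy property of `q_M(x) = 2 ∫ κ_M(x,y) dμ(y)` -/
def S_KQ1 : Prop := ∀ ε : ℝ, 0 < ε → ∃ M₀ : ℕ, ∀ M ≥ M₀, ∀ M' ≥ M₀, ∀ x : ℝ, |x| ≤ 2 →
  |2 * mu (fun y => kM M x y) - 2 * mu (fun y => kM M' x y)| ≤ ε

/-- weak limit of `q_M` -/
def S_KQ2 : Prop := ∀ k : ℕ, Filter.Tendsto
  (fun M : ℕ => mu (fun x => 2 * mu (fun y => kM M x y) * Up x k)) Filter.atTop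
  (nhds (if k = 1 then 1 else 0))

/-- `q_M(x) → x` uniformly -/
def S_KQ : Prop := ∀ ε : ℝ, 0 < ε → ∃ M₀ : ℕ, ∀ M ≥ M₀, ∀ x : ℝ, |x| ≤ 2 →
  |2 * mu (fun y => kM M x y) - x| ≤ ε

/-- the polynomial kernel in function form -/
def S_KAN : Prop := ∀ ε : ℝ, 0 < ε → ∃ (D : ℕ) (c : ℕ → ℕ → ℝ) (κ : ℝ → ℝ → ℝ),
  (∀ x y, κ x y = ∑ i ∈ Finset.range D, ∑ j ∈ Finset.range D, c i j * x ^ i * y ^ j) ∧
  (∀ x y, κ x y = -κ y x) ∧ (∀ x, 2 * mu (fun y => κ x y) = x) ∧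
  ∀ y : ℝ, |y| ≤ 2 → mu (fun x => (1 - (x - y) * κ x y) ^ 2) ≤ ε ^ 2

/-! ### C. Functional calculus of `S_i` -/

/-- law of `S_i` -/
def S_CFC : Prop := ∀ (κ H : Type) [NormedAddCommGroup H] [InnerProductSpace ℂ H]
  [CompleteSpace H] (F : Fock κ H) (i : κ) (f : ℂ → ℂ), Continuous f →
  F.tau (cfc f (F.S i)) = ((2 / Real.pi : ℝ) : ℂ) *
    ∫ θ in (0 : ℝ)..Real.pi, f ((2 * Real.cos θ : ℝ) : ℂ) * ((Real.sin θ ^ 2 : ℝ) : ℂ)

/-- the distribution function of the semicircle law -/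
def S_CDF : Prop := ∃ φ ψ : ℝ → ℝ, Continuous φ ∧ Continuous ψ ∧
  (∀ x, 0 ≤ φ x ∧ φ x ≤ 1) ∧ (∀ x, |x| ≤ 2 → ψ (φ x) = x) ∧
  ∀ f : ℝ → ℂ, Continuous f → ((2 / Real.pi : ℝ) : ℂ) *
    (∫ θ in (0 : ℝ)..Real.pi, f (φ (2 * Real.cos θ)) * ((Real.sin θ ^ 2 : ℝ) : ℂ)) =
      ∫ x in (0 : ℝ)..1, f x

/-! ### E. Flow -/

/-- a direction can be represented by star-compatible finite combinations of words -/
def S_FLD : Prop := ∀ (L H : Type) [NormedAddCommGroup H] [InnerProductSpace ℂ H]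
  [CompleteSpace H] (iv : L → L) (p η : L → (H →L[ℂ] H)),
  (∀ l, iv (iv l) = l) → (∀ l, p (iv l) = star (p l)) → (∀ l, η (iv l) = star (η l)) →
  (∀ l, η l ∈ Submodule.span ℂ (Set.range (ev p))) →
  ∃ d : L → (List L →₀ ℂ), (∀ l, (d l).sum (fun v c => c • ev p v) = η l) ∧
    (∀ l v, d (iv l) ((v.map iv).reverse) = conj (d l v)) ∧
    ∀ w, Pool.Agent.H667R3.FF.DD d (ev p) w = dev p η w

/-- star compatibility of the flow for general letters -/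
def S_FST : Prop := ∀ (L : Type) [Fintype L] (iv : L → L) (d : L → (List L →₀ ℂ)),
  (∀ l, iv (iv l) = l) → (∀ l v, d (iv l) ((v.map iv).reverse) = conj (d l v)) →
  ∀ (H : Type) [NormedAddCommGroup H] [InnerProductSpace ℂ H] [CompleteSpace H]
    (p : L → (H →L[ℂ] H)), (∀ l, p (iv l) = star (p l)) → ∀ (h : ℝ) (l : L),
    Pool.Agent.H667R3.FF.flow d p h (iv l) = star (Pool.Agent.H667R3.FF.flow d p h l)

/-- two points with the same moments and the same closed algebra -/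
def S_SPA : Prop := ∀ (L H : Type) [NormedAddCommGroup H] [InnerProductSpace ℂ H]
  [CompleteSpace H] (Ω : H) (iv : L → L) (p p' : L → (H →L[ℂ] H)),
  (∀ l, iv (iv l) = l) → (∀ l, p (iv l) = star (p l)) → (∀ l, p' (iv l) = star (p' l)) →
  (∀ (ξ : H) (ε : ℝ), 0 < ε → ∃ x ∈ Submodule.span ℂ (Set.range (ev p)), ‖ξ - x Ω‖ < ε) →
  (∀ w : List L, (inner ℂ Ω (ev p' w Ω) : ℂ) = inner ℂ Ω (ev p w Ω)) →
  (∀ l, InAlg p (p' l)) → (∀ l, InAlg p' (p l)) →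
  ∃ α : CC (Set.range p) ≃⋆ₐ[ℂ] CC (Set.range p), ∀ (w : List L) (x : CC (Set.range p)),
    (x : H →L[ℂ] H) = ev p w → ((α x : CC (Set.range p)) : H →L[ℂ] H) = ev p' w

/-! ### F. Free powers -/

/-- the moments are determined by freeness -/
def S_UMOM : Prop := ∀ (n : ℕ) (A B : Type) [CStarAlgebra A] [CStarAlgebra B]
  (a : RFP n A) (b : RFP n B) (l : List (Fin n × C(unitInterval, ℂ))),
  a.τ ((l.map fun x => a.ι x.1 x.2).prod) = b.τ ((l.map fun x => b.ι x.1 x.2).prod)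

/-- algebras with faithful GNS representations and the same moments are isomorphic -/
def S_UISO : Prop := ∀ (J A B : Type) [CStarAlgebra A] [CStarAlgebra B] (iv : J → J)
  (x : J → A) (y : J → B) (τ : A →ₗ[ℂ] ℂ) (σ : B →ₗ[ℂ] ℂ),
  (∀ j, x (iv j) = star (x j)) → (∀ j, y (iv j) = star (y j)) →
  (∀ a, 0 ≤ (τ (star a * a)).re ∧ (τ (star a * a)).im = 0) →
  (∀ b, 0 ≤ (σ (star b * b)).re ∧ (σ (star b * b)).im = 0) →
  (∀ l : List J, τ ((l.map x).prod) = σ ((l.map y).prod)) →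
  CC (Set.range x) = ⊤ → CC (Set.range y) = ⊤ →
  (∀ a, (∀ b, τ (star (a * b) * (a * b)) = 0) → a = 0) →
  (∀ a, (∀ b, σ (star (a * b) * (a * b)) = 0) → a = 0) →
  Nonempty (A ≃⋆ₐ[ℂ] B)

/-- freeness of the `C*(S_i)` -/
def S_FREE : Prop := ∀ (κ H : Type) [NormedAddCommGroup H] [InnerProductSpace ℂ H]
  [CompleteSpace H] (F : Fock κ H) (l : List (κ × (H →L[ℂ] H))), l ≠ [] →
  l.IsChain (fun x y => x.1 ≠ y.1) → (∀ x ∈ l, x.2 ∈ CC {F.S x.1} ∧ F.tau x.2 = 0) →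
  F.tau ((l.map fun x => x.2).prod) = 0

/-- the GNS representation of the vacuum state is faithful on all of `A` -/
def S_FAITH : Prop := ∀ (κ H : Type) [NormedAddCommGroup H] [InnerProductSpace ℂ H]
  [CompleteSpace H] (F : Fock κ H), ∀ x ∈ F.AA, x F.Om = 0 → x = 0

end Pool.Agent.H875R.FP
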