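import Pool.Agent.H875R.FP.Stubs2

namespace Pool.Agent.H875R.FP

open scoped ComplexConjugate InnerProductSpace

section

variable {κ H : Type} [NormedAddCommGroup H] [InnerProductSpace ℂ H] [CompleteSpace H]
  (F : Fock κ H)

theorem BAS_ext {x y : H} (h : ∀ w, inner ℂ (F.e w) x = (inner ℂ (F.e w) y : ℂ)) : x = y := by
  apply F.e.repr.injective
  ext w
  rw [HilbertBasis.repr_apply_apply, HilbertBasis.repr_apply_apply]
  exact h w

theorem BAS_inner [DecidableEq (List κ)] (w w' : List κ) :
    (inner ℂ (F.e w) (F.e w') : ℂ) = if w = w' then 1 else 0 :=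
  orthonormal_iff_ite.1 F.e.orthonormal w w'

theorem BAS_adj (A : H →L[ℂ] H) (x y : H) : (inner ℂ x (star A y) : ℂ) = inner ℂ (A x) y := by
  rw [ContinuousLinearMap.star_eq_adjoint, ContinuousLinearMap.adjoint_inner_right]

theorem BAS_adj' (A : H →L[ℂ] H) (x y : H) : (inner ℂ (star A x) y : ℂ) = inner ℂ x (A y) := by
  rw [ContinuousLinearMap.star_eq_adjoint, ContinuousLinearMap.adjoint_inner_left]

end

theorem t_BAS : S_BAS := by
  classical
  intro κ H _ _ _ F
  have h1 : ∀ i, star (F.cr i) (F.e []) = 0 := by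
    intro i
    apply BAS_ext F
    intro w
    rw [BAS_adj, F.cr_e, BAS_inner, inner_zero_right, if_neg (by simp)]
  have h2 : ∀ i w, star (F.cr i) (F.e (i :: w)) = F.e w := by
    intro i w
    apply BAS_ext F
    intro w'
    rw [BAS_adj, F.cr_e, BAS_inner, BAS_inner]
    by_cases h : w' = w
    · rw [if_pos h, if_pos (by rw [h])]
    · rw [if_neg h, if_neg (fun hh => h (List.cons.inj hh).2)]
  have h3 : ∀ i j w, i ≠ j → star (F.cr i) (F.e (j :: w)) = 0 := by
    intro i j w hij
    apply BAS_ext F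
    intro w'
    rw [BAS_adj, F.cr_e, BAS_inner, inner_zero_right, if_neg (fun hh => hij (List.cons.inj hh).1)]
  have h4 : ∀ i, star (F.cr i) * F.cr i = 1 := by
    intro i
    ext x
    apply BAS_ext F
    intro w
    change (inner ℂ (F.e w) (star (F.cr i) (F.cr i x)) : ℂ) = inner ℂ (F.e w) x
    rw [BAS_adj, F.cr_e, ← BAS_adj', h2]
  have h5 : ∀ i, ‖F.cr i‖ ≤ 1 := by
    intro i
    refine ContinuousLinearMap.opNorm_le_bound _ zero_le_one fun x => ?_
    rw [one_mul]
    have h6 : (inner ℂ (F.cr i x) (F.cr i x) : ℂ) = inner ℂ x x := by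
      rw [← BAS_adj]
      have := congrArg (fun A : H →L[ℂ] H => A x) (h4 i)
      change star (F.cr i) (F.cr i x) = x at this
      rw [this]
    rw [inner_self_eq_norm_sq_to_K, inner_self_eq_norm_sq_to_K] at h6
    have h7 : ‖F.cr i x‖ ^ 2 = ‖x‖ ^ 2 := by exact_mod_cast h6
    exact (sq_le_sq₀ (norm_nonneg _) (norm_nonneg _)).1 h7.le
  have h6 : ∀ i, star (F.S i) = F.S i := by
    intro i
    unfold Fock.S
    rw [star_add, star_star, add_comm]
  refine ⟨h1, h2, h3, h4, h5, h6, ?_, F.e.orthonormal.1 [], ?_, ?_⟩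
  · intro i
    unfold Fock.S
    refine (norm_add_le _ _).trans ?_
    rw [norm_star]
    have := h5 i
    linarith
  · intro ξ
    unfold Fock.P0
    rw [ContinuousLinearMap.smulRight_apply, innerSL_apply_apply]
  · ext x
    refine ext_inner_left ℂ fun v => ?_
    rw [BAS_adj]
    unfold Fock.P0
    rw [ContinuousLinearMap.smulRight_apply, innerSL_apply_apply,
      ContinuousLinearMap.smulRight_apply, innerSL_apply_apply, inner_smul_left, inner_smul_right,
      inner_conj_symm, mul_comm]

end Pool.Agent.H875R.FP
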