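import Pool.Agent.H875R.FP.Stubs2

/-! The distribution function of the semicircle law. -/

namespace Pool.Agent.H875R.FP

open MeasureTheory

/-- The distribution function in the angle variable. -/
noncomputable def cdfG (t : ℝ) : ℝ := (t - Real.sin t * Real.cos t) / Real.pi

theorem cdfG_cont : Continuous cdfG := by
  unfold cdfG
  fun_prop

theorem cdfG_deriv (t : ℝ) : HasDerivAt cdfG (2 / Real.pi * Real.sin t ^ 2) t := by
  unfold cdfG
  have h1 := ((hasDerivAt_id t).sub ((Real.hasDerivAt_sin t).mul (Real.hasDerivAt_cos t))).div_const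
    Real.pi
  refine h1.congr_deriv ?_
  have := Real.sin_sq_add_cos_sq t
  have hp := Real.pi_pos.ne'
  field_simp
  nlinarith

theorem cdfG_strict : StrictMono cdfG := by
  intro a b hab
  unfold cdfG
  refine div_lt_div_of_pos_right ?_ Real.pi_pos
  have h1 : Real.sin b * Real.cos b - Real.sin a * Real.cos a =
      Real.sin (b - a) * Real.cos (a + b) := by
    rw [Real.sin_sub, Real.cos_add]
    have ha := Real.sin_sq_add_cos_sq a
    have hb := Real.sin_sq_add_cos_sq b
    linear_combination (-(Real.sin b * Real.cos b)) * ha + (Real.sin a * Real.cos a) * hb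
  have h2 : Real.sin (b - a) * Real.cos (a + b) ≤ |Real.sin (b - a)| := by
    refine (le_abs_self _).trans ?_
    rw [abs_mul]
    exact mul_le_of_le_one_right (abs_nonneg _) (Real.abs_cos_le_one _)
  have h3 : |Real.sin (b - a)| < b - a := by
    have := Real.abs_sin_lt_abs (x := b - a) (by linarith [sub_pos.2 hab])
    rwa [abs_of_pos (sub_pos.2 hab)] at this
  linarith

theorem cdfG_zero : cdfG 0 = 0 := by simp [cdfG]

theorem cdfG_pi : cdfG Real.pi = 1 := by
  simp [cdfG, Real.pi_ne_zero]

theorem cdfG_bound (t : ℝ) : |cdfG t - t / Real.pi| ≤ 1 := by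
  unfold cdfG
  rw [← sub_div, abs_div, abs_of_pos Real.pi_pos, div_le_one Real.pi_pos]
  have h1 : t - Real.sin t * Real.cos t - t = -(Real.sin t * Real.cos t) := by ring
  rw [h1, abs_neg, abs_mul]
  have h2 : |Real.sin t| * |Real.cos t| ≤ 1 * 1 :=
    mul_le_mul (Real.abs_sin_le_one t) (Real.abs_cos_le_one t) (abs_nonneg _) one_pos.le
  linarith [Real.pi_gt_three]

theorem cdfG_surj : Function.Surjective cdfG := by
  refine cdfG_cont.surjective ?_ ?_
  · refine Filter.tendsto_atTop_mono (f := fun t => t / Real.pi - 1) (fun t => ?_) ?_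
    · have := (abs_le.1 (cdfG_bound t)).1
      linarith
    · exact Filter.tendsto_atTop_add_const_right _ _
        (Filter.tendsto_id.atTop_div_const Real.pi_pos)
  · have h2 : Filter.Tendsto (fun t : ℝ => t / Real.pi + 1) Filter.atBot Filter.atBot :=
      Filter.tendsto_atBot_add_const_right _ _ (Filter.tendsto_id.atBot_div_const Real.pi_pos)
    refine Filter.tendsto_atBot_mono (fun t => ?_) h2
    have := (abs_le.1 (cdfG_bound t)).2
    show cdfG t ≤ t / Real.pi + 1
    linarith

theorem t_CDF : S_CDF := by
  refine ⟨fun x => cdfG (Real.arccos (x / 2)),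
    fun u => 2 * Real.cos ((cdfG_strict.orderIsoOfSurjective cdfG cdfG_surj).symm u), ?_, ?_, ?_, ?_,
    ?_⟩
  · exact cdfG_cont.comp (Real.continuous_arccos.comp (continuous_id.div_const 2))
  · exact continuous_const.mul (Real.continuous_cos.comp (OrderIso.continuous _))
  · intro x
    constructor
    · rw [← cdfG_zero]
      exact cdfG_strict.monotone (Real.arccos_nonneg _)
    · rw [← cdfG_pi]
      exact cdfG_strict.monotone (Real.arccos_le_pi _)
  · intro x hx
    have h1 : (cdfG_strict.orderIsoOfSurjective cdfG cdfG_surj).symm (cdfG (Real.arccos (x / 2))) =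
        Real.arccos (x / 2) :=
      (cdfG_strict.orderIsoOfSurjective cdfG cdfG_surj).symm_apply_apply (Real.arccos (x / 2))
    have h2 := abs_le.1 hx
    simp only [h1]
    rw [Real.cos_arccos (by linarith [h2.1]) (by linarith [h2.2])]
    ring
  · intro f hf
    have h1 := intervalIntegral.integral_deriv_smul_comp (a := 0) (b := Real.pi) (f := cdfG)
      (f' := fun t => 2 / Real.pi * Real.sin t ^ 2) (g := fun x : ℝ => f x)
      (fun t _ => cdfG_deriv t) (by fun_prop) hf
    rw [cdfG_zero, cdfG_pi] at h1
    rw [← h1, ← intervalIntegral.integral_const_mul]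
    refine intervalIntegral.integral_congr fun θ hθ => ?_
    rw [Set.uIcc_of_le Real.pi_pos.le] at hθ
    simp only [Function.comp_apply, Complex.real_smul]
    have h3 : 2 * Real.cos θ / 2 = Real.cos θ := by ring
    rw [h3, Real.arccos_cos hθ.1 hθ.2]
    push_cast
    ring

end Pool.Agent.H875R.FP
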