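import Mathlib
import Pool.Agent.H875R.FP.Stubs2

/-! Task CFC: the law of `S_i`. -/

namespace Pool.Agent.H875R.FP

open scoped ComplexConjugate
open Polynomial

namespace CFCx

theorem Up_map {R S : Type} [Ring R] [Ring S] (φ : R →+* S) (x : R) :
    ∀ n, φ (Up x n) = Up (φ x) n
  | 0 => by simp [Up]
  | 1 => by simp [Up]
  | n + 2 => by simp [Up, Up_map φ x (n + 1), Up_map φ x n]

/-- span of the Chebyshev polynomials -/
noncomputable def SpU : Submodule ℂ ℂ[X] := Submodule.span ℂ (Set.range fun n => Up (X : ℂ[X]) n)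

theorem U_mem (n : ℕ) : Up (X : ℂ[X]) n ∈ SpU := Submodule.subset_span ⟨n, rfl⟩

theorem X_mul_mem {P : ℂ[X]} (hP : P ∈ SpU) : X * P ∈ SpU := by
  refine Submodule.span_induction (p := fun P _ => X * P ∈ SpU) ?_ ?_ ?_ ?_ hP
  · rintro _ ⟨n, rfl⟩
    rcases n with _ | n
    · have : X * Up (X : ℂ[X]) 0 = Up (X : ℂ[X]) 1 := by simp [Up]
      simp only [this]
      exact U_mem 1
    · have : X * Up (X : ℂ[X]) (n + 1) = Up (X : ℂ[X]) (n + 2) + Up (X : ℂ[X]) n := by
        simp [Up]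
      simp only [this]
      exact SpU.add_mem (U_mem _) (U_mem _)
  · simp
  · intro x y _ _ hx hy
    rw [mul_add]
    exact SpU.add_mem hx hy
  · intro c x _ hx
    rw [mul_smul_comm]
    exact SpU.smul_mem c hx

theorem all_mem (P : ℂ[X]) : P ∈ SpU := by
  have h1 : ∀ n : ℕ, (X : ℂ[X]) ^ n ∈ SpU := by
    intro n
    induction n with
    | zero =>
      have := U_mem 0
      simpa [Up] using this
    | succ n ih =>
      rw [pow_succ']
      exact X_mul_mem ih
  induction P using Polynomial.induction_on' with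
  | add p q hp hq => exact SpU.add_mem hp hq
  | monomial n a =>
    rw [← Polynomial.smul_X_eq_monomial]
    exact SpU.smul_mem a (h1 n)

theorem Up_cos (θ : ℝ) : ∀ n : ℕ, Up (2 * Real.cos θ) n * Real.sin θ = Real.sin ((n + 1) * θ)
  | 0 => by simp [Up]
  | 1 => by
    simp only [Up]
    have : ((1 : ℕ) + 1 : ℝ) * θ = 2 * θ := by norm_num
    rw [this, Real.sin_two_mul]
    ring
  | n + 2 => by
    simp only [Up]
    have h1 := Up_cos θ (n + 1)
    have h2 := Up_cos θ n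
    have e1 : (((n + 2 : ℕ) : ℝ) + 1) * θ = ((((n + 1 : ℕ) : ℝ) + 1) * θ) + θ := by
      push_cast
      ring
    have e2 : ((n : ℝ) + 1) * θ = ((((n + 1 : ℕ) : ℝ) + 1) * θ) - θ := by
      push_cast
      ring
    rw [sub_mul, mul_assoc, h1, h2, e1, e2, Real.sin_add, Real.sin_sub]
    ring

theorem int_cos (k : ℕ) (hk : k ≠ 0) : ∫ θ in (0 : ℝ)..Real.pi, Real.cos (k * θ) = 0 := by
  have hk' : (k : ℝ) ≠ 0 := by exact_mod_cast hk
  rw [intervalIntegral.integral_comp_mul_left (fun x => Real.cos x) hk', integral_cos]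
  simp [Real.sin_nat_mul_pi]

theorem int_ss (n : ℕ) : ∫ θ in (0 : ℝ)..Real.pi, Real.sin ((n + 1) * θ) * Real.sin θ =
    if n = 0 then Real.pi / 2 else 0 := by
  split_ifs with h
  · subst h
    have : ∀ θ : ℝ, Real.sin (((0 : ℕ) + 1) * θ) * Real.sin θ = Real.sin θ ^ 2 := by
      intro θ
      rw [Nat.cast_zero, zero_add, one_mul, sq]
    simp only [this]
    rw [integral_sin_sq]
    simp
  · have : ∀ θ : ℝ, Real.sin ((n + 1) * θ) * Real.sin θ =
        (1 / 2) * Real.cos (n * θ) - (1 / 2) * Real.cos ((n + 2 : ℕ) * θ) := by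
      intro θ
      have e1 : (n : ℝ) * θ = ((n + 1) * θ) - θ := by ring
      have e2 : ((n + 2 : ℕ) : ℝ) * θ = ((n + 1) * θ) + θ := by
        push_cast
        ring
      rw [e1, e2, Real.cos_sub, Real.cos_add]
      ring
    simp only [this]
    rw [intervalIntegral.integral_sub, intervalIntegral.integral_const_mul,
      intervalIntegral.integral_const_mul, int_cos n h, int_cos (n + 2) (by omega)]
    · simp
    · exact (Continuous.intervalIntegrable (by fun_prop) _ _)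
    · exact (Continuous.intervalIntegrable (by fun_prop) _ _)

/-- the right-hand side -/
noncomputable def II (f : ℂ → ℂ) : ℂ := ((2 / Real.pi : ℝ) : ℂ) *
    ∫ θ in (0 : ℝ)..Real.pi, f ((2 * Real.cos θ : ℝ) : ℂ) * ((Real.sin θ ^ 2 : ℝ) : ℂ)

theorem cont {f : ℂ → ℂ} (hf : Continuous f) :
    Continuous fun θ : ℝ => f ((2 * Real.cos θ : ℝ) : ℂ) * ((Real.sin θ ^ 2 : ℝ) : ℂ) := by
  fun_prop

theorem II_U (n : ℕ) : II (fun z => (Up (X : ℂ[X]) n).eval z) = if n = 0 then 1 else 0 := by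
  have h1 : ∀ θ : ℝ, (Up (X : ℂ[X]) n).eval ((2 * Real.cos θ : ℝ) : ℂ) *
      ((Real.sin θ ^ 2 : ℝ) : ℂ) =
      ((Real.sin ((n + 1) * θ) * Real.sin θ : ℝ) : ℂ) := by
    intro θ
    have e1 := Up_map (Polynomial.evalRingHom ((2 * Real.cos θ : ℝ) : ℂ)) (X : ℂ[X]) n
    have e2 := Up_map Complex.ofRealHom (2 * Real.cos θ) n
    rw [Polynomial.coe_evalRingHom, Polynomial.eval_X] at e1
    rw [e1, ← Complex.ofRealHom_eq_coe, ← e2, Complex.ofRealHom_eq_coe, ← Complex.ofReal_mul,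
      ← Up_cos]
    congr 1
    ring
  rw [II]
  simp only [h1]
  rw [intervalIntegral.integral_ofReal, int_ss, ← Complex.ofReal_mul]
  split_ifs
  · have : Real.pi ≠ 0 := Real.pi_ne_zero
    rw [show 2 / Real.pi * (Real.pi / 2) = 1 by field_simp]
    simp
  · simp

section

variable {κ H : Type} [NormedAddCommGroup H] [InnerProductSpace ℂ H] [CompleteSpace H]
  (F : Fock κ H)

theorem tau_add (x y : H →L[ℂ] H) : F.tau (x + y) = F.tau x + F.tau y := by
  simp [Fock.tau]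

theorem tau_smul (c : ℂ) (x : H →L[ℂ] H) : F.tau (c • x) = c * F.tau x := by
  simp [Fock.tau]

theorem tau_sub (x y : H →L[ℂ] H) : F.tau (x - y) = F.tau x - F.tau y := by
  simp [Fock.tau]

theorem tau_le (hb : S_BAS) (x : H →L[ℂ] H) : ‖F.tau x‖ ≤ ‖x‖ := by
  have h1 : ‖F.Om‖ = 1 := (hb κ H F).2.2.2.2.2.2.2.1
  calc ‖F.tau x‖ ≤ ‖F.Om‖ * ‖x F.Om‖ := norm_inner_le_norm _ _
    _ ≤ ‖F.Om‖ * (‖x‖ * ‖F.Om‖) := by gcongr; exact x.le_opNorm _
    _ = ‖x‖ := by rw [h1]; ring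

theorem poly (h : S_CHEB) (i : κ) (P : ℂ[X]) :
    F.tau (aeval (F.S i) P) = II (fun z => P.eval z) := by
  refine Submodule.span_induction (p := fun P _ => F.tau (aeval (F.S i) P) =
    II (fun z => P.eval z)) ?_ ?_ ?_ ?_ (all_mem P)
  · rintro _ ⟨n, rfl⟩
    have e1 := Up_map ((aeval (F.S i) : ℂ[X] →ₐ[ℂ] (H →L[ℂ] H)) : ℂ[X] →+* (H →L[ℂ] H)) X n
    have e2 := (h κ H F i).2.1 n 0
    simp only [RingHom.coe_coe, aeval_X] at e1
    simp only
    rw [II_U, e1]
    simpa [Up] using e2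
  · simp [II, Fock.tau]
  · intro P Q _ _ hP hQ
    simp only [map_add, tau_add, hP, hQ, eval_add, II, add_mul]
    rw [intervalIntegral.integral_add, mul_add]
    · exact (cont (f := fun z => P.eval z) (by fun_prop)).intervalIntegrable _ _
    · exact (cont (f := fun z => Q.eval z) (by fun_prop)).intervalIntegrable _ _
  · intro c P _ hP
    simp only [map_smul, tau_smul, hP, eval_smul, smul_eq_mul, II, mul_assoc]
    rw [intervalIntegral.integral_const_mul]
    ring

end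

theorem approx {f : ℂ → ℂ} (hf : Continuous f) {ε : ℝ} (hε : 0 < ε) :
    ∃ P : ℂ[X], ∀ x : ℝ, |x| ≤ 2 → ‖f x - P.eval (x : ℂ)‖ ≤ 2 * ε := by
  have c1 : ContinuousOn (fun x : ℝ => (f x).re) (Set.Icc (-2) 2) := by fun_prop
  have c2 : ContinuousOn (fun x : ℝ => (f x).im) (Set.Icc (-2) 2) := by fun_prop
  obtain ⟨p, hp⟩ := exists_polynomial_near_of_continuousOn (-2) 2 _ c1 ε hε
  obtain ⟨q, hq⟩ := exists_polynomial_near_of_continuousOn (-2) 2 _ c2 ε hε
  refine ⟨p.map Complex.ofRealHom + C Complex.I * q.map Complex.ofRealHom, ?_⟩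
  intro x hx
  have hx' : x ∈ Set.Icc (-2 : ℝ) 2 := abs_le.1 hx
  have e1 : (p.map Complex.ofRealHom).eval (x : ℂ) = ((p.eval x : ℝ) : ℂ) := by
    rw [← Complex.ofRealHom_eq_coe, eval_map_apply, Complex.ofRealHom_eq_coe]
  have e2 : (q.map Complex.ofRealHom).eval (x : ℂ) = ((q.eval x : ℝ) : ℂ) := by
    rw [← Complex.ofRealHom_eq_coe, eval_map_apply, Complex.ofRealHom_eq_coe]
  rw [eval_add, eval_mul, eval_C, e1, e2]
  have e3 : f x - (((p.eval x : ℝ) : ℂ) + Complex.I * ((q.eval x : ℝ) : ℂ)) =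
      (((f x).re - p.eval x : ℝ) : ℂ) + Complex.I * (((f x).im - q.eval x : ℝ) : ℂ) := by
    apply Complex.ext <;> simp
  rw [e3]
  calc _ ≤ ‖(((f x).re - p.eval x : ℝ) : ℂ)‖ + ‖Complex.I * (((f x).im - q.eval x : ℝ) : ℂ)‖ :=
        norm_add_le _ _
    _ = |(f x).re - p.eval x| + |(f x).im - q.eval x| := by
        rw [norm_mul, Complex.norm_I, one_mul, Complex.norm_real, Complex.norm_real]
        rfl
    _ ≤ ε + ε := by
        have h1 := (hp x hx').le
        have h2 := (hq x hx').le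
        rw [abs_sub_comm] at h1 h2
        exact add_le_add h1 h2
    _ = 2 * ε := by ring

theorem II_le {f g : ℂ → ℂ} (hf : Continuous f) (hg : Continuous g) {ε : ℝ}
    (h : ∀ x : ℝ, |x| ≤ 2 → ‖f x - g x‖ ≤ ε) : ‖II f - II g‖ ≤ 2 * ε := by
  rw [II, II, ← mul_sub, ← intervalIntegral.integral_sub ((cont hf).intervalIntegrable _ _)
    ((cont hg).intervalIntegrable _ _), norm_mul]
  have h0 : 0 ≤ ε := (norm_nonneg _).trans (h 0 (by norm_num))
  have h1 : ‖∫ θ in (0 : ℝ)..Real.pi, (f ((2 * Real.cos θ : ℝ) : ℂ) *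
      ((Real.sin θ ^ 2 : ℝ) : ℂ) - g ((2 * Real.cos θ : ℝ) : ℂ) *
      ((Real.sin θ ^ 2 : ℝ) : ℂ))‖ ≤ ε * |Real.pi - 0| := by
    apply intervalIntegral.norm_integral_le_of_norm_le_const
    intro θ _
    rw [← sub_mul, norm_mul, Complex.norm_real]
    have h2 : ‖Real.sin θ ^ 2‖ ≤ 1 := by
      rw [Real.norm_eq_abs, abs_of_nonneg (sq_nonneg _)]
      exact Real.sin_sq_le_one θ
    have h3 : |2 * Real.cos θ| ≤ 2 := by
      rw [abs_mul]
      have := Real.abs_cos_le_one θ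
      norm_num
      linarith
    calc _ ≤ ε * 1 := mul_le_mul (h _ h3) h2 (norm_nonneg _) h0
      _ = ε := mul_one _
  have hpi := Real.pi_pos
  have h4 : ‖((2 / Real.pi : ℝ) : ℂ)‖ = 2 / Real.pi := by
    rw [Complex.norm_real, Real.norm_eq_abs, abs_of_pos (by positivity)]
  rw [h4]
  calc _ ≤ 2 / Real.pi * (ε * |Real.pi - 0|) := by gcongr
    _ = 2 * ε := by
        rw [sub_zero, abs_of_pos hpi]
        field_simp

end CFCx

open CFCx in
theorem t_CFC (h : S_CHEB) (hb : S_BAS) : S_CFC := by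
  intro κ H _ _ _ F i f hf
  change F.tau (cfc f (F.S i)) = II f
  have hsa : IsSelfAdjoint (F.S i) := (hb κ H F).2.2.2.2.2.1 i
  have hn : ‖F.S i‖ ≤ 2 := (hb κ H F).2.2.2.2.2.2.1 i
  have hnorm : IsStarNormal (F.S i) := hsa.isStarNormal
  apply eq_of_forall_dist_le
  intro ε hε
  obtain ⟨P, hP⟩ := approx hf (ε := ε / 6) (by positivity)
  have h1 : ‖F.tau (cfc f (F.S i)) - F.tau (aeval (F.S i) P)‖ ≤ 2 * (ε / 6) := by
    rw [← tau_sub]
    refine (tau_le F hb _).trans ?_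
    rw [← cfc_polynomial P (F.S i), ← cfc_sub (a := F.S i) f (fun z => P.eval z)
      hf.continuousOn (by fun_prop)]
    apply norm_cfc_le (by positivity)
    intro z hz
    have e1 : z = z.re := hsa.mem_spectrum_eq_re hz
    have e2 : ‖z‖ ≤ 2 := by
      have := spectrum.norm_le_norm_mul_of_mem hz
      refine this.trans ?_
      by_cases hH : Nontrivial H
      · rw [norm_one, mul_one]
        exact hn
      · have : ‖(1 : H →L[ℂ] H)‖ ≤ 1 := ContinuousLinearMap.norm_id_le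
        nlinarith [norm_nonneg (F.S i), norm_nonneg (1 : H →L[ℂ] H)]
    have e3 : |z.re| ≤ 2 := (Complex.abs_re_le_norm z).trans e2
    have := hP z.re e3
    rw [← e1] at this
    exact this
  have h2 := II_le (f := f) (g := fun z => P.eval z) hf (by fun_prop) hP
  rw [poly F h i P] at h1
  rw [dist_eq_norm]
  calc ‖F.tau (cfc f (F.S i)) - II f‖ = ‖(F.tau (cfc f (F.S i)) - II (fun z => P.eval z)) -
        (II f - II (fun z => P.eval z))‖ := by congr 1; ring
    _ ≤ 2 * (ε / 6) + 2 * (2 * (ε / 6)) := (norm_sub_le _ _).trans (add_le_add h1 h2)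
    _ = ε := by ring

end Pool.Agent.H875R.FP
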