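import Pool.Agent.H875R.FP.Stubs2

/-! Task CHEB -/

namespace Pool.Agent.H875R.FP

namespace Cheb

theorem up_comm {R : Type} [Ring R] (x : R) : ∀ n : ℕ,
    Up x n * x = x * Up x n ∧ Up x (n + 1) * x = x * Up x (n + 1) := by
  intro n
  induction n with
  | zero => simp [Up]
  | succ n ih =>
    refine ⟨ih.2, ?_⟩
    show (x * Up x (n + 1) - Up x n) * x = x * (x * Up x (n + 1) - Up x n)
    rw [sub_mul, mul_sub, ih.1, mul_assoc, ih.2]

theorem up_star {R : Type} [Ring R] [StarRing R] (x : R) (hx : star x = x) : ∀ n : ℕ,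
    star (Up x n) = Up x n ∧ star (Up x (n + 1)) = Up x (n + 1) := by
  intro n
  induction n with
  | zero => simp [Up, hx]
  | succ n ih =>
    refine ⟨ih.2, ?_⟩
    show star (x * Up x (n + 1) - Up x n) = x * Up x (n + 1) - Up x n
    rw [star_sub, star_mul, ih.1, ih.2, hx, (up_comm x n).2]

end Cheb

theorem t_CHEB (hB : S_BAS) : S_CHEB := by
  intro κ H _ _ _ F i
  obtain ⟨b1, b2, b3, -, -, b6, -, -, -, -⟩ := hB κ H F
  have hS : ∀ w, F.S i (F.e w) = F.e (i :: w) + star (F.cr i) (F.e w) := by
    intro w
    show (F.cr i + star (F.cr i)) (F.e w) = _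
    rw [ContinuousLinearMap.add_apply, F.cr_e]
  have h0 : ∀ w, (∀ w', w ≠ i :: w') → star (F.cr i) (F.e w) = 0 := by
    intro w hw
    cases w with
    | nil => exact b1 i
    | cons j w =>
      refine b3 i j w ?_
      rintro rfl
      exact hw w rfl
  have key : ∀ n w, (∀ w', w ≠ i :: w') →
      Up (F.S i) n (F.e w) = F.e (List.replicate n i ++ w) ∧
      Up (F.S i) (n + 1) (F.e w) = F.e (List.replicate (n + 1) i ++ w) := by
    intro n w hw
    induction n with
    | zero =>
      constructor
      · simp [Up]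
      · simp only [Up, zero_add, List.replicate_one, List.singleton_append]
        rw [hS, h0 w hw, add_zero]
    | succ n ih =>
      refine ⟨ih.2, ?_⟩
      show (F.S i * Up (F.S i) (n + 1) - Up (F.S i) n) (F.e w) = _
      rw [ContinuousLinearMap.sub_apply, ContinuousLinearMap.mul_apply, ih.1, ih.2, hS]
      rw [List.replicate_succ (n := n), List.cons_append, b2]
      rw [List.replicate_succ (n := n + 1), List.replicate_succ (n := n)]
      simp
  have hst : ∀ n, star (Up (F.S i) n) = Up (F.S i) n := fun n => (Cheb.up_star _ (b6 i) n).1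
  refine ⟨fun n w hw => (key n w hw).1, ?_, hst⟩
  intro m n
  have hOm : ∀ n, Up (F.S i) n F.Om = F.e (List.replicate n i) := by
    intro n
    have := (key n [] (by simp)).1
    rw [List.append_nil] at this
    exact this
  unfold Fock.tau
  rw [ContinuousLinearMap.mul_apply, hOm n]
  have h1 : (inner ℂ F.Om (Up (F.S i) m (F.e (List.replicate n i))) : ℂ)
      = inner ℂ (Up (F.S i) m F.Om) (F.e (List.replicate n i)) := by
    conv_lhs => rw [← hst m]
    rw [ContinuousLinearMap.star_eq_adjoint, ContinuousLinearMap.adjoint_inner_right]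
  rw [h1, hOm m]
  classical
  have h3 := F.e.orthonormal
  rw [orthonormal_iff_ite] at h3
  rw [h3]
  by_cases hmn : m = n
  · subst hmn
    simp
  · rw [if_neg hmn, if_neg]
    intro h
    have := congrArg List.length h
    exact hmn (by simpa using this)

end Pool.Agent.H875R.FP
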