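import Pool.Agent.H875R.FP.Stubs2
import Pool.Agent.H722.FG.Dist

/-! CHIZ: values of `χ` on the alternating words -/

namespace Pool.Agent.H875R.FP

/-- generator of the block `i` -/
def chizG (i : ℕ) : Bool := i % 2 == 0

theorem chizG_succ (i : ℕ) : chizG (i + 1) ≠ chizG i := by
  unfold chizG
  rcases Nat.mod_two_eq_zero_or_one i with h | h
  · have h' : (i + 1) % 2 = 1 := by omega
    rw [h, h']; decide
  · have h' : (i + 1) % 2 = 0 := by omega
    rw [h, h']; decide

theorem chiz_blk (i : ℕ) : blk i = FreeGroup.of (chizG i) ^ ((2 * i : ℕ) : ℤ) := by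
  unfold blk chizG
  rw [zpow_natCast]

theorem chiz_blk_inv (i : ℕ) : (blk i)⁻¹ = FreeGroup.of (chizG i) ^ (-((2 * i : ℕ) : ℤ)) := by
  rw [chiz_blk, ← zpow_neg]

theorem chiz_st (c : Bool) (n : ℤ) (hn : n ≠ 0) (g : G2) (h : st g ≠ some c) :
    st (FreeGroup.of c ^ n * g) = some c := by
  have h1 : ∀ b, Pool.Agent.H722.FG.hd g ≠ some (c, b) := by
    intro b hb
    apply h
    unfold st
    unfold Pool.Agent.H722.FG.hd at hb
    rw [hb]
    rfl
  obtain ⟨k, hk | hk⟩ := n.eq_nat_or_neg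
  · subst hk
    rw [zpow_natCast]
    have := Pool.Agent.H722.FG.hd_pow_mul c k (by simpa using hn) g (h1 false)
    unfold Pool.Agent.H722.FG.hd at this
    unfold st
    rw [this]
    rfl
  · subst hk
    rw [zpow_neg, zpow_natCast]
    have := Pool.Agent.H722.FG.hd_invpow_mul c k (by simpa using hn) g (h1 true)
    unfold Pool.Agent.H722.FG.hd at this
    unfold st
    rw [this]
    rfl

theorem chiz_st_one : st (1 : G2) = none := by
  unfold st
  simp

/-- first syllable -/
theorem chiz_syl {c c' : Bool} {n k : ℤ} {t s : G2} (ht : t = FreeGroup.of c ^ k * s) (hk : k ≠ 0)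
    (hs : st s ≠ some c) (hn : n ≠ 0) (h : c' = c → n + k ≠ 0) :
    st (FreeGroup.of c' ^ n * t) = some c' := by
  by_cases hc : c' = c
  · subst hc
    rw [ht, ← mul_assoc, ← zpow_add]
    exact chiz_st _ _ (h rfl) _ hs
  · apply chiz_st _ _ hn
    rw [ht, chiz_st _ _ hk _ hs]
    simpa using Ne.symm hc

/-- type `r` -/
def chizT (r : ℕ) (t : G2) : Prop :=
  ∃ s, (t = FreeGroup.of (chizG r) ^ (2 * r : ℤ) * s ∧ st s ≠ some (chizG r)) ∨
    (t = FreeGroup.of (chizG (r - 1)) ^ (-(2 * r - 2) : ℤ) * s ∧ st s ≠ some (chizG (r - 1)))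

theorem chiz_up {p r : ℕ} {t : G2} (hp : 4 ≤ p + 1) (hr : 4 ≤ r) (hpr : p + 1 ≠ r) (h : chizT r t) :
    st (blk p * t) = some (chizG p) := by
  obtain ⟨s, ⟨h1, h2⟩ | ⟨h1, h2⟩⟩ := h
  · rw [chiz_blk]
    exact chiz_syl h1 (by omega) h2 (by push_cast; omega) (fun _ => by push_cast; omega)
  · rw [chiz_blk]
    exact chiz_syl h1 (by omega) h2 (by push_cast; omega) (fun _ => by push_cast; omega)

theorem chiz_dn {p r : ℕ} {t : G2} (hp : 4 ≤ p) (hr : 4 ≤ r) (hpr : p ≠ r) (h : chizT r t) :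
    st ((blk p)⁻¹ * t) = some (chizG p) := by
  obtain ⟨s, ⟨h1, h2⟩ | ⟨h1, h2⟩⟩ := h
  · rw [chiz_blk_inv]
    exact chiz_syl h1 (by omega) h2 (by push_cast; omega) (fun _ => by push_cast; omega)
  · rw [chiz_blk_inv]
    exact chiz_syl h1 (by omega) h2 (by push_cast; omega) (fun _ => by push_cast; omega)

theorem chiz_zz (m i : ℕ) (h : i ≤ m) : zz m i = blk i * zz m (i + 1) := by
  unfold zz
  have h1 : m + 1 - i = (m + 1 - (i + 1)) + 1 := by omega
  rw [h1, List.range'_succ, List.map_cons, List.prod_cons]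

theorem chiz_blk_mul (i : ℕ) (hi : 1 ≤ i) (t : G2) (h : st t ≠ some (chizG i)) :
    st (blk i * t) = some (chizG i) := by
  rw [chiz_blk]
  exact chiz_st _ _ (by push_cast; omega) _ h

theorem chiz_blk_inv_mul (i : ℕ) (hi : 1 ≤ i) (t : G2) (h : st t ≠ some (chizG i)) :
    st ((blk i)⁻¹ * t) = some (chizG i) := by
  rw [chiz_blk_inv]
  exact chiz_st _ _ (by push_cast; omega) _ h

/-- `z_j z_p⁻¹ t` for `j < p` -/
theorem chiz_lt {m p r : ℕ} {t : G2} (hp : 4 ≤ p) (hpm : p ≤ m) (hr : 4 ≤ r) (hpr : p ≠ r)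
    (h : chizT r t) (k : ℕ) (hk : k + 1 < p) :
    st (zz m (p - 1 - k) * ((zz m p)⁻¹ * t)) = some (chizG (p - 1 - k)) := by
  induction k with
  | zero =>
    have e : zz m (p - 1 - 0) * ((zz m p)⁻¹ * t) = blk (p - 1) * t := by
      rw [Nat.sub_zero, chiz_zz m (p - 1) (by omega), show p - 1 + 1 = p by omega]
      group
    rw [e, Nat.sub_zero]
    exact chiz_up (by omega) hr (by omega) h
  | succ k ih =>
    have ih' := ih (by omega)
    have e1 : p - 1 - k = (p - 1 - (k + 1)) + 1 := by omega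
    have e : zz m (p - 1 - (k + 1)) * ((zz m p)⁻¹ * t) =
        blk (p - 1 - (k + 1)) * (zz m (p - 1 - k) * ((zz m p)⁻¹ * t)) := by
      rw [chiz_zz m (p - 1 - (k + 1)) (by omega), ← e1, mul_assoc]
    rw [e]
    apply chiz_blk_mul _ (by omega)
    rw [ih', e1]
    simpa using chizG_succ (p - 1 - (k + 1))

/-- `z_j z_p⁻¹ t` for `j > p` -/
theorem chiz_gt {m p r : ℕ} {t : G2} (hp : 4 ≤ p) (hr : 4 ≤ r) (hpr : p ≠ r)
    (h : chizT r t) (k : ℕ) (hk : p + k ≤ m) :
    st (zz m (p + k + 1) * ((zz m p)⁻¹ * t)) = some (chizG (p + k)) := by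
  induction k with
  | zero =>
    have e : zz m (p + 0 + 1) * ((zz m p)⁻¹ * t) = (blk p)⁻¹ * t := by
      rw [Nat.add_zero, chiz_zz m p (by omega)]
      group
    rw [e, Nat.add_zero]
    exact chiz_dn hp hr hpr h
  | succ k ih =>
    have ih' := ih (by omega)
    have e : zz m (p + (k + 1) + 1) * ((zz m p)⁻¹ * t) =
        (blk (p + (k + 1)))⁻¹ * (zz m (p + k + 1) * ((zz m p)⁻¹ * t)) := by
      rw [show p + k + 1 = p + (k + 1) by omega, chiz_zz m (p + (k + 1)) (by omega)]
      group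
    rw [e]
    apply chiz_blk_inv_mul _ (by omega)
    rw [ih', ← add_assoc]
    simpa using (chizG_succ (p + k)).symm

/-- `z_j v⁻¹` -/
theorem chiz_v (m k : ℕ) (hk : k ≤ m) : st (zz m (k + 1) * (vv m)⁻¹) = some (chizG k) := by
  induction k with
  | zero =>
    have e : zz m (0 + 1) * (vv m)⁻¹ = FreeGroup.of true ^ (-1 : ℤ) * 1 := by
      unfold vv
      group
    rw [e]
    apply chiz_st _ _ (by norm_num)
    rw [chiz_st_one]
    simp
  | succ k ih =>
    have ih' := ih (by omega)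
    have e : zz m (k + 1 + 1) * (vv m)⁻¹ = (blk (k + 1))⁻¹ * (zz m (k + 1) * (vv m)⁻¹) := by
      rw [chiz_zz m (k + 1) (by omega)]
      group
    rw [e]
    apply chiz_blk_inv_mul _ (by omega)
    rw [ih']
    simpa using (chizG_succ k).symm

/-- `z_j` -/
theorem chiz_z (m k : ℕ) (hk : k + 1 ≤ m) : st (zz m (m - k)) = some (chizG (m - k)) := by
  induction k with
  | zero =>
    rw [Nat.sub_zero, chiz_zz m m le_rfl]
    apply chiz_blk_mul _ (by omega)
    have : zz m (m + 1) = 1 := by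
      unfold zz
      simp
    rw [this, chiz_st_one]
    simp
  | succ k ih =>
    have ih' := ih (by omega)
    have e1 : m - k = (m - (k + 1)) + 1 := by omega
    rw [chiz_zz m (m - (k + 1)) (by omega), ← e1]
    apply chiz_blk_mul _ (by omega)
    rw [ih', e1]
    simpa using chizG_succ (m - (k + 1))

/-- kinds -/
theorem chiz_kind {m p q r : ℕ} {t : G2} (hp : 4 ≤ p) (hpm : p ≤ m) (hq : 4 ≤ q) (hqm : q ≤ m)
    (hr : 4 ≤ r) (hpr : p ≠ r) (h : chizT r t) (hpq : p + 3 ≤ q ∨ q + 3 ≤ p) :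
    chizT q (zz m q * ((zz m p)⁻¹ * t)) ∧
      st (zz m q * ((zz m p)⁻¹ * t)) = if q < p then some (chizG q) else some (chizG (q - 1)) := by
  rcases hpq with hpq | hpq
  · have h1 := chiz_gt (m := m) hp hr hpr h (q - p - 2) (by omega)
    have h2 := chiz_gt (m := m) hp hr hpr h (q - p - 1) (by omega)
    rw [show p + (q - p - 2) + 1 = q - 1 by omega, show p + (q - p - 2) = q - 2 by omega] at h1
    rw [show p + (q - p - 1) + 1 = q by omega, show p + (q - p - 1) = q - 1 by omega] at h2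
    refine ⟨⟨zz m (q - 1) * ((zz m p)⁻¹ * t), Or.inr ⟨?_, ?_⟩⟩, ?_⟩
    · have e : (FreeGroup.of (chizG (q - 1)) ^ (-(2 * q - 2) : ℤ) : G2) = (blk (q - 1))⁻¹ := by
        rw [chiz_blk_inv]
        congr 1
        push_cast
        omega
      rw [e, chiz_zz m (q - 1) (by omega), show q - 1 + 1 = q by omega]
      group
    · rw [h1]
      have := chizG_succ (q - 2)
      rw [show q - 2 + 1 = q - 1 by omega] at this
      simpa using this.symm
    · rw [h2, if_neg (by omega)]
  · have h1 := chiz_lt (m := m) hp hpm hr hpr h (p - 1 - (q + 1)) (by omega)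
    have h2 := chiz_lt (m := m) hp hpm hr hpr h (p - 1 - q) (by omega)
    rw [show p - 1 - (p - 1 - (q + 1)) = q + 1 by omega] at h1
    rw [show p - 1 - (p - 1 - q) = q by omega] at h2
    refine ⟨⟨zz m (q + 1) * ((zz m p)⁻¹ * t), Or.inl ⟨?_, ?_⟩⟩, ?_⟩
    · have e : (FreeGroup.of (chizG q) ^ (2 * q : ℤ) : G2) = blk q := by
        rw [chiz_blk]
        congr 1
      rw [e, chiz_zz m q (by omega), mul_assoc]
    · rw [h1]
      simpa using chizG_succ q
    · rw [h2, if_pos (by omega)]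

/-- end of the words -/
def chizE (m : ℕ) (e : G2) : Prop := e = 1 ∨ e = (vv m)⁻¹

theorem chiz_type (m : ℕ) (e : G2) (he : chizE m e) (w : List (ℕ × ℕ)) : ∀ q : ℕ, Vdz m w →
    (4 ≤ q ∧ q + 4 ≤ m) → adm3 q w → chizT q (zz m q * (valz m w * e)) := by
  induction w with
  | nil =>
    intro q _ hq _
    rcases he with rfl | rfl
    · refine ⟨zz m (q + 1), Or.inl ⟨?_, ?_⟩⟩
      · have e : (FreeGroup.of (chizG q) ^ (2 * q : ℤ) : G2) = blk q := by
          rw [chiz_blk]
          congr 1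
        rw [e, ← chiz_zz m q (by omega)]
        simp [valz]
      · have h1 := chiz_z m (m - (q + 1)) (by omega)
        rw [show m - (m - (q + 1)) = q + 1 by omega] at h1
        rw [h1]
        simpa using chizG_succ q
    · refine ⟨zz m (q - 1) * (vv m)⁻¹, Or.inr ⟨?_, ?_⟩⟩
      · have e : (FreeGroup.of (chizG (q - 1)) ^ (-(2 * q - 2) : ℤ) : G2) = (blk (q - 1))⁻¹ := by
          rw [chiz_blk_inv]
          congr 1
          push_cast
          omega
        rw [e, chiz_zz m (q - 1) (by omega), show q - 1 + 1 = q by omega]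
        simp only [valz]
        group
      · have h1 := chiz_v m (q - 2) (by omega)
        rw [show q - 2 + 1 = q - 1 by omega] at h1
        rw [h1]
        have := chizG_succ (q - 2)
        rw [show q - 2 + 1 = q - 1 by omega] at this
        simpa using this.symm
  | cons a w ih =>
    obtain ⟨p, r⟩ := a
    intro q hw hq hadm
    obtain ⟨h1, h2, h3, h4, h5⟩ := hw
    have ht := ih r h5 h2 h4
    have e1 : valz m ((p, r) :: w) * e = (zz m p)⁻¹ * (zz m r * (valz m w * e)) := by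
      simp only [valz]
      group
    rw [e1]
    exact (chiz_kind h1.1 (by omega) hq.1 (by omega) h2.1 h3 ht hadm).1

theorem chiz_stk (m : ℕ) (e : G2) (he : chizE m e) (p r : ℕ) (w : List (ℕ × ℕ)) (q : ℕ)
    (hw : Vdz m ((p, r) :: w)) (hq : 4 ≤ q ∧ q + 4 ≤ m) (hadm : adm3 q ((p, r) :: w)) :
    st (zz m q * (valz m ((p, r) :: w) * e)) =
      if q < p then some (chizG q) else some (chizG (q - 1)) := by
  obtain ⟨h1, h2, h3, h4, h5⟩ := hw
  have ht := chiz_type m e he w r h5 h2 h4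
  have e1 : valz m ((p, r) :: w) * e = (zz m p)⁻¹ * (zz m r * (valz m w * e)) := by
    simp only [valz]
    group
  rw [e1]
  exact (chiz_kind h1.1 (by omega) hq.1 (by omega) h2.1 h3 ht hadm).2

theorem t_CHIZ : S_CHIZ := by
  intro m q w hw hq hadm
  unfold chi
  rcases w with _ | ⟨⟨p, r⟩, w⟩
  · have h1 := chiz_z m (m - q) (by omega)
    rw [show m - (m - q) = q by omega] at h1
    have h2 := chiz_v m (q - 1) (by omega)
    rw [show q - 1 + 1 = q by omega] at h2
    simp only [valz, mul_one, if_true]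
    unfold stb
    rw [h1, h2]
    unfold chizG
    rcases Nat.even_or_odd q with h | h
    · have e1 : q % 2 = 0 := Nat.even_iff.1 h
      have e2 : (q - 1) % 2 = 1 := by omega
      rw [e1, e2, Odd.neg_one_pow h.add_one]
      norm_num
    · have e1 : q % 2 = 1 := Nat.odd_iff.1 h
      have e2 : (q - 1) % 2 = 0 := by omega
      rw [e1, e2, Even.neg_one_pow h.add_one]
      norm_num
  · have h1 := chiz_stk m 1 (Or.inl rfl) p r w q hw hq hadm
    have h2 := chiz_stk m (vv m)⁻¹ (Or.inr rfl) p r w q hw hq hadm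
    rw [mul_one] at h1
    rw [← mul_assoc] at h2
    rw [if_neg (by simp)]
    unfold stb
    rw [h1, h2, sub_self]

end Pool.Agent.H875R.FP
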