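import Pool.Agent.H875R.FP.Stubs2

/-! Linearity of `cj` (task CJ). -/

namespace Pool.Agent.H875R.FP

open Pool.Agent.H667R3.FF (ev splits)
open Pool.Agent.H581R.FF (n2 act)

section
variable {H : Type} [NormedAddCommGroup H] [InnerProductSpace ℂ H] [CompleteSpace H]

theorem cj_zero' (a b : unitary (H →L[ℂ] H)) (x : H →L[ℂ] H) : cj a b 0 x = 0 := by
  unfold cj
  exact Finsupp.sum_zero_index

theorem cj_add' (a b : unitary (H →L[ℂ] H)) (t t' : G2 →₀ ℝ) (x : H →L[ℂ] H) :
    cj a b (t + t') x = cj a b t x + cj a b t' x := by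
  unfold cj
  refine Finsupp.sum_add_index' (fun g => by simp) (fun g r s => ?_)
  rw [Complex.ofReal_add, add_smul]

theorem cj_smul' (a b : unitary (H →L[ℂ] H)) (c : ℝ) (t : G2 →₀ ℝ) (x : H →L[ℂ] H) :
    cj a b (c • t) x = (c : ℂ) • cj a b t x := by
  unfold cj
  rw [Finsupp.sum_smul_index' (fun g => by simp), Finsupp.smul_sum]
  refine Finset.sum_congr rfl fun g _ => ?_
  show ((c • t g : ℝ) : ℂ) • _ = (c : ℂ) • ((t g : ℝ) : ℂ) • _
  rw [smul_eq_mul, Complex.ofReal_mul, mul_smul]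

theorem cj_sum' (a b : unitary (H →L[ℂ] H)) {ι : Type} (s : Finset ι) (f : ι → (G2 →₀ ℝ))
    (x : H →L[ℂ] H) : cj a b (∑ i ∈ s, f i) x = ∑ i ∈ s, cj a b (f i) x := by
  classical
  induction s using Finset.induction_on with
  | empty => simp [cj_zero']
  | insert i s hi ih => rw [Finset.sum_insert hi, Finset.sum_insert hi, cj_add', ih]

theorem cj_act' (a b : unitary (H →L[ℂ] H)) (z : G2) (t : G2 →₀ ℝ) (x : H →L[ℂ] H) :
    cj a b (act z⁻¹ t) x = star (ro a b z) * cj a b t x * ro a b z := by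
  unfold cj act
  rw [Finsupp.sum_mapDomain_index_inj (mul_right_injective z⁻¹)]
  rw [Finsupp.sum, Finsupp.sum, Finset.mul_sum, Finset.sum_mul]
  refine Finset.sum_congr rfl fun g _ => ?_
  have h1 : ro a b (z⁻¹ * g) = star (ro a b z) * ro a b g := by
    unfold ro
    rw [map_mul, map_inv]
    rfl
  rw [h1, star_mul, star_star, mul_smul_comm, smul_mul_assoc]
  simp only [mul_assoc]

end

theorem t_CJ : S_CJ := by
  intro H _ _ _ a b m t t' x
  refine ⟨?_, ?_, ?_⟩
  · unfold Zt
    rw [cj_sum']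
    refine Finset.sum_congr rfl fun i _ => ?_
    rw [cj_smul', cj_act']
    congr 1
    push_cast
    rfl
  · have h : t - t' = t + (-1 : ℝ) • t' := by
      rw [neg_one_smul, sub_eq_add_neg]
    rw [h, cj_add', cj_smul']
    push_cast
    rw [neg_one_smul, sub_eq_add_neg]
  · unfold cj
    rw [Finsupp.sum_single_index (by simp)]
    simp [ro]

end Pool.Agent.H875R.FP
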