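import Pool.Agent.H875R.FP.Stubs2

set_option autoImplicit false

/-! The combinatorial core from the distinctness of the alternating words. -/

namespace Pool.Agent.H875R.FP

open Pool.Agent.H581R.FF (n2 act)

namespace CoreA

/-! ### the `ℓ²`-norm -/

lemma n2_sq {α : Type} (c : α →₀ ℝ) (S : Finset α) (h : c.support ⊆ S) :
    n2 c = Real.sqrt (∑ w ∈ S, c w ^ 2) := by
  unfold n2
  congr 1
  apply Finset.sum_subset h
  intro w _ hw
  rw [Finsupp.notMem_support_iff.mp hw]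
  simp

lemma n2_nonneg {α : Type} (c : α →₀ ℝ) : 0 ≤ n2 c := Real.sqrt_nonneg _

lemma n2_add {α : Type} (f g : α →₀ ℝ) : n2 (f + g) ≤ n2 f + n2 g := by
  classical
  set S := f.support ∪ g.support with hS
  rw [n2_sq (f + g) S Finsupp.support_add, n2_sq f S Finset.subset_union_left,
    n2_sq g S Finset.subset_union_right]
  set A := ∑ w ∈ S, f w ^ 2 with hA
  set B := ∑ w ∈ S, g w ^ 2 with hB
  have hA0 : 0 ≤ A := Finset.sum_nonneg fun _ _ => sq_nonneg _
  have hB0 : 0 ≤ B := Finset.sum_nonneg fun _ _ => sq_nonneg _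
  rw [Real.sqrt_le_left (by positivity)]
  have h1 : ∑ w ∈ S, (f + g) w ^ 2 = A + B + 2 * ∑ w ∈ S, f w * g w := by
    rw [hA, hB, Finset.mul_sum, ← Finset.sum_add_distrib, ← Finset.sum_add_distrib]
    refine Finset.sum_congr rfl fun w _ => ?_
    rw [Finsupp.add_apply]
    ring
  have h2 : ∑ w ∈ S, f w * g w ≤ Real.sqrt A * Real.sqrt B :=
    Real.sum_mul_le_sqrt_mul_sqrt S f g
  rw [h1]
  have h3 := Real.sq_sqrt hA0
  have h4 := Real.sq_sqrt hB0
  nlinarith

lemma n2_zero {α : Type} : n2 (0 : α →₀ ℝ) = 0 := by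
  simp [n2]

lemma n2_sum {α I : Type} (S : Finset I) (f : I → α →₀ ℝ) :
    n2 (∑ i ∈ S, f i) ≤ ∑ i ∈ S, n2 (f i) := by
  classical
  induction S using Finset.induction_on with
  | empty => simp [n2_zero]
  | insert i S hi ih =>
    rw [Finset.sum_insert hi, Finset.sum_insert hi]
    exact (n2_add _ _).trans (by linarith)

lemma n2_smul {α : Type} (r : ℝ) (c : α →₀ ℝ) : n2 (r • c) = |r| * n2 c := by
  rw [n2_sq (r • c) c.support Finsupp.support_smul]
  unfold n2
  rw [← Real.sqrt_sq_eq_abs, ← Real.sqrt_mul (sq_nonneg r), Finset.mul_sum]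
  congr 1
  refine Finset.sum_congr rfl fun w _ => ?_
  rw [Finsupp.smul_apply, smul_eq_mul]
  ring

lemma n2_act {α : Type} [Group α] (x : α) (c : α →₀ ℝ) : n2 (act x c) = n2 c := by
  classical
  unfold n2 act
  have hinj : Function.Injective fun w : α => x * w := mul_right_injective x
  rw [Finsupp.mapDomain_support_of_injective hinj, Finset.sum_image (fun a _ b _ h => hinj h)]
  congr 1
  refine Finset.sum_congr rfl fun w _ => ?_
  rw [Finsupp.mapDomain_apply hinj]

lemma sum_sq_single {I α : Type} (S : Finset I) (φ : I → α) (e : I → ℝ)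
    (hφ : Set.InjOn φ S) :
    ∑ w ∈ (∑ i ∈ S, Finsupp.single (φ i) (e i)).support,
      ((∑ i ∈ S, Finsupp.single (φ i) (e i)) w) ^ 2 = ∑ i ∈ S, e i ^ 2 := by
  classical
  set f : α →₀ ℝ := ∑ i ∈ S, Finsupp.single (φ i) (e i) with hf
  have h1 : ∀ i ∈ S, f (φ i) = e i := by
    intro i hi
    rw [hf, Finsupp.finsetSum_apply, Finset.sum_eq_single i]
    · simp
    · intro j hj hji
      rw [Finsupp.single_apply, if_neg]
      intro h
      exact hji (hφ hj hi h)
    · intro h; exact absurd hi h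
  have h2 : f.support ⊆ S.image φ := by
    intro w hw
    by_contra h
    apply Finsupp.mem_support_iff.mp hw
    rw [hf, Finsupp.finsetSum_apply]
    apply Finset.sum_eq_zero
    intro i hi
    rw [Finsupp.single_apply, if_neg]
    intro h'
    exact h (Finset.mem_image.mpr ⟨i, hi, h'⟩)
  rw [Finset.sum_subset h2 (fun w _ hw => by rw [Finsupp.notMem_support_iff.mp hw]; simp),
    Finset.sum_image hφ]
  exact Finset.sum_congr rfl fun i hi => by rw [h1 i hi]

lemma n2_single {I α : Type} (S : Finset I) (φ : I → α) (e : I → ℝ) (hφ : Set.InjOn φ S)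
    (δ : ℝ) (hδ : 0 ≤ δ) (h : ∑ i ∈ S, e i ^ 2 ≤ δ ^ 2) :
    n2 (∑ i ∈ S, Finsupp.single (φ i) (e i)) ≤ δ := by
  unfold n2
  rw [sum_sq_single S φ e hφ, Real.sqrt_le_left hδ]
  exact h

lemma act_single {α : Type} [Group α] (y w : α) (r : ℝ) :
    act y (Finsupp.single w r) = Finsupp.single (y * w) r := by
  simp [act]

lemma act_sum {α I : Type} [Group α] (y : α) (S : Finset I) (f : I → α →₀ ℝ) :
    act y (∑ i ∈ S, f i) = ∑ i ∈ S, act y (f i) := by
  unfold act
  exact Finsupp.mapDomain_finsetSum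

/-! ### words -/

instance (q : ℕ) (w : List (ℕ × ℕ)) : Decidable (adm3 q w) := by
  cases w with
  | nil => exact instDecidableTrue
  | cons a t => unfold adm3; infer_instance

/-- positions -/
def II (m : ℕ) : Finset ℕ := (Finset.range (m + 1)).filter fun q => 4 ≤ q ∧ q + 4 ≤ m

lemma mem_II {m q : ℕ} : q ∈ II m ↔ 4 ≤ q ∧ q + 4 ≤ m := by
  unfold II
  simp only [Finset.mem_filter, Finset.mem_range]
  constructor
  · exact fun h => h.2
  · exact fun h => ⟨by omega, h⟩

lemma II_card {m : ℕ} (hm : 8 ≤ m) : (II m).card = m - 7 := by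
  have : II m = Finset.Icc 4 (m - 4) := by
    ext q
    rw [mem_II, Finset.mem_Icc]
    omega
  rw [this, Nat.card_Icc]
  omega

/-- sign -/
def eps (p : ℕ) : ℝ := (-1) ^ (p + 1)

lemma eps_sq (p : ℕ) : eps p * eps p = 1 := by
  unfold eps
  rw [← mul_pow]
  norm_num

/-- sign of a word -/
def sg : List (ℕ × ℕ) → ℝ
  | [] => 1
  | (p, q) :: w => eps p * (eps q * sg w)

lemma sg_sq (w : List (ℕ × ℕ)) : sg w * sg w = 1 := by
  induction w with
  | nil => simp [sg]
  | cons a w ih =>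
    obtain ⟨p, q⟩ := a
    simp only [sg]
    calc eps p * (eps q * sg w) * (eps p * (eps q * sg w)) =
        (eps p * eps p) * ((eps q * eps q) * (sg w * sg w)) := by ring
      _ = 1 := by rw [eps_sq, eps_sq, ih]; ring

/-- the valid words of length `n` -/
def W (m : ℕ) : ℕ → Finset (List (ℕ × ℕ))
  | 0 => {[]}
  | n + 1 => (((II m) ×ˢ (II m)) ×ˢ W m n).filter
      (fun z => z.1.1 ≠ z.1.2 ∧ adm3 z.1.2 z.2) |>.image fun z => z.1 :: z.2

/-- admissible indices in front of a word -/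
def Ad' (m : ℕ) (w : List (ℕ × ℕ)) : Finset ℕ := (II m).filter fun q => adm3 q w

lemma mem_W_succ {m n : ℕ} {p q : ℕ} {w : List (ℕ × ℕ)} : (p, q) :: w ∈ W m (n + 1) ↔
    (p ∈ II m) ∧ (q ∈ Ad' m w) ∧ p ≠ q ∧ w ∈ W m n := by
  simp only [W, Ad', Finset.mem_image, Finset.mem_filter, Finset.mem_product, Prod.exists]
  constructor
  · rintro ⟨p', q', w', ⟨⟨⟨h1, h2⟩, h3⟩, h4, h5⟩, h6⟩
    simp only [List.cons.injEq, Prod.mk.injEq] at h6
    obtain ⟨⟨rfl, rfl⟩, rfl⟩ := h6
    exact ⟨h1, ⟨h2, h5⟩, h4, h3⟩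
  · rintro ⟨h1, ⟨h2, h5⟩, h4, h3⟩
    exact ⟨p, q, w, ⟨⟨⟨h1, h2⟩, h3⟩, h4, h5⟩, rfl⟩

lemma W_len {m n : ℕ} {w : List (ℕ × ℕ)} (h : w ∈ W m n) : w.length = n := by
  induction n generalizing w with
  | zero => simp only [W, Finset.mem_singleton] at h; rw [h]; rfl
  | succ n ih =>
    cases w with
    | nil => simp [W] at h
    | cons a w =>
      obtain ⟨p, q⟩ := a
      rw [mem_W_succ] at h
      simp [ih h.2.2.2]

lemma W_vd {m n : ℕ} {w : List (ℕ × ℕ)} (h : w ∈ W m n) : Vdz m w := by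
  induction n generalizing w with
  | zero => simp only [W, Finset.mem_singleton] at h; rw [h]; trivial
  | succ n ih =>
    cases w with
    | nil => simp [W] at h
    | cons a w =>
      obtain ⟨p, q⟩ := a
      rw [mem_W_succ] at h
      obtain ⟨h1, h2, h3, h4⟩ := h
      simp only [Ad', Finset.mem_filter] at h2
      exact ⟨mem_II.1 h1, mem_II.1 h2.1, h3, h2.2, ih h4⟩

lemma W_card (m n : ℕ) : (W m n).card ≤ (II m).card ^ (2 * n) := by
  induction n with
  | zero => simp [W]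
  | succ n ih =>
    calc (W m (n + 1)).card ≤ ((((II m) ×ˢ (II m)) ×ˢ W m n).filter
      (fun z => z.1.1 ≠ z.1.2 ∧ adm3 z.1.2 z.2)).card := Finset.card_image_le
      _ ≤ (((II m) ×ˢ (II m)) ×ˢ W m n).card := Finset.card_filter_le _ _
      _ = (II m).card * (II m).card * (W m n).card := by simp [Finset.card_product]
      _ ≤ (II m).card * (II m).card * (II m).card ^ (2 * n) := Nat.mul_le_mul_left _ ih
      _ = (II m).card ^ (2 * (n + 1)) := by ring

lemma Ad'_le (m : ℕ) (w : List (ℕ × ℕ)) : (Ad' m w).card ≤ (II m).card :=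
  Finset.card_filter_le _ _

lemma Ad'_nil (m : ℕ) : Ad' m [] = II m := by
  simp [Ad', adm3]

lemma Ad'_ge (m : ℕ) (w : List (ℕ × ℕ)) : (II m).card ≤ (Ad' m w).card + 5 := by
  cases w with
  | nil => rw [Ad'_nil]; omega
  | cons a w =>
    obtain ⟨p, r⟩ := a
    have h : II m ⊆ Ad' m ((p, r) :: w) ∪ Finset.Icc (p - 2) (p + 2) := by
      intro q hq
      rw [Finset.mem_union]
      by_cases h : p + 3 ≤ q ∨ q + 3 ≤ p
      · exact Or.inl (Finset.mem_filter.mpr ⟨hq, h⟩)
      · right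
        rw [Finset.mem_Icc]
        omega
    have h2 := Finset.card_le_card h
    have h3 := Finset.card_union_le (Ad' m ((p, r) :: w)) (Finset.Icc (p - 2) (p + 2))
    have h4 : (Finset.Icc (p - 2) (p + 2)).card ≤ 5 := by
      rw [Nat.card_Icc]
      omega
    omega

/-- level `n` part of the solution -/
noncomputable def C (m : ℕ) (s : ℕ → ℝ) (n : ℕ) : G2 →₀ ℝ :=
  ∑ w ∈ W m n, ∑ q ∈ Ad' m w, Finsupp.single (zz m q * valz m w) (eps q * (sg w * s n))

lemma sum_W_succ (m : ℕ) {M : Type*} [AddCommMonoid M] (f : List (ℕ × ℕ) → M) (n : ℕ) :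
    ∑ w ∈ W m n, ∑ q ∈ Ad' m w, ∑ p ∈ (II m).filter (fun p => p ≠ q), f ((p, q) :: w)
      = ∑ w ∈ W m (n + 1), f w := by
  rw [Finset.sum_congr rfl (fun w _ => Finset.sum_sigma' _ _ _), Finset.sum_sigma']
  refine Finset.sum_bij (fun z _ => (z.2.2, z.2.1) :: z.1) ?_ ?_ ?_ ?_
  · rintro ⟨w, q, p⟩ h
    simp only [Finset.mem_sigma, Finset.mem_filter] at h
    rw [mem_W_succ]
    exact ⟨h.2.2.1, h.2.1, h.2.2.2, h.1⟩
  · rintro ⟨w, q, p⟩ h ⟨w', q', p'⟩ h' e
    simp only [List.cons.injEq, Prod.mk.injEq] at e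
    obtain ⟨⟨rfl, rfl⟩, rfl⟩ := e
    rfl
  · intro w hw
    cases w with
    | nil => simp [W] at hw
    | cons a w =>
      obtain ⟨p, q⟩ := a
      rw [mem_W_succ] at hw
      refine ⟨⟨w, q, p⟩, ?_, rfl⟩
      simp only [Finset.mem_sigma, Finset.mem_filter]
      exact ⟨hw.2.2.2, hw.2.1, hw.1, hw.2.2.1⟩
  · rintro ⟨w, q, p⟩ h
    rfl

lemma act_C (m : ℕ) (s : ℕ → ℝ) (n : ℕ) :
    ∑ p ∈ II m, eps p • act (zz m p)⁻¹ (C m s n) =
      ∑ w ∈ W m n, Finsupp.single (valz m w) (sg w * (s n * (Ad' m w).card)) +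
      ∑ w ∈ W m (n + 1), Finsupp.single (valz m w) (sg w * s n) := by
  rw [← sum_W_succ, ← Finset.sum_add_distrib]
  unfold C
  simp_rw [act_sum, act_single, Finset.smul_sum, Finsupp.smul_single, smul_eq_mul]
  rw [Finset.sum_comm]
  refine Finset.sum_congr rfl fun w hw => ?_
  rw [Finset.sum_comm]
  have h1 : Finsupp.single (valz m w) (sg w * (s n * (Ad' m w).card)) =
      ∑ q ∈ Ad' m w, Finsupp.single (valz m w) (sg w * s n) := by
    rw [Finset.sum_const, Finsupp.smul_single, nsmul_eq_mul]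
    congr 1
    ring
  rw [h1, ← Finset.sum_add_distrib]
  refine Finset.sum_congr rfl fun q hq => ?_
  have hq' : q ∈ II m := (Finset.mem_filter.mp hq).1
  rw [← Finset.sum_filter_add_sum_filter_not (II m) (fun p => p ≠ q), add_comm]
  congr 1
  · have h2 : (II m).filter (fun p => ¬ p ≠ q) = {q} := by
      ext p
      simp only [Finset.mem_filter, not_not, Finset.mem_singleton]
      constructor
      · exact fun h => h.2
      · rintro rfl; exact ⟨hq', rfl⟩
    rw [h2, Finset.sum_singleton, inv_mul_cancel_left]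
    congr 1
    calc eps q * (eps q * (sg w * s n)) = (eps q * eps q) * (sg w * s n) := by ring
      _ = sg w * s n := by rw [eps_sq, one_mul]
  · refine Finset.sum_congr rfl fun p hp => ?_
    simp only [valz, sg]
    congr 1
    ring

/-- the coefficients -/
noncomputable def sc (N L : ℕ) (n : ℕ) : ℝ := (-1) ^ n * (1 - n / N) / (L : ℝ) ^ (n + 1)

/-- the coefficients of the error -/
noncomputable def ec (m N L : ℕ) (n : ℕ) (w : List (ℕ × ℕ)) : ℝ :=
  sc N L n * (Ad' m w).card + sc N L (n - 1)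

lemma ec_bound {m N L n : ℕ} (hn : 1 ≤ n) (hN : n ≤ N) (hL : 1 ≤ L) (hm : (II m).card = L)
    (w : List (ℕ × ℕ)) :
    (ec m N L n w) ^ 2 ≤ (5 / L + 1 / N) ^ 2 / (L : ℝ) ^ (2 * n) := by
  obtain ⟨k, rfl⟩ : ∃ k, n = k + 1 := ⟨n - 1, by omega⟩
  have hL' : (0 : ℝ) < L := by exact_mod_cast hL
  have hN' : (0 : ℝ) < N := by exact_mod_cast (by omega : 0 < N)
  have hd1 : ((Ad' m w).card : ℝ) ≤ L := by exact_mod_cast (hm ▸ Ad'_le m w)
  have hd2 : (L : ℝ) ≤ (Ad' m w).card + 5 := by exact_mod_cast (hm ▸ Ad'_ge m w)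
  set t : ℝ := 1 - ((k + 1 : ℕ) : ℝ) / N with ht
  have ht0 : 0 ≤ t := by
    rw [ht, sub_nonneg, div_le_one hN']
    exact_mod_cast hN
  have ht1 : t ≤ 1 := by
    rw [ht]; have : (0 : ℝ) ≤ ((k + 1 : ℕ) : ℝ) / N := by positivity
    linarith
  set v : ℝ := (L - (Ad' m w).card) / L with hv
  have hv0 : 0 ≤ v := div_nonneg (by linarith) hL'.le
  have hv1 : v ≤ 5 / L := div_le_div_of_nonneg_right (by linarith) hL'.le
  have e1 : ec m N L (k + 1) w = (-1) ^ (k + 1) / (L : ℝ) ^ (k + 1) * (-(t * v + 1 / N)) := by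
    unfold ec sc
    rw [Nat.add_sub_cancel, ht, hv]
    push_cast
    field_simp
    ring
  have e2 : (ec m N L (k + 1) w) ^ 2 = (t * v + 1 / N) ^ 2 / (L : ℝ) ^ (2 * (k + 1)) := by
    rw [e1, mul_pow, div_pow, neg_sq, ← pow_mul, ← pow_mul, mul_comm (k + 1) 2, pow_mul (-1 : ℝ)]
    norm_num
    ring
  rw [e2]
  apply div_le_div_of_nonneg_right _ (by positivity)
  have h1 : t * v ≤ 5 / L := by
    calc t * v ≤ 1 * v := mul_le_mul_of_nonneg_right ht1 hv0
      _ = v := one_mul v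
      _ ≤ 5 / L := hv1
  have h2 : 0 ≤ t * v := mul_nonneg ht0 hv0
  have h3 : (0 : ℝ) ≤ 1 / N := by positivity
  exact pow_le_pow_left₀ (by linarith) (by linarith) 2

lemma sc_zero {N L : ℕ} : sc N L 0 = 1 / L := by
  unfold sc
  simp

lemma sc_N {N L : ℕ} (hN : 1 ≤ N) : sc N L N = 0 := by
  have hN' : (0 : ℝ) < N := by exact_mod_cast hN
  unfold sc
  rw [div_self hN'.ne']
  simp

lemma sc_sq {N L n : ℕ} (hN : n ≤ N) (hN0 : 1 ≤ N) :
    (sc N L n) ^ 2 ≤ 1 / (L : ℝ) ^ (2 * n + 2) := by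
  have hN' : (0 : ℝ) < N := by exact_mod_cast hN0
  unfold sc
  set t : ℝ := 1 - (n : ℝ) / N with ht
  have ht0 : 0 ≤ t := by
    rw [ht, sub_nonneg, div_le_one hN']
    exact_mod_cast hN
  have ht1 : t ≤ 1 := by
    rw [ht]; have : (0 : ℝ) ≤ (n : ℝ) / N := by positivity
    linarith
  rw [div_pow, mul_pow, ← pow_mul, ← pow_mul, mul_comm n 2, pow_mul (-1 : ℝ)]
  have e : (n + 1) * 2 = 2 * n + 2 := by ring
  rw [e]
  norm_num
  rw [← one_div]
  apply div_le_div_of_nonneg_right _ (by positivity)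
  exact pow_le_one₀ ht0 ht1

/-- the solution -/
noncomputable def cc (m N L : ℕ) : G2 →₀ ℝ := ∑ n ∈ Finset.range N, C m (sc N L) n

lemma main_eq (m N L : ℕ) (hN : 1 ≤ N) (hL : 1 ≤ L) (hm : (II m).card = L) :
    ∑ p ∈ II m, eps p • act (zz m p)⁻¹ (cc m N L) - Finsupp.single 1 1 =
      ∑ n ∈ Finset.Icc 1 N, ∑ w ∈ W m n, Finsupp.single (valz m w) (sg w * ec m N L n w) := by
  have hL' : (0 : ℝ) < L := by exact_mod_cast hL
  unfold cc
  simp_rw [act_sum, Finset.smul_sum]
  rw [Finset.sum_comm]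
  simp_rw [act_C]
  rw [Finset.sum_add_distrib]
  have h1 : ∑ n ∈ Finset.range N, ∑ w ∈ W m n,
      Finsupp.single (valz m w) (sg w * (sc N L n * (Ad' m w).card)) =
      Finsupp.single 1 1 + ∑ n ∈ Finset.Icc 1 N, ∑ w ∈ W m n,
      Finsupp.single (valz m w) (sg w * (sc N L n * (Ad' m w).card)) := by
    have h2 : ∑ n ∈ Finset.range (N + 1), ∑ w ∈ W m n,
      Finsupp.single (valz m w) (sg w * (sc N L n * (Ad' m w).card)) =
      ∑ n ∈ Finset.range N, ∑ w ∈ W m n,
      Finsupp.single (valz m w) (sg w * (sc N L n * (Ad' m w).card)) := by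
      rw [Finset.sum_range_succ, sc_N hN]
      simp
    rw [← h2, Finset.sum_range_succ', add_comm]
    congr 1
    · simp only [W, Finset.sum_singleton, valz, sg]
      rw [Ad'_nil, hm, sc_zero, one_div, inv_mul_cancel₀ hL'.ne', mul_one]
    · rw [Finset.range_eq_Ico, Finset.sum_Ico_add' (fun n => ∑ w ∈ W m n,
      Finsupp.single (valz m w) (sg w * (sc N L n * (Ad' m w).card))) 0 N 1]
      rfl
  have h3 : ∑ n ∈ Finset.range N, ∑ w ∈ W m (n + 1), Finsupp.single (valz m w) (sg w * sc N L n) =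
      ∑ n ∈ Finset.Icc 1 N, ∑ w ∈ W m n, Finsupp.single (valz m w) (sg w * sc N L (n - 1)) := by
    rw [Finset.range_eq_Ico]
    have := Finset.sum_Ico_add' (fun n => ∑ w ∈ W m n,
      Finsupp.single (valz m w) (sg w * sc N L (n - 1))) 0 N 1
    simp only [Nat.add_sub_cancel] at this
    rw [this]
    rfl
  rw [h1, h3, add_assoc, add_sub_cancel_left, ← Finset.sum_add_distrib]
  refine Finset.sum_congr rfl fun n _ => ?_
  rw [← Finset.sum_add_distrib]
  refine Finset.sum_congr rfl fun w _ => ?_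
  rw [← Finsupp.single_add, ← mul_add]
  rfl

lemma err_le (h1 : S_INJZ) (m N L : ℕ) (hN : 1 ≤ N) (hL : 1 ≤ L) (hm : (II m).card = L)
    (δ : ℝ) (hδ : 0 ≤ δ) (hle : N * (5 / L + 1 / N : ℝ) ^ 2 ≤ δ ^ 2) :
    n2 (∑ p ∈ II m, eps p • act (zz m p)⁻¹ (cc m N L) - Finsupp.single 1 1) ≤ δ := by
  rw [main_eq m N L hN hL hm, Finset.sum_sigma']
  apply n2_single _ _ _ _ δ hδ
  · rw [Finset.sum_sigma]
    refine le_trans ?_ hle
    calc ∑ n ∈ Finset.Icc 1 N, ∑ w ∈ W m n, (sg w * ec m N L n w) ^ 2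
        ≤ ∑ n ∈ Finset.Icc 1 N, ((5 / L + 1 / N) ^ 2 : ℝ) := by
          refine Finset.sum_le_sum fun n hn => ?_
          rw [Finset.mem_Icc] at hn
          have hL' : (0 : ℝ) < L := by exact_mod_cast hL
          calc ∑ w ∈ W m n, (sg w * ec m N L n w) ^ 2
              ≤ ∑ w ∈ W m n, (5 / L + 1 / N : ℝ) ^ 2 / (L : ℝ) ^ (2 * n) := by
                refine Finset.sum_le_sum fun w _ => ?_
                have e : (sg w * ec m N L n w) ^ 2 = ec m N L n w ^ 2 := by
                  rw [mul_pow, pow_two (sg w), sg_sq, one_mul]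
                rw [e]
                exact ec_bound hn.1 hn.2 hL hm w
            _ = (W m n).card * ((5 / L + 1 / N : ℝ) ^ 2 / (L : ℝ) ^ (2 * n)) := by
                rw [Finset.sum_const, nsmul_eq_mul]
            _ ≤ (L : ℝ) ^ (2 * n) * ((5 / L + 1 / N : ℝ) ^ 2 / (L : ℝ) ^ (2 * n)) := by
                apply mul_le_mul_of_nonneg_right _ (by positivity)
                have := W_card m n
                rw [hm] at this
                exact_mod_cast this
            _ = (5 / L + 1 / N : ℝ) ^ 2 := by field_simp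
      _ = N * (5 / L + 1 / N) ^ 2 := by
          rw [Finset.sum_const, nsmul_eq_mul, Nat.card_Icc, Nat.add_sub_cancel]
  · rintro ⟨n, w⟩ h ⟨n', w'⟩ h' e
    simp only [Finset.coe_sigma, Set.mem_sigma_iff, Finset.mem_coe] at h h'
    have h2 := (h1 m).1 w w' (W_vd h.2) (W_vd h'.2) e
    subst h2
    have h3 := W_len h.2
    have h4 := W_len h'.2
    have h5 : n = n' := by omega
    subst h5
    rfl

lemma cc_eq (m N L : ℕ) : cc m N L =
    ∑ z ∈ (Finset.range N).sigma fun n => (W m n).sigma fun w => Ad' m w,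
      Finsupp.single (zz m z.2.2 * valz m z.2.1) (eps z.2.2 * (sg z.2.1 * sc N L z.1)) := by
  unfold cc C
  rw [Finset.sum_sigma]
  refine Finset.sum_congr rfl fun n _ => ?_
  rw [Finset.sum_sigma]

lemma cc_le (h1 : S_INJZ) (m N L : ℕ) (hN : 1 ≤ N) (hL : 1 ≤ L) (hm : (II m).card = L)
    (δ : ℝ) (hδ : 0 ≤ δ) (hle : (N : ℝ) / L ≤ δ ^ 2) : n2 (cc m N L) ≤ δ := by
  rw [cc_eq]
  apply n2_single _ _ _ _ δ hδ
  · rw [Finset.sum_sigma]
    refine le_trans ?_ hle
    have hL' : (0 : ℝ) < L := by exact_mod_cast hL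
    calc ∑ n ∈ Finset.range N, ∑ z ∈ (W m n).sigma fun w => Ad' m w,
          (eps z.2 * (sg z.1 * sc N L n)) ^ 2
        ≤ ∑ n ∈ Finset.range N, (1 / L : ℝ) := by
          refine Finset.sum_le_sum fun n hn => ?_
          rw [Finset.mem_range] at hn
          have e0 : ∀ z : (_ : List (ℕ × ℕ)) × ℕ, (eps z.2 * (sg z.1 * sc N L n)) ^ 2 =
              sc N L n ^ 2 := by
            intro z
            rw [mul_pow, mul_pow, pow_two (sg z.1), sg_sq, pow_two (eps z.2), eps_sq, one_mul,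
              one_mul]
          calc ∑ z ∈ (W m n).sigma fun w => Ad' m w, (eps z.2 * (sg z.1 * sc N L n)) ^ 2
              = ((W m n).sigma fun w => Ad' m w).card * sc N L n ^ 2 := by
                rw [Finset.sum_congr rfl fun z _ => e0 z, Finset.sum_const, nsmul_eq_mul]
            _ ≤ ((L : ℝ) ^ (2 * n) * L) * (1 / (L : ℝ) ^ (2 * n + 2)) := by
                apply mul_le_mul _ (sc_sq hn.le hN) (by positivity) (by positivity)
                have h1 : ((W m n).sigma fun w => Ad' m w).card ≤ L ^ (2 * n) * L := by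
                  rw [Finset.card_sigma]
                  calc ∑ w ∈ W m n, (Ad' m w).card ≤ ∑ w ∈ W m n, L :=
                        Finset.sum_le_sum fun w _ => hm ▸ Ad'_le m w
                    _ = (W m n).card * L := by rw [Finset.sum_const, smul_eq_mul]
                    _ ≤ L ^ (2 * n) * L := Nat.mul_le_mul_right _ (hm ▸ W_card m n)
                exact_mod_cast h1
            _ = 1 / L := by
                rw [pow_add]
                field_simp
      _ = N / L := by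
          rw [Finset.sum_const, nsmul_eq_mul, Finset.card_range]
          ring
  · rintro ⟨n, w, q⟩ h ⟨n', w', q'⟩ h' e
    simp only [Finset.coe_sigma, Set.mem_sigma_iff, Finset.mem_coe] at h h'
    obtain ⟨_, g1, g2⟩ := h
    obtain ⟨_, g1', g2'⟩ := h'
    simp only [Ad', Finset.mem_filter] at g2 g2'
    obtain ⟨e1, e2⟩ := (h1 m).2 w w' q q' (W_vd g1) (W_vd g1') (mem_II.1 g2.1) (mem_II.1 g2'.1)
      g2.2 g2'.2 e
    subst e1 e2
    have h3 := W_len g1
    have h4 := W_len g1'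
    have h5 : n = n' := by omega
    subst h5
    rfl

/-! ### support -/

lemma blk_mem (i : ℕ) : blk i ∈ Kev := by
  unfold blk Kev
  rw [pow_mul]
  apply Subgroup.pow_mem
  apply Subgroup.subset_closure
  cases (i % 2 == 0)
  · exact Or.inl rfl
  · exact Or.inr rfl

lemma zz_mem (m i : ℕ) : zz m i ∈ Kev := by
  unfold zz
  apply Subgroup.list_prod_mem
  intro x hx
  obtain ⟨j, _, rfl⟩ := List.mem_map.1 hx
  exact blk_mem j

lemma valz_mem (m : ℕ) (w : List (ℕ × ℕ)) : valz m w ∈ Kev := by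
  induction w with
  | nil => exact Subgroup.one_mem _
  | cons a w ih =>
    obtain ⟨p, q⟩ := a
    exact Subgroup.mul_mem _ (Subgroup.inv_mem _ (zz_mem m p)) (Subgroup.mul_mem _ (zz_mem m q) ih)

lemma cc_supp (m N L : ℕ) : ∀ g ∈ (cc m N L).support, g ∈ Kev := by
  classical
  intro g hg
  rw [cc_eq] at hg
  have h1 := Finsupp.support_finsetSum hg
  rw [Finset.mem_biUnion] at h1
  obtain ⟨z, _, hz⟩ := h1
  have h2 := Finsupp.support_single_subset hz
  rw [Finset.mem_singleton] at h2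
  rw [h2]
  exact Subgroup.mul_mem _ (zz_mem m _) (valz_mem m _)

lemma cc_chi (h2 : S_CHIZ) (m N L : ℕ) (hN : 1 ≤ N) (hL : 1 ≤ L) (hm : (II m).card = L) :
    ((cc m N L).sum fun g c => c * chi m g) = 1 := by
  have hL' : (0 : ℝ) < L := by exact_mod_cast hL
  let φ : (G2 →₀ ℝ) →+ ℝ := Finsupp.liftAddHom fun g => AddMonoidHom.mulRight (chi m g)
  have e : ((cc m N L).sum fun g c => c * chi m g) = φ (cc m N L) := rfl
  have es : ∀ (g : G2) (c : ℝ), φ (Finsupp.single g c) = c * chi m g := by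
    intro g c
    simp [φ]
  rw [e]
  unfold cc C
  rw [map_sum, Finset.sum_eq_single 0]
  · simp only [W, Finset.sum_singleton, valz, sg]
    rw [Ad'_nil, map_sum]
    have h3 : ∀ q ∈ II m, φ (Finsupp.single (zz m q * 1) (eps q * (1 * sc N L 0))) = 1 / L := by
      intro q hq
      rw [es, sc_zero]
      have h4 := h2 m q [] trivial (mem_II.1 hq) trivial
      rw [if_pos rfl] at h4
      have h5 : chi m (zz m q * 1) = eps q := h4
      rw [h5]
      calc eps q * (1 * (1 / (L : ℝ))) * eps q = (eps q * eps q) * (1 / L) := by ring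
        _ = 1 / L := by rw [eps_sq, one_mul]
    rw [Finset.sum_congr rfl h3, Finset.sum_const, hm, nsmul_eq_mul]
    field_simp
  · intro n _ hn
    rw [map_sum]
    apply Finset.sum_eq_zero
    intro w hw
    rw [map_sum]
    apply Finset.sum_eq_zero
    intro q hq
    rw [es]
    have hq' := Finset.mem_filter.1 hq
    have h4 := h2 m q w (W_vd hw) (mem_II.1 hq'.1) hq'.2
    have hne : w ≠ [] := by
      intro h
      have := W_len hw
      rw [h] at this
      exact hn this.symm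
    rw [if_neg hne] at h4
    rw [h4, mul_zero]
  · intro h
    exact absurd (Finset.mem_range.2 (by omega)) h

/-- the seven remaining terms -/
lemma Zt_eq (m : ℕ) (hm : 8 ≤ m) (t : G2 →₀ ℝ) :
    Zt m t = ∑ p ∈ II m, eps p • act (zz m p)⁻¹ t +
      ∑ p ∈ ({1, 2, 3} ∪ {m - 3, m - 2, m - 1, m} : Finset ℕ), eps p • act (zz m p)⁻¹ t := by
  classical
  have h1 : Zt m t = ∑ p ∈ Finset.Icc 1 m, eps p • act (zz m p)⁻¹ t := by
    unfold Zt
    have h2 := Finset.sum_Ico_add' (fun p => eps p • act (zz m p)⁻¹ t) 0 m 1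
    rw [← Finset.range_eq_Ico] at h2
    have h3 : Finset.Ico (0 + 1) (m + 1) = Finset.Icc 1 m := rfl
    rw [h3] at h2
    rw [← h2]
    refine Finset.sum_congr rfl fun i _ => ?_
    have : eps (i + 1) = (-1 : ℝ) ^ i := by
      unfold eps
      rw [pow_succ, pow_succ]
      ring
    rw [this]
  rw [h1, ← Finset.sum_union]
  · congr 1
    ext p
    simp only [Finset.mem_Icc, Finset.mem_union, mem_II, Finset.mem_insert, Finset.mem_singleton]
    omega
  · rw [Finset.disjoint_left]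
    intro p hp hp'
    rw [mem_II] at hp
    simp only [Finset.mem_union, Finset.mem_insert, Finset.mem_singleton] at hp'
    omega

lemma abs_eps (p : ℕ) : |eps p| = 1 := by
  unfold eps
  rw [abs_pow]
  norm_num

end CoreA

open CoreA in
theorem t_COREA (h1 : S_INJZ) (h2 : S_CHIZ) : S_CORE := by
  classical
  intro ε hε
  obtain ⟨K, hK⟩ := exists_nat_gt (169 / ε ^ 2)
  have hε2 : 0 < ε ^ 2 := by positivity
  have hK0 : (0 : ℝ) < K := lt_trans (by positivity) hK
  have hK1 : 1 ≤ K := by exact_mod_cast hK0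
  obtain ⟨N, hN⟩ : ∃ N : ℕ, N = 2 * K := ⟨_, rfl⟩
  have hN1 : 1 ≤ N := by omega
  have hN0 : (0 : ℝ) < N := by exact_mod_cast hN1
  have hN1' : (1 : ℝ) ≤ N := by exact_mod_cast hN1
  have hNK : (K : ℝ) ≤ N := by exact_mod_cast (by omega : K ≤ N)
  obtain ⟨L, hLN⟩ : ∃ L : ℕ, L = N ^ 2 := ⟨_, rfl⟩
  have hL : 1 ≤ L := by rw [hLN]; exact Nat.one_le_pow _ _ hN1
  have hLN' : (L : ℝ) = (N : ℝ) ^ 2 := by rw [hLN]; push_cast; rfl
  obtain ⟨m, hm⟩ : ∃ m : ℕ, m = L + 7 := ⟨_, rfl⟩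
  have hm8 : 8 ≤ m := by omega
  have hcard : (II m).card = L := by rw [II_card hm8]; omega
  set δ : ℝ := Real.sqrt (1 / N) with hδ
  have hδ0 : 0 ≤ δ := Real.sqrt_nonneg _
  have hδ2 : δ ^ 2 = 1 / N := Real.sq_sqrt (by positivity)
  have hδε : 13 * δ ≤ ε := by
    have h3 : (13 * δ) ^ 2 ≤ ε ^ 2 := by
      rw [mul_pow, hδ2]
      have h4 : 169 / (N : ℝ) ≤ ε ^ 2 := by
        rw [div_le_iff₀ hN0, mul_comm]
        rw [div_lt_iff₀ hε2] at hK
        nlinarith
      calc (13 : ℝ) ^ 2 * (1 / N) = 169 / N := by ring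
        _ ≤ ε ^ 2 := h4
    exact le_of_sq_le_sq h3 hε.le
  have hcc : n2 (cc m N L) ≤ δ := by
    apply cc_le h1 m N L hN1 hL hcard δ hδ0
    rw [hδ2, hLN']
    apply le_of_eq
    field_simp
  have herr : n2 (∑ p ∈ II m, eps p • act (zz m p)⁻¹ (cc m N L) - Finsupp.single 1 1) ≤ 6 * δ := by
    apply err_le h1 m N L hN1 hL hcard _ (by positivity)
    rw [mul_pow, hδ2]
    have h3 : 5 / (L : ℝ) ≤ 5 / N := by
      rw [hLN']
      apply div_le_div_of_nonneg_left (by norm_num) hN0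
      nlinarith
    have h4 : (5 / (L : ℝ) + 1 / N) ≤ 6 / N := by
      have h5 : (6 : ℝ) / N = 5 / N + 1 / N := by ring
      linarith
    have h5 : (N : ℝ) * (5 / L + 1 / N) ^ 2 ≤ N * (6 / N) ^ 2 :=
      mul_le_mul_of_nonneg_left (pow_le_pow_left₀ (by positivity) h4 2) hN0.le
    have h6 : (N : ℝ) * (6 / N) ^ 2 = 6 ^ 2 * (1 / N) := by field_simp
    linarith
  refine ⟨m, cc m N L, ?_, cc_supp m N L, ?_, ?_, cc_chi h2 m N L hN1 hL hcard⟩
  · rw [hm, hLN, hN]
    have : (2 * K) ^ 2 + 7 = 2 * (2 * K ^ 2 + 3) + 1 := by ring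
    rw [this]
    omega
  · linarith
  · rw [Zt_eq m hm8, add_sub_right_comm]
    refine (n2_add _ _).trans ?_
    have h7 : n2 (∑ p ∈ ({1, 2, 3} ∪ {m - 3, m - 2, m - 1, m} : Finset ℕ),
        eps p • act (zz m p)⁻¹ (cc m N L)) ≤ 7 * δ := by
      refine (n2_sum _ _).trans ?_
      have h8 : ∀ p ∈ ({1, 2, 3} ∪ {m - 3, m - 2, m - 1, m} : Finset ℕ),
          n2 (eps p • act (zz m p)⁻¹ (cc m N L)) ≤ δ := by
        intro p _
        rw [n2_smul, abs_eps, one_mul, n2_act]
        exact hcc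
      refine (Finset.sum_le_sum h8).trans ?_
      rw [Finset.sum_const, nsmul_eq_mul]
      apply mul_le_mul_of_nonneg_right _ hδ0
      have h9 := Finset.card_union_le ({1, 2, 3} : Finset ℕ) {m - 3, m - 2, m - 1, m}
      have h10 : ({1, 2, 3} : Finset ℕ).card ≤ 3 := Finset.card_le_three
      have h11 : ({m - 3, m - 2, m - 1, m} : Finset ℕ).card ≤ 4 := Finset.card_le_four
      exact_mod_cast (by omega : ({1, 2, 3} ∪ {m - 3, m - 2, m - 1, m} : Finset ℕ).card ≤ 7)
    linarith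

end Pool.Agent.H875R.FP
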