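import Pool.Agent.H875R.FP.TBAS

/-! `ℓ_σ^* d ℓ_σ = τ(d)` (task CRE). -/

namespace Pool.Agent.H875R.FP

open scoped ComplexConjugate InnerProductSpace

namespace TCREaux

variable {κ H : Type} [NormedAddCommGroup H] [InnerProductSpace ℂ H] [CompleteSpace H]

/-- pairs `(∑ c_v e v, ∑ c_v e (v ++ σ :: w))`, `v` without the letter `σ` -/
def MM (F : Fock κ H) (σ : κ) (w : List κ) : Submodule ℂ (H × H) :=
  Submodule.span ℂ {x | ∃ v : List κ, σ ∉ v ∧ x = (F.e v, F.e (v ++ σ :: w))}

theorem MM_S (F : Fock κ H) (σ i : κ) (hi : i ≠ σ) (w : List κ) (x : H × H)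
    (hx : x ∈ MM F σ w) : (F.S i x.1, F.S i x.2) ∈ MM F σ w := by
  obtain ⟨h1, h2, h3, -, -, -, -, -, -, -⟩ := t_BAS κ H F
  unfold MM at hx
  induction hx using Submodule.span_induction with
  | mem x hx =>
    obtain ⟨v, hv, rfl⟩ := hx
    have hgen : ∀ v : List κ, σ ∉ v → (F.e v, F.e (v ++ σ :: w)) ∈ MM F σ w := fun v hv =>
      Submodule.subset_span ⟨v, hv, rfl⟩
    have hcons : (F.e (i :: v), F.e (i :: v ++ σ :: w)) ∈ MM F σ w :=
      hgen _ (by simp [hv, hi.symm])
    cases v with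
    | nil =>
      have e1 : F.S i (F.e []) = F.e [i] := by
        unfold Fock.S
        rw [add_apply, F.cr_e, h1, add_zero]
      have e2 : F.S i (F.e ([] ++ σ :: w)) = F.e ([i] ++ σ :: w) := by
        unfold Fock.S
        rw [add_apply, F.cr_e, List.nil_append, h3 i σ w hi, add_zero]
        rfl
      show (F.S i (F.e []), F.S i (F.e ([] ++ σ :: w))) ∈ _
      rw [e1, e2]
      exact hcons
    | cons j v =>
      have hv' : σ ∉ v := fun h => hv (List.mem_cons_of_mem _ h)
      show (F.S i (F.e (j :: v)), F.S i (F.e (j :: v ++ σ :: w))) ∈ _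
      by_cases hij : i = j
      · subst hij
        have e1 : F.S i (F.e (i :: v)) = F.e (i :: i :: v) + F.e v := by
          unfold Fock.S
          rw [add_apply, F.cr_e, h2]
        have e2 : F.S i (F.e (i :: v ++ σ :: w)) =
            F.e (i :: i :: v ++ σ :: w) + F.e (v ++ σ :: w) := by
          unfold Fock.S
          rw [add_apply, F.cr_e, List.cons_append, h2]
          rfl
        rw [e1, e2]
        exact (MM F σ w).add_mem hcons (hgen v hv')
      · have e1 : F.S i (F.e (j :: v)) = F.e (i :: j :: v) := by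
          unfold Fock.S
          rw [add_apply, F.cr_e, h3 i j v hij, add_zero]
        have e2 : F.S i (F.e (j :: v ++ σ :: w)) = F.e (i :: j :: v ++ σ :: w) := by
          unfold Fock.S
          rw [add_apply, F.cr_e, List.cons_append, h3 i j _ hij, add_zero]
          rfl
        rw [e1, e2]
        exact hcons
  | zero =>
    show (F.S i 0, F.S i 0) ∈ _
    rw [map_zero]
    exact (MM F σ w).zero_mem
  | add x y _ _ h1 h2 =>
    have := (MM F σ w).add_mem h1 h2
    show (F.S i (x.1 + y.1), F.S i (x.2 + y.2)) ∈ _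
    rw [map_add, map_add]
    exact this
  | smul a x _ h =>
    have := (MM F σ w).smul_mem a h
    show (F.S i (a • x.1), F.S i (a • x.2)) ∈ _
    rw [map_smul, map_smul]
    exact this

theorem MM_adj (F : Fock κ H) (σ : κ) (w : List κ) (d : H →L[ℂ] H)
    (hd : d ∈ StarAlgebra.adjoin ℂ (F.S '' {i | i ≠ σ})) :
    ∀ x ∈ MM F σ w, (d x.1, d x.2) ∈ MM F σ w := by
  obtain ⟨-, -, -, -, -, h6, -, -, -, -⟩ := t_BAS κ H F
  have h0 : star (F.S '' {i | i ≠ σ}) = F.S '' {i | i ≠ σ} := by
    ext x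
    constructor
    · rintro ⟨i, hi, h⟩
      refine ⟨i, hi, ?_⟩
      rw [← h6 i, h, star_star]
    · rintro ⟨i, hi, rfl⟩
      refine ⟨i, hi, ?_⟩
      exact (h6 i).symm
  have hd' : d ∈ Algebra.adjoin ℂ (F.S '' {i | i ≠ σ}) := by
    have h : d ∈ (StarAlgebra.adjoin ℂ (F.S '' {i | i ≠ σ})).toSubalgebra := hd
    rw [StarAlgebra.adjoin_toSubalgebra, h0, Set.union_self] at h
    exact h
  clear hd
  induction hd' using Algebra.adjoin_induction with
  | mem x hx =>
    obtain ⟨i, hi, rfl⟩ := hx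
    exact fun x hx => MM_S F σ i hi w x hx
  | algebraMap r =>
    intro x hx
    exact (MM F σ w).smul_mem r hx
  | add x y _ _ hx hy =>
    intro z hz
    exact (MM F σ w).add_mem (hx z hz) (hy z hz)
  | mul x y _ _ hx hy =>
    intro z hz
    exact hx _ (hy z hz)

theorem MM_val (F : Fock κ H) (σ : κ) (w : List κ) (x : H × H) (hx : x ∈ MM F σ w) :
    star (F.cr σ) x.2 = (inner ℂ F.Om x.1 : ℂ) • F.e w := by
  classical
  obtain ⟨h1, h2, h3, -, -, -, -, -, -, -⟩ := t_BAS κ H F
  unfold MM at hx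
  induction hx using Submodule.span_induction with
  | mem x hx =>
    obtain ⟨v, hv, rfl⟩ := hx
    show star (F.cr σ) (F.e (v ++ σ :: w)) = (inner ℂ (F.e []) (F.e v) : ℂ) • F.e w
    rw [BAS_inner]
    cases v with
    | nil => rw [List.nil_append, h2, if_pos rfl, one_smul]
    | cons j v =>
      rw [if_neg (by simp), zero_smul, List.cons_append]
      exact h3 σ j _ (fun h => hv (by rw [h]; exact List.mem_cons_self))
  | zero =>
    show star (F.cr σ) 0 = (inner ℂ F.Om (0 : H) : ℂ) • F.e w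
    rw [map_zero, inner_zero_right, zero_smul]
  | add x y _ _ h1 h2 =>
    show star (F.cr σ) (x.2 + y.2) = (inner ℂ F.Om (x.1 + y.1) : ℂ) • F.e w
    rw [map_add, h1, h2, inner_add_right, add_smul]
  | smul a x _ h =>
    show star (F.cr σ) (a • x.2) = (inner ℂ F.Om (a • x.1) : ℂ) • F.e w
    rw [map_smul, h, inner_smul_right, mul_smul]

end TCREaux

open TCREaux in
theorem t_CRE : S_CRE := by
  intro κ H _ _ _ F σ d hd
  have hcl : IsClosed {d : H →L[ℂ] H |
      star (F.cr σ) * d * F.cr σ = F.tau d • (1 : H →L[ℂ] H)} := by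
    apply isClosed_eq
    · fun_prop
    · unfold Fock.tau
      fun_prop
  have hsub : (StarAlgebra.adjoin ℂ (F.S '' {i | i ≠ σ}) : Set (H →L[ℂ] H)) ⊆
      {d : H →L[ℂ] H | star (F.cr σ) * d * F.cr σ = F.tau d • (1 : H →L[ℂ] H)} := by
    intro d hd
    have h1 : ∀ w, star (F.cr σ) (d (F.cr σ (F.e w))) = F.tau d • F.e w := by
      intro w
      have hm : (F.e [], F.e ([] ++ σ :: w)) ∈ MM F σ w :=
        Submodule.subset_span ⟨[], by simp, rfl⟩
      have := MM_val F σ w _ (MM_adj F σ w d hd _ hm)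
      rw [F.cr_e]
      exact this
    show star (F.cr σ) * d * F.cr σ = F.tau d • (1 : H →L[ℂ] H)
    refine ContinuousLinearMap.ext_on (s := Set.range F.e) ?_ ?_
    · rw [dense_iff_closure_eq, ← Submodule.topologicalClosure_coe, F.e.dense_span]
      rfl
    · rintro _ ⟨w, rfl⟩
      exact h1 w
  have hd' : d ∈ closure (StarAlgebra.adjoin ℂ (F.S '' {i | i ≠ σ}) : Set (H →L[ℂ] H)) := by
    have h : d ∈ (StarAlgebra.adjoin ℂ (F.S '' {i | i ≠ σ})).topologicalClosure := hd
    rw [← SetLike.mem_coe, StarSubalgebra.topologicalClosure_coe] at h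
    exact h
  exact closure_minimal hsub hcl hd'

end Pool.Agent.H875R.FP
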