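import Pool.Agent.H875R.FP.Stubs2

namespace Pool.Agent.H875R.FP

open Pool.Agent.H667R3.FF (ev splits)
open scoped ComplexConjugate InnerProductSpace

theorem t_CYC (hb : S_BAS) : S_CYC := by
  classical
  intro κ H _ _ _ F ξ ε hε
  obtain ⟨h1, h2, h3, -⟩ := hb κ H F
  set M : Submodule ℂ H := (Submodule.span ℂ (Set.range (ev F.S))).map
    ((ContinuousLinearMap.apply ℂ H F.Om).toLinearMap) with hM
  have hmem : ∀ y, y ∈ M ↔ ∃ x ∈ Submodule.span ℂ (Set.range (ev F.S)), x F.Om = y := by
    intro y
    rw [hM, Submodule.mem_map]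
    rfl
  have hS : ∀ i y, y ∈ M → F.S i y ∈ M := by
    intro i y hy
    obtain ⟨x, hx, rfl⟩ := (hmem y).1 hy
    rw [hmem]
    refine ⟨F.S i * x, ?_, rfl⟩
    clear hy
    induction hx using Submodule.span_induction with
    | mem x hx =>
      obtain ⟨w, rfl⟩ := hx
      refine Submodule.subset_span ⟨i :: w, ?_⟩
      simp only [ev, List.map_cons, List.prod_cons]
    | zero => rw [mul_zero]; exact Submodule.zero_mem _
    | add x y _ _ h1 h2 => rw [mul_add]; exact Submodule.add_mem _ h1 h2
    | smul a x _ h1 => rw [mul_smul_comm]; exact Submodule.smul_mem _ _ h1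
  have hnil : F.e [] ∈ M := by
    rw [hmem]
    exact ⟨1, Submodule.subset_span ⟨[], by simp [ev]⟩, rfl⟩
  have hall : ∀ n (w : List κ), w.length ≤ n → F.e w ∈ M := by
    intro n
    induction n with
    | zero =>
      intro w hw
      rw [List.eq_nil_of_length_eq_zero (Nat.le_zero.1 hw)]
      exact hnil
    | succ n ih =>
      intro w hw
      match w with
      | [] => exact hnil
      | i :: w =>
        have hw' : w.length ≤ n := by simpa using hw
        have h4 : F.e (i :: w) = F.S i (F.e w) - star (F.cr i) (F.e w) := by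
          unfold Fock.S
          rw [ContinuousLinearMap.add_apply, F.cr_e, add_sub_cancel_right]
        rw [h4]
        refine Submodule.sub_mem _ (hS i _ (ih w hw')) ?_
        match w with
        | [] => rw [h1]; exact Submodule.zero_mem _
        | j :: w' =>
          by_cases hij : i = j
          · subst hij
            rw [h2]
            exact ih w' (by simp at hw'; omega)
          · rw [h3 i j w' hij]; exact Submodule.zero_mem _
  have hdense : M.topologicalClosure = ⊤ := by
    rw [eq_top_iff, ← F.e.dense_span]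
    apply Submodule.topologicalClosure_mono
    rw [Submodule.span_le]
    rintro _ ⟨w, rfl⟩
    exact hall _ w le_rfl
  have hξ : ξ ∈ closure (M : Set H) := by
    rw [← Submodule.topologicalClosure_coe, hdense]
    exact Set.mem_univ _
  obtain ⟨y, hy, hd⟩ := Metric.mem_closure_iff.1 hξ ε hε
  obtain ⟨x, hx, rfl⟩ := (hmem y).1 hy
  exact ⟨x, hx, by rwa [dist_eq_norm] at hd⟩

end Pool.Agent.H875R.FP
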