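import Pool.Agent.H875R.FP.Stubs2

set_option autoImplicit false

namespace Pool.Agent.H875R.FP

open Pool.Agent.H667R3.FF (ev splits)

namespace DERVx

section words

variable {L B : Type} [Ring B] (p η : L → B)

theorem ev_nil : ev p [] = 1 := by simp [ev]

theorem ev_cons (l : L) (w : List L) : ev p (l :: w) = p l * ev p w := by simp [ev]

theorem ev_append (u v : List L) : ev p (u ++ v) = ev p u * ev p v := by simp [ev]

theorem dev_nil : dev p η [] = 0 := by simp [dev, splits]

theorem dev_cons (l : L) (w : List L) :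
    dev p η (l :: w) = η l * ev p w + p l * dev p η w := by
  unfold dev
  rw [splits, List.map_cons, List.sum_cons, ev_nil, one_mul]
  congr 1
  rw [List.map_map, ← List.sum_map_mul_left]
  congr 1
  refine List.map_congr_left fun t _ => ?_
  simp only [Function.comp, ev_cons, mul_assoc]

theorem dev_append (u v : List L) :
    dev p η (u ++ v) = dev p η u * ev p v + ev p u * dev p η v := by
  induction u with
  | nil => rw [List.nil_append, dev_nil, ev_nil, zero_mul, zero_add, one_mul]
  | cons l u ih =>
    rw [List.cons_append, dev_cons, dev_cons, ih, ev_append, ev_cons]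
    noncomm_ring

end words

section rep

variable {κ B : Type} [Ring B] [StarRing B] [Algebra ℂ B] (p η : Lt κ → B)
  (r : G2 →* unitary B)

/-- words for `g` and `g⁻¹` with logarithmic derivative `D` -/
def Rp (g : G2) (D : B) : Prop :=
  (∃ w, ev p w = (r g : B) ∧ dev p η w = (r g : B) * D) ∧
    ∃ w, ev p w = star (r g : B) ∧ dev p η w = -(D * star (r g : B))

variable {p η r}

theorem us (g : G2) : (r g : B) * star (r g : B) = 1 := (r g).2.2

theorem su (g : G2) : star (r g : B) * (r g : B) = 1 := (r g).2.1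

theorem Rp.mul {g g' : G2} {D D' : B} (h : Rp p η r g D) (h' : Rp p η r g' D') :
    Rp p η r (g * g') (star (r g' : B) * D * (r g' : B) + D') := by
  obtain ⟨⟨w, hw, hd⟩, v, hv, he⟩ := h
  obtain ⟨⟨w', hw', hd'⟩, v', hv', he'⟩ := h'
  have e1 : ((r (g * g') : unitary B) : B) = (r g : B) * (r g' : B) := by rw [map_mul]; rfl
  refine ⟨⟨w ++ w', ?_, ?_⟩, v' ++ v, ?_, ?_⟩
  · rw [ev_append, hw, hw', e1]
  · rw [dev_append, hw, hw', hd, hd', e1, mul_add]
    have e2 : (r g : B) * (r g' : B) * (star (r g' : B) * D * (r g' : B)) =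
        (r g : B) * ((r g' : B) * star (r g' : B)) * D * (r g' : B) := by noncomm_ring
    rw [e2, us, mul_one, mul_assoc (r g : B) (r g' : B) D']
  · rw [ev_append, hv, hv', e1, star_mul]
  · rw [dev_append, hv, hv', he, he', e1, star_mul]
    have e2 : (star (r g' : B) * D * (r g' : B) + D') * (star (r g' : B) * star (r g : B)) =
        star (r g' : B) * D * ((r g' : B) * star (r g' : B)) * star (r g : B) +
          D' * star (r g' : B) * star (r g : B) := by noncomm_ring
    rw [e2, us, mul_one]
    noncomm_ring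

theorem Rp.one : Rp p η r 1 0 := by
  refine ⟨⟨[], ?_, ?_⟩, [], ?_, ?_⟩
  · rw [ev_nil, map_one]; rfl
  · rw [dev_nil, mul_zero]
  · rw [ev_nil, map_one]; simp
  · rw [dev_nil, zero_mul, neg_zero]

/-- conjugation -/
def cg (r : G2 →* unitary B) (h : B) (g : G2) : B := star (r g : B) * h * (r g : B)

theorem cg_mul (h : B) (g g' : G2) :
    cg r h (g * g') = star (r g' : B) * cg r h g * (r g' : B) := by
  unfold cg
  have e1 : ((r (g * g') : unitary B) : B) = (r g : B) * (r g' : B) := by rw [map_mul]; rfl
  rw [e1, star_mul]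
  noncomm_ring

theorem cg_one (h : B) : cg r h 1 = h := by
  unfold cg
  rw [map_one]
  simp

theorem Rp.mulB {h : B} {g g' : G2} {D' : B} (h1 : Rp p η r g (Complex.I • (h - cg r h g)))
    (h2 : Rp p η r g' D') :
    Rp p η r (g * g') (Complex.I • (cg r h g' - cg r h (g * g')) + D') := by
  have := h1.mul h2
  rw [cg_mul]
  have e : star (r g' : B) * (Complex.I • (h - cg r h g)) * (r g' : B) =
      Complex.I • (cg r h g' - star (r g' : B) * cg r h g * (r g' : B)) := by
    rw [mul_smul_comm, smul_mul_assoc]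
    congr 1
    unfold cg
    noncomm_ring
  rw [e] at this
  exact this

theorem Rp.powB {h : B} {g : G2} (h1 : Rp p η r g (Complex.I • (h - cg r h g))) (n : ℕ) :
    Rp p η r (g ^ n) (Complex.I • (h - cg r h (g ^ n))) := by
  induction n with
  | zero =>
    rw [pow_zero, cg_one, sub_self, smul_zero]
    exact Rp.one
  | succ n ih =>
    have := h1.mulB ih
    rw [← pow_succ', ← smul_add] at this
    have e : cg r h (g ^ n) - cg r h (g ^ (n + 1)) + (h - cg r h (g ^ n)) =
        h - cg r h (g ^ (n + 1)) := by abel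
    rw [e] at this
    exact this

theorem Rp.mulA {g g' : G2} {D' : B} (h1 : Rp p η r g 0) (h2 : Rp p η r g' D') :
    Rp p η r (g * g') D' := by
  have := h1.mul h2
  rw [mul_zero, zero_mul, zero_add] at this
  exact this

theorem Rp.powA {g : G2} (h1 : Rp p η r g 0) (n : ℕ) : Rp p η r (g ^ n) 0 := by
  induction n with
  | zero => rw [pow_zero]; exact Rp.one
  | succ n ih => rw [pow_succ']; exact h1.mulA ih

theorem zz_top (m : ℕ) : zz m (m + 1) = 1 := by
  unfold zz
  rw [Nat.sub_self]
  simp

theorem zz_step (m i : ℕ) (h : i ≤ m) : zz m i = blk i * zz m (i + 1) := by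
  unfold zz
  have e : m + 1 - i = (m + 1 - (i + 1)) + 1 := by omega
  rw [e, List.range'_succ, List.map_cons, List.prod_cons]

/-- signed terms -/
noncomputable def dd (r : G2 →* unitary B) (h : B) (m n : ℕ) : B :=
  ((-1 : ℂ) ^ (n + 1)) • cg r h (zz m n)

theorem dd_even (h : B) (m n : ℕ) (hn : n % 2 = 0) : dd r h m n = -cg r h (zz m n) := by
  unfold dd
  have : Odd (n + 1) := by
    rw [Nat.odd_iff]; omega
  rw [this.neg_one_pow, neg_smul, one_smul]

theorem dd_odd (h : B) (m n : ℕ) (hn : n % 2 = 1) : dd r h m n = cg r h (zz m n) := by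
  unfold dd
  have : Even (n + 1) := by
    rw [Nat.even_iff]; omega
  rw [this.neg_one_pow, one_smul]

theorem zz_rep {h : B} (hA : Rp p η r (FreeGroup.of false) 0)
    (hB : Rp p η r (FreeGroup.of true)
      (Complex.I • (h - cg r h (FreeGroup.of true)))) (m : ℕ) (hm : m % 2 = 1) (k : ℕ) :
    ∀ i, i + k = m + 1 → Rp p η r (zz m i) (Complex.I • ((∑ j ∈ Finset.range k, dd r h m (i + j)) -
      if i % 2 = 1 then cg r h (zz m i) else 0)) := by
  induction k with
  | zero =>
    intro i hi
    have hi' : i = m + 1 := by omega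
    subst hi'
    rw [zz_top, Finset.range_zero, Finset.sum_empty, if_neg (by omega), sub_zero, smul_zero]
    exact Rp.one
  | succ k ih =>
    intro i hi
    have h1 := ih (i + 1) (by omega)
    rw [zz_step m i (by omega)]
    have hs : ∑ j ∈ Finset.range (k + 1), dd r h m (i + j) =
        ∑ j ∈ Finset.range k, dd r h m (i + 1 + j) + dd r h m i := by
      rw [Finset.sum_range_succ']
      congr 1
      refine Finset.sum_congr rfl fun j _ => ?_
      congr 1
      omega
    rcases Nat.mod_two_eq_zero_or_one i with h0 | h0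
    · rw [if_neg (by omega), sub_zero, hs, dd_even h m i h0]
      rw [if_pos (by omega)] at h1
      have hb : blk i = FreeGroup.of true ^ (2 * i) := by
        unfold blk
        rw [h0]
        rfl
      rw [hb]
      have h2 := (hB.powB (2 * i)).mulB h1
      have e : Complex.I • (∑ j ∈ Finset.range k, dd r h m (i + 1 + j) + -cg r h (zz m i)) =
          Complex.I • (cg r h (zz m (i + 1)) -
            cg r h (FreeGroup.of true ^ (2 * i) * zz m (i + 1))) +
          Complex.I • (∑ j ∈ Finset.range k, dd r h m (i + 1 + j) - cg r h (zz m (i + 1))) := by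
        rw [zz_step m i (by omega), hb, ← smul_add]
        congr 1
        abel
      rw [e]
      exact h2
    · rw [if_pos h0, hs, dd_odd h m i h0]
      rw [if_neg (by omega), sub_zero] at h1
      have hb : blk i = FreeGroup.of false ^ (2 * i) := by
        unfold blk
        rw [h0]
        rfl
      have e : ∑ j ∈ Finset.range k, dd r h m (i + 1 + j) + cg r h (zz m i) -
          cg r h (blk i * zz m (i + 1)) = ∑ j ∈ Finset.range k, dd r h m (i + 1 + j) := by
        rw [← zz_step m i (by omega)]
        abel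
      rw [e, hb]
      exact (hA.powA (2 * i)).mulA h1

theorem vv_rep {h : B} (hA : Rp p η r (FreeGroup.of false) 0)
    (hB : Rp p η r (FreeGroup.of true)
      (Complex.I • (h - cg r h (FreeGroup.of true)))) (m : ℕ) (hm : m % 2 = 1) :
    Rp p η r (vv m) (Complex.I • ((∑ i ∈ Finset.range m, ((-1 : ℂ) ^ i) • cg r h (zz m (i + 1))) -
      cg r h (vv m))) := by
  have h1 := zz_rep hA hB m hm m 1 (by omega)
  rw [if_pos (by omega)] at h1
  have h2 := hB.mulB h1
  have e : Complex.I • ((∑ i ∈ Finset.range m, ((-1 : ℂ) ^ i) • cg r h (zz m (i + 1))) -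
      cg r h (vv m)) = Complex.I • (cg r h (zz m 1) - cg r h (FreeGroup.of true * zz m 1)) +
      Complex.I • (∑ j ∈ Finset.range m, dd r h m (1 + j) - cg r h (zz m 1)) := by
    have e1 : ∑ j ∈ Finset.range m, dd r h m (1 + j) =
        ∑ i ∈ Finset.range m, ((-1 : ℂ) ^ i) • cg r h (zz m (i + 1)) := by
      refine Finset.sum_congr rfl fun j _ => ?_
      unfold dd
      rw [add_comm 1 j, pow_add, pow_one]
      have : (-1 : ℂ) ^ (j + 1) * -1 = (-1 : ℂ) ^ j := by
        rw [pow_succ]; ring
      rw [this]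
    rw [e1, ← smul_add]
    congr 1
    unfold vv
    abel
  rw [e]
  exact h2

theorem Rp.letA {g : G2} {l l' : Lt κ} (hl : p l = (r g : B)) (hl' : p l' = star (r g : B))
    (e1 : η l = 0) (e2 : η l' = 0) : Rp p η r g 0 := by
  refine ⟨⟨[l], ?_, ?_⟩, [l'], ?_, ?_⟩
  · rw [ev_cons, ev_nil, mul_one, hl]
  · rw [dev_cons, dev_nil, mul_zero, mul_zero, add_zero, e1, zero_mul]
  · rw [ev_cons, ev_nil, mul_one, hl']
  · rw [dev_cons, dev_nil, mul_zero, zero_mul, add_zero, neg_zero, e2, zero_mul]

theorem Rp.letB {h : B} {g : G2} {l l' : Lt κ} (hl : p l = (r g : B))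
    (hl' : p l' = star (r g : B))
    (e1 : η l = Complex.I • ((r g : B) * h - h * (r g : B)))
    (e2 : η l' = Complex.I • (star (r g : B) * h - h * star (r g : B))) :
    Rp p η r g (Complex.I • (h - cg r h g)) := by
  refine ⟨⟨[l], ?_, ?_⟩, [l'], ?_, ?_⟩
  · rw [ev_cons, ev_nil, mul_one, hl]
  · rw [dev_cons, dev_nil, mul_zero, add_zero, ev_nil, mul_one, mul_smul_comm, e1]
    congr 1
    unfold cg
    rw [mul_sub]
    have e2 : (r g : B) * (star (r g : B) * h * (r g : B)) =
        ((r g : B) * star (r g : B)) * h * (r g : B) := by noncomm_ring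
    rw [e2, us, one_mul]
  · rw [ev_cons, ev_nil, mul_one, hl']
  · rw [dev_cons, dev_nil, mul_zero, add_zero, ev_nil, mul_one, smul_mul_assoc, ← smul_neg, e2]
    congr 1
    unfold cg
    rw [sub_mul]
    have e2 : star (r g : B) * h * (r g : B) * star (r g : B) =
        star (r g : B) * h * ((r g : B) * star (r g : B)) := by noncomm_ring
    rw [e2, us, mul_one, neg_sub]

theorem Rp.fin {g : G2} {X S : B} {l : Lt κ} (hg : Rp p η r g (Complex.I • X)) (e1 : p l = S)
    (e0 : η l = 0) : ∃ w, ev p w = star (r g : B) * S * (r g : B) ∧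
      dev p η w = Complex.I • (star (r g : B) * S * (r g : B) * X -
        X * (star (r g : B) * S * (r g : B))) := by
  obtain ⟨⟨w, hw, hd⟩, w', hw', hd'⟩ := hg
  refine ⟨w' ++ (l :: w), ?_, ?_⟩
  · rw [ev_append, ev_cons, hw, hw', e1]
    simp only [mul_assoc]
  · rw [dev_append, dev_cons, ev_cons, e0, e1, hw, hw', hd, hd', zero_mul, zero_add]
    have k1 : -(Complex.I • X * star (r g : B)) * (S * (r g : B)) =
        -(Complex.I • (X * (star (r g : B) * S * (r g : B)))) := by
      rw [neg_mul, smul_mul_assoc, smul_mul_assoc]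
      simp only [mul_assoc]
    have k2 : star (r g : B) * (S * ((r g : B) * Complex.I • X)) =
        Complex.I • (star (r g : B) * S * (r g : B) * X) := by
      rw [mul_smul_comm, mul_smul_comm, mul_smul_comm]
      simp only [mul_assoc]
    rw [k1, k2, smul_sub, add_comm, sub_eq_add_neg]

end rep

end DERVx

open DERVx in
theorem t_DERV : S_DERV := by
  intro κ H _ _ _ F i₀ i₁ σ a b hS m h Q hm
  have rf : (rho a b (FreeGroup.of false) : H →L[ℂ] H) = a := by
    unfold rho
    rw [FreeGroup.lift_apply_of]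
    rfl
  have rt : (rho a b (FreeGroup.of true) : H →L[ℂ] H) = b := by
    unfold rho
    rw [FreeGroup.lift_apply_of]
    rfl
  have hA : Rp (pt F a b) (eta F i₁ σ a b h Q) (rho a b) (FreeGroup.of false) 0 :=
    Rp.letA (l := Sum.inr (false, true)) (l' := Sum.inr (false, false))
      (by rw [rf]; simp [pt]) (by rw [rf]; simp [pt]) (by simp [eta]) (by simp [eta])
  have hB : Rp (pt F a b) (eta F i₁ σ a b h Q) (rho a b) (FreeGroup.of true)
      (Complex.I • (h - cg (rho a b) h (FreeGroup.of true))) :=
    Rp.letB (l := Sum.inr (true, true)) (l' := Sum.inr (true, false))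
      (by rw [rt]; simp [pt]) (by rw [rt]; simp [pt]) (by rw [rt]; simp [eta, pt])
      (by rw [rt]; simp [eta, pt])
  exact (vv_rep hA hB m hm).fin (l := Sum.inl i₀) rfl (by simp [eta, hS.h0, hS.h01])

end Pool.Agent.H875R.FP
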