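import Pool.Agent.H875R.FP.Stubs2

/-! Task FAITH: the vacuum vector is separating. -/

namespace Pool.Agent.H875R.FP

open Pool.Agent.H667R3.FF (ev splits)

theorem FAITH_S_mem {κ H : Type} [NormedAddCommGroup H] [InnerProductSpace ℂ H]
    [CompleteSpace H] (F : Fock κ H) (i : κ) : F.S i ∈ F.AA :=
  StarSubalgebra.le_topologicalClosure _ (StarAlgebra.subset_adjoin ℂ _ ⟨i, rfl⟩)

theorem FAITH_ev_mem {κ H : Type} [NormedAddCommGroup H] [InnerProductSpace ℂ H]
    [CompleteSpace H] (F : Fock κ H) (w : List κ) : ev F.S w ∈ F.AA := by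
  unfold ev
  apply list_prod_mem
  intro x hx
  rw [List.mem_map] at hx
  obtain ⟨i, _, rfl⟩ := hx
  exact FAITH_S_mem F i

theorem FAITH_kill {κ H : Type} [NormedAddCommGroup H] [InnerProductSpace ℂ H]
    [CompleteSpace H] (F : Fock κ H)
    (h1 : ∀ x ∈ F.AA, ∀ y ∈ F.AA, F.tau (x * y) = F.tau (y * x)) {x : H →L[ℂ] H}
    (hx : x ∈ F.AA) (h0 : x F.Om = 0) {z : H →L[ℂ] H} (hz : z ∈ F.AA) : x (z F.Om) = 0 := by
  have hu : star z * star x * x ∈ F.AA := mul_mem (mul_mem (star_mem hz) (star_mem hx)) hx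
  have e1 : F.tau ((star z * star x * x) * z) = F.tau (z * (star z * star x * x)) := h1 _ hu _ hz
  have e2 : F.tau (z * (star z * star x * x)) = 0 := by
    unfold Fock.tau
    have : (z * (star z * star x * x)) F.Om = 0 := by
      change z ((star z) ((star x) (x F.Om))) = 0
      rw [h0, map_zero, map_zero, map_zero]
    rw [this, inner_zero_right]
  have e3 : F.tau ((star z * star x * x) * z) = inner ℂ (x (z F.Om)) (x (z F.Om)) := by
    unfold Fock.tau
    change inner ℂ F.Om ((star z) ((star x) (x (z F.Om)))) = _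
    rw [ContinuousLinearMap.star_eq_adjoint, ContinuousLinearMap.star_eq_adjoint,
      ContinuousLinearMap.adjoint_inner_right, ContinuousLinearMap.adjoint_inner_right]
  rw [e3, e2] at e1
  exact inner_self_eq_zero.1 e1

theorem t_FAITH (h1 : S_TR) (h2 : S_CYC) : S_FAITH := by
  intro κ H _ _ _ F x hx h0
  ext ξ
  rw [ContinuousLinearMap.zero_apply, ← norm_eq_zero]
  apply le_antisymm _ (norm_nonneg _)
  apply le_of_forall_pos_le_add
  intro ε hε
  obtain ⟨y, hy, hlt⟩ := h2 κ H F ξ (ε / (‖x‖ + 1)) (by positivity)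
  have hyA : y ∈ F.AA := by
    have hle : Submodule.span ℂ (Set.range (ev F.S)) ≤ F.AA.toSubalgebra.toSubmodule := by
      rw [Submodule.span_le]
      rintro _ ⟨w, rfl⟩
      exact FAITH_ev_mem F w
    exact hle hy
  have hk := FAITH_kill F (h1 κ H F) hx h0 hyA
  have e : x ξ = x (ξ - y F.Om) := by rw [map_sub, hk, sub_zero]
  rw [e, zero_add]
  calc ‖x (ξ - y F.Om)‖ ≤ ‖x‖ * ‖ξ - y F.Om‖ := x.le_opNorm _
    _ ≤ (‖x‖ + 1) * (ε / (‖x‖ + 1)) := by
        apply mul_le_mul _ hlt.le (norm_nonneg _) (by positivity)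
        linarith
    _ = ε := by field_simp

end Pool.Agent.H875R.FP
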