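import Pool.Agent.H875R.FP.Stubs2

/-! S_FLD: star compatible representation of the direction. -/

namespace Pool.Agent.H875R.FP

open Pool.Agent.H667R3.FF (ev splits)
open scoped ComplexConjugate

namespace FLD

variable {L H : Type} [NormedAddCommGroup H] [InnerProductSpace ℂ H] [CompleteSpace H]

theorem ev_append (p : L → (H →L[ℂ] H)) (v w : List L) : ev p (v ++ w) = ev p v * ev p w := by
  unfold ev
  rw [List.map_append, List.prod_append]

theorem star_ev (iv : L → L) (p : L → (H →L[ℂ] H)) (hp : ∀ l, p (iv l) = star (p l))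
    (w : List L) : star (ev p w) = ev p ((w.map iv).reverse) := by
  induction w with
  | nil => simp [ev]
  | cons a w ih =>
    have h1 : ev p (a :: w) = p a * ev p w := by simp [ev]
    have h2 : ((a :: w).map iv).reverse = (w.map iv).reverse ++ [iv a] := by simp
    have h3 : ev p [iv a] = star (p a) := by simp [ev, hp]
    rw [h1, h2, ev_append, star_mul, ih, h3]

/-- reversal with the involution of the letters -/
def rv (iv : L → L) (hiv : ∀ l, iv (iv l) = l) : List L ≃ List L where
  toFun v := (v.map iv).reverse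
  invFun v := (v.map iv).reverse
  left_inv v := by
    show ((((v.map iv).reverse).map iv).reverse) = v
    rw [List.map_reverse, List.reverse_reverse, List.map_map]
    have : iv ∘ iv = id := funext hiv
    rw [this, List.map_id]
  right_inv v := by
    show ((((v.map iv).reverse).map iv).reverse) = v
    rw [List.map_reverse, List.reverse_reverse, List.map_map]
    have : iv ∘ iv = id := funext hiv
    rw [this, List.map_id]

end FLD

theorem t_FLD : S_FLD := by
  intro L H _ _ _ iv p η hiv hp hη hspan
  have h0 : ∀ l, ∃ c : List L →₀ ℂ, (c.sum fun v a => a • ev p v) = η l := fun l =>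
    Finsupp.mem_span_range_iff_exists_finsupp.1 (hspan l)
  choose d0 hd0 using h0
  let e := FLD.rv iv hiv
  let d1 : L → (List L →₀ ℂ) := fun l =>
    (Finsupp.equivMapDomain e (d0 (iv l))).mapRange (starRingEnd ℂ) (map_zero _)
  have hd1 : ∀ l v, d1 l v = conj (d0 (iv l) (e v)) := by
    intro l v
    rfl
  have hd1s : ∀ l, ((d1 l).sum fun v c => c • ev p v) = η l := by
    intro l
    have h1 : ((d1 l).sum fun v c => c • ev p v) =
        (Finsupp.equivMapDomain e (d0 (iv l))).sum fun v c => (starRingEnd ℂ) c • ev p v := by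
      apply Finsupp.sum_mapRange_index
      intro v
      exact zero_smul ℂ _
    rw [h1, Finsupp.sum_equivMapDomain]
    have h2 : ((d0 (iv l)).sum fun v c => (starRingEnd ℂ) c • ev p (e v)) =
        star ((d0 (iv l)).sum fun v c => c • ev p v) := by
      unfold Finsupp.sum
      rw [star_sum]
      refine Finset.sum_congr rfl fun v _ => ?_
      rw [star_smul, FLD.star_ev iv p hp v]
      rfl
    rw [h2, hd0 (iv l), hη, star_star]
  let d : L → (List L →₀ ℂ) := fun l => (1 / 2 : ℂ) • (d0 l + d1 l)
  have hd : ∀ l, ((d l).sum fun v c => c • ev p v) = η l := by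
    intro l
    have h3 : ∀ c : List L →₀ ℂ, (c.sum fun v a => a • ev p v) =
        Finsupp.linearCombination ℂ (ev p) c := fun c => rfl
    rw [h3]
    show Finsupp.linearCombination ℂ (ev p) ((1 / 2 : ℂ) • (d0 l + d1 l)) = η l
    rw [map_smul, map_add, ← h3, ← h3, hd0, hd1s, ← two_smul ℂ (η l), smul_smul]
    norm_num
  refine ⟨d, hd, ?_, ?_⟩
  · intro l v
    show (1 / 2 : ℂ) * (d0 (iv l) (e v) + d1 (iv l) (e v)) = conj ((1 / 2 : ℂ) * (d0 l v + d1 l v))
    rw [hd1, hd1, hiv]
    have h4 : e (e v) = v := e.left_inv v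
    rw [h4, map_mul, map_add, Complex.conj_conj]
    have h5 : conj (1 / 2 : ℂ) = 1 / 2 := by
      rw [map_div₀, map_one, map_ofNat]
    rw [h5]
    ring
  · intro w
    unfold Pool.Agent.H667R3.FF.DD dev
    congr 1
    apply List.map_congr_left
    intro t _
    rw [← hd t.2.1]
    unfold Finsupp.sum
    rw [Finset.mul_sum, Finset.sum_mul]
    refine Finset.sum_congr rfl fun v _ => ?_
    show (d t.2.1) v • ev p (t.1 ++ v ++ t.2.2) =
      ev p t.1 * ((d t.2.1) v • ev p v) * ev p t.2.2
    rw [FLD.ev_append, FLD.ev_append, mul_smul_comm, smul_mul_assoc]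

end Pool.Agent.H875R.FP
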