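import Mathlib
import Pool.Agent.H875R.FP.Stubs2
import Pool.Agent.H667R3.FF.A4b

set_option autoImplicit false

namespace Pool.Agent.H875R.FP

open Pool.Agent.H667R3.FF (ev splits InAlg mom flow flow_flow flow_taylor flow_law flow_inAlg)
open scoped ComplexConjugate

theorem t_FLOW (h1 : S_FLD) (h2 : S_FST) (h3 : S_SPA) : S_FLOW := by
  intro L H _ _ _ _ Ω iv p η hΩ hiv hp hη hηs hcyc hlaw
  have : Nontrivial H := by
    refine ⟨Ω, 0, ?_⟩
    intro h
    rw [h, norm_zero] at hΩ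
    exact zero_ne_one hΩ
  obtain ⟨d, hd1, hd2, hd3⟩ := h1 L H iv p η hiv hp hη hηs
  set S : ℝ := 1 + ∑ l, ‖p l‖ with hS
  have hS1 : 1 ≤ S := by
    have : 0 ≤ ∑ l, ‖p l‖ := Finset.sum_nonneg fun l _ => norm_nonneg _
    linarith
  have hpS : ∀ l, ‖p l‖ ≤ S := by
    intro l
    have := Finset.single_le_sum (f := fun l => ‖p l‖) (fun l _ => norm_nonneg _)
      (Finset.mem_univ l)
    linarith
  obtain ⟨ha, hha, HA⟩ := flow_flow d S hS1
  obtain ⟨hb, hhb, C, hC, HB⟩ := flow_taylor d S hS1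
  obtain ⟨hc, hhc, HC⟩ := flow_law d S hS1
  refine ⟨min ha (min hb hc), lt_min hha (lt_min hhb hhc),
    fun w => C * (2 * S) ^ w.length, ?_⟩
  intro h hh0 hh
  have habs : |h| = h := abs_of_nonneg hh0
  have e1 : |h| ≤ ha := by rw [habs]; exact hh.trans (min_le_left _ _)
  have e2 : |h| ≤ hb := by
    rw [habs]; exact hh.trans ((min_le_right _ _).trans (min_le_left _ _))
  have e3 : |h| ≤ hc := by
    rw [habs]; exact hh.trans ((min_le_right _ _).trans (min_le_right _ _))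
  have hff := HA (H →L[ℂ] H) p hpS h e1
  set φ : (H →L[ℂ] H) →L[ℂ] ℂ :=
    (innerSL ℂ Ω).comp (ContinuousLinearMap.apply ℂ H Ω) with hφ
  have hφa : ∀ x : H →L[ℂ] H, φ x = inner ℂ Ω (x Ω) := fun x => rfl
  have hφ0 : ∀ w, Pool.Agent.H667R3.FF.DD d (fun u => φ (ev p u)) w = 0 := by
    intro w
    have h6 := Pool.Agent.H667R3.FF.DD_iter_map d (ev p) (φ : (H →L[ℂ] H) →ₗ[ℂ] ℂ) 1 w
    simp only [Function.iterate_one] at h6
    have h7 : Pool.Agent.H667R3.FF.DD d (fun u => φ (ev p u)) w =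
        φ (Pool.Agent.H667R3.FF.DD d (ev p) w) := h6
    rw [h7, hd3, hφa, hlaw]
  have hmom := HC (H →L[ℂ] H) p hpS h e3 φ hφ0
  obtain ⟨α, hα⟩ := h3 L H Ω iv p (flow d p h) hiv hp (h2 L iv d hiv hd2 H p hp h) hcyc
    (fun w => hmom w) (fun l => flow_inAlg d p h l) (fun l => by
      have := flow_inAlg d (flow d p h) (-h) l
      rwa [hff] at this)
  refine ⟨α, fun w x hx => ?_⟩
  rw [hα w x hx, ← hd3]
  exact HB (H →L[ℂ] H) p hpS h e2 w

end Pool.Agent.H875R.FP
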