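import Pool.Agent.H875R.FP.Stubs2

/-! Existence of the full Fock space. -/

set_option autoImplicit false

namespace Pool.Agent.H875R.FP

theorem t_FOCK : S_FOCK := by
  classical
  intro κ
  let e : HilbertBasis (List κ) ℂ (lp (fun _ : List κ => ℂ) 2) :=
    HilbertBasis.ofRepr (LinearIsometryEquiv.refl ℂ _)
  have he : ∀ w, e w = lp.single 2 w (1 : ℂ) := by
    intro w
    rw [← HilbertBasis.repr_symm_single]
    rfl
  have hon : ∀ i : κ, Orthonormal ℂ (fun w : List κ => e (i :: w)) := by
    intro i
    exact e.orthonormal.comp _ (fun w w' h => by injection h)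
  refine ⟨{ e := e, cr := fun i => (hon i).orthogonalFamily.linearIsometry.toContinuousLinearMap,
            cr_e := ?_ }⟩
  intro i w
  rw [he w]
  have h := OrthogonalFamily.linearIsometry_apply_single (hon i).orthogonalFamily (i := w) (1 : ℂ)
  rw [LinearIsometry.coe_toContinuousLinearMap, h]
  simp

end Pool.Agent.H875R.FP
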