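import Pool.Agent.H875R.FP.Stubs2

namespace Pool.Agent.H875R.FP

open scoped ComplexConjugate InnerProductSpace

theorem t_FREE (h : S_ST) (_hb : S_BAS) : S_FREE := by
  classical
  intro κ H _ _ _ F l hl hch hmem
  have hin : ∀ w w' : List κ, w ≠ w' → (inner ℂ (F.e w) (F.e w') : ℂ) = 0 := fun w w' hne =>
    F.e.orthonormal.2 hne
  have key : ∀ l : List (κ × (H →L[ℂ] H)), l.IsChain (fun x y => x.1 ≠ y.1) →
      (∀ x ∈ l, x.2 ∈ CC {F.S x.1} ∧ F.tau x.2 = 0) → ∀ x l', l = x :: l' →
      F.St x.1 ((l.map fun x => x.2).prod F.Om) := by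
    intro l
    induction l with
    | nil => intro _ _ x l' he; exact absurd he (by simp)
    | cons x l ih =>
      intro hc hm x' l' he
      obtain ⟨rfl, rfl⟩ := List.cons.inj he
      rw [List.map_cons, List.prod_cons]
      change F.St x.1 (x.2 ((l.map fun x => x.2).prod F.Om))
      obtain ⟨h1, h2⟩ := hm x (by simp)
      apply h κ H F x.1 x.2 h1 h2
      match l with
      | [] =>
        intro w
        exact hin _ _ (by simp)
      | y :: l'' =>
        have h3 : x.1 ≠ y.1 := by
          rw [List.isChain_cons_cons] at hc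
          exact hc.1
        have h4 : (y :: l'').IsChain (fun x y => x.1 ≠ y.1) := by
          rw [List.isChain_cons_cons] at hc
          exact hc.2
        have h5 := ih h4 (fun z hz => hm z (List.mem_cons_of_mem _ hz)) y l'' rfl
        intro w
        exact h5 (x.1 :: w) (fun w' he' => h3 (List.cons.inj he').1)
  match l, hl with
  | x :: l', _ =>
    have h1 := key (x :: l') hch hmem x l' rfl
    exact h1 [] (fun w' he' => absurd he' (by simp))

end Pool.Agent.H875R.FP
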