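import Mathlib
import Pool.Agent.H875R.FP.Stubs2
import Pool.Agent.H722.FG.Dist

/-! Distinctness of the alternating words in the `z_p`. -/

namespace Pool.Agent.H875R.FP

open FreeGroup
open Pool.Agent.H722.FG (hd hd_pow_mul hd_invpow_mul hd_one)

namespace INJZ

/-- the generator of the `i`-th block -/
def c (i : ℕ) : Bool := i % 2 == 0

lemma c_succ (i : ℕ) : c (i + 1) = !c i := by
  unfold c
  rcases Nat.mod_two_eq_zero_or_one i with h | h <;> simp [h, Nat.add_mod]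

/-- `g` starts with `b^±` -/
def HG (b : Bool) (g : G2) : Prop := ∃ s, hd g = some (b, s)

/-- `g` does not start with `b^±` -/
def NS (b : Bool) (g : G2) : Prop := ∀ s, hd g ≠ some (b, s)

lemma HG.ns {b b' : Bool} {g : G2} (h : HG b g) (hb : b ≠ b') : NS b' g := by
  obtain ⟨s, hs⟩ := h
  intro s' h'
  rw [hs, Option.some.injEq, Prod.mk.injEq] at h'
  exact hb h'.1

lemma NS_one (b : Bool) : NS b 1 := by
  intro s
  rw [hd_one]
  simp

lemma HG_pow {b : Bool} {s : G2} (k : ℤ) (hk : k ≠ 0) (h : NS b s) : HG b (of b ^ k * s) := by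
  rcases lt_or_gt_of_ne hk with hk | hk
  · obtain ⟨n, hn⟩ : ∃ n : ℕ, k = -(n : ℤ) := ⟨k.natAbs, by omega⟩
    refine ⟨false, ?_⟩
    rw [hn, zpow_neg, zpow_natCast]
    exact hd_invpow_mul b n (by omega) s (h true)
  · obtain ⟨n, hn⟩ : ∃ n : ℕ, k = (n : ℤ) := ⟨k.natAbs, by omega⟩
    refine ⟨true, ?_⟩
    rw [hn, zpow_natCast]
    exact hd_pow_mul b n (by omega) s (h false)

lemma pow_uniq {b : Bool} {s s' : G2} {n n' : ℤ} (h : NS b s) (h' : NS b s')
    (e : of b ^ n * s = of b ^ n' * s') : n = n' ∧ s = s' := by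
  by_cases hn : n = n'
  · subst hn
    exact ⟨rfl, mul_left_cancel e⟩
  · exfalso
    have e2 : of b ^ (n - n') * s = s' := by
      rw [sub_eq_neg_add, zpow_add, mul_assoc, e, zpow_neg]
      group
    obtain ⟨s1, hs⟩ := HG_pow (n - n') (sub_ne_zero.mpr hn) h
    rw [e2] at hs
    exact h' _ hs

/-- the first two syllables -/
def Syl (t : G2) (g : Bool) (e1 e2 : ℤ) : Prop :=
  ∃ t', t = of g ^ e1 * (of (!g) ^ e2 * t') ∧ NS (!g) t'

lemma Syl.hg {t : G2} {g : Bool} {e1 e2 : ℤ} (h : Syl t g e1 e2) (h1 : e1 ≠ 0) (h2 : e2 ≠ 0) :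
    HG g t := by
  obtain ⟨t', rfl, ht⟩ := h
  exact HG_pow e1 h1 ((HG_pow e2 h2 ht).ns (by simp))

lemma HG.uniq {t : G2} {g g' : Bool} (h : HG g t) (h' : HG g' t) : g = g' := by
  obtain ⟨s, hs⟩ := h
  obtain ⟨s', hs'⟩ := h'
  rw [hs, Option.some.injEq, Prod.mk.injEq] at hs'
  exact hs'.1

lemma Syl.uniq {t : G2} {g g' : Bool} {e1 e2 e1' e2' : ℤ} (h : Syl t g e1 e2)
    (h' : Syl t g' e1' e2') (h1 : e1 ≠ 0) (h2 : e2 ≠ 0) (h1' : e1' ≠ 0) (h2' : e2' ≠ 0) :
    g = g' ∧ e1 = e1' ∧ e2 = e2' := by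
  have hg : g = g' := (h.hg h1 h2).uniq (h'.hg h1' h2')
  subst hg
  obtain ⟨t1, a1, b1⟩ := h
  obtain ⟨t2, a2, b2⟩ := h'
  rw [a1] at a2
  obtain ⟨r1, r2⟩ := pow_uniq ((HG_pow e2 h2 b1).ns (by simp)) ((HG_pow e2' h2' b2).ns (by simp)) a2
  obtain ⟨r3, r4⟩ := pow_uniq b1 b2 r2
  exact ⟨rfl, r1, r3⟩

/-- comparison with the first syllable -/
lemma Syl.first {s : G2} {b g : Bool} {n e1 e2 : ℤ} (h : Syl (of b ^ n * s) g e1 e2)
    (hs : NS b s) (hn : n ≠ 0) (h1 : e1 ≠ 0) (h2 : e2 ≠ 0) : b = g ∧ n = e1 := by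
  have hg : b = g := (HG_pow n hn hs).uniq (h.hg h1 h2)
  subst hg
  obtain ⟨t1, a1, b1⟩ := h
  obtain ⟨r1, -⟩ := pow_uniq hs ((HG_pow e2 h2 b1).ns (by simp)) a1
  exact ⟨rfl, r1⟩

/-- multiplication by one more block -/
lemma Syl.mulHG {t : G2} {b g : Bool} {k e1 e2 : ℤ} (h : Syl t g e1 e2) (h1 : e1 ≠ 0)
    (h2 : e2 ≠ 0) (hk : k ≠ 0) (hke : b = g → k + e1 ≠ 0) : HG b (of b ^ k * t) := by
  by_cases hb : b = g
  · subst hb
    obtain ⟨t', rfl, ht⟩ := h
    rw [← mul_assoc, ← zpow_add]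
    exact HG_pow _ (hke rfl) ((HG_pow e2 h2 ht).ns (by simp))
  · exact HG_pow k hk ((h.hg h1 h2).ns (Ne.symm hb))

/-- the type of an element -/
def Ty (q : ℕ) (t : G2) : Prop :=
  Syl t (c q) (2 * (q : ℤ)) (2 * ((q : ℤ) + 1)) ∨
    Syl t (!c q) (-2 * ((q : ℤ) - 1)) (-2 * ((q : ℤ) - 2))

lemma Ty_inj {q r : ℕ} {t : G2} (hq : 4 ≤ q) (hr : 4 ≤ r) (h : Ty q t) (h' : Ty r t) : q = r := by
  rcases h with h | h <;> rcases h' with h' | h' <;>
  · have := h.uniq h' (by omega) (by omega) (by omega) (by omega)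
    omega

lemma blk_eq (i : ℕ) : blk i = of (c i) ^ (2 * (i : ℤ)) := by
  unfold blk c
  rw [← zpow_natCast]
  push_cast
  rfl

lemma blk_inv_eq (i : ℕ) : (blk i)⁻¹ = of (c i) ^ (-2 * (i : ℤ)) := by
  rw [blk_eq, ← zpow_neg]
  congr 1

lemma zz_succ {m i : ℕ} (h : i ≤ m) : zz m i = blk i * zz m (i + 1) := by
  unfold zz
  have : m + 1 - i = (m + 1 - (i + 1)) + 1 := by omega
  rw [this, List.range'_succ, List.map_cons, List.prod_cons]

lemma zz_NS (m d : ℕ) : ∀ i, m ≤ i + d → NS (c i) (zz m (i + 1)) := by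
  induction d with
  | zero =>
    intro i hi
    have : m + 1 - (i + 1) = 0 := by omega
    unfold zz
    rw [this]
    exact NS_one _
  | succ d ih =>
    intro i hi
    by_cases hm : m ≤ i
    · have : m + 1 - (i + 1) = 0 := by omega
      unfold zz
      rw [this]
      exact NS_one _
    · rw [zz_succ (by omega : i + 1 ≤ m), blk_eq]
      refine (HG_pow _ (by push_cast; omega) (ih (i + 1) (by omega))).ns ?_
      rw [c_succ]
      simp

lemma Ty_base {m q : ℕ} (hq : 1 ≤ q) (hm : q + 1 ≤ m) : Ty q (zz m q) := by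
  left
  refine ⟨zz m (q + 2), ?_, ?_⟩
  · rw [zz_succ (by omega : q ≤ m), zz_succ hm, blk_eq, blk_eq, c_succ]
    push_cast
    rfl
  · rw [← c_succ]
    exact zz_NS m m (q + 1) (by omega)

/-- blocks in front of `t` (downwards) -/
lemma U_HG {m p r : ℕ} {t : G2} (hp : p ≤ m) (hr : 4 ≤ r) (hpr : p ≠ r) (ht : Ty r t) :
    ∀ n j : ℕ, 1 ≤ j → j + n + 1 = p → HG (c j) (zz m j * ((zz m p)⁻¹ * t)) := by
  intro n
  induction n with
  | zero =>
    intro j hj h
    have e : zz m j * ((zz m p)⁻¹ * t) = of (c j) ^ (2 * (j : ℤ)) * t := by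
      rw [zz_succ (by omega : j ≤ m), ← h, ← blk_eq]
      group
    rw [e]
    rcases ht with ht | ht
    · exact ht.mulHG (by omega) (by omega) (by omega) (fun _ => by omega)
    · exact ht.mulHG (by omega) (by omega) (by omega) (fun _ => by omega)
  | succ n ih =>
    intro j hj h
    have e : zz m j * ((zz m p)⁻¹ * t) =
        of (c j) ^ (2 * (j : ℤ)) * (zz m (j + 1) * ((zz m p)⁻¹ * t)) := by
      rw [zz_succ (by omega : j ≤ m), ← blk_eq]
      group
    rw [e]
    refine HG_pow _ (by omega) ((ih (j + 1) (by omega) (by omega)).ns ?_)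
    rw [c_succ]
    simp

/-- blocks in front of `t` (upwards) -/
lemma V_HG {m p r : ℕ} {t : G2} (hp1 : 1 ≤ p) (hr : 4 ≤ r) (hpr : p ≠ r) (ht : Ty r t) :
    ∀ n : ℕ, p + n ≤ m → HG (c (p + n)) (zz m (p + n + 1) * ((zz m p)⁻¹ * t)) := by
  intro n
  induction n with
  | zero =>
    intro hm
    have e : zz m (p + 0 + 1) * ((zz m p)⁻¹ * t) = of (c p) ^ (-2 * (p : ℤ)) * t := by
      rw [Nat.add_zero, zz_succ (by omega : p ≤ m), ← blk_inv_eq]
      group
    rw [e]
    rcases ht with ht | ht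
    · exact ht.mulHG (by omega) (by omega) (by omega) (fun _ => by omega)
    · exact ht.mulHG (by omega) (by omega) (by omega) (fun _ => by omega)
  | succ n ih =>
    intro hm
    have e : zz m (p + (n + 1) + 1) * ((zz m p)⁻¹ * t) =
        of (c (p + (n + 1))) ^ (-2 * ((p + (n + 1) : ℕ) : ℤ)) *
          (zz m (p + n + 1) * ((zz m p)⁻¹ * t)) := by
      rw [← blk_inv_eq, show p + (n + 1) = p + n + 1 from rfl,
        zz_succ (by omega : p + n + 1 ≤ m)]
      group
    rw [e]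
    refine HG_pow _ (by omega) ((ih (by omega)).ns ?_)
    rw [show p + (n + 1) = p + n + 1 from rfl, c_succ]
    simp

lemma Ty_step {m p q r : ℕ} {t : G2} (hp : 4 ≤ p ∧ p + 4 ≤ m) (hq : 4 ≤ q ∧ q + 4 ≤ m)
    (hr : 4 ≤ r) (hpr : p ≠ r) (ht : Ty r t) (hpq : p + 3 ≤ q ∨ q + 3 ≤ p) :
    Ty q (zz m q * ((zz m p)⁻¹ * t)) := by
  rcases hpq with h | h
  · right
    obtain ⟨n, rfl⟩ : ∃ n, q = p + n + 1 + 2 := ⟨q - p - 3, by omega⟩
    refine ⟨zz m (p + n + 1) * ((zz m p)⁻¹ * t), ?_, ?_⟩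
    · have e1 := zz_succ (by omega : p + n + 1 ≤ m)
      have e2 := zz_succ (by omega : p + n + 1 + 1 ≤ m)
      have e3 : zz m (p + n + 1 + 2) * ((zz m p)⁻¹ * t) = (blk (p + n + 1 + 1))⁻¹ *
          ((blk (p + n + 1))⁻¹ * (zz m (p + n + 1) * ((zz m p)⁻¹ * t))) := by
        rw [e1, e2]
        group
      rw [e3, blk_inv_eq, blk_inv_eq]
      have c1 : (!c (p + n + 1 + 2)) = c (p + n + 1 + 1) := by
        rw [show p + n + 1 + 2 = (p + n + 1 + 1) + 1 from rfl, c_succ (p + n + 1 + 1)]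
        simp
      have c2 : (!(!c (p + n + 1 + 2))) = c (p + n + 1) := by
        rw [c1, c_succ (p + n + 1)]
        simp
      rw [c2, c1]
      push_cast
      ring_nf
    · have c2 : (!(!c (p + n + 1 + 2))) = c (p + n + 1) := by
        rw [show p + n + 1 + 2 = (p + n + 1 + 1) + 1 from rfl, c_succ (p + n + 1 + 1),
          c_succ (p + n + 1)]
        simp
      rw [c2]
      refine (V_HG (by omega) hr hpr ht n (by omega)).ns ?_
      rw [c_succ]
      simp
  · left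
    refine ⟨zz m (q + 2) * ((zz m p)⁻¹ * t), ?_, ?_⟩
    · rw [zz_succ (by omega : q ≤ m), zz_succ (by omega : q + 1 ≤ m), blk_eq, blk_eq, c_succ]
      push_cast
      simp only [mul_assoc]
    · refine (U_HG (by omega) hr hpr ht (p - q - 3) (q + 2) (by omega) (by omega)).ns ?_
      rw [show q + 2 = (q + 1) + 1 from rfl, c_succ, c_succ]
      simp

lemma Ty_lt {m p p' q q' : ℕ} {t t' : G2} (hp : 4 ≤ p ∧ p + 4 ≤ m) (hp' : 4 ≤ p' ∧ p' + 4 ≤ m)
    (hq : 4 ≤ q) (hq' : 4 ≤ q') (hpq : p ≠ q) (hpq' : p' ≠ q') (ht : Ty q t) (ht' : Ty q' t')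
    (e : (zz m p)⁻¹ * t = (zz m p')⁻¹ * t') : ¬ p' < p := by
  intro hlt
  have e1 : zz m p' * ((zz m p)⁻¹ * t) = t' := by
    rw [e]
    group
  by_cases h2 : p' + 2 ≤ p
  · have e2 : t' = of (c p') ^ (2 * (p' : ℤ)) * (zz m (p' + 1) * ((zz m p)⁻¹ * t)) := by
      rw [← e1, zz_succ (by omega : p' ≤ m), ← blk_eq]
      group
    have hns : NS (c p') (zz m (p' + 1) * ((zz m p)⁻¹ * t)) := by
      refine (U_HG (by omega) hq hpq ht (p - p' - 2) (p' + 1) (by omega) (by omega)).ns ?_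
      rw [c_succ]
      simp
    rw [e2] at ht'
    rcases ht' with ht' | ht'
    · have := (ht'.first hns (by omega) (by omega) (by omega)).2
      omega
    · have := (ht'.first hns (by omega) (by omega) (by omega)).2
      omega
  · have h3 : p = p' + 1 := by omega
    have e2 : t' = of (c p') ^ (2 * (p' : ℤ)) * t := by
      rw [← e1, zz_succ (by omega : p' ≤ m), ← blk_eq, h3]
      group
    -- `t` and its first syllable
    have key : ∀ (g : Bool) (f1 f2 : ℤ), f1 ≠ 0 → f2 ≠ 0 → (g = c p' → 2 * (p' : ℤ) + f1 ≠ 0) →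
        Syl t g f1 f2 → (g = c p' ∧ Syl t' g (2 * (p' : ℤ) + f1) f2) ∨
          (g ≠ c p' ∧ NS (c p') t) := by
      intro g f1 f2 hf1 hf2 hne hs
      by_cases hg : g = c p'
      · left
        refine ⟨hg, ?_⟩
        obtain ⟨t1, h4, h5⟩ := hs
        refine ⟨t1, ?_, h5⟩
        rw [e2, h4, ← hg, ← mul_assoc, ← zpow_add]
      · right
        exact ⟨hg, (hs.hg hf1 hf2).ns hg⟩
    have fin : NS (c p') t → False := by
      intro hns
      rw [e2] at ht'
      rcases ht' with ht' | ht'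
      · have := (ht'.first hns (by omega) (by omega) (by omega)).2
        omega
      · have := (ht'.first hns (by omega) (by omega) (by omega)).2
        omega
    rcases ht with ht | ht
    · rcases key _ _ _ (by omega) (by omega) (fun _ => by omega) ht with ⟨-, h6⟩ | ⟨-, h6⟩
      · rcases ht' with ht' | ht'
        · have := h6.uniq ht' (by omega) (by omega) (by omega) (by omega)
          omega
        · have := h6.uniq ht' (by omega) (by omega) (by omega) (by omega)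
          omega
      · exact fin h6
    · rcases key _ _ _ (by omega) (by omega) (fun _ => by omega) ht with ⟨-, h6⟩ | ⟨-, h6⟩
      · rcases ht' with ht' | ht'
        · have := h6.uniq ht' (by omega) (by omega) (by omega) (by omega)
          omega
        · have := h6.uniq ht' (by omega) (by omega) (by omega) (by omega)
          omega
      · exact fin h6

lemma Ty_eq {m p p' q q' : ℕ} {t t' : G2} (hp : 4 ≤ p ∧ p + 4 ≤ m) (hp' : 4 ≤ p' ∧ p' + 4 ≤ m)
    (hq : 4 ≤ q) (hq' : 4 ≤ q') (hpq : p ≠ q) (hpq' : p' ≠ q') (ht : Ty q t) (ht' : Ty q' t')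
    (e : (zz m p)⁻¹ * t = (zz m p')⁻¹ * t') : p = p' ∧ q = q' ∧ t = t' := by
  have h1 := Ty_lt hp hp' hq hq' hpq hpq' ht ht' e
  have h2 := Ty_lt hp' hp hq' hq hpq' hpq ht' ht e.symm
  have h3 : p = p' := by omega
  subst h3
  have h4 : t = t' := mul_left_cancel e
  subst h4
  exact ⟨rfl, Ty_inj hq hq' ht ht', rfl⟩

lemma type_of (m : ℕ) (w : List (ℕ × ℕ)) : Vdz m w → ∀ q, (4 ≤ q ∧ q + 4 ≤ m) → adm3 q w →
    Ty q (zz m q * valz m w) := by
  induction w with
  | nil =>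
    intro _ q hq _
    simpa [valz] using Ty_base (m := m) (q := q) (by omega) (by omega)
  | cons x w ih =>
    obtain ⟨p, r⟩ := x
    intro hv q hq hadm
    obtain ⟨h1, h2, h3, h4, h5⟩ := hv
    exact Ty_step h1 hq h2.1 h3 (ih h5 r h2 h4) hadm

lemma val_inj (m : ℕ) (w : List (ℕ × ℕ)) : Vdz m w → ∀ w' : List (ℕ × ℕ), Vdz m w' →
    valz m w = valz m w' → w = w' := by
  induction w with
  | nil =>
    intro _ w' hw' h
    cases w' with
    | nil => rfl
    | cons x w' =>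
      exfalso
      obtain ⟨p, q⟩ := x
      obtain ⟨h1, h2, h3, h4, h5⟩ := hw'
      simp only [valz] at h
      have h6 := type_of m w' h5 q h2 h4
      have h7 : zz m q * valz m w' = zz m p := by
        have := (inv_mul_eq_one.mp h.symm)
        exact this.symm
      rw [h7] at h6
      exact h3 (Ty_inj h1.1 h2.1 (Ty_base (by omega) (by omega)) h6)
  | cons x w ih =>
    obtain ⟨p, q⟩ := x
    intro hw w' hw' h
    obtain ⟨h1, h2, h3, h4, h5⟩ := hw
    cases w' with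
    | nil =>
      exfalso
      simp only [valz] at h
      have h6 := type_of m w h5 q h2 h4
      have h7 : zz m q * valz m w = zz m p := (inv_mul_eq_one.mp h).symm
      rw [h7] at h6
      exact h3 (Ty_inj h1.1 h2.1 (Ty_base (by omega) (by omega)) h6)
    | cons x' w' =>
      obtain ⟨p', q'⟩ := x'
      obtain ⟨g1, g2, g3, g4, g5⟩ := hw'
      simp only [valz] at h
      obtain ⟨e1, e2, e3⟩ := Ty_eq h1 g1 h2.1 g2.1 h3 g3 (type_of m w h5 q h2 h4)
        (type_of m w' g5 q' g2 g4) h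
      subst e1 e2
      have e4 : valz m w = valz m w' := mul_left_cancel e3
      rw [ih h5 w' g5 e4]

end INJZ

open INJZ

theorem t_INJZ : S_INJZ := by
  intro m
  refine ⟨fun w w' hw hw' h => val_inj m w hw w' hw' h, ?_⟩
  intro w w' q q' hw hw' hq hq' h1 h2 e
  have t1 := type_of m w hw q hq h1
  have t2 := type_of m w' hw' q' hq' h2
  rw [← e] at t2
  have h3 := Ty_inj hq.1 hq'.1 t1 t2
  subst h3
  exact ⟨rfl, val_inj m w hw w' hw' (mul_left_cancel e)⟩

end Pool.Agent.H875R.FP
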