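import Mathlib
import Pool.Agent.H875R.FP.Stubs2

/-! Task IOTA (helper546): `C([0,1])` inside `C*(S_i)`. -/

namespace Pool.Agent.H875R.FP

open MeasureTheory

/-- the map `z ↦ φ (re z)` on the spectrum -/
noncomputable def iotaMap (φ : ℝ → ℝ) (hφ : Continuous φ) (h01 : ∀ x, 0 ≤ φ x ∧ φ x ≤ 1)
    (K : Set ℂ) : C(K, unitInterval) :=
  ⟨fun z => ⟨φ (z : ℂ).re, (h01 _).1, (h01 _).2⟩,
    Continuous.subtype_mk (hφ.comp (Complex.continuous_re.comp continuous_subtype_val)) _⟩

theorem t_IOTA (h1 : S_CFC) (h2 : S_CDF) (hb : S_BAS) : S_IOTA := by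
  intro κ H _ _ _ F i
  obtain ⟨φ, ψ, hφ, hψ, h01, hψφ, hint⟩ := h2
  obtain ⟨-, -, -, -, -, hself, hnorm, hOm, -, -⟩ := hb κ H F
  haveI : Nontrivial H := ⟨F.Om, 0, by
    intro h
    rw [h, norm_zero] at hOm
    exact zero_ne_one hOm⟩
  have hsa : IsSelfAdjoint (F.S i) := hself i
  have hs : IsStarNormal (F.S i) := hsa.isStarNormal
  set g := iotaMap φ hφ h01 (spectrum ℂ (F.S i)) with hg
  set ι : C(unitInterval, ℂ) →⋆ₐ[ℂ] (H →L[ℂ] H) :=
    (cfcHom hs).comp (ContinuousMap.compStarAlgHom' ℂ ℂ g) with hι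
  have hιf : ∀ f, ι f = cfcHom hs (f.comp g) := fun f => rfl
  refine ⟨ι, ?_, ?_, ?_⟩
  · intro f
    rw [hιf]
    exact cfcHom_mem_elemental hs (f.comp g)
  · refine ⟨⟨fun x => ((ψ (x : ℝ) : ℝ) : ℂ),
      Complex.continuous_ofReal.comp (hψ.comp continuous_subtype_val)⟩, ?_⟩
    rw [hιf]
    refine Eq.trans ?_ (cfcHom_id (R := ℂ) hs)
    congr 1
    ext z
    have hz : (z : ℂ) = (((z : ℂ).re : ℝ) : ℂ) := by
      have := hsa.mem_spectrum_eq_re z.2
      exact this
    have hz2 : |(z : ℂ).re| ≤ 2 := by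
      refine (Complex.abs_re_le_norm _).trans ?_
      exact (spectrum.norm_le_norm_of_mem z.2).trans (hnorm i)
    change ((ψ (φ (z : ℂ).re) : ℝ) : ℂ) = (z : ℂ)
    rw [hψφ _ hz2]
    exact hz.symm
  · intro f
    -- the function on `ℂ`
    set f' : ℂ → ℂ := fun z => f ⟨φ z.re, (h01 _).1, (h01 _).2⟩ with hf'
    have hf'c : Continuous f' :=
      f.continuous.comp (Continuous.subtype_mk (hφ.comp Complex.continuous_re) _)
    have h3 : ι f = cfc f' (F.S i) := by
      rw [hιf, cfc_apply f' (F.S i) hs hf'c.continuousOn]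
      rfl
    rw [h3, h1 κ H F i f' hf'c]
    set G : ℝ → ℂ := fun x => f (Set.projIcc 0 1 zero_le_one x) with hG
    have hGc : Continuous G := f.continuous.comp continuous_projIcc
    have h4 : ∀ θ : ℝ, f' ((2 * Real.cos θ : ℝ) : ℂ) = G (φ (2 * Real.cos θ)) := by
      intro θ
      simp only [hf', hG]
      congr 1
      rw [Set.projIcc_of_mem zero_le_one ⟨(h01 _).1, (h01 _).2⟩]
      simp only [Complex.ofReal_re]
    simp only [h4]
    rw [hint G hGc, intervalIntegral.integral_of_le zero_le_one,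
      ← integral_Icc_eq_integral_Ioc]
    have h5 : (∫ x : unitInterval, f x) = ∫ x : unitInterval, G (x : ℝ) := by
      refine integral_congr_ae (Filter.Eventually.of_forall fun x => ?_)
      simp only [hG]
      rw [Set.projIcc_val]
    rw [h5, Measure.Subtype.volume_def]
    exact (integral_subtype_comap measurableSet_Icc G).symm

end Pool.Agent.H875R.FP
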