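import Mathlib
import Pool.Agent.H875R.FP.Stubs2

/-! Task KERA: the polynomial kernel in coefficient form. -/

namespace Pool.Agent.H875R.FP

namespace KERAx

/-- coefficients of `x^i` in the basis `U_m` -/
def u : ℕ → ℕ → ℝ
  | 0, m => if m = 0 then 1 else 0
  | i + 1, m => (if m = 0 then 0 else u i (m - 1)) + u i (m + 1)

theorem u_supp : ∀ i m : ℕ, i < m → u i m = 0
  | 0, m, h => by
    have : m ≠ 0 := by omega
    simp [u, this]
  | i + 1, m, h => by
    have h0 : m ≠ 0 := by omega
    have h1 := u_supp i (m - 1) (by omega)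
    have h2 := u_supp i (m + 1) (by omega)
    simp only [u, if_neg h0, h1, h2, add_zero]

theorem Up_cont : ∀ n : ℕ, Continuous (fun x : ℝ => Up x n)
  | 0 => by
    show Continuous fun _ : ℝ => (1 : ℝ)
    exact continuous_const
  | 1 => by
    show Continuous fun x : ℝ => x
    exact continuous_id
  | n + 2 => by
    have h1 := Up_cont (n + 1)
    have h2 := Up_cont n
    show Continuous fun x : ℝ => x * Up x (n + 1) - Up x n
    exact (continuous_id.mul h1).sub h2

/-- multiplication by `x` -/
theorem shift (x : ℝ) (N : ℕ) (a : ℕ → ℝ) (ha : ∀ m, N ≤ m → a m = 0) :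
    x * ∑ m ∈ Finset.range N, a m * Up x m =
      ∑ m ∈ Finset.range (N + 1), ((if m = 0 then 0 else a (m - 1)) + a (m + 1)) * Up x m := by
  have h1 : ∑ m ∈ Finset.range N, a m * Up x m = ∑ m ∈ Finset.range (N + 2), a m * Up x m := by
    rw [Finset.sum_range_succ, Finset.sum_range_succ, ha N le_rfl, ha (N + 1) (by omega)]
    ring
  have hV : ∀ m, x * Up x m = Up x (m + 1) + (if m = 0 then 0 else Up x (m - 1)) := by
    intro m
    rcases m with _ | m
    · show x * 1 = x + _
      simp
    · simp only [Nat.add_eq_zero_iff, one_ne_zero, and_false, if_false, Nat.add_sub_cancel]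
      show x * Up x (m + 1) = (x * Up x (m + 1) - Up x m) + Up x m
      ring
  have h2 : x * ∑ m ∈ Finset.range (N + 2), a m * Up x m =
      ∑ m ∈ Finset.range (N + 2), a m * Up x (m + 1) +
        ∑ m ∈ Finset.range (N + 2), a m * (if m = 0 then 0 else Up x (m - 1)) := by
    rw [Finset.mul_sum, ← Finset.sum_add_distrib]
    refine Finset.sum_congr rfl fun m _ => ?_
    rw [← mul_add, ← hV m]
    ring
  have h3 : ∑ m ∈ Finset.range (N + 2), a m * (if m = 0 then 0 else Up x (m - 1)) =
      ∑ m ∈ Finset.range (N + 1), a (m + 1) * Up x m := by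
    rw [Finset.sum_range_succ']
    simp
  have h4 : ∑ m ∈ Finset.range (N + 2), a m * Up x (m + 1) =
      ∑ m ∈ Finset.range (N + 1), (if m = 0 then 0 else a (m - 1)) * Up x m := by
    rw [Finset.sum_range_succ, Finset.sum_range_succ, ha N le_rfl, ha (N + 1) (by omega),
      Finset.sum_range_succ' (fun m => (if m = 0 then 0 else a (m - 1)) * Up x m) N]
    simp
  rw [h1, h2, h3, h4, ← Finset.sum_add_distrib]
  refine Finset.sum_congr rfl fun m _ => ?_
  ring

theorem pow_eq (x : ℝ) : ∀ i N : ℕ, i < N → x ^ i = ∑ m ∈ Finset.range N, u i m * Up x m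
  | 0, N, h => by
    rw [pow_zero, Finset.sum_eq_single_of_mem 0 (Finset.mem_range.2 h)]
    · simp [u, Up]
    · intro m _ hm
      simp [u, hm]
  | i + 1, N, h => by
    obtain ⟨N', rfl⟩ : ∃ N', N = N' + 1 := ⟨N - 1, by omega⟩
    rw [pow_succ', pow_eq x i N' (by omega), shift x N' (u i) fun m hm => u_supp i m (by omega)]
    rfl

theorem mu_sum (s : Finset ℕ) (a : ℕ → ℝ) (g : ℕ → ℝ → ℝ) (hg : ∀ m, Continuous (g m)) :
    mu (fun x => ∑ m ∈ s, a m * g m x) = ∑ m ∈ s, a m * mu (g m) := by
  unfold mu
  have h1 : ∀ θ : ℝ, (∑ m ∈ s, a m * g m (2 * Real.cos θ)) * Real.sin θ ^ 2 =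
      ∑ m ∈ s, a m * (g m (2 * Real.cos θ) * Real.sin θ ^ 2) := by
    intro θ
    rw [Finset.sum_mul]
    refine Finset.sum_congr rfl fun m _ => ?_
    ring
  simp only [h1]
  rw [intervalIntegral.integral_finsetSum, Finset.mul_sum]
  · refine Finset.sum_congr rfl fun m _ => ?_
    rw [intervalIntegral.integral_const_mul]
    ring
  · intro m _
    refine Continuous.intervalIntegrable ?_ _ _
    have := hg m
    fun_prop

theorem mu_coef (h0 : S_KUO) (N : ℕ) (a : ℕ → ℝ) (k : ℕ) (hk : k < N) :
    mu (fun x => (∑ m ∈ Finset.range N, a m * Up x m) * Up x k) = a k := by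
  have h1 : (fun x : ℝ => (∑ m ∈ Finset.range N, a m * Up x m) * Up x k) =
      fun x => ∑ m ∈ Finset.range N, a m * (Up x m * Up x k) := by
    funext x
    rw [Finset.sum_mul]
    refine Finset.sum_congr rfl fun m _ => ?_
    ring
  rw [h1, mu_sum _ a (fun m x => Up x m * Up x k) fun m => (Up_cont m).mul (Up_cont k),
    Finset.sum_eq_single_of_mem k (Finset.mem_range.2 hk)]
  · rw [h0, if_pos rfl, mul_one]
  · intro m _ hm
    rw [h0, if_neg hm, mul_zero]

theorem mu_sq (h0 : S_KUO) (N : ℕ) (a : ℕ → ℝ) :
    mu (fun x => (∑ m ∈ Finset.range N, a m * Up x m) ^ 2) = ∑ m ∈ Finset.range N, a m ^ 2 := by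
  have h1 : (fun x : ℝ => (∑ m ∈ Finset.range N, a m * Up x m) ^ 2) =
      fun x => ∑ k ∈ Finset.range N, a k * ((∑ m ∈ Finset.range N, a m * Up x m) * Up x k) := by
    funext x
    rw [sq, Finset.mul_sum]
    refine Finset.sum_congr rfl fun k _ => ?_
    ring
  have hc : Continuous fun x : ℝ => ∑ m ∈ Finset.range N, a m * Up x m :=
    continuous_finsetSum _ fun m _ => continuous_const.mul (Up_cont m)
  rw [h1, mu_sum _ a (fun k x => (∑ m ∈ Finset.range N, a m * Up x m) * Up x k)
    fun k => hc.mul (Up_cont k)]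
  refine Finset.sum_congr rfl fun k hk => ?_
  rw [mu_coef h0 N a k (Finset.mem_range.1 hk)]
  ring

/-- linear independence -/
theorem indep (h0 : S_KUO) (N : ℕ) (a : ℕ → ℝ)
    (h : ∀ x : ℝ, ∑ m ∈ Finset.range N, a m * Up x m = 0) (k : ℕ) (hk : k < N) : a k = 0 := by
  rw [← mu_coef h0 N a k hk]
  have : (fun x : ℝ => (∑ m ∈ Finset.range N, a m * Up x m) * Up x k) =
      fun x => ∑ m ∈ Finset.range 0, (0 : ℕ → ℝ) m * Up x m := by
    funext x
    rw [h x]
    simp
  rw [this, mu_sum _ _ (fun m x => Up x m) Up_cont]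
  simp

end KERAx

open KERAx in
theorem t_KERA (h0 : S_KUO) (h1 : S_KAN) : S_KER := by
  intro ε hε
  obtain ⟨D, c, κ, hκ, hanti, hfirst, hsmall⟩ := h1 ε hε
  set kap : ℕ → ℕ → ℝ := fun m n =>
    ∑ i ∈ Finset.range D, ∑ j ∈ Finset.range D, c i j * u i m * u j n with hkap
  have hs1 : ∀ m n, D ≤ m → kap m n = 0 := by
    intro m n hm
    refine Finset.sum_eq_zero fun i hi => Finset.sum_eq_zero fun j _ => ?_
    rw [u_supp i m (lt_of_lt_of_le (Finset.mem_range.1 hi) hm)]
    ring
  have hs2 : ∀ m n, D ≤ n → kap m n = 0 := by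
    intro m n hn
    refine Finset.sum_eq_zero fun i _ => Finset.sum_eq_zero fun j hj => ?_
    rw [u_supp j n (lt_of_lt_of_le (Finset.mem_range.1 hj) hn)]
    ring
  -- expansion
  have hexp : ∀ N, D ≤ N → ∀ x y, κ x y =
      ∑ m ∈ Finset.range N, (∑ n ∈ Finset.range N, kap m n * Up y n) * Up x m := by
    intro N hN x y
    rw [hκ x y]
    have e1 : ∑ i ∈ Finset.range D, ∑ j ∈ Finset.range D, c i j * x ^ i * y ^ j =
        ∑ i ∈ Finset.range D, ∑ j ∈ Finset.range D, ∑ m ∈ Finset.range N,
          ∑ n ∈ Finset.range N, c i j * u i m * u j n * Up y n * Up x m := by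
      refine Finset.sum_congr rfl fun i hi => Finset.sum_congr rfl fun j hj => ?_
      rw [pow_eq x i N (lt_of_lt_of_le (Finset.mem_range.1 hi) hN),
        pow_eq y j N (lt_of_lt_of_le (Finset.mem_range.1 hj) hN), mul_assoc, Finset.sum_mul_sum,
        Finset.mul_sum]
      refine Finset.sum_congr rfl fun m _ => ?_
      rw [Finset.mul_sum]
      refine Finset.sum_congr rfl fun n _ => ?_
      ring
    rw [e1]
    have e2 : ∀ m ∈ Finset.range N, (∑ n ∈ Finset.range N, kap m n * Up y n) * Up x m =
        ∑ i ∈ Finset.range D, ∑ j ∈ Finset.range D,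
          ∑ n ∈ Finset.range N, c i j * u i m * u j n * Up y n * Up x m := by
      intro m _
      rw [Finset.sum_mul]
      have e3 : ∀ n ∈ Finset.range N, kap m n * Up y n * Up x m =
          ∑ i ∈ Finset.range D, ∑ j ∈ Finset.range D, c i j * u i m * u j n * Up y n * Up x m := by
        intro n _
        rw [hkap]
        simp only [Finset.sum_mul]
      rw [Finset.sum_congr rfl e3, Finset.sum_comm]
      refine Finset.sum_congr rfl fun i _ => ?_
      rw [Finset.sum_comm]
    rw [Finset.sum_congr rfl e2, Finset.sum_comm' (s := Finset.range N) (t := fun _ => Finset.range D)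
      (t' := Finset.range D) (s' := fun _ => Finset.range N) (by intro a b; tauto)]
    refine Finset.sum_congr rfl fun i _ => ?_
    rw [Finset.sum_comm]
  refine ⟨D + 2, kap, ?_, ?_, ?_, ?_⟩
  · -- antisymmetry
    intro m n
    by_cases hm : D ≤ m
    · rw [hs1 m n hm, hs2 n m hm, neg_zero]
    by_cases hn : D ≤ n
    · rw [hs2 m n hn, hs1 n m hn, neg_zero]
    push Not at hm hn
    have h2 : ∀ x y : ℝ, ∑ m ∈ Finset.range D,
        (∑ n ∈ Finset.range D, (kap m n + kap n m) * Up y n) * Up x m = 0 := by
      intro x y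
      have h3 : ∑ m ∈ Finset.range D,
          (∑ n ∈ Finset.range D, (kap m n + kap n m) * Up y n) * Up x m = κ x y + κ y x := by
        rw [hexp D le_rfl x y, hexp D le_rfl y x]
        have h4 : ∑ m ∈ Finset.range D, (∑ n ∈ Finset.range D, kap m n * Up x n) * Up y m =
            ∑ m ∈ Finset.range D, (∑ n ∈ Finset.range D, kap n m * Up y n) * Up x m := by
          simp only [Finset.sum_mul]
          rw [Finset.sum_comm]
          refine Finset.sum_congr rfl fun m _ => Finset.sum_congr rfl fun n _ => ?_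
          ring
        rw [h4, ← Finset.sum_add_distrib]
        refine Finset.sum_congr rfl fun m _ => ?_
        rw [← add_mul, ← Finset.sum_add_distrib]
        congr 1
        refine Finset.sum_congr rfl fun n _ => ?_
        ring
      rw [h3, hanti x y]
      ring
    have h5 := fun y => indep h0 D (fun m => ∑ n ∈ Finset.range D, (kap m n + kap n m) * Up y n)
      (fun x => h2 x y) m hm
    have h6 := indep h0 D (fun n => kap m n + kap n m) h5 n hn
    linarith
  · intro m n hm
    exact hs1 m n (by omega)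
  · -- first
    intro m
    by_cases hm : D + 2 ≤ m
    · rw [hs1 m 0 (by omega), if_neg (by omega)]
    push Not at hm
    have h2 : ∀ x : ℝ, ∑ m ∈ Finset.range (D + 2),
        (2 * kap m 0 - if m = 1 then 1 else 0) * Up x m = 0 := by
      intro x
      have h3 : mu (fun y => κ x y) = ∑ m ∈ Finset.range (D + 2), Up x m * kap m 0 := by
        have h4 : (fun y => κ x y) = fun y => ∑ m ∈ Finset.range (D + 2),
            Up x m * ((∑ n ∈ Finset.range (D + 2), kap m n * Up y n) * Up y 0) := by
          funext y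
          rw [hexp (D + 2) (by omega) x y]
          refine Finset.sum_congr rfl fun m _ => ?_
          show _ = Up x m * (_ * 1)
          ring
        rw [h4, mu_sum _ (fun m => Up x m)
          (fun m y => (∑ n ∈ Finset.range (D + 2), kap m n * Up y n) * Up y 0)
          (fun m => (continuous_finsetSum _ fun n _ => continuous_const.mul (Up_cont n)).mul
            (Up_cont 0))]
        refine Finset.sum_congr rfl fun m _ => ?_
        rw [mu_coef h0 (D + 2) (fun n => kap m n) 0 (by omega)]
      have h5 := hfirst x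
      rw [h3] at h5
      have h6 : ∑ m ∈ Finset.range (D + 2), (2 * kap m 0 - if m = 1 then 1 else 0) * Up x m =
          2 * (∑ m ∈ Finset.range (D + 2), Up x m * kap m 0) -
            ∑ m ∈ Finset.range (D + 2), (if m = 1 then 1 else 0) * Up x m := by
        rw [Finset.mul_sum, ← Finset.sum_sub_distrib]
        refine Finset.sum_congr rfl fun m _ => ?_
        ring
      have h7 : ∑ m ∈ Finset.range (D + 2), (if m = 1 then (1 : ℝ) else 0) * Up x m = x := by
        rw [Finset.sum_eq_single_of_mem 1 (Finset.mem_range.2 (by omega))]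
        · simp [Up]
        · intro m _ hm
          simp [hm]
      rw [h6, h5, h7, sub_self]
    have h8 := indep h0 (D + 2) (fun m => 2 * kap m 0 - if m = 1 then 1 else 0) h2 m hm
    by_cases h9 : m = 1
    · rw [if_pos h9] at h8 ⊢
      linarith
    · rw [if_neg h9] at h8 ⊢
      linarith
  · -- small
    intro y hy
    have h2 := hsmall y hy
    have hx : ∀ x : ℝ, x * κ x y = ∑ m ∈ Finset.range (D + 2 + 1),
        (∑ n ∈ Finset.range (D + 2 + 1),
          ((if m = 0 then 0 else kap (m - 1) n) + kap (m + 1) n) * Up y n) * Up x m := by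
      intro x
      have e1 : ∀ a : ℕ → ℝ, a (D + 2) = 0 → ∑ n ∈ Finset.range (D + 2 + 1), a n * Up y n =
          ∑ n ∈ Finset.range (D + 2), a n * Up y n := by
        intro a ha
        rw [Finset.sum_range_succ, ha]
        ring
      rw [hexp (D + 2) (by omega) x y, shift x (D + 2)
        (fun m => ∑ n ∈ Finset.range (D + 2), kap m n * Up y n)]
      · refine Finset.sum_congr rfl fun m _ => ?_
        congr 1
        rw [e1 (fun n => (if m = 0 then 0 else kap (m - 1) n) + kap (m + 1) n)
          (by rw [hs2 _ _ (by omega), hs2 _ _ (by omega)]; simp)]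
        by_cases hm : m = 0
        · simp only [if_pos hm, zero_add]
        · simp only [if_neg hm]
          rw [← Finset.sum_add_distrib]
          refine Finset.sum_congr rfl fun n _ => ?_
          ring
      · intro m hm
        refine Finset.sum_eq_zero fun n _ => ?_
        rw [hs1 m n (by omega), zero_mul]
    have hyk : ∀ x : ℝ, y * κ x y = ∑ m ∈ Finset.range (D + 2 + 1),
        (∑ n ∈ Finset.range (D + 2 + 1),
          ((if n = 0 then 0 else kap m (n - 1)) + kap m (n + 1)) * Up y n) * Up x m := by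
      intro x
      rw [hexp (D + 2) (by omega) x y, Finset.mul_sum, Finset.sum_range_succ _ (D + 2)]
      have e1 : ∑ n ∈ Finset.range (D + 2 + 1),
          ((if n = 0 then 0 else kap (D + 2) (n - 1)) + kap (D + 2) (n + 1)) * Up y n = 0 := by
        refine Finset.sum_eq_zero fun n _ => ?_
        rw [hs1 _ _ (by omega), hs1 _ _ (by omega)]
        simp
      rw [e1, zero_mul, add_zero]
      refine Finset.sum_congr rfl fun m _ => ?_
      rw [← mul_assoc, shift y (D + 2) (fun n => kap m n) fun n hn => hs2 m n (by omega)]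
    have hF : (fun x => (1 - (x - y) * κ x y) ^ 2) = fun x => (∑ m ∈ Finset.range (D + 2 + 1),
        (∑ n ∈ Finset.range (D + 2 + 1), fm kap m n * Up y n) * Up x m) ^ 2 := by
      funext x
      congr 1
      have e1 : (1 : ℝ) = ∑ m ∈ Finset.range (D + 2 + 1),
          (∑ n ∈ Finset.range (D + 2 + 1), (if m = 0 ∧ n = 0 then 1 else 0) * Up y n) *
            Up x m := by
        rw [Finset.sum_eq_single_of_mem 0 (Finset.mem_range.2 (by omega)),
          Finset.sum_eq_single_of_mem 0 (Finset.mem_range.2 (by omega))]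
        · simp [Up]
        · intro n _ hn
          simp [hn]
        · intro m _ hm
          simp [hm]
      rw [sub_mul, hx x, hyk x]
      conv_lhs => rw [e1]
      rw [← Finset.sum_sub_distrib, ← Finset.sum_sub_distrib]
      refine Finset.sum_congr rfl fun m _ => ?_
      rw [← sub_mul, ← sub_mul, ← Finset.sum_sub_distrib, ← Finset.sum_sub_distrib]
      congr 1
      refine Finset.sum_congr rfl fun n _ => ?_
      unfold fm
      ring
    rw [hF, mu_sq h0] at h2
    exact h2

end Pool.Agent.H875R.FP
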