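import Pool.Agent.H875R.FP.Stubs2

/-! Task KEY: the key identity. -/

namespace Pool.Agent.H875R.FP

open Pool.Agent.H667R3.FF (ev splits)
open Pool.Agent.H581R.FF (n2 act)
open scoped ComplexConjugate

namespace KEYx

theorem Up_star_comm {A : Type} [Ring A] [StarRing A] (P : A) (hP : star P = P) (n : ℕ) :
    (star (Up P n) = Up P n ∧ P * Up P n = Up P n * P) ∧
      (star (Up P (n + 1)) = Up P (n + 1) ∧ P * Up P (n + 1) = Up P (n + 1) * P) := by
  induction n with
  | zero =>
    refine ⟨⟨?_, ?_⟩, ?_, ?_⟩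
    · simp only [Up, star_one]
    · simp only [Up, mul_one, one_mul]
    · simpa only [Up] using hP
    · simp only [Up]
  | succ n ih =>
    obtain ⟨⟨h1, h2⟩, h3, h4⟩ := ih
    refine ⟨⟨h3, h4⟩, ?_, ?_⟩
    · rw [Up, star_sub, star_mul, hP, h3, h1, h4]
    · rw [Up, mul_sub, sub_mul, h2, h4, mul_assoc, ← mul_assoc P, h4, mul_assoc]

theorem star_Up {A : Type} [Ring A] [StarRing A] (P : A) (hP : star P = P) (n : ℕ) :
    star (Up P n) = Up P n := (Up_star_comm P hP n).1.1

variable {κ H : Type} [NormedAddCommGroup H] [InnerProductSpace ℂ H] [CompleteSpace H]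

theorem inner_star_left (A : H →L[ℂ] H) (ξ η : H) :
    (inner ℂ (star A ξ) η : ℂ) = inner ℂ ξ (A η) := by
  rw [ContinuousLinearMap.star_eq_adjoint, ContinuousLinearMap.adjoint_inner_left]

theorem DD_le (F : Fock κ H) (σ : κ) {x : H →L[ℂ] H} (hx : x ∈ F.DD σ) : x ∈ F.AA := by
  have h : F.DD σ ≤ F.AA :=
    StarSubalgebra.topologicalClosure_mono (StarAlgebra.adjoin_mono (Set.image_subset_range _ _))
  exact h hx

/-- one summand -/
theorem one_term (F : Fock κ H) (P T W r : H →L[ℂ] H) (c : ℕ → ℝ) (hP : star P = P)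
    (hT : star T = T) (hr : star r * r = 1) (hrA : r ∈ F.AA) (hU : ∀ n, Up P n ∈ F.AA)
    (hW : W ∈ F.AA) (htr : ∀ x ∈ F.AA, ∀ y ∈ F.AA, F.tau (x * y) = F.tau (y * x))
    (hE : ∀ n, T ((Up P n * star r) F.Om) = (c n : ℂ) • (Up P n * star r) F.Om) (k l : ℕ) :
    (inner ℂ F.Om ((r * Up P k * (T * W - W * T) * (Up P l * star r)) F.Om) : ℂ) =
      ((c k : ℂ) - c l) * F.tau (Up P k * W * Up P l) := by
  have h1 : ∀ X : H →L[ℂ] H, (inner ℂ F.Om ((r * Up P k * X * (Up P l * star r)) F.Om) : ℂ) =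
      inner ℂ ((Up P k * star r) F.Om) (X ((Up P l * star r) F.Om)) := by
    intro X
    have h2 : star (r * Up P k) = Up P k * star r := by rw [star_mul, star_Up P hP]
    rw [← h2, inner_star_left]
    rfl
  have h3 : (inner ℂ ((Up P k * star r) F.Om) (W ((Up P l * star r) F.Om)) : ℂ) =
      F.tau (Up P k * W * Up P l) := by
    rw [← h1 W]
    have h4 : F.tau (r * (Up P k * W * Up P l * star r)) =
        F.tau (Up P k * W * Up P l * star r * r) := by
      refine htr _ hrA _ ?_
      exact mul_mem (mul_mem (mul_mem (hU k) hW) (hU l)) (star_mem hrA)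
    rw [mul_assoc (Up P k * W * Up P l), hr, mul_one] at h4
    rw [← h4]
    unfold Fock.tau
    congr 2
  rw [h1]
  have h5 : (T * W - W * T) ((Up P l * star r) F.Om) =
      T (W ((Up P l * star r) F.Om)) - W (T ((Up P l * star r) F.Om)) := rfl
  rw [h5, inner_sub_right, hE l, map_smul, inner_smul_right, h3]
  have h6 : (inner ℂ ((Up P k * star r) F.Om) (T (W ((Up P l * star r) F.Om))) : ℂ) =
      inner ℂ (T ((Up P k * star r) F.Om)) (W ((Up P l * star r) F.Om)) := by
    rw [← inner_star_left, hT]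
  rw [h6, hE k, inner_smul_left, h3, Complex.conj_ofReal]
  ring

/-- the double sum -/
theorem dsum {N : ℕ} (hN : 2 ≤ N) (kap : ℕ → ℕ → ℝ) (ε' : ℝ) (hK : Ker ε' N kap) (c : ℕ → ℝ)
    (s v : ℝ) (h0 : c 0 = s) (h1 : ∀ k, c (k + 1) = v) (τ : ℕ → ℕ → ℂ) (z : ℂ) (w : ℂ)
    (hτ1 : τ 1 0 = w) (hτ2 : τ 0 1 = w) :
    ∑ k ∈ Finset.range N, ∑ l ∈ Finset.range N, (z * (kap k l : ℂ)) *
      (((c k : ℂ) - c l) * τ k l) = z * ((v - s : ℝ) : ℂ) * w := by
  have h2 : ∀ k l : ℕ, (z * (kap k l : ℂ)) * (((c k : ℂ) - c l) * τ k l) =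
      (if k = 1 then (if l = 0 then z * ((v - s : ℝ) : ℂ) * w / 2 else 0) else 0) +
      (if k = 0 then (if l = 1 then z * ((v - s : ℝ) : ℂ) * w / 2 else 0) else 0) := by
    intro k l
    rcases k with _ | k
    · rcases l with _ | l
      · rw [if_neg (by omega), if_pos rfl, if_neg (by omega)]
        simp
      · rw [if_neg (by omega), if_pos rfl]
        have h3 : kap 0 (l + 1) = -(if l + 1 = 1 then 1 / 2 else 0) := by
          rw [hK.anti, hK.first]
        rw [h3, h0, h1]
        rcases l with _ | l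
        · rw [if_pos rfl, if_pos rfl, hτ2]
          push_cast
          ring
        · rw [if_neg (by omega), if_neg (by omega)]
          simp
    · rcases l with _ | l
      · rw [if_neg (show ¬ k + 1 = 0 by omega), hK.first, h0, h1]
        rcases k with _ | k
        · rw [if_pos rfl, if_pos rfl, if_pos rfl, hτ1]
          push_cast
          ring
        · rw [if_neg (by omega), if_neg (by omega)]
          simp
      · rw [h1, h1, if_neg (show ¬ k + 1 = 0 by omega), if_neg (show ¬ l + 1 = 0 by omega)]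
        simp
  simp only [h2, Finset.sum_add_distrib]
  have e1 : ∀ z' : ℂ, ∑ k ∈ Finset.range N, ∑ l ∈ Finset.range N,
      (if k = 1 then (if l = 0 then z' else 0) else 0) = z' := by
    intro z'
    rw [Finset.sum_eq_single 1]
    · rw [Finset.sum_eq_single 0]
      · simp
      · intro l _ hl
        simp [hl]
      · intro h
        exact absurd (Finset.mem_range.2 (by omega)) h
    · intro k _ hk
      simp [hk]
    · intro h
      exact absurd (Finset.mem_range.2 (by omega)) h
  have e2 : ∀ z' : ℂ, ∑ k ∈ Finset.range N, ∑ l ∈ Finset.range N,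
      (if k = 0 then (if l = 1 then z' else 0) else 0) = z' := by
    intro z'
    rw [Finset.sum_eq_single 0]
    · rw [Finset.sum_eq_single 1]
      · simp
      · intro l _ hl
        simp [hl]
      · intro h
        exact absurd (Finset.mem_range.2 (by omega)) h
    · intro k _ hk
      simp [hk]
    · intro h
      exact absurd (Finset.mem_range.2 (by omega)) h
  rw [e1, e2]
  ring

end KEYx

open KEYx in
/-- KEY -/
theorem t_KEY (h1 : S_TEIG) (h2 : S_TR) (h3 : S_SPAN) (hb : S_BAS) : S_KEY := by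
  intro κ H _ _ _ F i₀ i₁ σ a b hS m N kap t ε ε' hC hK T hT W hW
  obtain ⟨_, _, _, _, _, _, hroD, hUD⟩ := h3 κ H F i₀ i₁ σ a b hS m N kap t ε' hK
  have hSs : star (F.S i₀) = F.S i₀ := (hb κ H F).2.2.2.2.2.1 i₀
  have hP : star (PP F i₀ a b m) = PP F i₀ a b m := by
    unfold PP
    rw [star_mul, star_mul, star_star, hSs, mul_assoc]
  have hN : 2 ≤ N := by
    by_contra hcon
    have h4 := hK.supp 1 0 (by omega)
    rw [hK.first 1, if_pos rfl] at h4
    norm_num at h4
  have hU : ∀ n, Up (PP F i₀ a b m) n ∈ F.AA := fun n => DD_le F σ (hUD n)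
  have key : ∀ g ∈ t.support, (∑ k ∈ Finset.range N, ∑ l ∈ Finset.range N,
      (-Complex.I * ((t g : ℝ) : ℂ) * (kap k l : ℂ)) *
      (inner ℂ F.Om ((ro a b g * Up (PP F i₀ a b m) k * (T * W - W * T) *
        (Up (PP F i₀ a b m) l * star (ro a b g))) F.Om) : ℂ)) =
      (-Complex.I * ((t g : ℝ) : ℂ)) * ((chi m g : ℝ) : ℂ) * F.tau (PP F i₀ a b m * W) := by
    intro g hg
    have hgK := hC.supp g hg
    set c : ℕ → ℝ := fun n => if n = 0 then stb g else stb (g * (vv m)⁻¹) with hc
    have hr : star (ro a b g) * ro a b g = 1 := Unitary.star_mul_self_of_mem (rho a b g).2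
    have h4 := one_term F (PP F i₀ a b m) T W (ro a b g) c hP hT.star hr (DD_le F σ (hroD g)) hU
      hW (h2 κ H F) (fun n => h1 κ H F i₀ i₁ σ a b hS m T hT g hgK n)
    simp only [h4]
    have h5 := dsum hN kap ε' hK c (stb g) (stb (g * (vv m)⁻¹)) (by rw [hc]; simp)
      (fun k => by rw [hc]; simp) (fun k l => F.tau (Up (PP F i₀ a b m) k * W *
        Up (PP F i₀ a b m) l)) (-Complex.I * ((t g : ℝ) : ℂ)) (F.tau (PP F i₀ a b m * W))
      (by simp only [Up, mul_one]) (by
        simp only [Up, one_mul]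
        exact h2 κ H F _ hW _ (hU 1))
    rw [h5]
    rfl
  unfold Finsupp.sum
  rw [Finset.sum_congr rfl key, ← Finset.sum_mul]
  have h6 := hC.chi
  unfold Finsupp.sum at h6
  have h7 : ∑ g ∈ t.support, (-Complex.I * ((t g : ℝ) : ℂ)) * ((chi m g : ℝ) : ℂ) =
      -Complex.I * ((∑ g ∈ t.support, t g * chi m g : ℝ) : ℂ) := by
    push_cast
    rw [Finset.mul_sum]
    exact Finset.sum_congr rfl fun g _ => by ring
  rw [h7, h6, Complex.ofReal_one]
  have h8 : Complex.I * Complex.I = -1 := Complex.I_mul_I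
  linear_combination (-F.tau (PP F i₀ a b m * W)) * h8

end Pool.Agent.H875R.FP
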