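import Mathlib
import Pool.Agent.H875R.FP.Stubs2

/-! Task KF (helper338): the rows of `f_M = (1-z²)^M` are small. -/

namespace Pool.Agent.H875R.FP

namespace TKF

theorem pt_bound (M : ℕ) (z : ℝ) (hz : |z| ≤ 1) :
    ((1 - z ^ 2) ^ M) ^ 2 ≤ (1 + 2 * M * z ^ 2)⁻¹ := by
  have hz2 : z ^ 2 ≤ 1 := by
    rw [← sq_abs]
    nlinarith [abs_nonneg z]
  have h0 : 0 ≤ 1 - z ^ 2 := by linarith
  have h1 : (1 : ℝ) + 2 * M * z ^ 2 ≤ (1 + z ^ 2) ^ (2 * M) := by
    have := one_add_mul_le_pow (a := z ^ 2) (by nlinarith [sq_nonneg z]) (2 * M)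
    push_cast at this
    linarith
  have hpos : (0 : ℝ) < 1 + 2 * M * z ^ 2 := by positivity
  rw [← pow_mul, mul_comm M 2, ← one_div, le_div_iff₀ hpos]
  calc (1 - z ^ 2) ^ (2 * M) * (1 + 2 * M * z ^ 2)
      ≤ (1 - z ^ 2) ^ (2 * M) * (1 + z ^ 2) ^ (2 * M) :=
        mul_le_mul_of_nonneg_left h1 (by positivity)
    _ = ((1 - z ^ 2) * (1 + z ^ 2)) ^ (2 * M) := by rw [mul_pow]
    _ ≤ 1 := by
        apply pow_le_one₀
        · exact mul_nonneg h0 (by positivity)
        · nlinarith [sq_nonneg (z ^ 2)]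

theorem main_bound (M : ℕ) (c : ℝ) (hc : 0 < c) (hcM : c ^ 2 = 2 * M / 16) (y : ℝ)
    (hy : |y| ≤ 2) : mu (fun x => ((1 - ((x - y) / 4) ^ 2) ^ M) ^ 2) ≤ 1 / c := by
  have hder : ∀ θ : ℝ, HasDerivAt
      (fun θ => -(1 / (2 * c)) * Real.arctan (c * (2 * Real.cos θ - y)))
      ((1 + (c * (2 * Real.cos θ - y)) ^ 2)⁻¹ * Real.sin θ) θ := by
    intro θ
    have h1 : HasDerivAt (fun θ => c * (2 * Real.cos θ - y)) (c * (2 * -Real.sin θ)) θ :=
      (((Real.hasDerivAt_cos θ).const_mul 2).sub_const y).const_mul c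
    have h2 := (h1.arctan).const_mul (-(1 / (2 * c)))
    refine h2.congr_deriv ?_
    have hne : (1 + (c * (2 * Real.cos θ - y)) ^ 2) ≠ 0 := by positivity
    field_simp
  have hcont : Continuous fun θ : ℝ => (1 + (c * (2 * Real.cos θ - y)) ^ 2)⁻¹ * Real.sin θ := by
    apply Continuous.mul _ Real.continuous_sin
    apply Continuous.inv₀
    · fun_prop
    · intro θ
      positivity
  have hint : ∫ θ in (0 : ℝ)..Real.pi, (1 + (c * (2 * Real.cos θ - y)) ^ 2)⁻¹ * Real.sin θ ≤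
      Real.pi / (2 * c) := by
    rw [intervalIntegral.integral_eq_sub_of_hasDerivAt (fun θ _ => hder θ)
      (hcont.intervalIntegrable _ _)]
    have a1 := Real.arctan_lt_pi_div_two (c * (2 * Real.cos 0 - y))
    have a2 := Real.neg_pi_div_two_lt_arctan (c * (2 * Real.cos Real.pi - y))
    have hc2 : 0 < 1 / (2 * c) := by positivity
    have e : Real.pi / (2 * c) = (1 / (2 * c)) * Real.pi := by ring
    rw [e]
    nlinarith
  have hmono : ∫ θ in (0 : ℝ)..Real.pi,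
      ((1 - ((2 * Real.cos θ - y) / 4) ^ 2) ^ M) ^ 2 * Real.sin θ ^ 2 ≤
      ∫ θ in (0 : ℝ)..Real.pi, (1 + (c * (2 * Real.cos θ - y)) ^ 2)⁻¹ * Real.sin θ := by
    apply intervalIntegral.integral_mono_on Real.pi_pos.le
    · apply Continuous.intervalIntegrable
      fun_prop
    · exact hcont.intervalIntegrable _ _
    · intro θ hθ
      have hs0 : 0 ≤ Real.sin θ := Real.sin_nonneg_of_mem_Icc hθ
      have hs1 : Real.sin θ ≤ 1 := Real.sin_le_one θ
      have hz : |(2 * Real.cos θ - y) / 4| ≤ 1 := by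
        have h1 := Real.neg_one_le_cos θ
        have h2 := Real.cos_le_one θ
        rw [abs_le] at hy ⊢
        constructor <;> linarith [hy.1, hy.2]
      have h3 := pt_bound M _ hz
      have e : (1 : ℝ) + 2 * M * ((2 * Real.cos θ - y) / 4) ^ 2 =
          1 + (c * (2 * Real.cos θ - y)) ^ 2 := by
        rw [mul_pow c, hcM]
        ring
      rw [e] at h3
      have h4 : Real.sin θ ^ 2 ≤ Real.sin θ := by nlinarith
      exact mul_le_mul h3 h4 (sq_nonneg _) (by positivity)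
  unfold mu
  have hpi := Real.pi_pos
  calc 2 / Real.pi * ∫ θ in (0 : ℝ)..Real.pi,
        ((1 - ((2 * Real.cos θ - y) / 4) ^ 2) ^ M) ^ 2 * Real.sin θ ^ 2
      ≤ 2 / Real.pi * (Real.pi / (2 * c)) :=
        mul_le_mul_of_nonneg_left (hmono.trans hint) (by positivity)
    _ = 1 / c := by
        field_simp

end TKF

theorem t_KF : S_KF := by
  intro ε hε
  obtain ⟨M₀, hM₀⟩ := exists_nat_ge (8 / ε ^ 2)
  refine ⟨M₀ + 1, fun M hM y hy => ?_⟩
  have hM1 : (1 : ℝ) ≤ M := by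
    have : 1 ≤ M := by omega
    exact_mod_cast this
  have hM2 : 8 / ε ^ 2 ≤ (M : ℝ) := by
    have : (M₀ : ℝ) ≤ M := by
      have : M₀ ≤ M := by omega
      exact_mod_cast this
    linarith
  set c : ℝ := Real.sqrt (2 * M / 16) with hc
  have hc0 : 0 < c := Real.sqrt_pos.2 (by positivity)
  have hc2 : c ^ 2 = 2 * M / 16 := Real.sq_sqrt (by positivity)
  refine (TKF.main_bound M c hc0 hc2 y hy).trans ?_
  rw [div_le_iff₀ hc0]
  have h1 : 1 / ε ≤ c := by
    rw [hc]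
    apply Real.le_sqrt_of_sq_le
    have : (1 / ε) ^ 2 = (8 / ε ^ 2) / 8 := by
      field_simp
    rw [this]
    linarith
  rw [div_le_iff₀ hε] at h1
  linarith

end Pool.Agent.H875R.FP
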