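import Mathlib
import Pool.Agent.H875R.FP.Stubs2

/-! Task KQ (helper613): `q_M → x` uniformly on `[-2,2]`. -/

namespace Pool.Agent.H875R.FP

namespace KQp

open MeasureTheory Set Filter Topology

theorem two_cos_mem (θ : ℝ) : 2 * Real.cos θ ∈ Icc (-2 : ℝ) 2 := by
  have h1 := Real.cos_le_one θ
  have h2 := Real.neg_one_le_cos θ
  exact ⟨by linarith, by linarith⟩

theorem cont_up (k : ℕ) : Continuous (fun x : ℝ => Up x k) := by
  induction k using Nat.strong_induction_on with
  | _ k ih =>
    match k with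
    | 0 => simp only [Up]; exact continuous_const
    | 1 => simp only [Up]; exact continuous_id
    | n + 2 =>
      simp only [Up]
      exact (continuous_id.mul (ih (n + 1) (by omega))).sub (ih n (by omega))

theorem cont_q (M : ℕ) : Continuous (fun x : ℝ => 2 * mu (fun y => kM M x y)) := by
  unfold mu
  refine continuous_const.mul (continuous_const.mul ?_)
  apply intervalIntegral.continuous_parametric_intervalIntegral_of_continuous'
  unfold kM
  simp only [Function.uncurry_def]
  fun_prop

theorem mu_close {f g : ℝ → ℝ} (hf : ContinuousOn f (Icc (-2) 2)) (hg : ContinuousOn g (Icc (-2) 2))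
    {C : ℝ} (h : ∀ x ∈ Icc (-2 : ℝ) 2, |f x - g x| ≤ C) : |mu f - mu g| ≤ 2 * C := by
  have hcos : Continuous (fun θ : ℝ => 2 * Real.cos θ) := by fun_prop
  have hsin : Continuous (fun θ : ℝ => Real.sin θ ^ 2) := by fun_prop
  have hfc : Continuous (fun θ : ℝ => f (2 * Real.cos θ) * Real.sin θ ^ 2) :=
    (hf.comp_continuous hcos two_cos_mem).mul hsin
  have hgc : Continuous (fun θ : ℝ => g (2 * Real.cos θ) * Real.sin θ ^ 2) :=
    (hg.comp_continuous hcos two_cos_mem).mul hsin
  have hC : 0 ≤ C := (abs_nonneg _).trans (h 0 ⟨by norm_num, by norm_num⟩)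
  unfold mu
  rw [← mul_sub, ← intervalIntegral.integral_sub (hfc.intervalIntegrable _ _)
    (hgc.intervalIntegrable _ _), abs_mul, abs_of_pos (by positivity : 0 < 2 / Real.pi)]
  have h1 : ‖∫ θ in (0 : ℝ)..Real.pi, (f (2 * Real.cos θ) * Real.sin θ ^ 2 -
      g (2 * Real.cos θ) * Real.sin θ ^ 2)‖ ≤ C * |Real.pi - 0| := by
    apply intervalIntegral.norm_integral_le_of_norm_le_const
    intro θ _
    have h2 := h _ (two_cos_mem θ)
    have h3 : Real.sin θ ^ 2 ≤ 1 := Real.sin_sq_le_one θ
    have h4 : 0 ≤ Real.sin θ ^ 2 := sq_nonneg _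
    rw [← sub_mul, Real.norm_eq_abs, abs_mul, abs_of_nonneg h4]
    calc |f (2 * Real.cos θ) - g (2 * Real.cos θ)| * Real.sin θ ^ 2 ≤ C * 1 :=
          mul_le_mul h2 h3 h4 hC
      _ = C := mul_one C
  rw [Real.norm_eq_abs, sub_zero, abs_of_pos Real.pi_pos] at h1
  calc 2 / Real.pi * |∫ θ in (0 : ℝ)..Real.pi, (f (2 * Real.cos θ) * Real.sin θ ^ 2 -
      g (2 * Real.cos θ) * Real.sin θ ^ 2)| ≤ 2 / Real.pi * (C * Real.pi) :=
        mul_le_mul_of_nonneg_left h1 (by positivity)
    _ = 2 * C := by field_simp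

/-- orthogonality to all the Chebyshev polynomials -/
theorem vanish {H : ℝ → ℝ} (hH : ContinuousOn H (Icc (-2) 2))
    (h0 : ∀ k, mu (fun x => H x * Up x k) = 0) : ∀ x ∈ Icc (-2 : ℝ) 2, H x = 0 := by
  have hcos : Continuous (fun θ : ℝ => 2 * Real.cos θ) := by fun_prop
  have hsin : Continuous (fun θ : ℝ => Real.sin θ ^ 2) := by fun_prop
  have hHc : Continuous (fun θ : ℝ => H (2 * Real.cos θ)) := hH.comp_continuous hcos two_cos_mem
  -- linearity
  have hadd : ∀ f g : ℝ → ℝ, Continuous f → Continuous g →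
      mu (fun x => H x * (f x + g x)) = mu (fun x => H x * f x) + mu (fun x => H x * g x) := by
    intro f g hf hg
    unfold mu
    rw [← mul_add, ← intervalIntegral.integral_add]
    · congr 1
      apply intervalIntegral.integral_congr
      intro θ _
      simp only
      ring
    · exact ((hHc.mul (hf.comp hcos)).mul hsin).intervalIntegrable _ _
    · exact ((hHc.mul (hg.comp hcos)).mul hsin).intervalIntegrable _ _
  have hsmul : ∀ (c : ℝ) (f : ℝ → ℝ), mu (fun x => H x * (c * f x)) = c * mu (fun x => H x * f x) := by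
    intro c f
    unfold mu
    rw [← mul_assoc, mul_comm c, mul_assoc]
    congr 1
    rw [← intervalIntegral.integral_const_mul]
    apply intervalIntegral.integral_congr
    intro θ _
    simp only
    ring
  have hpow : ∀ n k : ℕ, mu (fun x => H x * (x ^ n * Up x k)) = 0 := by
    intro n
    induction n with
    | zero => intro k; simpa using h0 k
    | succ n ih =>
      intro k
      match k with
      | 0 =>
        have h1 := ih 1
        have e : (fun x : ℝ => H x * (x ^ (n + 1) * Up x 0)) = (fun x => H x * (x ^ n * Up x 1)) := by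
          funext x; simp only [Up]; ring
        rw [e]; exact h1
      | k + 1 =>
        have e : (fun x : ℝ => H x * (x ^ (n + 1) * Up x (k + 1))) =
            (fun x => H x * (x ^ n * Up x (k + 2) + x ^ n * Up x k)) := by
          funext x
          have : Up x (k + 2) = x * Up x (k + 1) - Up x k := by simp only [Up]
          rw [this]; ring
        rw [e, hadd (fun x => x ^ n * Up x (k + 2)) (fun x => x ^ n * Up x k)
          ((continuous_pow n).mul (cont_up _)) ((continuous_pow n).mul (cont_up _)),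
          ih (k + 2), ih k, add_zero]
  have hpoly : ∀ p : Polynomial ℝ, mu (fun x => H x * p.eval x) = 0 := by
    intro p
    induction p using Polynomial.induction_on' with
    | add p q hp hq =>
      have e : (fun x : ℝ => H x * (p + q).eval x) = (fun x => H x * (p.eval x + q.eval x)) := by
        funext x; rw [Polynomial.eval_add]
      rw [e, hadd (fun x => p.eval x) (fun x => q.eval x) p.continuous q.continuous, hp, hq,
        add_zero]
    | monomial n a =>
      have e : (fun x : ℝ => H x * (Polynomial.monomial n a).eval x) =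
          (fun x => H x * (a * (x ^ n * Up x 0))) := by
        funext x; rw [Polynomial.eval_monomial]; simp only [Up]; ring
      rw [e, hsmul a (fun x => x ^ n * Up x 0), hpow n 0, mul_zero]
  obtain ⟨B, hB⟩ : ∃ B, ∀ x ∈ Icc (-2 : ℝ) 2, |H x| ≤ B := by
    obtain ⟨B, hB⟩ := isCompact_Icc.exists_bound_of_continuousOn hH
    exact ⟨B, fun x hx => by simpa [Real.norm_eq_abs] using hB x hx⟩
  have hB0 : 0 ≤ B := (abs_nonneg _).trans (hB 0 ⟨by norm_num, by norm_num⟩)
  have hsq : mu (fun x => H x * H x) = 0 := by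
    have h1 : |mu (fun x => H x * H x)| ≤ 0 := by
      apply le_of_forall_pos_le_add
      intro ε hε
      rw [zero_add]
      obtain ⟨p, hp⟩ := exists_polynomial_near_of_continuousOn (-2) 2 H hH (ε / (2 * (B + 1)))
        (by positivity)
      have h2 := mu_close (f := fun x => H x * H x) (g := fun x => H x * p.eval x) (hH.mul hH)
        (hH.mul p.continuous.continuousOn) (C := B * (ε / (2 * (B + 1)))) (by
          intro x hx
          rw [← mul_sub, abs_mul, abs_sub_comm]
          exact mul_le_mul (hB x hx) (hp x hx).le (abs_nonneg _) hB0)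
      rw [hpoly p, sub_zero] at h2
      refine h2.trans ?_
      have h3 : 2 * (B * (ε / (2 * (B + 1)))) = ε * (B / (B + 1)) := by field_simp
      rw [h3]
      have h4 : B / (B + 1) ≤ 1 := by rw [div_le_one (by linarith)]; linarith
      nlinarith
    exact abs_nonpos_iff.mp h1
  have hzero : ∀ θ ∈ Icc (0 : ℝ) Real.pi, H (2 * Real.cos θ) * H (2 * Real.cos θ) *
      Real.sin θ ^ 2 = 0 := by
    have hc : Continuous (fun θ : ℝ => H (2 * Real.cos θ) * H (2 * Real.cos θ) *
      Real.sin θ ^ 2) := (hHc.mul hHc).mul hsin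
    have hint : ∫ θ in (0 : ℝ)..Real.pi, H (2 * Real.cos θ) * H (2 * Real.cos θ) *
      Real.sin θ ^ 2 = 0 := by
      unfold mu at hsq
      rcases mul_eq_zero.mp hsq with h | h
      · exact absurd h (by positivity)
      · exact h
    have hae := (intervalIntegral.integral_eq_zero_iff_of_le_of_nonneg_ae Real.pi_pos.le
      (Filter.Eventually.of_forall (fun θ => mul_nonneg (mul_self_nonneg _) (sq_nonneg _)))
      (hc.intervalIntegrable _ _)).mp hint
    have hae2 : (fun θ : ℝ => H (2 * Real.cos θ) * H (2 * Real.cos θ) * Real.sin θ ^ 2)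
        =ᵐ[volume.restrict (Icc 0 Real.pi)] (0 : ℝ → ℝ) := by
      rw [← restrict_Ioc_eq_restrict_Icc]
      exact hae
    exact fun θ hθ => MeasureTheory.Measure.eqOn_Icc_of_ae_eq volume Real.pi_pos.ne hae2
      hc.continuousOn continuousOn_const hθ
  have hopen : EqOn H (fun _ => 0) (Ioo (-2) 2) := by
    intro x hx
    have hx1 : -1 < x / 2 := by linarith [hx.1]
    have hx2 : x / 2 < 1 := by linarith [hx.2]
    have hc : Real.cos (Real.arccos (x / 2)) = x / 2 := Real.cos_arccos hx1.le hx2.le
    have hθ0 : 0 < Real.arccos (x / 2) := Real.arccos_pos.mpr hx2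
    have hθπ : Real.arccos (x / 2) < Real.pi := by
      rw [← Real.arccos_neg_one]
      exact Real.strictAntiOn_arccos ⟨le_rfl, by norm_num⟩ ⟨hx1.le, hx2.le⟩ hx1
    have h1 := hzero _ ⟨hθ0.le, hθπ.le⟩
    rw [hc] at h1
    have h2 : 2 * (x / 2) = x := by ring
    rw [h2] at h1
    have h3 : 0 < Real.sin (Real.arccos (x / 2)) := Real.sin_pos_of_pos_of_lt_pi hθ0 hθπ
    rcases mul_eq_zero.mp h1 with h | h
    · exact mul_self_eq_zero.mp h
    · exact absurd h (by positivity)
  have hcl : Icc (-2 : ℝ) 2 ⊆ closure (Ioo (-2) 2) := by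
    rw [closure_Ioo (by norm_num)]
  exact hopen.of_subset_closure hH continuousOn_const Ioo_subset_Icc_self hcl

end KQp

open Filter Set Topology in
theorem t_KQ (h0 : S_KUO) (h1 : S_KQ1) (h2 : S_KQ2) : S_KQ := by
  set q : ℕ → ℝ → ℝ := fun M x => 2 * mu (fun y => kM M x y) with hq
  have hcauchy : ∀ x ∈ Icc (-2 : ℝ) 2, CauchySeq (fun M => q M x) := by
    intro x hx
    rw [Metric.cauchySeq_iff]
    intro ε hε
    obtain ⟨M₀, hM⟩ := h1 (ε / 2) (by positivity)
    refine ⟨M₀, fun m hm n hn => ?_⟩
    rw [Real.dist_eq]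
    have := hM m hm n hn x (abs_le.mpr hx)
    linarith
  have hlim : ∀ x : ℝ, ∃ l : ℝ, x ∈ Icc (-2 : ℝ) 2 → Tendsto (fun M => q M x) atTop (nhds l) := by
    intro x
    by_cases hx : x ∈ Icc (-2 : ℝ) 2
    · obtain ⟨l, hl⟩ := cauchySeq_tendsto_of_complete (hcauchy x hx)
      exact ⟨l, fun _ => hl⟩
    · exact ⟨0, fun h => absurd h hx⟩
  choose Q hQ using hlim
  have hunif : ∀ ε : ℝ, 0 < ε → ∃ M₀ : ℕ, ∀ M ≥ M₀, ∀ x ∈ Icc (-2 : ℝ) 2, |q M x - Q x| ≤ ε := by
    intro ε hε
    obtain ⟨M₀, hM⟩ := h1 ε hε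
    refine ⟨M₀, fun M hMM x hx => ?_⟩
    have h3 : Tendsto (fun M' => |q M x - q M' x|) atTop (nhds |q M x - Q x|) :=
      (tendsto_const_nhds.sub (hQ x hx)).abs
    exact le_of_tendsto h3 (eventually_atTop.mpr ⟨M₀, fun M' hM' => hM M hMM M' hM' x (abs_le.mpr hx)⟩)
  have hTU : TendstoUniformlyOn q Q atTop (Icc (-2) 2) := by
    rw [Metric.tendstoUniformlyOn_iff]
    intro ε hε
    obtain ⟨M₀, hM⟩ := hunif (ε / 2) (by positivity)
    refine eventually_atTop.mpr ⟨M₀, fun M hMM x hx => ?_⟩
    rw [Real.dist_eq, abs_sub_comm]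
    have := hM M hMM x hx
    linarith
  have hQc : ContinuousOn Q (Icc (-2) 2) :=
    hTU.continuousOn (Frequently.of_forall (fun M => (KQp.cont_q M).continuousOn))
  have hmuQ : ∀ k, mu (fun x => Q x * Up x k) = if k = 1 then 1 else 0 := by
    intro k
    refine tendsto_nhds_unique ?_ (h2 k)
    rw [Metric.tendsto_atTop]
    intro ε hε
    obtain ⟨B, hB⟩ := isCompact_Icc.exists_bound_of_continuousOn
      (s := Icc (-2 : ℝ) 2) (KQp.cont_up k).continuousOn
    have hB0 : 0 ≤ B := (norm_nonneg _).trans (hB 0 ⟨by norm_num, by norm_num⟩)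
    obtain ⟨M₀, hM⟩ := hunif (ε / (4 * (B + 1))) (by positivity)
    refine ⟨M₀, fun M hMM => ?_⟩
    rw [Real.dist_eq]
    have h3 := KQp.mu_close (f := fun x => 2 * mu (fun y => kM M x y) * Up x k)
      (g := fun x => Q x * Up x k)
      (((KQp.cont_q M).mul (KQp.cont_up k)).continuousOn) (hQc.mul (KQp.cont_up k).continuousOn)
      (C := ε / (4 * (B + 1)) * B) (by
        intro x hx
        rw [← sub_mul, abs_mul]
        have h5 := hB x hx
        rw [Real.norm_eq_abs] at h5
        exact mul_le_mul (hM M hMM x hx) h5 (abs_nonneg _) (by positivity))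
    refine lt_of_le_of_lt h3 ?_
    have h4 : 2 * (ε / (4 * (B + 1)) * B) = ε / 2 * (B / (B + 1)) := by field_simp; ring
    rw [h4]
    have h5 : B / (B + 1) ≤ 1 := by rw [div_le_one (by linarith)]; linarith
    nlinarith
  have hH : ∀ x ∈ Icc (-2 : ℝ) 2, Q x - x = 0 := by
    apply KQp.vanish (hQc.sub continuousOn_id)
    intro k
    have e : mu (fun x => (Q x - x) * Up x k) = mu (fun x => Q x * Up x k) -
        mu (fun x => Up x 1 * Up x k) := by
      have hcos : Continuous (fun θ : ℝ => 2 * Real.cos θ) := by fun_prop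
      have hsin : Continuous (fun θ : ℝ => Real.sin θ ^ 2) := by fun_prop
      unfold mu
      rw [← mul_sub, ← intervalIntegral.integral_sub]
      · congr 1
        apply intervalIntegral.integral_congr
        intro θ _
        simp only [Up]
        ring
      · exact (((hQc.comp_continuous hcos KQp.two_cos_mem).mul
          ((KQp.cont_up k).comp hcos)).mul hsin).intervalIntegrable _ _
      · exact ((((KQp.cont_up 1).comp hcos).mul
          ((KQp.cont_up k).comp hcos)).mul hsin).intervalIntegrable _ _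
    show mu (fun x => (Q x - x) * Up x k) = 0
    rw [e, hmuQ k, h0 1 k]
    by_cases hk : k = 1
    · simp [hk]
    · simp [hk, Ne.symm hk]
  intro ε hε
  obtain ⟨M₀, hM⟩ := hunif ε hε
  refine ⟨M₀, fun M hMM x hx => ?_⟩
  have h3 := hM M hMM x (abs_le.mp hx)
  have h4 : Q x = x := by linarith [hH x (abs_le.mp hx)]
  rw [h4] at h3
  exact h3

end Pool.Agent.H875R.FP
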