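import Pool.Agent.H875R.FP.Stubs2

/-! Task KQ1: uniform Cauchy property of `q_M`. -/

set_option autoImplicit false

namespace Pool.Agent.H875R.FP

namespace KQ1aux

open intervalIntegral MeasureTheory

/-- the kernel as function of the difference -/
noncomputable def k (M : ℕ) (t : ℝ) : ℝ := t / 16 * ∑ j ∈ Finset.range M, (1 - (t / 4) ^ 2) ^ j

theorem kM_eq (M : ℕ) (x y : ℝ) : kM M x y = k M (x - y) := rfl

theorem k_cont (M : ℕ) : Continuous (k M) := by
  unfold k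
  fun_prop

theorem k_mul (M : ℕ) (t : ℝ) : k M t * t = 1 - (1 - (t / 4) ^ 2) ^ M := by
  have h := geom_sum_mul (1 - (t / 4) ^ 2) M
  unfold k
  linear_combination (-1 : ℝ) * h

theorem k_odd (M : ℕ) (t : ℝ) : k M (-t) = -k M t := by
  unfold k
  rw [show (-t / 4) = -(t / 4) by ring, neg_sq]
  ring

/-- the difference -/
noncomputable def D (M M' : ℕ) (t : ℝ) : ℝ := k M' t - k M t

theorem D_cont (M M' : ℕ) : Continuous (D M M') := (k_cont M').sub (k_cont M)

theorem D_odd (M M' : ℕ) (t : ℝ) : D M M' (-t) = -D M M' t := by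
  unfold D
  rw [k_odd, k_odd]
  ring

theorem x_mem (t : ℝ) (h0 : 0 ≤ t) (h4 : t ≤ 4) : 0 ≤ 1 - (t / 4) ^ 2 ∧ 1 - (t / 4) ^ 2 ≤ 1 := by
  constructor
  · nlinarith
  · nlinarith [sq_nonneg (t / 4)]

theorem D_bounds (M M' : ℕ) (h : M ≤ M') (t : ℝ) (h0 : 0 < t) (h4 : t ≤ 4) :
    0 ≤ D M M' t ∧ D M M' t ≤ (1 - (t / 4) ^ 2) ^ M / t := by
  obtain ⟨hx0, hx1⟩ := x_mem t h0.le h4
  have h1 : D M M' t * t = (1 - (t / 4) ^ 2) ^ M - (1 - (t / 4) ^ 2) ^ M' := by
    unfold D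
    have := k_mul M t
    have := k_mul M' t
    linarith [k_mul M t, k_mul M' t, sub_mul (k M' t) (k M t) t]
  have h2 : (1 - (t / 4) ^ 2) ^ M' ≤ (1 - (t / 4) ^ 2) ^ M := pow_le_pow_of_le_one hx0 hx1 h
  have h3 : 0 ≤ (1 - (t / 4) ^ 2) ^ M' := pow_nonneg hx0 _
  constructor
  · by_contra hn
    push Not at hn
    have : D M M' t * t < 0 := mul_neg_of_neg_of_pos hn h0
    linarith
  · rw [le_div_iff₀ h0, h1]
    linarith

/-- the density -/
noncomputable def ρ (y : ℝ) : ℝ := Real.sqrt (4 - y ^ 2) / (2 * Real.pi)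

theorem ρ_cont : Continuous ρ := by
  unfold ρ
  fun_prop

theorem ρ_zero (y : ℝ) (h : 2 ≤ |y|) : ρ y = 0 := by
  unfold ρ
  rw [Real.sqrt_eq_zero_of_nonpos, zero_div]
  have : 2 ^ 2 ≤ |y| ^ 2 := pow_le_pow_left₀ (by norm_num) h 2
  rw [sq_abs] at this
  linarith

theorem mu_eq (f : ℝ → ℝ) (hf : Continuous f) : mu f = ∫ y in (-2 : ℝ)..2, f y * ρ y := by
  have h1 := intervalIntegral.integral_comp_mul_deriv (a := 0) (b := Real.pi)
    (f := fun θ => 2 * Real.cos θ) (f' := fun θ => 2 * (-Real.sin θ)) (g := fun y => f y * ρ y)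
    (fun x _ => (Real.hasDerivAt_cos x).const_mul 2) (by fun_prop) (hf.mul ρ_cont)
  have h2 : 2 * Real.cos 0 = 2 := by simp
  have h3 : 2 * Real.cos Real.pi = -2 := by simp
  rw [h2, h3, intervalIntegral.integral_symm (-2) 2] at h1
  unfold mu
  have h1' := (neg_eq_iff_eq_neg.mpr h1)
  rw [← h1', ← intervalIntegral.integral_neg, ← intervalIntegral.integral_const_mul]
  refine intervalIntegral.integral_congr fun θ hθ => ?_
  rw [Set.uIcc_of_le Real.pi_pos.le] at hθ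
  have hs : 0 ≤ Real.sin θ := Real.sin_nonneg_of_nonneg_of_le_pi hθ.1 hθ.2
  have hr : ρ (2 * Real.cos θ) = Real.sin θ / Real.pi := by
    unfold ρ
    have h4 : 4 - (2 * Real.cos θ) ^ 2 = (2 * Real.sin θ) ^ 2 := by
      nlinarith [Real.sin_sq_add_cos_sq θ]
    rw [h4, Real.sqrt_sq (by linarith)]
    field_simp
  show 2 / Real.pi * (f (2 * Real.cos θ) * Real.sin θ ^ 2) =
    -(((fun y => f y * ρ y) ∘ fun θ => 2 * Real.cos θ) θ * (2 * -Real.sin θ))
  show 2 / Real.pi * (f (2 * Real.cos θ) * Real.sin θ ^ 2) =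
    -((f (2 * Real.cos θ) * ρ (2 * Real.cos θ)) * (2 * -Real.sin θ))
  rw [hr]
  ring

theorem mu_D (M M' : ℕ) (x : ℝ) (hx : |x| ≤ 2) :
    2 * mu (fun y => kM M' x y) - 2 * mu (fun y => kM M x y) =
      2 * ∫ t in (0 : ℝ)..4, D M M' t * (ρ (x - t) - ρ (x + t)) := by
  obtain ⟨hx1, hx2⟩ := abs_le.mp hx
  have hc : ∀ M, Continuous fun y => kM M x y := by
    intro M
    simp only [kM_eq]
    exact (k_cont M).comp (continuous_const.sub continuous_id)
  have hDc := D_cont M M'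
  have hρ := ρ_cont
  rw [← mul_sub, mu_eq _ (hc M'), mu_eq _ (hc M)]
  congr 1
  have i1 : ∀ M, IntervalIntegrable (fun y => kM M x y * ρ y) volume (-2) 2 := fun M =>
    ((hc M).mul hρ).intervalIntegrable _ _
  rw [← intervalIntegral.integral_sub (i1 M') (i1 M)]
  have e1 : ∀ y, kM M' x y * ρ y - kM M x y * ρ y = D M M' (x - y) * ρ y := by
    intro y
    rw [kM_eq, kM_eq]
    unfold D
    ring
  simp only [e1]
  have hg : Continuous fun y => D M M' (x - y) * ρ y :=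
    (hDc.comp (continuous_const.sub continuous_id)).mul hρ
  have z1 : ∫ y in (x - 4)..(-2), D M M' (x - y) * ρ y = 0 := by
    rw [intervalIntegral.integral_congr (g := fun _ => (0 : ℝ)), intervalIntegral.integral_zero]
    intro y hy
    rw [Set.uIcc_of_le (by linarith)] at hy
    show D M M' (x - y) * ρ y = 0
    rw [ρ_zero y, mul_zero]
    rw [abs_of_nonpos (by linarith [hy.2])]
    linarith [hy.2]
  have z2 : ∫ y in (2 : ℝ)..(x + 4), D M M' (x - y) * ρ y = 0 := by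
    rw [intervalIntegral.integral_congr (g := fun _ => (0 : ℝ)), intervalIntegral.integral_zero]
    intro y hy
    rw [Set.uIcc_of_le (by linarith)] at hy
    show D M M' (x - y) * ρ y = 0
    rw [ρ_zero y, mul_zero]
    rw [abs_of_nonneg (by linarith [hy.1])]
    linarith [hy.1]
  have z3 : ∫ y in (-2 : ℝ)..2, D M M' (x - y) * ρ y =
      ∫ y in (x - 4)..(x + 4), D M M' (x - y) * ρ y := by
    rw [← intervalIntegral.integral_add_adjacent_intervals (hg.intervalIntegrable (x - 4) (-2))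
      (hg.intervalIntegrable (-2) (x + 4)), z1, zero_add,
      ← intervalIntegral.integral_add_adjacent_intervals (hg.intervalIntegrable (-2) 2)
      (hg.intervalIntegrable 2 (x + 4)), z2, add_zero]
  have hG : Continuous fun t => D M M' t * ρ (x - t) :=
    hDc.mul (hρ.comp (continuous_const.sub continuous_id))
  have hG' : Continuous fun t => D M M' t * ρ (x + t) :=
    hDc.mul (hρ.comp (continuous_const.add continuous_id))
  have z4 : ∫ y in (x - 4)..(x + 4), D M M' (x - y) * ρ y =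
      ∫ t in (-4 : ℝ)..4, D M M' t * ρ (x - t) := by
    have h := intervalIntegral.integral_comp_sub_left (a := x - 4) (b := x + 4)
      (fun t => D M M' t * ρ (x - t)) x
    have e2 : x - (x + 4) = -4 := by ring
    have e3 : x - (x - 4) = 4 := by ring
    rw [e2, e3] at h
    rw [← h]
    refine intervalIntegral.integral_congr fun y _ => ?_
    show D M M' (x - y) * ρ y = D M M' (x - y) * ρ (x - (x - y))
    rw [sub_sub_cancel]
  have z5 : ∫ t in (-4 : ℝ)..0, D M M' t * ρ (x - t) =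
      -∫ t in (0 : ℝ)..4, D M M' t * ρ (x + t) := by
    have h := intervalIntegral.integral_comp_neg (a := 0) (b := 4)
      (fun t => D M M' t * ρ (x - t))
    rw [neg_zero] at h
    rw [← h, ← intervalIntegral.integral_neg]
    refine intervalIntegral.integral_congr fun t _ => ?_
    show D M M' (-t) * ρ (x - -t) = -(D M M' t * ρ (x + t))
    rw [D_odd, sub_neg_eq_add]
    ring
  rw [z3, z4, ← intervalIntegral.integral_add_adjacent_intervals (hG.intervalIntegrable (-4) 0)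
    (hG.intervalIntegrable 0 4), z5, neg_add_eq_sub,
    ← intervalIntegral.integral_sub (hG.intervalIntegrable 0 4) (hG'.intervalIntegrable 0 4)]
  refine intervalIntegral.integral_congr fun t _ => ?_
  show D M M' t * ρ (x - t) - D M M' t * ρ (x + t) = D M M' t * (ρ (x - t) - ρ (x + t))
  ring

theorem sqrt_sub_le (u v : ℝ) (h : v ≤ u) : Real.sqrt u - Real.sqrt v ≤ Real.sqrt (u - v) := by
  rcases le_or_gt v 0 with hv | hv
  · have h1 : Real.sqrt u ≤ Real.sqrt (u - v) := Real.sqrt_le_sqrt (by linarith)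
    linarith [Real.sqrt_nonneg v]
  · have h1 : Real.sqrt u ≤ Real.sqrt v + Real.sqrt (u - v) := by
      rw [Real.sqrt_le_iff]
      have a1 := Real.sqrt_nonneg v
      have a2 := Real.sqrt_nonneg (u - v)
      refine ⟨by linarith, ?_⟩
      have a3 := Real.sq_sqrt hv.le
      have a4 := Real.sq_sqrt (show 0 ≤ u - v by linarith)
      nlinarith [mul_nonneg a1 a2]
    linarith

theorem abs_sqrt_sub_le (u v : ℝ) : |Real.sqrt u - Real.sqrt v| ≤ Real.sqrt |u - v| := by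
  rcases le_total v u with h | h
  · rw [abs_of_nonneg (sub_nonneg.mpr h), abs_of_nonneg (sub_nonneg.mpr (Real.sqrt_le_sqrt h))]
    exact sqrt_sub_le u v h
  · rw [abs_sub_comm, abs_sub_comm u v, abs_of_nonneg (sub_nonneg.mpr h),
      abs_of_nonneg (sub_nonneg.mpr (Real.sqrt_le_sqrt h))]
    exact sqrt_sub_le v u h

theorem ρ_diff (x t : ℝ) (hx : |x| ≤ 2) (ht : 0 ≤ t) : |ρ (x - t) - ρ (x + t)| ≤ Real.sqrt t := by
  unfold ρ
  have hpi : (3 : ℝ) < Real.pi := Real.pi_gt_three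
  rw [← sub_div, abs_div, abs_of_pos (show 0 < 2 * Real.pi by linarith), div_le_iff₀ (by linarith)]
  have h1 := abs_sqrt_sub_le (4 - (x - t) ^ 2) (4 - (x + t) ^ 2)
  have h2 : |4 - (x - t) ^ 2 - (4 - (x + t) ^ 2)| ≤ 9 * t := by
    have : 4 - (x - t) ^ 2 - (4 - (x + t) ^ 2) = 4 * x * t := by ring
    rw [this, abs_mul, abs_mul, abs_of_nonneg ht, abs_of_pos (by norm_num : (0 : ℝ) < 4)]
    nlinarith
  have h3 : Real.sqrt (9 * t) = 3 * Real.sqrt t := by
    rw [Real.sqrt_mul (by norm_num)]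
    congr 1
    rw [show (9 : ℝ) = 3 ^ 2 by norm_num, Real.sqrt_sq (by norm_num)]
  have h4 := Real.sqrt_nonneg t
  calc |Real.sqrt (4 - (x - t) ^ 2) - Real.sqrt (4 - (x + t) ^ 2)| ≤ Real.sqrt (9 * t) :=
        le_trans h1 (Real.sqrt_le_sqrt h2)
    _ = 3 * Real.sqrt t := h3
    _ ≤ Real.sqrt t * (2 * Real.pi) := by nlinarith

theorem int_bound (M M' : ℕ) (h : M ≤ M') (x : ℝ) (hx : |x| ≤ 2) (δ : ℝ) (hδ : 0 < δ)
    (hδ4 : δ ≤ 4) :
    |∫ t in (0 : ℝ)..4, D M M' t * (ρ (x - t) - ρ (x + t))| ≤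
      2 * Real.sqrt δ + (1 - (δ / 4) ^ 2) ^ M / Real.sqrt δ * 4 := by
  have hDc := D_cont M M'
  have hρ := ρ_cont
  have hG : Continuous fun t => D M M' t * (ρ (x - t) - ρ (x + t)) :=
    hDc.mul ((hρ.comp (continuous_const.sub continuous_id)).sub
      (hρ.comp (continuous_const.add continuous_id)))
  have hsδ : 0 < Real.sqrt δ := Real.sqrt_pos.mpr hδ
  have hb : ∀ t, 0 < t → t ≤ 4 → ‖D M M' t * (ρ (x - t) - ρ (x + t))‖ ≤
      (1 - (t / 4) ^ 2) ^ M / Real.sqrt t := by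
    intro t ht ht4
    obtain ⟨d0, d1⟩ := D_bounds M M' h t ht ht4
    have hst : 0 < Real.sqrt t := Real.sqrt_pos.mpr ht
    rw [Real.norm_eq_abs, abs_mul, abs_of_nonneg d0]
    calc D M M' t * |ρ (x - t) - ρ (x + t)| ≤ (1 - (t / 4) ^ 2) ^ M / t * Real.sqrt t :=
          mul_le_mul d1 (ρ_diff x t hx ht.le) (abs_nonneg _) (le_trans d0 d1)
      _ = (1 - (t / 4) ^ 2) ^ M / Real.sqrt t := by
          have h5 : t = Real.sqrt t * Real.sqrt t := (Real.mul_self_sqrt ht.le).symm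
          rw [div_mul_eq_mul_div, div_eq_div_iff ht.ne' hst.ne', mul_assoc, ← h5]
  rw [← intervalIntegral.integral_add_adjacent_intervals (hG.intervalIntegrable 0 δ)
    (hG.intervalIntegrable δ 4)]
  have b1 : ‖∫ t in (0 : ℝ)..δ, D M M' t * (ρ (x - t) - ρ (x + t))‖ ≤ 2 * Real.sqrt δ := by
    have h1 : ‖∫ t in (0 : ℝ)..δ, D M M' t * (ρ (x - t) - ρ (x + t))‖ ≤
        ∫ t in (0 : ℝ)..δ, t ^ (-(1 / 2) : ℝ) := by
      refine intervalIntegral.norm_integral_le_of_norm_le hδ.le ?_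
        (intervalIntegral.intervalIntegrable_rpow' (by norm_num))
      refine Filter.Eventually.of_forall fun t ht => ?_
      refine le_trans (hb t ht.1 (le_trans ht.2 hδ4)) ?_
      have hst : 0 < Real.sqrt t := Real.sqrt_pos.mpr ht.1
      obtain ⟨hx0, hx1⟩ := x_mem t ht.1.le (le_trans ht.2 hδ4)
      rw [Real.rpow_neg ht.1.le, ← Real.sqrt_eq_rpow, ← one_div]
      exact div_le_div_of_nonneg_right (pow_le_one₀ hx0 hx1) hst.le
    have h2 : ∫ t in (0 : ℝ)..δ, t ^ (-(1 / 2) : ℝ) = 2 * Real.sqrt δ := by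
      rw [integral_rpow (Or.inl (by norm_num))]
      have h3 : (-(1 / 2) : ℝ) + 1 = 1 / 2 := by norm_num
      rw [h3, ← Real.sqrt_eq_rpow, Real.zero_rpow (by norm_num)]
      ring
    rw [h2] at h1
    exact h1
  have b2 : ‖∫ t in δ..(4 : ℝ), D M M' t * (ρ (x - t) - ρ (x + t))‖ ≤
      (1 - (δ / 4) ^ 2) ^ M / Real.sqrt δ * |4 - δ| := by
    refine intervalIntegral.norm_integral_le_of_norm_le_const fun t ht => ?_
    rw [Set.uIoc_of_le hδ4] at ht
    have ht0 : 0 < t := lt_trans hδ ht.1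
    refine le_trans (hb t ht0 ht.2) ?_
    obtain ⟨hx0, hx1⟩ := x_mem t ht0.le ht.2
    obtain ⟨hy0, hy1⟩ := x_mem δ hδ.le hδ4
    refine div_le_div₀ (pow_nonneg hy0 _) ?_ hsδ (Real.sqrt_le_sqrt ht.1.le)
    refine pow_le_pow_left₀ hx0 ?_ _
    nlinarith [ht.1]
  have b3 : (1 - (δ / 4) ^ 2) ^ M / Real.sqrt δ * |4 - δ| ≤
      (1 - (δ / 4) ^ 2) ^ M / Real.sqrt δ * 4 := by
    obtain ⟨hy0, hy1⟩ := x_mem δ hδ.le hδ4
    refine mul_le_mul_of_nonneg_left ?_ (div_nonneg (pow_nonneg hy0 _) hsδ.le)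
    rw [abs_of_nonneg (by linarith)]
    linarith
  rw [← Real.norm_eq_abs]
  refine le_trans (norm_add_le _ _) ?_
  linarith

theorem main (M M' : ℕ) (h : M ≤ M') (x : ℝ) (hx : |x| ≤ 2) (δ : ℝ) (hδ : 0 < δ)
    (hδ4 : δ ≤ 4) :
    |2 * mu (fun y => kM M x y) - 2 * mu (fun y => kM M' x y)| ≤
      2 * (2 * Real.sqrt δ + (1 - (δ / 4) ^ 2) ^ M / Real.sqrt δ * 4) := by
  rw [abs_sub_comm, mu_D M M' x hx, abs_mul, abs_of_pos (by norm_num : (0 : ℝ) < 2)]
  exact mul_le_mul_of_nonneg_left (int_bound M M' h x hx δ hδ hδ4) (by norm_num)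

end KQ1aux

open KQ1aux in
theorem t_KQ1 : S_KQ1 := by
  intro ε hε
  -- choose δ
  set δ : ℝ := min 1 ((ε / 8) ^ 2) with hδdef
  have hδ : 0 < δ := lt_min one_pos (by positivity)
  have hδ1 : δ ≤ 1 := min_le_left _ _
  have hδ2 : δ ≤ (ε / 8) ^ 2 := min_le_right _ _
  have hs : Real.sqrt δ ≤ ε / 8 := by
    have := Real.sqrt_le_sqrt hδ2
    rwa [Real.sqrt_sq (by positivity)] at this
  have hsδ : 0 < Real.sqrt δ := Real.sqrt_pos.mpr hδ
  have hy0 : 0 ≤ 1 - (δ / 4) ^ 2 := by nlinarith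
  have hy1 : 1 - (δ / 4) ^ 2 < 1 := by
    have : 0 < (δ / 4) ^ 2 := by positivity
    linarith
  obtain ⟨M₀, hM₀⟩ := exists_pow_lt_of_lt_one (show 0 < ε * Real.sqrt δ / 16 by positivity) hy1
  have key : ∀ M ≥ M₀, ∀ M' ≥ M, ∀ x : ℝ, |x| ≤ 2 →
      |2 * mu (fun y => kM M x y) - 2 * mu (fun y => kM M' x y)| ≤ ε := by
    intro M hM M' hM' x hx
    refine le_trans (main M M' hM' x hx δ hδ (by linarith)) ?_
    have h1 : (1 - (δ / 4) ^ 2) ^ M ≤ ε * Real.sqrt δ / 16 :=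
      le_trans (pow_le_pow_of_le_one hy0 hy1.le hM) hM₀.le
    have h2 : (1 - (δ / 4) ^ 2) ^ M / Real.sqrt δ ≤ ε / 16 := by
      rw [div_le_iff₀ hsδ]
      linarith
    linarith
  refine ⟨M₀, fun M hM M' hM' x hx => ?_⟩
  rcases le_total M M' with h | h
  · exact key M hM M' h x hx
  · rw [abs_sub_comm]
    exact key M' hM' M h x hx

end Pool.Agent.H875R.FP
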