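import Pool.Agent.H875R.FP.Stubs2

/-! Task KQ2: weak limit of `q_M`. -/

namespace Pool.Agent.H875R.FP

open MeasureTheory Filter Topology

namespace KQ2x

theorem geom (z : ℝ) (M : ℕ) :
    z ^ 2 * ∑ j ∈ Finset.range M, (1 - z ^ 2) ^ j = 1 - (1 - z ^ 2) ^ M := by
  have h := mul_neg_geom_sum (1 - z ^ 2) M
  rw [sub_sub_cancel] at h
  exact h

theorem kM_mul (M : ℕ) (x y : ℝ) :
    kM M x y * (x - y) = 1 - (1 - ((x - y) / 4) ^ 2) ^ M := by
  rw [← geom]
  unfold kM
  ring

theorem kM_anti (M : ℕ) (x y : ℝ) : kM M y x = - kM M x y := by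
  unfold kM
  have h : ((y - x) / 4) ^ 2 = ((x - y) / 4) ^ 2 := by ring
  rw [h]
  ring

/-- the divided difference of `U_k` -/
noncomputable def Dk (k : ℕ) (x y : ℝ) : ℝ := ∑ j ∈ Finset.range k, Up x j * Up y (k - 1 - j)

theorem Dk_rec (k : ℕ) (x y : ℝ) :
    Dk (k + 2) x y = Up x (k + 1) + y * Dk (k + 1) x y - Dk k x y := by
  unfold Dk
  rw [Finset.sum_range_succ, Finset.sum_range_succ, Finset.sum_range_succ]
  have e1 : k + 2 - 1 - (k + 1) = 0 := by omega
  have e2 : k + 2 - 1 - k = 1 := by omega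
  have e3 : k + 1 - 1 - k = 0 := by omega
  rw [e1, e2, e3]
  have e4 : ∑ j ∈ Finset.range k, Up x j * Up y (k + 2 - 1 - j) =
      y * ∑ j ∈ Finset.range k, Up x j * Up y (k + 1 - 1 - j) -
        ∑ j ∈ Finset.range k, Up x j * Up y (k - 1 - j) := by
    rw [Finset.mul_sum, ← Finset.sum_sub_distrib]
    apply Finset.sum_congr rfl
    intro j hj
    rw [Finset.mem_range] at hj
    have e5 : k + 2 - 1 - j = (k - 1 - j) + 2 := by omega
    have e6 : k + 1 - 1 - j = (k - 1 - j) + 1 := by omega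
    rw [e5, e6]
    simp only [Up]
    ring
  rw [e4]
  simp only [Up]
  ring

theorem Up_sub (x y : ℝ) : ∀ k : ℕ, Up x k - Up y k = (x - y) * Dk k x y
  | 0 => by simp [Up, Dk]
  | 1 => by simp [Up, Dk]
  | k + 2 => by
    have h1 := Up_sub x y k
    have h2 := Up_sub x y (k + 1)
    rw [Dk_rec]
    have h3 : Up x (k + 2) - Up y (k + 2) =
        (x - y) * Up x (k + 1) + y * (Up x (k + 1) - Up y (k + 1)) - (Up x k - Up y k) := by
      simp only [Up]
      ring
    rw [h3, h1, h2]
    ring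

theorem Up_cont : ∀ k : ℕ, Continuous fun x : ℝ => Up x k
  | 0 => by simp only [Up]; exact continuous_const
  | 1 => by simp only [Up]; exact continuous_id
  | k + 2 => by
    have h1 := Up_cont k
    have h2 := Up_cont (k + 1)
    simp only [Up]
    exact (continuous_id.mul h2).sub h1

theorem kM_cont (M : ℕ) : Continuous fun p : ℝ × ℝ => kM M p.1 p.2 := by
  unfold kM
  fun_prop

theorem Dk_cont (k : ℕ) : Continuous fun p : ℝ × ℝ => Dk k p.1 p.2 := by
  unfold Dk
  refine continuous_finsetSum _ fun j _ => ?_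
  exact ((Up_cont j).comp continuous_fst).mul ((Up_cont _).comp continuous_snd)

theorem F_cont (M : ℕ) : Continuous fun p : ℝ × ℝ => (1 - ((p.1 - p.2) / 4) ^ 2) ^ M := by
  fun_prop

/-! ### the functional `mu` -/

theorem ii {f : ℝ → ℝ} (hf : Continuous f) :
    IntervalIntegrable (fun θ => f (2 * Real.cos θ) * Real.sin θ ^ 2) volume 0 Real.pi :=
  Continuous.intervalIntegrable (by fun_prop) _ _

theorem mu_add {f g : ℝ → ℝ} (hf : Continuous f) (hg : Continuous g) :
    mu (fun x => f x + g x) = mu f + mu g := by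
  unfold mu
  rw [← mul_add, ← intervalIntegral.integral_add (ii hf) (ii hg)]
  congr 1
  apply intervalIntegral.integral_congr
  intro θ _
  simp only
  ring

theorem mu_smul (c : ℝ) (f : ℝ → ℝ) : mu (fun x => c * f x) = c * mu f := by
  unfold mu
  have h : ∫ θ in (0:ℝ)..Real.pi, (fun x => c * f x) (2 * Real.cos θ) * Real.sin θ ^ 2 =
      c * ∫ θ in (0:ℝ)..Real.pi, f (2 * Real.cos θ) * Real.sin θ ^ 2 := by
    rw [← intervalIntegral.integral_const_mul]
    apply intervalIntegral.integral_congr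
    intro θ _
    simp only
    ring
  rw [h]
  ring

theorem mu_sub {f g : ℝ → ℝ} (hf : Continuous f) (hg : Continuous g) :
    mu (fun x => f x - g x) = mu f - mu g := by
  have h1 : (fun x => f x - g x) = fun x => f x + (-1) * g x := by
    funext x
    ring
  rw [h1, mu_add (g := fun x => (-1) * g x) hf (continuous_const.mul hg), mu_smul]
  ring

theorem mu_sum {ι : Type*} (s : Finset ι) (f : ι → ℝ → ℝ) (hf : ∀ i, Continuous (f i)) :
    mu (fun x => ∑ i ∈ s, f i x) = ∑ i ∈ s, mu (f i) := by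
  classical
  induction s using Finset.induction_on with
  | empty => simp [mu]
  | insert a s ha ih =>
    rw [Finset.sum_insert ha, ← ih, ← mu_add (hf a) (continuous_finsetSum _ fun i _ => hf i)]
    congr 1
    funext x
    rw [Finset.sum_insert ha]

theorem mu_mono {f g : ℝ → ℝ} (hf : Continuous f) (hg : Continuous g)
    (h : ∀ x, |x| ≤ 2 → f x ≤ g x) : mu f ≤ mu g := by
  unfold mu
  have hpi := Real.pi_pos
  refine mul_le_mul_of_nonneg_left ?_ (by positivity)
  refine intervalIntegral.integral_mono hpi.le (ii hf) (ii hg) ?_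
  intro θ
  have h1 : |2 * Real.cos θ| ≤ 2 := by
    rw [abs_mul, abs_two]
    have := Real.abs_cos_le_one θ
    linarith
  exact mul_le_mul_of_nonneg_right (h _ h1) (sq_nonneg _)

theorem mu_congr {f g : ℝ → ℝ} (h : ∀ x, f x = g x) : mu f = mu g := by
  rw [show f = g from funext h]

theorem mu_cont {G : ℝ → ℝ → ℝ} (hG : Continuous fun p : ℝ × ℝ => G p.1 p.2) :
    Continuous fun x => mu (fun y => G x y) := by
  unfold mu
  refine continuous_const.mul ?_
  apply intervalIntegral.continuous_parametric_intervalIntegral_of_continuous'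
  have : Continuous fun p : ℝ × ℝ => G p.1 (2 * Real.cos p.2) * Real.sin p.2 ^ 2 := by
    have h1 : Continuous fun p : ℝ × ℝ => (p.1, 2 * Real.cos p.2) := by fun_prop
    exact (hG.comp h1).mul (by fun_prop)
  exact this

theorem mu_swap {G : ℝ → ℝ → ℝ} (hG : Continuous fun p : ℝ × ℝ => G p.1 p.2) :
    mu (fun x => mu (fun y => G x y)) = mu (fun y => mu (fun x => G x y)) := by
  have hpi := Real.pi_pos.le
  unfold mu
  congr 1
  have e1 : ∀ x : ℝ, 2 / Real.pi * (∫ θ in (0:ℝ)..Real.pi, G x (2 * Real.cos θ) * Real.sin θ ^ 2) =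
      ∫ θ in (0:ℝ)..Real.pi, 2 / Real.pi * (G x (2 * Real.cos θ) * Real.sin θ ^ 2) := fun x => by
    rw [intervalIntegral.integral_const_mul]
  have e2 : ∀ y : ℝ, 2 / Real.pi * (∫ θ in (0:ℝ)..Real.pi, G (2 * Real.cos θ) y * Real.sin θ ^ 2) =
      ∫ θ in (0:ℝ)..Real.pi, 2 / Real.pi * (G (2 * Real.cos θ) y * Real.sin θ ^ 2) := fun y => by
    rw [intervalIntegral.integral_const_mul]
  simp only [e1, e2]
  rw [intervalIntegral.integral_of_le hpi, intervalIntegral.integral_of_le hpi]
  simp only [intervalIntegral.integral_of_le hpi]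
  have e3 : ∀ θ : ℝ, (∫ φ in Set.Ioc 0 Real.pi, 2 / Real.pi *
      (G (2 * Real.cos θ) (2 * Real.cos φ) * Real.sin φ ^ 2)) * Real.sin θ ^ 2 =
      ∫ φ in Set.Ioc 0 Real.pi, 2 / Real.pi *
      (G (2 * Real.cos θ) (2 * Real.cos φ) * Real.sin φ ^ 2) * Real.sin θ ^ 2 := fun θ => by
    rw [integral_mul_const]
  have e4 : ∀ φ : ℝ, (∫ θ in Set.Ioc 0 Real.pi, 2 / Real.pi *
      (G (2 * Real.cos θ) (2 * Real.cos φ) * Real.sin θ ^ 2)) * Real.sin φ ^ 2 =
      ∫ θ in Set.Ioc 0 Real.pi, 2 / Real.pi *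
      (G (2 * Real.cos θ) (2 * Real.cos φ) * Real.sin φ ^ 2) * Real.sin θ ^ 2 := fun φ => by
    rw [← integral_mul_const]
    congr 1
    funext θ
    ring
  simp only [e3, e4]
  apply integral_integral_swap
  rw [Measure.prod_restrict]
  have hc : Continuous (Function.uncurry fun θ φ : ℝ => 2 / Real.pi *
      (G (2 * Real.cos θ) (2 * Real.cos φ) * Real.sin φ ^ 2) * Real.sin θ ^ 2) := by
    have h1 : Continuous fun p : ℝ × ℝ => (2 * Real.cos p.1, 2 * Real.cos p.2) := by fun_prop
    have h2 := hG.comp h1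
    have h3 : Continuous fun p : ℝ × ℝ => 2 / Real.pi *
      (G (2 * Real.cos p.1) (2 * Real.cos p.2) * Real.sin p.2 ^ 2) * Real.sin p.1 ^ 2 :=
      (continuous_const.mul (h2.mul (by fun_prop))).mul (by fun_prop)
    exact h3
  have h4 : IntegrableOn (Function.uncurry fun θ φ : ℝ => 2 / Real.pi *
      (G (2 * Real.cos θ) (2 * Real.cos φ) * Real.sin φ ^ 2) * Real.sin θ ^ 2)
      (Set.Icc 0 Real.pi ×ˢ Set.Icc 0 Real.pi) (volume.prod volume) :=
    hc.continuousOn.integrableOn_compact (isCompact_Icc.prod isCompact_Icc)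
  exact h4.mono_set (Set.prod_mono Set.Ioc_subset_Icc_self Set.Ioc_subset_Icc_self)

end KQ2x

open KQ2x in
theorem t_KQ2 (h1 : S_KUO) (h2 : S_KF) : S_KQ2 := by
  intro k
  have hone : mu (fun _ => 1) = 1 := by
    have := h1 0 0
    simpa [Up] using this
  have hUp : ∀ n : ℕ, mu (fun x => Up x n) = if n = 0 then 1 else 0 := by
    intro n
    have := h1 n 0
    simpa [Up] using this
  -- the identity
  have key : ∀ M : ℕ, mu (fun x => 2 * mu (fun y => kM M x y) * Up x k) =
      (if k = 1 then 1 else 0) -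
        mu (fun x => mu (fun y => (1 - ((x - y) / 4) ^ 2) ^ M * Dk k x y)) := by
    intro M
    have hc1 : Continuous fun p : ℝ × ℝ => kM M p.1 p.2 * Up p.1 k :=
      (kM_cont M).mul ((Up_cont k).comp continuous_fst)
    have hc2 : Continuous fun p : ℝ × ℝ => kM M p.1 p.2 * Up p.2 k :=
      (kM_cont M).mul ((Up_cont k).comp continuous_snd)
    have a1 : mu (fun x => 2 * mu (fun y => kM M x y) * Up x k) =
        2 * mu (fun x => mu (fun y => kM M x y * Up x k)) := by
      rw [← mu_smul]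
      apply mu_congr
      intro x
      have : mu (fun y => kM M x y * Up x k) = Up x k * mu (fun y => kM M x y) := by
        rw [← mu_smul]
        apply mu_congr
        intro y
        ring
      rw [this]
      ring
    have a2 : mu (fun x => mu (fun y => kM M x y * Up x k)) =
        - mu (fun x => mu (fun y => kM M x y * Up y k)) := by
      rw [mu_swap hc1]
      have : ∀ y : ℝ, mu (fun x => kM M x y * Up x k) =
          (-1) * mu (fun x => kM M y x * Up x k) := by
        intro y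
        rw [← mu_smul]
        apply mu_congr
        intro x
        rw [kM_anti M x y]
        ring
      rw [mu_congr this, mu_smul]
      ring
    have a3 : mu (fun x => mu (fun y => kM M x y * Up x k)) -
        mu (fun x => mu (fun y => kM M x y * Up y k)) =
        mu (fun x => mu (fun y => Dk k x y)) -
        mu (fun x => mu (fun y => (1 - ((x - y) / 4) ^ 2) ^ M * Dk k x y)) := by
      rw [← mu_sub (mu_cont hc1) (mu_cont hc2),
        ← mu_sub (mu_cont (Dk_cont k)) (mu_cont ((F_cont M).mul (Dk_cont k)))]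
      apply mu_congr
      intro x
      have d1 : Continuous fun y => kM M x y * Up x k := hc1.comp (Continuous.prodMk_right x)
      have d2 : Continuous fun y => kM M x y * Up y k := hc2.comp (Continuous.prodMk_right x)
      have d3 : Continuous fun y => Dk k x y := (Dk_cont k).comp (Continuous.prodMk_right x)
      have d4 : Continuous fun y => (1 - ((x - y) / 4) ^ 2) ^ M * Dk k x y :=
        ((F_cont M).mul (Dk_cont k)).comp (Continuous.prodMk_right x)
      rw [← mu_sub d1 d2, ← mu_sub d3 d4]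
      apply mu_congr
      intro y
      have e1 : kM M x y * Up x k - kM M x y * Up y k = kM M x y * (x - y) * Dk k x y := by
        rw [← mul_sub, Up_sub]
        ring
      rw [e1, kM_mul]
      ring
    have a4 : mu (fun x => mu (fun y => Dk k x y)) = if k = 1 then 1 else 0 := by
      have b1 : ∀ x : ℝ, mu (fun y => Dk k x y) =
          ∑ j ∈ Finset.range k, (if k - 1 - j = 0 then 1 else 0) * Up x j := by
        intro x
        unfold Dk
        rw [mu_sum (Finset.range k) (fun j y => Up x j * Up y (k - 1 - j))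
          fun j => continuous_const.mul (Up_cont _)]
        apply Finset.sum_congr rfl
        intro j _
        rw [mu_smul, hUp, mul_comm]
      rw [mu_congr b1, mu_sum (Finset.range k)
        (fun j x => (if k - 1 - j = 0 then 1 else 0) * Up x j)
        fun j => continuous_const.mul (Up_cont _)]
      simp only [mu_smul, hUp]
      rcases Nat.eq_zero_or_pos k with hk | hk
      · subst hk
        simp
      · rw [Finset.sum_eq_single 0]
        · by_cases h : k = 1
          · subst h; simp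
          · have : k - 1 - 0 ≠ 0 := by omega
            rw [if_neg this, if_neg h, zero_mul]
        · intro j _ hj
          rw [if_neg hj, mul_zero]
        · intro h
          exact absurd (Finset.mem_range.2 hk) h
    rw [a1]
    linarith
  -- the bound on `Dk`
  obtain ⟨C, hC0, hC⟩ : ∃ C : ℝ, 0 < C ∧ ∀ x y : ℝ, |x| ≤ 2 → |y| ≤ 2 → |Dk k x y| ≤ C := by
    obtain ⟨C, hC⟩ := ((isCompact_Icc (a := (-2:ℝ)) (b := 2)).prod
      (isCompact_Icc (a := (-2:ℝ)) (b := 2))).exists_bound_of_continuousOn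
      (Dk_cont k).continuousOn
    refine ⟨max C 1, lt_of_lt_of_le one_pos (le_max_right _ _), fun x y hx hy => ?_⟩
    exact (hC (x, y) ⟨abs_le.1 hx, abs_le.1 hy⟩).trans (le_max_left _ _)
  rw [Metric.tendsto_atTop]
  intro ε hε
  obtain ⟨M₀, hM₀⟩ := h2 (ε / (2 * C)) (by positivity)
  refine ⟨2 * M₀ + 1, fun M hM => ?_⟩
  rw [key M, Real.dist_eq, sub_sub_cancel_left, abs_neg]
  have hz : ∀ x y : ℝ, |x| ≤ 2 → |y| ≤ 2 → 0 ≤ 1 - ((x - y) / 4) ^ 2 ∧
      1 - ((x - y) / 4) ^ 2 ≤ 1 := by
    intro x y hx hy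
    refine ⟨?_, by nlinarith [sq_nonneg ((x - y) / 4)]⟩
    have h3 : |(x - y) / 4| ≤ 1 := by
      rw [abs_div, abs_of_pos (by norm_num : (0:ℝ) < 4), div_le_one (by norm_num)]
      calc |x - y| ≤ |x| + |y| := abs_sub x y
        _ ≤ 4 := by linarith
    have h4 : ((x - y) / 4) ^ 2 ≤ 1 := by
      rw [← sq_abs]
      exact pow_le_one₀ (abs_nonneg _) h3
    linarith
  have hinner : ∀ x : ℝ, |x| ≤ 2 →
      |mu (fun y => (1 - ((x - y) / 4) ^ 2) ^ M * Dk k x y)| ≤ ε / 2 := by
    intro x hx
    have hcF : Continuous fun y => ((1 - ((x - y) / 4) ^ 2) ^ M₀) ^ 2 := by fun_prop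
    have hcG : Continuous fun y => (1 - ((x - y) / 4) ^ 2) ^ M * Dk k x y :=
      ((F_cont M).mul (Dk_cont k)).comp (Continuous.prodMk_right x)
    have hb : ∀ y : ℝ, |y| ≤ 2 → |(1 - ((x - y) / 4) ^ 2) ^ M * Dk k x y| ≤
        C * ((1 - ((x - y) / 4) ^ 2) ^ M₀) ^ 2 := by
      intro y hy
      obtain ⟨z0, z1⟩ := hz x y hx hy
      rw [abs_mul, abs_of_nonneg (pow_nonneg z0 M), ← pow_mul, mul_comm C]
      refine mul_le_mul ?_ (hC x y hx hy) (abs_nonneg _) (pow_nonneg z0 _)
      exact pow_le_pow_of_le_one z0 z1 (by omega)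
    have hsm : mu (fun y => ((1 - ((x - y) / 4) ^ 2) ^ M₀) ^ 2) ≤ ε / (2 * C) := by
      have h5 := hM₀ M₀ le_rfl x hx
      have h6 : (fun y => ((1 - ((y - x) / 4) ^ 2) ^ M₀) ^ 2) =
          fun y => ((1 - ((x - y) / 4) ^ 2) ^ M₀) ^ 2 := by
        funext y
        have : ((y - x) / 4) ^ 2 = ((x - y) / 4) ^ 2 := by ring
        rw [this]
      rwa [h6] at h5
    have hCe : C * (ε / (2 * C)) = ε / 2 := by
      field_simp
    have hCm : C * mu (fun y => ((1 - ((x - y) / 4) ^ 2) ^ M₀) ^ 2) ≤ ε / 2 := by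
      rw [← hCe]
      exact mul_le_mul_of_nonneg_left hsm hC0.le
    rw [abs_le]
    constructor
    · have h7 : mu (fun y => (-C) * ((1 - ((x - y) / 4) ^ 2) ^ M₀) ^ 2) ≤
          mu (fun y => (1 - ((x - y) / 4) ^ 2) ^ M * Dk k x y) := by
        refine mu_mono (continuous_const.mul hcF) hcG fun y hy => ?_
        have := (abs_le.1 (hb y hy)).1
        linarith
      rw [mu_smul] at h7
      linarith
    · have h7 : mu (fun y => (1 - ((x - y) / 4) ^ 2) ^ M * Dk k x y) ≤
          mu (fun y => C * ((1 - ((x - y) / 4) ^ 2) ^ M₀) ^ 2) :=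
        mu_mono hcG (continuous_const.mul hcF) fun y hy => (abs_le.1 (hb y hy)).2
      rw [mu_smul] at h7
      linarith
  have hcI : Continuous fun x => mu (fun y => (1 - ((x - y) / 4) ^ 2) ^ M * Dk k x y) :=
    mu_cont ((F_cont M).mul (Dk_cont k))
  have hup : mu (fun x => mu (fun y => (1 - ((x - y) / 4) ^ 2) ^ M * Dk k x y)) ≤ ε / 2 := by
    have h8 := mu_mono hcI (continuous_const (y := ε / 2)) fun x hx => (abs_le.1 (hinner x hx)).2
    have h9 : mu (fun _ => ε / 2) = ε / 2 := by
      have := mu_smul (ε / 2) (fun _ => 1)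
      simp only [mul_one] at this
      rw [this, hone, mul_one]
    rwa [h9] at h8
  have hlo : -(ε / 2) ≤ mu (fun x => mu (fun y => (1 - ((x - y) / 4) ^ 2) ^ M * Dk k x y)) := by
    have h8 := mu_mono (continuous_const (y := -(ε / 2))) hcI
      fun x hx => (abs_le.1 (hinner x hx)).1
    have h9 : mu (fun _ => -(ε / 2)) = -(ε / 2) := by
      have := mu_smul (-(ε / 2)) (fun _ => 1)
      simp only [mul_one] at this
      rw [this, hone, mul_one]
    rwa [h9] at h8
  exact lt_of_le_of_lt (abs_le.2 ⟨hlo, hup⟩) (by linarith)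

end Pool.Agent.H875R.FP
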