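import Pool.Agent.H875R.FP.Stubs2

namespace Pool.Agent.H875R.FP

theorem kuo_sin (θ : ℝ) : ∀ n : ℕ, Up (2 * Real.cos θ) n * Real.sin θ = Real.sin (((n : ℝ) + 1) * θ)
  | 0 => by simp [Up]
  | 1 => by
    simp only [Up]
    push_cast
    rw [show ((1 : ℝ) + 1) * θ = 2 * θ by ring, Real.sin_two_mul]
    ring
  | n + 2 => by
    have h1 := kuo_sin θ n
    have h2 := kuo_sin θ (n + 1)
    simp only [Up]
    rw [sub_mul, mul_assoc, h1, h2]
    push_cast
    have e1 : Real.sin (((n : ℝ) + 2 + 1) * θ) = Real.sin (((n : ℝ) + 1 + 1) * θ + θ) := by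
      congr 1; ring
    have e2 : Real.sin (((n : ℝ) + 1) * θ) = Real.sin (((n : ℝ) + 1 + 1) * θ - θ) := by
      congr 1; ring
    rw [e1, e2, Real.sin_add, Real.sin_sub]
    ring

theorem kuo_cos (k : ℤ) : ∫ θ in (0 : ℝ)..Real.pi, Real.cos ((k : ℝ) * θ) =
    if k = 0 then Real.pi else 0 := by
  split_ifs with h
  · subst h
    simp
  · have hk : (k : ℝ) ≠ 0 := by exact_mod_cast h
    rw [intervalIntegral.integral_comp_mul_left (fun x => Real.cos x) hk, integral_cos]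
    simp [Real.sin_int_mul_pi]

theorem t_KUO : S_KUO := by
  intro m n
  unfold mu
  have h1 : ∀ θ : ℝ, Up (2 * Real.cos θ) m * Up (2 * Real.cos θ) n * Real.sin θ ^ 2 =
      1 / 2 * Real.cos ((((m : ℤ) - (n : ℤ) : ℤ) : ℝ) * θ) -
      1 / 2 * Real.cos ((((m : ℤ) + (n : ℤ) + 2 : ℤ) : ℝ) * θ) := by
    intro θ
    have e1 : Up (2 * Real.cos θ) m * Up (2 * Real.cos θ) n * Real.sin θ ^ 2 =
        (Up (2 * Real.cos θ) m * Real.sin θ) * (Up (2 * Real.cos θ) n * Real.sin θ) := by ring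
    rw [e1, kuo_sin, kuo_sin]
    have e2 : (((m : ℤ) - (n : ℤ) : ℤ) : ℝ) * θ = ((m : ℝ) + 1) * θ - ((n : ℝ) + 1) * θ := by
      push_cast; ring
    have e3 : (((m : ℤ) + (n : ℤ) + 2 : ℤ) : ℝ) * θ = ((m : ℝ) + 1) * θ + ((n : ℝ) + 1) * θ := by
      push_cast; ring
    rw [e2, e3, Real.cos_sub, Real.cos_add]
    ring
  simp_rw [h1]
  rw [intervalIntegral.integral_sub, intervalIntegral.integral_const_mul,
    intervalIntegral.integral_const_mul, kuo_cos, kuo_cos]
  · have e1 : ((m : ℤ) + (n : ℤ) + 2 : ℤ) ≠ 0 := by positivity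
    have e2 : ((m : ℤ) - (n : ℤ) : ℤ) = 0 ↔ m = n := by omega
    rw [if_neg e1]
    simp only [e2]
    split_ifs
    · have := Real.pi_ne_zero
      field_simp
      norm_num
    · simp
  · exact (Continuous.intervalIntegrable (by fun_prop) _ _)
  · exact (Continuous.intervalIntegrable (by fun_prop) _ _)

end Pool.Agent.H875R.FP
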