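import Mathlib
import Pool.Agent.H875R.FP.Stubs2

/-! Task LAW: the trace is invariant under the derivation -/

namespace Pool.Agent.H875R.FP

open Pool.Agent.H667R3.FF (ev splits)
open Pool.Agent.H581R.FF (n2 act)
open scoped ComplexConjugate

theorem LAW_span_mul {L B : Type} [Ring B] [Algebra ℂ B] (p : L → B) {x y : B}
    (hx : x ∈ Submodule.span ℂ (Set.range (ev p))) (hy : y ∈ Submodule.span ℂ (Set.range (ev p))) :
    x * y ∈ Submodule.span ℂ (Set.range (ev p)) := by
  have h := Submodule.mul_mem_mul hx hy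
  rw [Submodule.span_mul_span] at h
  refine Submodule.span_mono ?_ h
  rintro _ ⟨a, ⟨w, rfl⟩, b, ⟨w', rfl⟩, rfl⟩
  exact ⟨w ++ w', by simp [ev]⟩

theorem LAW_CC_subset {A : Type} [CStarAlgebra A] (s : Set A) : s ⊆ CC s := fun _ hx =>
  StarSubalgebra.le_topologicalClosure _ (StarAlgebra.subset_adjoin ℂ s hx)

theorem LAW_CC_mono {A : Type} [CStarAlgebra A] {s t : Set A} (h : s ⊆ t) : CC s ≤ CC t :=
  StarSubalgebra.topologicalClosure_mono (StarAlgebra.adjoin_mono h)

section

variable {κ H : Type} [NormedAddCommGroup H] [InnerProductSpace ℂ H] [CompleteSpace H]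
  (F : Fock κ H)

theorem LAW_S_mem {i j : κ} (h : i ≠ j) : F.S i ∈ F.DD j :=
  LAW_CC_subset _ ⟨i, h, rfl⟩

theorem LAW_CC_DD {i j : κ} (h : i ≠ j) : CC {F.S i} ≤ F.DD j :=
  LAW_CC_mono (by
    rintro _ rfl
    exact ⟨i, h, rfl⟩)

theorem LAW_ev_AA {L : Type} (p : L → (H →L[ℂ] H)) (hp : ∀ l, p l ∈ F.AA) (w : List L) :
    ev p w ∈ F.AA := by
  unfold ev
  apply list_prod_mem
  intro x hx
  rw [List.mem_map] at hx
  obtain ⟨l, -, rfl⟩ := hx
  exact hp l

theorem LAW_hh (i₀ σ : κ) (a b : unitary (H →L[ℂ] H)) (m N : ℕ) (kap : ℕ → ℕ → ℝ)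
    (t : G2 →₀ ℝ) : hh F i₀ σ a b m N kap t =
      ∑ j : {g // g ∈ t.support} × Fin N × Fin N,
        ((-Complex.I * (t j.1.1 : ℂ) * (kap j.2.1 j.2.2 : ℂ)) •
          (ro a b j.1.1 * Up (PP F i₀ a b m) j.2.1)) * F.S σ *
            (Up (PP F i₀ a b m) j.2.2 * star (ro a b j.1.1)) := by
  unfold hh cj KK bim Finsupp.sum
  rw [← Finset.sum_coe_sort t.support]
  rw [Fintype.sum_prod_type]
  refine Finset.sum_congr rfl fun g _ => ?_
  rw [Fintype.sum_prod_type]
  dsimp only
  rw [Finset.sum_range, mul_smul_comm, smul_mul_assoc, Finset.mul_sum, Finset.sum_mul,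
    Finset.smul_sum, Finset.smul_sum]
  refine Finset.sum_congr rfl fun k _ => ?_
  rw [Finset.sum_range, Finset.mul_sum, Finset.sum_mul, Finset.smul_sum, Finset.smul_sum]
  refine Finset.sum_congr rfl fun l _ => ?_
  rw [mul_smul_comm, smul_mul_assoc, smul_smul, smul_smul, smul_mul_assoc, smul_mul_assoc]
  congr 1
  ring

end

open Classical in
theorem t_LAW (h1 : S_LAWA) (h2 : S_KEY) (h3 : S_SPAN) (h4 : S_R) (h5 : S_T) (h6 : S_TR)
    (hb : S_BAS) : S_LAW := by
  intro κ H _ _ _ F i₀ i₁ σ a b hS m N kap t ε ε' hcore hker w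
  obtain ⟨R, hR⟩ := h4 κ H F σ
  obtain ⟨T, hT⟩ := h5 κ H F i₁
  obtain ⟨-, -, -, -, -, hSs, -, hOm1, hP0, -⟩ := hb κ H F
  obtain ⟨hro, hUp, -, hpl, -, hptA, hroD, hUpD⟩ := h3 κ H F i₀ i₁ σ a b hS m N kap t ε' hker
  have hroS : ∀ g, star (ro a b g) = ro a b g⁻¹ := by
    intro g
    unfold ro
    rw [map_inv]
    rfl
  have hrostar : ∀ g, star (ro a b g) ∈ Submodule.span ℂ (Set.range (ev (pt F a b))) := by
    intro g
    rw [hroS]
    exact hro _
  have hrostarD : ∀ g, star (ro a b g) ∈ F.DD σ := fun g => star_mem (hroD g)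
  have hPP : PP F i₀ a b m = Up (PP F i₀ a b m) 1 := rfl
  have haD1 : (a : H →L[ℂ] H) ∈ F.DD i₁ := LAW_CC_DD F hS.h01 hS.ma
  have haD : (a : H →L[ℂ] H) ∈ F.DD σ := LAW_CC_DD F hS.h0 hS.ma
  have hbD : (b : H →L[ℂ] H) ∈ F.DD σ := LAW_CC_DD F hS.h1 hS.mb
  have hspanAA : ∀ z ∈ Submodule.span ℂ (Set.range (ev (pt F a b))), z ∈ F.AA := by
    intro z hz
    have hle : Submodule.span ℂ (Set.range (ev (pt F a b))) ≤
        Subalgebra.toSubmodule F.AA.toSubalgebra := by
      rw [Submodule.span_le]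
      rintro _ ⟨v, rfl⟩
      exact LAW_ev_AA F _ hptA v
    exact hle hz
  refine h1 (Lt κ) H F.Om (pt F a b)
    (eta F i₁ σ a b (hh F i₀ σ a b m N kap t) (PP F i₀ a b m))
    (fun l => match l with
      | Sum.inl i => if i = σ then 2 else if i = i₁ then 1 else 0
      | Sum.inr (c, _) => if c then 1 else 0)
    T R F.P0 (F.S σ) (hh F i₀ σ a b m N kap t) (PP F i₀ a b m)
    ({g // g ∈ t.support} × Fin N × Fin N)
    (fun j => (-Complex.I * (t j.1.1 : ℂ) * (kap j.2.1 j.2.2 : ℂ)) •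
      (ro a b j.1.1 * Up (PP F i₀ a b m) j.2.1))
    (fun j => Up (PP F i₀ a b m) j.2.2 * star (ro a b j.1.1))
    hP0 hT.star hT.Om (hSs σ) hR.Om hR.sOm hR.self
    (hT.comm _ (LAW_S_mem F (Ne.symm hS.h1))) ?_ ?_ ?_ ⟨Sum.inl σ, by simp⟩ ?_
    (LAW_hh F i₀ σ a b m N kap t) ?_ ?_ ?_ ?_ ?_ w
  · -- kind 0
    rintro (i | ⟨c, e⟩) hl
    · simp only at hl
      have hi : i ≠ σ := by
        rintro rfl
        simp at hl
      have hi1 : i ≠ i₁ := by
        rintro rfl
        rw [if_neg hi] at hl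
        simp at hl
      refine ⟨hT.comm _ (LAW_S_mem F hi1), hR.comm _ (LAW_S_mem F hi), ?_⟩
      simp [eta, hi, hi1]
    · cases c
      · refine ⟨?_, ?_, ?_⟩
        · cases e
          · exact hT.comm _ (star_mem haD1)
          · exact hT.comm _ haD1
        · cases e
          · exact hR.comm _ (star_mem haD)
          · exact hR.comm _ haD
        · simp [eta]
      · simp at hl
  · -- kind 1
    rintro (i | ⟨c, e⟩) hl
    · simp only at hl
      have hi : i ≠ σ := by
        rintro rfl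
        simp at hl
      have hi1 : i = i₁ := by
        by_contra hne
        rw [if_neg hi, if_neg hne] at hl
        simp at hl
      subst hi1
      refine ⟨hT.self _ (LAW_CC_subset _ rfl), hR.comm _ (LAW_S_mem F hi), ?_⟩
      simp [eta, hi, pt]
    · cases c
      · simp at hl
      · refine ⟨?_, ?_, ?_⟩
        · cases e
          · exact hT.self _ (star_mem hS.mb)
          · exact hT.self _ hS.mb
        · cases e
          · exact hR.comm _ (star_mem hbD)
          · exact hR.comm _ hbD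
        · simp [eta]
  · -- kind 2
    rintro (i | ⟨c, e⟩) hl
    · have hi : i = σ := by
        by_contra hne
        simp only at hl
        rw [if_neg hne] at hl
        split_ifs at hl <;> simp at hl
      subst hi
      refine ⟨rfl, ?_⟩
      simp [eta]
    · cases c <;> simp at hl
  · intro z hz z' hz'
    exact h6 κ H F z (hspanAA z hz) z' (hspanAA z' hz')
  · intro j
    refine ⟨Submodule.smul_mem _ _ (LAW_span_mul _ (hro _) (hUp _)), ?_⟩
    exact hR.comm _ (SMulMemClass.smul_mem _ (mul_mem (hroD _) (hUpD _)))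
  · intro j
    refine ⟨LAW_span_mul _ (hUp _) (hrostar _), ?_⟩
    exact hR.comm _ (mul_mem (hUpD _) (hrostarD _))
  · rw [hPP]; exact hUp 1
  · refine hR.comm _ ?_
    rw [hPP]; exact hUpD 1
  · intro v
    have hk := h2 κ H F i₀ i₁ σ a b hS m N kap t ε ε' hcore hker T hT (ev (pt F a b) v)
      (LAW_ev_AA F _ hptA v)
    refine Eq.trans ?_ hk
    congr 1
    unfold Finsupp.sum
    rw [← Finset.sum_coe_sort t.support, Fintype.sum_prod_type]
    refine Finset.sum_congr rfl fun g _ => ?_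
    rw [Fintype.sum_prod_type]
    dsimp only
    rw [Finset.sum_range]
    refine Finset.sum_congr rfl fun k _ => ?_
    rw [Finset.sum_range]
    refine Finset.sum_congr rfl fun l _ => ?_
    simp only [smul_mul_assoc, ContinuousLinearMap.smul_apply, inner_smul_right]

end Pool.Agent.H875R.FP
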