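import Pool.Agent.H875R.FP.Stubs2

/-! LAWA: abstract invariance of the trace. -/

namespace Pool.Agent.H875R.FP

open Pool.Agent.H667R3.FF (ev splits)

namespace LAWAx

variable {L B : Type} [Ring B]

theorem ev_nil (p : L → B) : ev p [] = 1 := rfl

theorem ev_cons (p : L → B) (l : L) (w : List L) : ev p (l :: w) = p l * ev p w := by
  simp [ev]

theorem ev_append (p : L → B) (v w : List L) : ev p (v ++ w) = ev p v * ev p w := by
  simp [ev]

theorem dev_nil (p η : L → B) : dev p η [] = 0 := by simp [dev, splits]

theorem dev_cons (p η : L → B) (l : L) (w : List L) :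
    dev p η (l :: w) = η l * ev p w + p l * dev p η w := by
  unfold dev
  simp only [splits, List.map_cons, List.sum_cons, List.map_map]
  rw [ev_nil, one_mul]
  congr 1
  rw [← List.sum_map_mul_left]
  congr 1
  apply List.map_congr_left
  intro t _
  simp [ev_cons, mul_assoc]

theorem dev_append (p η : L → B) (u v : List L) :
    dev p η (u ++ v) = dev p η u * ev p v + ev p u * dev p η v := by
  induction u with
  | nil => simp [dev_nil, ev_nil]
  | cons l u ih =>
    rw [List.cons_append, dev_cons, ih, ev_append, dev_cons, ev_cons]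
    simp only [mul_add, add_mul, mul_assoc]
    abel

theorem comm_ev (p θ : L → B) (c : B) (h : ∀ l, c * p l - p l * c = θ l) (w : List L) :
    c * ev p w - ev p w * c = dev p θ w := by
  induction w with
  | nil => simp [dev_nil, ev_nil]
  | cons l w ih =>
    rw [dev_cons, ← ih, ← h l, ev_cons]
    simp only [mul_sub, sub_mul, mul_assoc]
    abel

/-- mixed second derivative -/
def XX (p η π : L → B) (w : List L) : B :=
  ((splits w).map fun t => dev p η t.1 * π t.2.1 * ev p t.2.2 +
    ev p t.1 * π t.2.1 * dev p η t.2.2).sum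

theorem XX_nil (p η π : L → B) : XX p η π [] = 0 := by simp [XX, splits]

theorem XX_cons (p η π : L → B) (l : L) (w : List L) :
    XX p η π (l :: w) = π l * dev p η w + η l * dev p π w + p l * XX p η π w := by
  unfold XX
  simp only [splits, List.map_cons, List.sum_cons, List.map_map]
  rw [ev_nil, dev_nil, one_mul, zero_mul, zero_mul, zero_add, add_assoc]
  congr 1
  conv_rhs => rw [dev]
  rw [← List.sum_map_mul_left, ← List.sum_map_mul_left, ← List.sum_map_add]
  congr 1
  apply List.map_congr_left
  intro t _
  simp only [Function.comp, ev_cons, dev_cons, add_mul, mul_add, mul_assoc]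
  abel

theorem comm_dev (p η π : L → B) (c : B) (h : ∀ l, c * p l - p l * c = π l) (w : List L) :
    c * dev p η w - dev p η w * c = dev p (fun l => c * η l - η l * c) w + XX p η π w := by
  induction w with
  | nil => simp [dev_nil, XX_nil]
  | cons l w ih =>
    have h1 := comm_ev p π c h w
    rw [dev_cons, dev_cons, XX_cons]
    have h2 : c * (η l * ev p w + p l * dev p η w) - (η l * ev p w + p l * dev p η w) * c =
        (c * η l - η l * c) * ev p w + η l * (c * ev p w - ev p w * c) +
        (c * p l - p l * c) * dev p η w + p l * (c * dev p η w - dev p η w * c) := by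
      simp only [mul_add, add_mul, mul_sub, sub_mul, mul_assoc]
      abel
    rw [h2, h1, h l, ih, mul_add]
    abel

theorem mem_splits' {w : List L} {t : List L × L × List L} (h : t ∈ splits w) :
    w = t.1 ++ t.2.1 :: t.2.2 := by
  induction w generalizing t with
  | nil => simp [splits] at h
  | cons a w ih =>
    simp only [splits, List.mem_cons, List.mem_map] at h
    rcases h with h | ⟨r, hr, rfl⟩
    · subst h; rfl
    · rw [ih hr]; rfl

variable [Algebra ℂ B]

/-- equality of functionals on derivatives -/
theorem fun_dev (p α θ : L → B) (t1 t2 : B →ₗ[ℂ] ℂ)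
    (h : ∀ u c v, t1 (ev p u * α c * ev p v) = t2 (ev p u * θ c * ev p v)) (w : List L) :
    t1 (dev p α w) = t2 (dev p θ w) := by
  unfold dev
  rw [map_list_sum, map_list_sum, List.map_map, List.map_map]
  congr 1
  apply List.map_congr_left
  intro t _
  exact h _ _ _

/-- the span of the words -/
abbrev Sp (p : L → B) : Submodule ℂ B := Submodule.span ℂ (Set.range (ev p))

theorem ev_mem (p : L → B) (w : List L) : ev p w ∈ Sp p := Submodule.subset_span ⟨w, rfl⟩

theorem p_mem (p : L → B) (l : L) : p l ∈ Sp p := by
  have h := ev_mem p [l]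
  rwa [ev_cons, ev_nil, mul_one] at h

theorem mul_mem' (p : L → B) {z z' : B} (h : z ∈ Sp p) (h' : z' ∈ Sp p) : z * z' ∈ Sp p := by
  have h1 : z * z' ∈ Sp p * Sp p := Submodule.mul_mem_mul h h'
  have h2 : Sp p * Sp p ≤ Sp p := by
    rw [Submodule.span_mul_span]
    apply Submodule.span_mono
    rintro _ ⟨_, ⟨u, rfl⟩, _, ⟨v, rfl⟩, rfl⟩
    exact ⟨u ++ v, ev_append p u v⟩
  exact h2 h1

theorem dev_mem (p η : L → B) (hη : ∀ l, η l ∈ Sp p) (w : List L) : dev p η w ∈ Sp p := by
  induction w with
  | nil => rw [dev_nil]; exact Submodule.zero_mem _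
  | cons l w ih =>
    rw [dev_cons]
    exact Submodule.add_mem _ (mul_mem' p (hη l) (ev_mem p w)) (mul_mem' p (p_mem p l) ih)

theorem abs_law (t : B →ₗ[ℂ] ℂ) (p η : L → B) (kd : L → Fin 3) (T r P s h Q : B) (J : Type)
    [Fintype J] (x y : J → B)
    (hP : ∀ A C, t (A * P * C) = t A * t C)
    (hs : ∀ X, t (s * X) = t (r * X - X * r))
    (hrs : r * s - s * r = P)
    (hTs : T * s = s * T)
    (h0 : ∀ l, kd l = 0 → T * p l = p l * T ∧ r * p l = p l * r ∧ η l = 0)
    (h1 : ∀ l, kd l = 1 → T * p l - p l * T = p l * P - P * p l ∧ r * p l = p l * r ∧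
      η l = Complex.I • (p l * h - h * p l))
    (h2 : ∀ l, kd l = 2 → p l = s ∧ η l = -Q)
    (hex : ∃ l, kd l = 2)
    (htr : ∀ z ∈ Sp p, ∀ z' ∈ Sp p, t (z * z') = t (z' * z))
    (hh : h = ∑ j, x j * s * y j)
    (hx : ∀ j, x j ∈ Sp p ∧ r * x j = x j * r)
    (hy : ∀ j, y j ∈ Sp p ∧ r * y j = y j * r)
    (hQ : Q ∈ Sp p) (hQr : r * Q = Q * r)
    (hkey : ∀ w : List L, Complex.I * ∑ j, t (x j * (T * ev p w - ev p w * T) * y j) =
      t (Q * ev p w)) (w : List L) : t (dev p η w) = 0 := by
  have hk3 : ∀ l, kd l = 0 ∨ kd l = 1 ∨ kd l = 2 := by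
    intro l
    generalize kd l = k
    fin_cases k <;> simp
  obtain ⟨l0, hl0⟩ := hex
  have hsSp : s ∈ Sp p := by
    rw [← (h2 l0 hl0).1]; exact p_mem p l0
  have hhSp : h ∈ Sp p := by
    rw [hh]
    exact Submodule.sum_mem _ (fun j _ => mul_mem' p (mul_mem' p (hx j).1 hsSp) (hy j).1)
  have hηSp : ∀ l, η l ∈ Sp p := by
    intro l
    rcases hk3 l with hl | hl | hl
    · rw [(h0 l hl).2.2]; exact Submodule.zero_mem _
    · rw [(h1 l hl).2.2]
      exact Submodule.smul_mem _ _ (Submodule.sub_mem _ (mul_mem' p (p_mem p l) hhSp)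
        (mul_mem' p hhSp (p_mem p l)))
    · rw [(h2 l hl).2]; exact Submodule.neg_mem _ hQ
  have hcomm : ∀ z z' : B, r * z = z * r → r * z' = z' * r → r * (z * z') = z * z' * r := by
    intro z z' hz hz'
    rw [← mul_assoc, hz, mul_assoc, hz', mul_assoc]
  have hzero : ∀ z z' : B, z ∈ Sp p → z' ∈ Sp p → r * z = z * r → r * z' = z' * r →
      t (z * s * z') = 0 := by
    intro z z' hz hz' hc hc'
    rw [mul_assoc, htr z hz (s * z') (mul_mem' p hsSp hz'), mul_assoc, hs, hcomm z' z hc' hc,
      sub_self, map_zero]
  -- words without s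
  have hbase : ∀ w : List L, (∀ l ∈ w, kd l ≠ 2) → (r * ev p w = ev p w * r) ∧
      ∀ A C : B, A ∈ Sp p → C ∈ Sp p → r * A = A * r → r * C = C * r →
        t (A * dev p η w * C) = 0 := by
    intro w
    induction w with
    | nil =>
      intro _
      refine ⟨by simp [ev_nil], fun A C _ _ _ _ => ?_⟩
      rw [dev_nil, mul_zero, zero_mul, map_zero]
    | cons l w ih =>
      intro hw
      obtain ⟨ih1, ih2⟩ := ih (fun a ha => hw a (List.mem_cons_of_mem _ ha))
      have hl2 : kd l ≠ 2 := hw l List.mem_cons_self
      have hpl : r * p l = p l * r := by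
        rcases hk3 l with hl | hl | hl
        · exact (h0 l hl).2.1
        · exact (h1 l hl).2.1
        · exact absurd hl hl2
      refine ⟨by rw [ev_cons]; exact hcomm _ _ hpl ih1, fun A C hA hC hAr hCr => ?_⟩
      rw [dev_cons, mul_add, add_mul, map_add]
      have e2 : t (A * (p l * dev p η w) * C) = 0 := by
        rw [← mul_assoc A]
        exact ih2 (A * p l) C (mul_mem' p hA (p_mem p l)) hC (hcomm _ _ hAr hpl) hCr
      rw [e2, add_zero]
      rcases hk3 l with hl | hl | hl
      · rw [(h0 l hl).2.2, zero_mul, mul_zero, zero_mul, map_zero]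
      · rw [(h1 l hl).2.2, hh]
        have e3 : A * (Complex.I • (p l * ∑ j, x j * s * y j - (∑ j, x j * s * y j) * p l) *
            ev p w) * C = Complex.I • (∑ j, (A * p l * x j) * s * (y j * ev p w * C) -
            ∑ j, (A * x j) * s * (y j * p l * ev p w * C)) := by
          rw [smul_mul_assoc, mul_smul_comm, smul_mul_assoc]
          congr 1
          simp only [Finset.mul_sum, Finset.sum_mul, mul_sub, sub_mul, mul_assoc]
        rw [e3, map_smul, map_sub, map_sum, map_sum]
        rw [Finset.sum_eq_zero, Finset.sum_eq_zero, sub_self, smul_zero]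
        · intro j _
          exact hzero _ _ (mul_mem' p hA (hx j).1)
            (mul_mem' p (mul_mem' p (mul_mem' p (hy j).1 (p_mem p l)) (ev_mem p w)) hC)
            (hcomm _ _ hAr (hx j).2)
            (hcomm _ _ (hcomm _ _ (hcomm _ _ (hy j).2 hpl) ih1) hCr)
        · intro j _
          exact hzero _ _ (mul_mem' p (mul_mem' p hA (p_mem p l)) (hx j).1)
            (mul_mem' p (mul_mem' p (hy j).1 (ev_mem p w)) hC)
            (hcomm _ _ (hcomm _ _ hAr hpl) (hx j).2)
            (hcomm _ _ (hcomm _ _ (hy j).2 ih1) hCr)
      · exact absurd hl hl2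
  -- derivatives
  classical
  set π : L → B := fun l => if kd l = 2 then P else 0 with hπ
  have hrp : ∀ l, r * p l - p l * r = π l := by
    intro l
    rcases hk3 l with hl | hl | hl
    · have : kd l ≠ 2 := by rw [hl]; decide
      simp only [hπ, if_neg this]
      rw [(h0 l hl).2.1, sub_self]
    · have : kd l ≠ 2 := by rw [hl]; decide
      simp only [hπ, if_neg this]
      rw [(h1 l hl).2.1, sub_self]
    · simp only [hπ, if_pos hl]
      rw [(h2 l hl).1, hrs]
  set θ : L → B := fun l => if kd l = 1 then p l * P - P * p l else 0 with hθ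
  have hTp : ∀ l, T * p l - p l * T = θ l := by
    intro l
    rcases hk3 l with hl | hl | hl
    · have : kd l ≠ 1 := by rw [hl]; decide
      simp only [hθ, if_neg this]
      rw [(h0 l hl).1, sub_self]
    · simp only [hθ, if_pos hl]
      exact (h1 l hl).1
    · have : kd l ≠ 1 := by rw [hl]; decide
      simp only [hθ, if_neg this]
      rw [(h2 l hl).1, hTs, sub_self]
  -- the functional z ↦ I ∑ t (x j z y j)
  let t2 : B →ₗ[ℂ] ℂ := Complex.I • ∑ j, t ∘ₗ (LinearMap.mulLeft ℂ (x j)) ∘ₗ
    (LinearMap.mulRight ℂ (y j))
  have ht2 : ∀ z, t2 z = Complex.I * ∑ j, t (x j * (z * y j)) := by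
    intro z
    simp [t2]
  have hYkey : ∀ W : List L, t (dev p (fun l => r * η l - η l * r) W) = t (Q * ev p W) := by
    intro W
    rw [fun_dev p (fun l => r * η l - η l * r) θ t t2 ?_ W]
    · rw [ht2, ← comm_ev p θ T hTp W, ← hkey W]
      congr 1
      refine Finset.sum_congr rfl (fun j _ => ?_)
      rw [← mul_assoc]
    · intro u c v
      rcases hk3 c with hc | hc | hc
      · have hc1 : kd c ≠ 1 := by rw [hc]; decide
        simp only [hθ, if_neg hc1, (h0 c hc).2.2]
        simp
      · simp only [hθ, if_pos hc, (h1 c hc).2.2]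
        have hrh : r * h - h * r = ∑ j, x j * P * y j := by
          rw [hh, Finset.mul_sum, Finset.sum_mul, ← Finset.sum_sub_distrib]
          refine Finset.sum_congr rfl (fun j _ => ?_)
          rw [← hrs]
          have e1 := (hx j).2
          have e2 := (hy j).2
          have e4 : x j * s * y j * r = x j * s * r * y j := by
            rw [mul_assoc (x j * s), ← e2, ← mul_assoc]
          have e5 : r * (x j * s * y j) = x j * r * s * y j := by
            rw [mul_assoc (x j), ← mul_assoc r, e1]
            simp only [mul_assoc]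
          rw [e4, e5]
          simp only [mul_sub, sub_mul, mul_assoc]
        have hrc := (h1 c hc).2.1
        have e6 : r * (Complex.I • (p c * h - h * p c)) - (Complex.I • (p c * h - h * p c)) * r =
            Complex.I • (p c * ∑ j, x j * P * y j - (∑ j, x j * P * y j) * p c) := by
          rw [← hrh, mul_smul_comm, smul_mul_assoc, ← smul_sub]
          congr 1
          have e7 : r * (p c * h) = p c * (r * h) := by rw [← mul_assoc, hrc, mul_assoc]
          have e8 : h * p c * r = h * r * p c := by rw [mul_assoc, ← hrc, mul_assoc]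
          simp only [mul_sub, sub_mul, mul_assoc]
          rw [← hrc]
          rw [← mul_assoc r (p c) h, hrc, mul_assoc]
          abel
        rw [e6, ht2]
        have e9 : ev p u * (Complex.I • (p c * ∑ j, x j * P * y j -
            (∑ j, x j * P * y j) * p c)) * ev p v =
            Complex.I • ∑ j, ((ev p u * p c * x j) * P * (y j * ev p v) -
              (ev p u * x j) * P * (y j * (p c * ev p v))) := by
          rw [mul_smul_comm, smul_mul_assoc]
          congr 1
          simp only [Finset.mul_sum, Finset.sum_mul, mul_sub, sub_mul, mul_assoc,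
            Finset.sum_sub_distrib]
        rw [e9, map_smul, map_sum, smul_eq_mul]
        congr 1
        refine Finset.sum_congr rfl (fun j _ => ?_)
        have e10 : x j * (ev p u * (p c * P - P * p c) * ev p v * y j) =
            (x j * (ev p u * p c)) * P * (ev p v * y j) -
            (x j * ev p u) * P * (p c * ev p v * y j) := by
          simp only [mul_sub, sub_mul, mul_assoc]
        rw [e10, map_sub, map_sub, hP, hP, hP, hP]
        have f1 := htr (ev p u * p c) (mul_mem' p (ev_mem p u) (p_mem p c)) (x j) (hx j).1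
        have f2 := htr (y j) (hy j).1 (ev p v) (ev_mem p v)
        have f3 := htr (ev p u) (ev_mem p u) (x j) (hx j).1
        have f4 := htr (y j) (hy j).1 (p c * ev p v) (mul_mem' p (p_mem p c) (ev_mem p v))
        rw [f1, f2, f3, f4]
      · have hc1 : kd c ≠ 1 := by rw [hc]; decide
        simp only [hθ, if_neg hc1, (h2 c hc).2]
        rw [mul_neg, neg_mul, hQr]
        simp
  -- strong induction on the number of letters s
  have hmain : ∀ n : ℕ, ∀ w : List L, w.countP (fun l => decide (kd l = 2)) = n →
      t (dev p η w) = 0 := by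
    intro n
    induction n using Nat.strong_induction_on with
    | _ n ih =>
      intro w hw
      by_cases hw2 : ∀ l ∈ w, kd l ≠ 2
      · have e := (hbase w hw2).2 1 1 ?_ ?_ ?_ ?_
        · rwa [one_mul, mul_one] at e
        · exact ev_mem p []
        · exact ev_mem p []
        · rw [one_mul, mul_one]
        · rw [one_mul, mul_one]
      · push Not at hw2
        obtain ⟨l, hl, hl2⟩ := hw2
        obtain ⟨u, v, rfl⟩ := List.append_of_mem hl
        have hcyc : t (dev p η (u ++ l :: v)) = t (dev p η (l :: (v ++ u))) := by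
          rw [← List.cons_append, dev_append, dev_append, map_add, map_add]
          rw [htr (dev p η u) (dev_mem p η hηSp u) (ev p (l :: v)) (ev_mem p _),
            htr (ev p u) (ev_mem p u) (dev p η (l :: v)) (dev_mem p η hηSp _), add_comm]
        rw [hcyc, dev_cons, map_add, (h2 l hl2).1, (h2 l hl2).2, neg_mul, map_neg, hs,
          comm_dev p η π r hrp (v ++ u), map_add, hYkey]
        have hcount : (v ++ u).countP (fun l => decide (kd l = 2)) + 1 = n := by
          rw [← hw]
          simp only [List.countP_append, List.countP_cons, hl2, decide_true, if_true]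
          omega
        have hXX : t (XX p η π (v ++ u)) = 0 := by
          unfold XX
          rw [map_list_sum, List.map_map]
          apply List.sum_eq_zero
          intro z hz
          rw [List.mem_map] at hz
          obtain ⟨⟨w1, c, w2⟩, hmem, rfl⟩ := hz
          have hsp := mem_splits' hmem
          simp only at hsp
          simp only [Function.comp]
          by_cases hc : kd c = 2
          · have hcnt : w1.countP (fun l => decide (kd l = 2)) +
                w2.countP (fun l => decide (kd l = 2)) + 1 + 1 = n := by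
              rw [← hcount, hsp]
              simp only [List.countP_append, List.countP_cons, hc, decide_true, if_true]
              omega
            simp only [hπ, if_pos hc]
            rw [map_add, hP, hP, ih _ (by omega) w1 rfl, ih _ (by omega) w2 rfl]
            ring
          · simp only [hπ, if_neg hc]
            simp
        rw [hXX]
        ring
  exact hmain _ w rfl

end LAWAx

open LAWAx in
theorem t_LAWA : S_LAWA := by
  intro L H _ _ _ Ω p η kd T R P s h Q J _ x y hP hT hTΩ hs hRΩ hsR hrs hTs h0 h1 h2 hex htr hh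
    hx hy hQ hQr hkey w
  let t : (H →L[ℂ] H) →ₗ[ℂ] ℂ :=
    { toFun := fun z => inner ℂ Ω (z Ω)
      map_add' := by intro a b; simp [inner_add_right]
      map_smul' := by intro c a; simp [inner_smul_right] }
  have ht : ∀ z : H →L[ℂ] H, t z = inner ℂ Ω (z Ω) := fun z => rfl
  have hP' : ∀ A C : H →L[ℂ] H, t (A * P * C) = t A * t C := by
    intro A C
    rw [ht, ht, ht]
    simp only [ContinuousLinearMap.mul_apply, hP, map_smul, inner_smul_right]
    ring
  have hs' : ∀ X : H →L[ℂ] H, t (s * X) = t (star R * X - X * star R) := by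
    intro X
    rw [ht, ht]
    simp only [ContinuousLinearMap.mul_apply, ContinuousLinearMap.sub_apply, hsR, map_zero,
      sub_zero]
    rw [ContinuousLinearMap.star_eq_adjoint, ContinuousLinearMap.adjoint_inner_right, hRΩ]
    have h3 := ContinuousLinearMap.adjoint_inner_right s Ω (X Ω)
    rw [← ContinuousLinearMap.star_eq_adjoint, hs] at h3
    exact h3
  have := abs_law t p η kd T (star R) P s h Q J x y hP' hs' hrs hTs h0 h1 h2 hex
    (fun z hz z' hz' => htr z hz z' hz') hh hx hy hQ hQr (fun w => hkey w) w
  exact this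

end Pool.Agent.H875R.FP
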