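import Pool.Agent.H875R.FP.Stubs2

/-! Free powers, task LIM: one-sided approximate intertwining. -/

namespace Pool.Agent.H875R.FP

namespace LIMaux

open Filter Topology

variable {A : Type} [CStarAlgebra A]

theorem isClosed_CC (s : Set A) : IsClosed (CC s : Set A) :=
  StarSubalgebra.isClosed_topologicalClosure _

theorem subset_CC (s : Set A) : s ⊆ (CC s : Set A) := fun _ hx =>
  StarSubalgebra.le_topologicalClosure _ (StarAlgebra.subset_adjoin ℂ s hx)

/-- induction principle for generated C*-subalgebras -/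
theorem CC_ind {s : Set A} {P : A → Prop} (hmem : ∀ x ∈ s, P x) (halg : ∀ r : ℂ, P (algebraMap ℂ A r))
    (hadd : ∀ x y, P x → P y → P (x + y)) (hmul : ∀ x y, P x → P y → P (x * y))
    (hstar : ∀ x, P x → P (star x))
    (hcl : ∀ x, (∀ ε : ℝ, 0 < ε → ∃ y, P y ∧ ‖x - y‖ < ε) → P x) : ∀ x ∈ CC s, P x := by
  have h1 : ∀ x ∈ StarAlgebra.adjoin ℂ s, P x := by
    intro x hx
    induction hx using StarAlgebra.adjoin_induction with
    | mem x hx => exact hmem x hx
    | algebraMap r => exact halg r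
    | add x y _ _ hx hy => exact hadd x y hx hy
    | mul x y _ _ hx hy => exact hmul x y hx hy
    | star x _ hx => exact hstar x hx
  intro x hx
  apply hcl
  intro ε hε
  have hx' : x ∈ closure (StarAlgebra.adjoin ℂ s : Set A) := hx
  obtain ⟨y, hy, hd⟩ := Metric.mem_closure_iff.1 hx' ε hε
  exact ⟨y, h1 y hy, by rwa [dist_eq_norm] at hd⟩

theorem nm (α : A ≃⋆ₐ[ℂ] A) (a : A) : ‖α a‖ = ‖a‖ := StarAlgEquiv.norm_map α a

theorem map_algebraMap' (α : A ≃⋆ₐ[ℂ] A) (r : ℂ) : α (algebraMap ℂ A r) = algebraMap ℂ A r := by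
  rw [Algebra.algebraMap_eq_smul_one, map_smul, map_one]

section

variable {k : ℕ} (x : Fin k → A) (s : A)

/-- `β` nearly fixes the `x i`, and nearly maps an element of `CC (range x)` to `s` -/
def Hyp (δ : ℝ) (β : A ≃⋆ₐ[ℂ] A) : Prop :=
  (∀ i, ‖β (x i) - x i‖ < δ) ∧ ∃ d ∈ CC (Set.range x), ‖β d - s‖ < δ

def Ev (P : (A ≃⋆ₐ[ℂ] A) → Prop) : Prop := ∃ δ : ℝ, 0 < δ ∧ ∀ β, Hyp x s δ β → P β

variable {x s}

theorem Hyp.mono {δ δ' : ℝ} (h : δ ≤ δ') {β : A ≃⋆ₐ[ℂ] A} (hβ : Hyp x s δ β) : Hyp x s δ' β :=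
  ⟨fun i => (hβ.1 i).trans_le h, hβ.2.imp fun _ hd => ⟨hd.1, hd.2.trans_le h⟩⟩

theorem Ev.and {P Q : (A ≃⋆ₐ[ℂ] A) → Prop} (hP : Ev x s P) (hQ : Ev x s Q) :
    Ev x s (fun β => P β ∧ Q β) := by
  obtain ⟨δ, hδ, h1⟩ := hP
  obtain ⟨δ', hδ', h2⟩ := hQ
  exact ⟨min δ δ', lt_min hδ hδ', fun β hβ =>
    ⟨h1 β (hβ.mono (min_le_left _ _)), h2 β (hβ.mono (min_le_right _ _))⟩⟩

theorem Ev.imp {P Q : (A ≃⋆ₐ[ℂ] A) → Prop} (hP : Ev x s P) (h : ∀ β, P β → Q β) : Ev x s Q := by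
  obtain ⟨δ, hδ, h1⟩ := hP
  exact ⟨δ, hδ, fun β hβ => h β (h1 β hβ)⟩

theorem Ev.of {P : (A ≃⋆ₐ[ℂ] A) → Prop} (h : ∀ β, P β) : Ev x s P := ⟨1, one_pos, fun β _ => h β⟩

theorem Ev.all {ι : Type} (F : Finset ι) {P : ι → (A ≃⋆ₐ[ℂ] A) → Prop} (h : ∀ i ∈ F, Ev x s (P i)) :
    Ev x s (fun β => ∀ i ∈ F, P i β) := by
  classical
  induction F using Finset.induction_on with
  | empty => exact Ev.of fun β i hi => absurd hi (Finset.notMem_empty i)
  | insert a F _ ih =>
    have h1 := h a (Finset.mem_insert_self a F)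
    have h2 := ih fun i hi => h i (Finset.mem_insert_of_mem hi)
    refine (h1.and h2).imp fun β hβ i hi => ?_
    rcases Finset.mem_insert.1 hi with rfl | hi
    · exact hβ.1
    · exact hβ.2 i hi

theorem mul_est {a b c d : A} {ε : ℝ} (hε : 0 < ε) (hε1 : ε ≤ 1) (h1 : ‖a - c‖ < ε)
    (h2 : ‖b - d‖ < ε) : ‖a * b - c * d‖ ≤ ε * (‖c‖ + ‖d‖ + 1) := by
  have e : a * b - c * d = (a - c) * (b - d) + (a - c) * d + c * (b - d) := by
    noncomm_ring
  rw [e]
  have n1 := norm_mul_le (a - c) (b - d)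
  have n2 := norm_mul_le (a - c) d
  have n3 := norm_mul_le c (b - d)
  have n4 := norm_add_le ((a - c) * (b - d) + (a - c) * d) (c * (b - d))
  have n5 := norm_add_le ((a - c) * (b - d)) ((a - c) * d)
  have p1 : ‖a - c‖ * ‖b - d‖ ≤ ε * 1 :=
    mul_le_mul h1.le (h2.le.trans hε1) (norm_nonneg _) hε.le
  have p2 : ‖a - c‖ * ‖d‖ ≤ ε * ‖d‖ := mul_le_mul_of_nonneg_right h1.le (norm_nonneg _)
  have p3 : ‖c‖ * ‖b - d‖ ≤ ‖c‖ * ε := mul_le_mul_of_nonneg_left h2.le (norm_nonneg _)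
  linarith

/-- small enough error for a product -/
theorem exists_small (c d : A) {ε : ℝ} (hε : 0 < ε) :
    ∃ ε' : ℝ, 0 < ε' ∧ ε' ≤ 1 ∧ ε' * (‖c‖ + ‖d‖ + 1) < ε := by
  have hpos : 0 < ‖c‖ + ‖d‖ + 1 := by positivity
  refine ⟨min 1 (ε / (2 * (‖c‖ + ‖d‖ + 1))), lt_min one_pos (by positivity), min_le_left _ _, ?_⟩
  calc min 1 (ε / (2 * (‖c‖ + ‖d‖ + 1))) * (‖c‖ + ‖d‖ + 1)
      ≤ ε / (2 * (‖c‖ + ‖d‖ + 1)) * (‖c‖ + ‖d‖ + 1) :=
        mul_le_mul_of_nonneg_right (min_le_right _ _) hpos.le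
    _ = ε / 2 := by field_simp
    _ < ε := by linarith

/-- `β` nearly fixes the elements of `CC (range x)` -/
theorem fix : ∀ c ∈ CC (Set.range x), ∀ ε : ℝ, 0 < ε → Ev x s (fun β => ‖β c - c‖ < ε) := by
  apply CC_ind
  · rintro _ ⟨i, rfl⟩ ε hε
    exact ⟨ε, hε, fun β hβ => hβ.1 i⟩
  · intro r ε hε
    refine Ev.of fun β => ?_
    rw [map_algebraMap', sub_self, norm_zero]
    exact hε
  · intro a b ha hb ε hε
    refine ((ha (ε / 2) (by linarith)).and (hb (ε / 2) (by linarith))).imp fun β hβ => ?_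
    have e : β (a + b) - (a + b) = (β a - a) + (β b - b) := by rw [map_add]; abel
    rw [e]
    have := norm_add_le (β a - a) (β b - b)
    linarith [hβ.1, hβ.2]
  · intro a b ha hb ε hε
    obtain ⟨ε', h1, h2, h3⟩ := exists_small a b hε
    refine ((ha ε' h1).and (hb ε' h1)).imp fun β hβ => ?_
    rw [map_mul]
    exact (mul_est h1 h2 hβ.1 hβ.2).trans_lt h3
  · intro a ha ε hε
    refine (ha ε hε).imp fun β hβ => ?_
    rw [map_star, ← star_sub, norm_star]
    exact hβ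
  · intro a ha ε hε
    obtain ⟨y, hy, hd⟩ := ha (ε / 3) (by linarith)
    refine (hy (ε / 3) (by linarith)).imp fun β hβ => ?_
    have e : β a - a = β (a - y) + (β y - y) - (a - y) := by rw [map_sub]; abel
    rw [e]
    have n1 := norm_sub_le (β (a - y) + (β y - y)) (a - y)
    have n2 := norm_add_le (β (a - y)) (β y - y)
    rw [nm] at n2
    linarith

/-- every element is nearly in `β (CC (range x))` -/
theorem reach : ∀ z ∈ CC (insert s (Set.range x)), ∀ ε : ℝ, 0 < ε →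
    Ev x s (fun β => ∃ c ∈ CC (Set.range x), ‖β c - z‖ < ε) := by
  apply CC_ind
  · rintro z hz ε hε
    rcases hz with rfl | ⟨i, rfl⟩
    · exact ⟨ε, hε, fun β hβ => hβ.2⟩
    · exact ⟨ε, hε, fun β hβ => ⟨x i, subset_CC _ ⟨i, rfl⟩, hβ.1 i⟩⟩
  · intro r ε hε
    refine Ev.of fun β => ⟨algebraMap ℂ A r, ?_, ?_⟩
    · exact algebraMap_mem _ _
    · rw [map_algebraMap', sub_self, norm_zero]
      exact hε
  · intro a b ha hb ε hε
    refine ((ha (ε / 2) (by linarith)).and (hb (ε / 2) (by linarith))).imp fun β hβ => ?_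
    obtain ⟨⟨c, hc, h1⟩, ⟨d, hd, h2⟩⟩ := hβ
    refine ⟨c + d, add_mem hc hd, ?_⟩
    have e : β (c + d) - (a + b) = (β c - a) + (β d - b) := by rw [map_add]; abel
    rw [e]
    have := norm_add_le (β c - a) (β d - b)
    linarith
  · intro a b ha hb ε hε
    obtain ⟨ε', h1, h2, h3⟩ := exists_small a b hε
    refine ((ha ε' h1).and (hb ε' h1)).imp fun β hβ => ?_
    obtain ⟨⟨c, hc, h4⟩, ⟨d, hd, h5⟩⟩ := hβ
    refine ⟨c * d, mul_mem hc hd, ?_⟩
    rw [map_mul]
    exact (mul_est h1 h2 h4 h5).trans_lt h3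
  · intro a ha ε hε
    refine (ha ε hε).imp fun β hβ => ?_
    obtain ⟨c, hc, h1⟩ := hβ
    refine ⟨star c, star_mem hc, ?_⟩
    rw [map_star, ← star_sub, norm_star]
    exact h1
  · intro a ha ε hε
    obtain ⟨y, hy, hd⟩ := ha (ε / 2) (by linarith)
    refine (hy (ε / 2) (by linarith)).imp fun β hβ => ?_
    obtain ⟨c, hc, h1⟩ := hβ
    refine ⟨c, hc, ?_⟩
    have e : β c - a = (β c - y) - (a - y) := by abel
    rw [e]
    have := norm_sub_le (β c - y) (a - y)
    linarith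

/-- the generators -/
noncomputable def gens (x : Fin k → A) (s : A) : Finset A := by
  classical
  exact insert s (Finset.univ.image x)

theorem mem_gens {z : A} : z ∈ gens x s ↔ z = s ∨ ∃ i, x i = z := by
  classical
  unfold gens
  simp

/-- one step -/
theorem step (hcc : CC (insert s (Set.range x)) = ⊤)
    (hyp : ∀ ε : ℝ, 0 < ε → ∃ α : A ≃⋆ₐ[ℂ] A, Hyp x s ε α) (α : A ≃⋆ₐ[ℂ] A) (F : Finset A)
    (hF : ∀ c ∈ F, c ∈ CC (Set.range x)) (ε : ℝ) (hε : 0 < ε) :
    ∃ (α' : A ≃⋆ₐ[ℂ] A) (F' : Finset A), F ⊆ F' ∧ (∀ c ∈ F', c ∈ CC (Set.range x)) ∧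
      (∀ c ∈ F, ‖α' c - α c‖ < ε) ∧ ∀ z ∈ gens x s, ∃ c ∈ F', ‖α' c - z‖ < ε := by
  classical
  have h1 : Ev x s (fun β => ∀ c ∈ F, ‖β c - c‖ < ε) :=
    Ev.all F fun c hc => fix c (hF c hc) ε hε
  have h2 : Ev x s (fun β => ∀ z ∈ gens x s, ∃ c ∈ CC (Set.range x), ‖β c - α.symm z‖ < ε) :=
    Ev.all (gens x s) fun z _ => reach (α.symm z) (by rw [hcc]; exact StarSubalgebra.mem_top) ε hε
  obtain ⟨δ, hδ, h3⟩ := h1.and h2
  obtain ⟨β, hβ⟩ := hyp δ hδ
  obtain ⟨h4, h5⟩ := h3 β hβ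
  choose! f hf1 hf2 using h5
  refine ⟨β.trans α, F ∪ (gens x s).image f, Finset.subset_union_left, ?_, ?_, ?_⟩
  · intro c hc
    rcases Finset.mem_union.1 hc with hc | hc
    · exact hF c hc
    · obtain ⟨z, hz, rfl⟩ := Finset.mem_image.1 hc
      exact hf1 z hz
  · intro c hc
    show ‖α (β c) - α c‖ < ε
    rw [← map_sub, nm]
    exact h4 c hc
  · intro z hz
    refine ⟨f z, Finset.mem_union_right _ (Finset.mem_image_of_mem f hz), ?_⟩
    show ‖α (β (f z)) - z‖ < ε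
    have e : α (β (f z)) - z = α (β (f z) - α.symm z) := by
      rw [map_sub, StarAlgEquiv.apply_symm_apply]
    rw [e, nm]
    exact hf2 z hz

/-- the approximating sequence -/
theorem exists_seq' (hcc : CC (insert s (Set.range x)) = ⊤)
    (hyp : ∀ ε : ℝ, 0 < ε → ∃ α : A ≃⋆ₐ[ℂ] A, Hyp x s ε α) :
    ∃ (α : ℕ → (A ≃⋆ₐ[ℂ] A)) (F : ℕ → Finset A), (∀ i, x i ∈ F 0) ∧ (∀ n, F n ⊆ F (n + 1)) ∧
      (∀ n, ∀ c ∈ F n, c ∈ CC (Set.range x)) ∧
      (∀ n, ∀ c ∈ F n, ‖α (n + 1) c - α n c‖ < (1 / 2) ^ n) ∧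
      ∀ n, ∀ z ∈ gens x s, ∃ c ∈ F (n + 1), ‖α (n + 1) c - z‖ < (1 / 2) ^ n := by
  classical
  let St : Type := {p : (A ≃⋆ₐ[ℂ] A) × Finset A // ∀ c ∈ p.2, c ∈ CC (Set.range x)}
  have hstep : ∀ (n : ℕ) (p : St), ∃ q : St, p.1.2 ⊆ q.1.2 ∧
      (∀ c ∈ p.1.2, ‖q.1.1 c - p.1.1 c‖ < (1 / 2) ^ n) ∧
      ∀ z ∈ gens x s, ∃ c ∈ q.1.2, ‖q.1.1 c - z‖ < (1 / 2) ^ n := by
    intro n p
    obtain ⟨α', F', h1, h2, h3, h4⟩ := step hcc hyp p.1.1 p.1.2 p.2 ((1 / 2) ^ n) (by positivity)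
    exact ⟨⟨(α', F'), h2⟩, h1, h3, h4⟩
  choose nx hnx using hstep
  let p0 : St := ⟨(StarAlgEquiv.refl ℂ A, Finset.univ.image x), by
    intro c hc
    obtain ⟨i, -, rfl⟩ := Finset.mem_image.1 hc
    exact subset_CC _ ⟨i, rfl⟩⟩
  let sq : ℕ → St := fun n => Nat.rec p0 (fun n p => nx n p) n
  refine ⟨fun n => (sq n).1.1, fun n => (sq n).1.2, ?_, ?_, ?_, ?_, ?_⟩
  · intro i
    exact Finset.mem_image_of_mem x (Finset.mem_univ i)
  · intro n
    exact (hnx n (sq n)).1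
  · intro n
    exact (sq n).2
  · intro n c hc
    exact (hnx n (sq n)).2.1 c hc
  · intro n z hz
    exact (hnx n (sq n)).2.2 z hz

end

end LIMaux

open LIMaux Filter Topology in
theorem t_LIM : S_LIM := by
  intro A _ k x s hcc hyp0
  have hyp : ∀ ε : ℝ, 0 < ε → ∃ α : A ≃⋆ₐ[ℂ] A, Hyp x s ε α := hyp0
  obtain ⟨α, F, hF0, hFm, hFc, hF1, hF2⟩ := exists_seq' hcc hyp
  have hFmono : Monotone F := monotone_nat_of_le_succ hFm
  -- Cauchy
  have hcau : ∀ c ∈ CC (Set.range x), CauchySeq fun n => α n c := by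
    apply CC_ind
    · rintro _ ⟨i, rfl⟩
      refine cauchySeq_of_le_geometric (1 / 2) 1 (by norm_num) fun n => ?_
      rw [dist_comm, dist_eq_norm, one_mul]
      exact (hF1 n (x i) (hFmono (Nat.zero_le n) (hF0 i))).le
    · intro r
      simp only [map_algebraMap']
      exact cauchySeq_const _
    · intro a b ha hb
      simp only [map_add]
      exact ha.add hb
    · intro a b ha hb
      obtain ⟨la, hla⟩ := cauchySeq_tendsto_of_complete ha
      obtain ⟨lb, hlb⟩ := cauchySeq_tendsto_of_complete hb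
      simp only [map_mul]
      exact (hla.mul hlb).cauchySeq
    · intro a ha
      obtain ⟨la, hla⟩ := cauchySeq_tendsto_of_complete ha
      simp only [map_star]
      exact hla.star.cauchySeq
    · intro a ha
      rw [Metric.cauchySeq_iff']
      intro ε hε
      obtain ⟨y, hy, hd⟩ := ha (ε / 4) (by linarith)
      obtain ⟨N, hN⟩ := Metric.cauchySeq_iff'.1 hy (ε / 4) (by linarith)
      refine ⟨N, fun n hn => ?_⟩
      have h1 := hN n hn
      rw [dist_eq_norm] at h1 ⊢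
      have e : α n a - α N a = α n (a - y) + (α n y - α N y) - α N (a - y) := by
        rw [map_sub, map_sub]; abel
      rw [e]
      have n1 := norm_sub_le (α n (a - y) + (α n y - α N y)) (α N (a - y))
      have n2 := norm_add_le (α n (a - y)) (α n y - α N y)
      rw [nm] at n1 n2
      linarith
  have hlim : ∀ c : CC (Set.range x), ∃ l, Tendsto (fun n => α n (c : A)) atTop (𝓝 l) :=
    fun c => cauchySeq_tendsto_of_complete (hcau c c.2)
  choose L hL using hlim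
  let φ : CC (Set.range x) →⋆ₐ[ℂ] A :=
    { toFun := L
      map_one' := by
        refine tendsto_nhds_unique (hL 1) ?_
        simp only [OneMemClass.coe_one, map_one]
        exact tendsto_const_nhds
      map_mul' := fun a b => by
        refine tendsto_nhds_unique (hL (a * b)) ?_
        simp only [MulMemClass.coe_mul, map_mul]
        exact (hL a).mul (hL b)
      map_zero' := by
        refine tendsto_nhds_unique (hL 0) ?_
        simp only [ZeroMemClass.coe_zero, map_zero]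
        exact tendsto_const_nhds
      map_add' := fun a b => by
        refine tendsto_nhds_unique (hL (a + b)) ?_
        simp only [AddMemClass.coe_add, map_add]
        exact (hL a).add (hL b)
      commutes' := fun r => by
        refine tendsto_nhds_unique (hL _) ?_
        have : ((algebraMap ℂ (CC (Set.range x)) r : CC (Set.range x)) : A) = algebraMap ℂ A r := rfl
        simp only [this, map_algebraMap']
        exact tendsto_const_nhds
      map_star' := fun a => by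
        refine tendsto_nhds_unique (hL (star a)) ?_
        simp only [StarMemClass.coe_star, map_star]
        exact (hL a).star }
  have hφ : ∀ c, φ c = L c := fun _ => rfl
  have hnorm : ∀ c, ‖φ c‖ = ‖c‖ := by
    intro c
    have h1 := (hL c).norm
    simp only [nm] at h1
    exact tendsto_nhds_unique h1 tendsto_const_nhds |>.symm ▸ rfl
  have hiso : Isometry φ := AddMonoidHomClass.isometry_of_norm φ hnorm
  haveI : CompleteSpace (CC (Set.range x)) := (isClosed_CC _).completeSpace_coe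
  have hclosed : IsClosed (Set.range φ) := hiso.isClosedEmbedding.isClosed_range
  have hgen : ∀ z ∈ gens x s, z ∈ Set.range φ := by
    intro z hz
    rw [← hclosed.closure_eq, Metric.mem_closure_iff]
    intro ε hε
    obtain ⟨n, hn⟩ := exists_pow_lt_of_lt_one (show (0 : ℝ) < ε / 2 by linarith)
      (show (1 / 2 : ℝ) < 1 by norm_num)
    obtain ⟨c, hc, hcz⟩ := hF2 n z hz
    have hcC := hFc _ c hc
    refine ⟨φ ⟨c, hcC⟩, ⟨_, rfl⟩, ?_⟩
    have ht : Tendsto (fun m => α (n + 1 + m) c) atTop (𝓝 (φ ⟨c, hcC⟩)) := by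
      have := (hL ⟨c, hcC⟩).comp (tendsto_add_atTop_nat (n + 1))
      refine this.congr fun m => ?_
      show α (m + (n + 1)) c = α (n + 1 + m) c
      rw [add_comm]
    have hd := dist_le_of_le_geometric_of_tendsto₀ (1 / 2) ((1 / 2) ^ (n + 1)) (by norm_num)
      (f := fun m => α (n + 1 + m) c) (a := φ ⟨c, hcC⟩) (fun m => by
        rw [dist_comm, dist_eq_norm, ← pow_add]
        exact (hF1 (n + 1 + m) c (hFmono (Nat.le_add_right _ _) hc)).le) ht
    simp only [add_zero] at hd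
    have hd' : dist (α (n + 1) c) (φ ⟨c, hcC⟩) ≤ (1 / 2) ^ n := by
      refine hd.trans (le_of_eq ?_)
      rw [pow_succ]
      ring
    rw [dist_comm]
    calc dist (φ ⟨c, hcC⟩) z ≤ dist (φ ⟨c, hcC⟩) (α (n + 1) c) + dist (α (n + 1) c) z :=
          dist_triangle _ _ _
      _ < ε := by
          rw [dist_comm (φ ⟨c, hcC⟩), dist_eq_norm (α (n + 1) c) z]
          linarith
  have hsurj : Function.Surjective φ := by
    intro z
    have hz : z ∈ CC (insert s (Set.range x)) := by rw [hcc]; exact StarSubalgebra.mem_top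
    revert z
    have : ∀ z ∈ CC (insert s (Set.range x)), z ∈ Set.range φ := by
      apply CC_ind
      · rintro z (rfl | ⟨i, rfl⟩)
        · exact hgen _ (mem_gens.2 (Or.inl rfl))
        · exact hgen _ (mem_gens.2 (Or.inr ⟨i, rfl⟩))
      · intro r
        exact ⟨algebraMap ℂ _ r, AlgHomClass.commutes φ r⟩
      · rintro _ _ ⟨a, rfl⟩ ⟨b, rfl⟩
        exact ⟨a + b, map_add _ _ _⟩
      · rintro _ _ ⟨a, rfl⟩ ⟨b, rfl⟩
        exact ⟨a * b, map_mul _ _ _⟩
      · rintro _ ⟨a, rfl⟩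
        exact ⟨star a, map_star _ _⟩
      · intro a ha
        rw [← hclosed.closure_eq, Metric.mem_closure_iff]
        intro ε hε
        obtain ⟨y, hy, hd⟩ := ha ε hε
        exact ⟨y, hy, by rwa [dist_eq_norm]⟩
    intro z hz
    exact this z hz
  exact ⟨StarAlgEquiv.ofBijective φ ⟨hiso.injective, hsurj⟩⟩

end Pool.Agent.H875R.FP
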