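import Mathlib
import Pool.Agent.H875R.FP.Stubs2

/-! Final assembly. -/

namespace Pool.Agent.H875R.FP

open Pool.Agent.H667R3.FF (ev splits)

theorem t_UNIQ (h1 : S_UMOM) (h2 : S_UISO) : S_UNIQ := by
  intro n A B _ _ a b
  have hA : CC (Set.range fun x : Fin n × C(unitInterval, ℂ) => a.ι x.1 x.2) = ⊤ := by
    unfold CC
    rw [← a.gen]
    congr 2
    ext z
    simp only [Set.mem_range, Prod.exists, Set.mem_iUnion]
  have hB : CC (Set.range fun x : Fin n × C(unitInterval, ℂ) => b.ι x.1 x.2) = ⊤ := by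
    unfold CC
    rw [← b.gen]
    congr 2
    ext z
    simp only [Set.mem_range, Prod.exists, Set.mem_iUnion]
  refine h2 (Fin n × C(unitInterval, ℂ)) A B (fun x => (x.1, star x.2))
    (fun x => a.ι x.1 x.2) (fun x => b.ι x.1 x.2) a.τ b.τ ?_ ?_ a.pos b.pos ?_ hA hB a.faith b.faith
  · intro j; exact map_star (a.ι j.1) j.2
  · intro j; exact map_star (b.ι j.1) j.2
  · intro l
    exact h1 n A B a b l

theorem range_eq_image {n : ℕ} {H : Type} [NormedAddCommGroup H] [InnerProductSpace ℂ H]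
    [CompleteSpace H] (F : Fock (Fin (n + 1)) H) :
    (Set.range fun i : Fin n => F.S i.castSucc) = F.S '' {i | i ≠ Fin.last n} := by
  ext z
  constructor
  · rintro ⟨i, rfl⟩
    exact ⟨i.castSucc, (Fin.castSucc_lt_last i).ne, rfl⟩
  · rintro ⟨i, hi, rfl⟩
    obtain ⟨j, rfl⟩ := Fin.exists_castSucc_eq.2 hi
    exact ⟨j, rfl⟩

theorem CC_eq_DD {n : ℕ} {H : Type} [NormedAddCommGroup H] [InnerProductSpace ℂ H]
    [CompleteSpace H] (F : Fock (Fin (n + 1)) H) :
    CC (Set.range fun i : Fin n => F.S i.castSucc) = F.DD (Fin.last n) := by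
  unfold Fock.DD
  rw [range_eq_image]

theorem subset_CC {A : Type} [CStarAlgebra A] (s : Set A) : s ⊆ CC s := fun _ hx =>
  StarSubalgebra.le_topologicalClosure _ (StarAlgebra.subset_adjoin ℂ s hx)

/-- elements of a closed star subalgebra generated by `s`, seen inside a larger one -/
theorem map_CC {A B : Type} [CStarAlgebra A] [CStarAlgebra B] (φ : B →⋆ₐ[ℂ] A)
    (hφ : Topology.IsClosedEmbedding φ) (s : Set B) :
    (CC s).map φ = CC (φ '' s) := by
  unfold CC
  rw [← StarAlgHom.map_adjoin, StarSubalgebra.topologicalClosure_map _ _ hφ.isClosedMap hφ.continuous]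

theorem subtype_emb {A : Type} [CStarAlgebra A] (s : Set A) :
    Topology.IsClosedEmbedding ((CC s).subtype : CC s →⋆ₐ[ℂ] A) :=
  Topology.IsClosedEmbedding.subtypeVal (inferInstance : IsClosed (CC s : Set A))

theorem equiv_CC {A : Type} [CStarAlgebra A] (s : Set A) (t : Set (CC s)) :
    Nonempty (CC t ≃⋆ₐ[ℂ] CC ((CC s).subtype '' t)) := by
  rw [← map_CC (CC s).subtype (subtype_emb s) t]
  let φ : CC t →⋆ₐ[ℂ] A := ((CC s).subtype).comp (CC t).subtype
  have hinj : Function.Injective φ := fun x y h => Subtype.ext (Subtype.ext h)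
  have hr : φ.range = (CC t).map (CC s).subtype := by
    ext z
    constructor
    · rintro ⟨x, rfl⟩
      exact StarSubalgebra.mem_map.2 ⟨x, x.2, rfl⟩
    · intro hz
      obtain ⟨x, hx, rfl⟩ := StarSubalgebra.mem_map.1 hz
      exact ⟨⟨x, hx⟩, rfl⟩
  rw [← hr]
  exact ⟨StarAlgEquiv.ofInjective φ hinj⟩

/-- `C*(S_0..S_{n-1})` is isomorphic to `C*(S_0..S_n)` -/
theorem step_core (hS : S_STAGE) (hL : S_LIM) {n : ℕ} (hn : 2 ≤ n) {H : Type}
    [NormedAddCommGroup H] [InnerProductSpace ℂ H] [CompleteSpace H] (F : Fock (Fin (n + 1)) H) :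
    Nonempty (CC (Set.range fun i : Fin n => F.S i.castSucc) ≃⋆ₐ[ℂ] CC (Set.range F.S)) := by
  let S' : Fin (n + 1) → CC (Set.range F.S) := fun i => ⟨F.S i, subset_CC _ ⟨i, rfl⟩⟩
  have himg1 : ((CC (Set.range F.S)).subtype : CC (Set.range F.S) →⋆ₐ[ℂ] _) ''
          (insert (S' (Fin.last n)) (Set.range fun i : Fin n => S' i.castSucc)) =
            Set.range F.S := by
    ext z
    constructor
    · rintro ⟨x, hx, rfl⟩
      rcases hx with rfl | ⟨i, rfl⟩
      · exact ⟨Fin.last n, rfl⟩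
      · exact ⟨i.castSucc, rfl⟩
    · rintro ⟨i, rfl⟩
      refine ⟨S' i, ?_, rfl⟩
      by_cases h : i = Fin.last n
      · left; rw [h]
      · right
        obtain ⟨j, rfl⟩ := Fin.exists_castSucc_eq.2 h
        exact ⟨j, rfl⟩
  have himg2 : ((CC (Set.range F.S)).subtype : CC (Set.range F.S) →⋆ₐ[ℂ] _) ''
      (Set.range fun i : Fin n => S' i.castSucc) = Set.range fun i : Fin n => F.S i.castSucc := by
    ext z
    constructor
    · rintro ⟨x, ⟨i, rfl⟩, rfl⟩; exact ⟨i, rfl⟩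
    · rintro ⟨i, rfl⟩; exact ⟨S' i.castSucc, ⟨i, rfl⟩, rfl⟩
  have m1 := map_CC (CC (Set.range F.S)).subtype (subtype_emb (Set.range F.S))
        (insert (S' (Fin.last n)) (Set.range fun i : Fin n => S' i.castSucc))
  have m2 := map_CC (CC (Set.range F.S)).subtype (subtype_emb (Set.range F.S))
        (Set.range fun i : Fin n => S' i.castSucc)
  rw [himg1] at m1
  rw [himg2] at m2
  have g1 : CC (insert (S' (Fin.last n)) (Set.range fun i : Fin n => S' i.castSucc)) = ⊤ := by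
    rw [eq_top_iff]
    rintro ⟨x, hx⟩ -
    have h2 : x ∈ (CC (insert (S' (Fin.last n))
        (Set.range fun i : Fin n => S' i.castSucc))).map (CC (Set.range F.S)).subtype := by
      rw [m1]; exact hx
    obtain ⟨y, hy, hyx⟩ := StarSubalgebra.mem_map.1 h2
    have h3 : y = ⟨x, hx⟩ := Subtype.ext hyx
    rw [← h3]; exact hy
  have e3 : Nonempty (CC (Set.range fun i : Fin n => S' i.castSucc) ≃⋆ₐ[ℂ]
      CC (Set.range F.S)) := by
    refine hL (CC (Set.range F.S)) n (fun i => S' i.castSucc) (S' (Fin.last n)) g1 ?_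
    intro ε hε
    obtain ⟨α, h1, d, hd, h2⟩ := hS n _ F hn ε hε
    refine ⟨α, fun i => h1 i _ rfl, d, ?_, h2⟩
    have h4 : (d : _ →L[ℂ] _) ∈ (CC (Set.range fun i : Fin n => S' i.castSucc)).map
        (CC (Set.range F.S)).subtype := by
      rw [m2, CC_eq_DD]; exact hd
    obtain ⟨y, hy, hyx⟩ := StarSubalgebra.mem_map.1 h4
    have h5 : y = d := Subtype.ext hyx
    rw [← h5]; exact hy
  have e4 := equiv_CC (Set.range F.S) (Set.range fun i : Fin n => S' i.castSucc)
  rw [himg2] at e4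
  obtain ⟨e3⟩ := e3
  obtain ⟨e4⟩ := e4
  exact ⟨e4.symm.trans e3⟩

theorem t_STEP (hU : S_UNIQ) (hR : S_RFPF) (hF : S_FOCK) (hS : S_STAGE) (hL : S_LIM) :
    S_STEP := by
  intro n hn A B _ _ a b
  obtain ⟨F⟩ := hF (Fin (n + 1))
  obtain ⟨rA⟩ := hR (Fin (n + 1)) _ F n Fin.castSucc (Fin.castSucc_injective n)
  obtain ⟨rB⟩ := hR (Fin (n + 1)) _ F (n + 1) id Function.injective_id
  obtain ⟨e1⟩ := hU n _ _ a rA
  obtain ⟨e2⟩ := hU (n + 1) _ _ rB b
  obtain ⟨e3⟩ := step_core hS hL hn F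
  exact ⟨(e1.trans e3).trans e2⟩

theorem t_MAIN (hU : S_UNIQ) (hR : S_RFPF) (hF : S_FOCK) (hS : S_STEP) : S_MAIN := by
  have hex : ∀ n : ℕ, ∃ (A : Type) (_ : CStarAlgebra A), Nonempty (RFP n A) := by
    intro n
    obtain ⟨F⟩ := hF (Fin n)
    obtain ⟨r⟩ := hR (Fin n) _ F n id Function.injective_id
    exact ⟨_, inferInstance, ⟨r⟩⟩
  have hle : ∀ m n : ℕ, 2 ≤ m → m ≤ n → ∀ (A B : Type) [CStarAlgebra A]
      [CStarAlgebra B], RFP m A → RFP n B → Nonempty (A ≃⋆ₐ[ℂ] B) := by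
    intro m n hm hmn
    induction n, hmn using Nat.le_induction with
    | base => intro A B _ _ a b; exact hU m A B a b
    | succ n hmn ih =>
      intro A B _ _ a b
      obtain ⟨C, hC, ⟨c⟩⟩ := hex n
      obtain ⟨f⟩ := ih A C a c
      obtain ⟨g⟩ := hS n (hm.trans hmn) C B c b
      exact ⟨f.trans g⟩
  refine ⟨fun m n hm hn A B _ _ a b => ?_, hex⟩
  rcases le_total m n with h | h
  · exact hle m n hm h A B a b
  · obtain ⟨f⟩ := hle n m hn h B A b a
    exact ⟨f.symm⟩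

end Pool.Agent.H875R.FP
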