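import Mathlib
import Pool.Agent.H875R.FP.Stubs2

/-! Norm estimate for the creation part. -/

namespace Pool.Agent.H875R.FP

open Pool.Agent.H581R.FF (n2)

namespace TNORM

variable {κ H : Type} [NormedAddCommGroup H] [InnerProductSpace ℂ H] [CompleteSpace H]

lemma gram {ι A : Type} [DecidableEq ι] [Ring A] [StarRing A] (s : Finset ι) (l : A)
    (x z : ι → A)
    (h : ∀ j ∈ s, ∀ j' ∈ s, star l * (star (x j) * x j') * l = if j = j' then 1 else 0) :
    star (∑ j ∈ s, x j * l * z j) * (∑ j ∈ s, x j * l * z j) = ∑ j ∈ s, star (z j) * z j := by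
  rw [star_sum, Finset.sum_mul_sum]
  apply Finset.sum_congr rfl
  intro j hj
  have h1 : ∀ j' ∈ s, star (x j * l * z j) * (x j' * l * z j') =
      if j = j' then star (z j) * z j' else 0 := by
    intro j' hj'
    have : star (x j * l * z j) * (x j' * l * z j') =
        star (z j) * (star l * (star (x j) * x j') * l) * z j' := by
      simp only [star_mul, mul_assoc]
    rw [this, h j hj j' hj']
    split_ifs <;> simp
  rw [Finset.sum_congr rfl h1, Finset.sum_ite_eq]
  simp [hj]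

lemma cont_Up (n : ℕ) : Continuous fun y : ℝ => Up y n := by
  induction n using Nat.strong_induction_on with
  | _ n ih =>
    match n with
    | 0 => simpa [Up] using continuous_const
    | 1 => simp only [Up]; exact continuous_id
    | n + 2 =>
      have h1 := ih (n + 1) (by omega)
      have h2 := ih n (by omega)
      simp only [Up]; exact (continuous_id.mul h1).sub h2

lemma cfc_Up (P : H →L[ℂ] H) (hP : IsSelfAdjoint P) (n : ℕ) :
    cfc (fun y : ℝ => Up y n) P = Up P n := by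
  induction n using Nat.strong_induction_on with
  | _ n ih =>
    match n with
    | 0 => simp only [Up]; exact cfc_const_one ℝ P
    | 1 => simp only [Up]; exact cfc_id' ℝ P
    | n + 2 =>
      have h1 := ih (n + 1) (by omega)
      have h2 := ih n (by omega)
      have c1 := (cont_Up (n + 1)).continuousOn (s := spectrum ℝ P)
      have c2 := (cont_Up n).continuousOn (s := spectrum ℝ P)
      simp only [Up]
      rw [cfc_sub (a := P) (fun y : ℝ => y * Up y (n + 1)) (fun y : ℝ => Up y n)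
        (continuousOn_id.mul c1) c2,
        cfc_mul (a := P) (fun y : ℝ => y) (fun y : ℝ => Up y (n + 1)) continuousOn_id c1, h1, h2,
        cfc_id' ℝ P]

lemma cq (N : ℕ) (c : ℕ → ℕ → ℝ) (k : ℕ) :
    Continuous fun y : ℝ => ∑ l ∈ Finset.range N, c k l * Up y l :=
  continuous_finsetSum _ fun l _ => continuous_const.mul (cont_Up l)

lemma cfc_q (P : H →L[ℂ] H) (hP : IsSelfAdjoint P) (N : ℕ) (c : ℕ → ℕ → ℝ) (k : ℕ) :
    cfc (fun y : ℝ => ∑ l ∈ Finset.range N, c k l * Up y l) P =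
      ∑ l ∈ Finset.range N, (c k l : ℂ) • Up P l := by
  have e : (fun y : ℝ => ∑ l ∈ Finset.range N, c k l * Up y l) =
      ∑ l ∈ Finset.range N, fun y : ℝ => c k l * Up y l := by
    ext y; simp
  rw [e, cfc_sum (fun l => fun y : ℝ => c k l * Up y l) P (Finset.range N)
    (fun l _ => (continuous_const.mul (cont_Up l)).continuousOn)]
  apply Finset.sum_congr rfl
  intro l _
  rw [cfc_const_mul (c k l) (fun y : ℝ => Up y l) P (cont_Up l).continuousOn, cfc_Up P hP l]
  exact (Complex.coe_smul (c k l) (Up P l)).symm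

lemma qsum (P : H →L[ℂ] H) (hP : IsSelfAdjoint P) (hn : ‖P‖ ≤ 2) (N : ℕ) (c : ℕ → ℕ → ℝ) (B : ℝ)
    (hB : ∀ y : ℝ, |y| ≤ 2 →
      ∑ k ∈ Finset.range N, (∑ l ∈ Finset.range N, c k l * Up y l) ^ 2 ≤ B ^ 2) :
    ‖∑ k ∈ Finset.range N, (∑ l ∈ Finset.range N, (c k l : ℂ) • Up P l) *
      (∑ l ∈ Finset.range N, (c k l : ℂ) • Up P l)‖ ≤ B ^ 2 := by
  rcases subsingleton_or_nontrivial H with hH | hH
  · have : (∑ k ∈ Finset.range N, (∑ l ∈ Finset.range N, (c k l : ℂ) • Up P l) *
        (∑ l ∈ Finset.range N, (c k l : ℂ) • Up P l)) = 0 := by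
      ext ξ; exact Subsingleton.elim _ _
    rw [this, norm_zero]; exact sq_nonneg B
  have e : ∑ k ∈ Finset.range N, (∑ l ∈ Finset.range N, (c k l : ℂ) • Up P l) *
      (∑ l ∈ Finset.range N, (c k l : ℂ) • Up P l) =
      cfc (fun y : ℝ => ∑ k ∈ Finset.range N, (∑ l ∈ Finset.range N, c k l * Up y l) ^ 2) P := by
    have e1 : (fun y : ℝ => ∑ k ∈ Finset.range N, (∑ l ∈ Finset.range N, c k l * Up y l) ^ 2) =
        ∑ k ∈ Finset.range N, fun y : ℝ =>
          (∑ l ∈ Finset.range N, c k l * Up y l) * (∑ l ∈ Finset.range N, c k l * Up y l) := by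
      ext y; simp [pow_two]
    rw [e1, cfc_sum (fun k => fun y : ℝ => (∑ l ∈ Finset.range N, c k l * Up y l) *
        (∑ l ∈ Finset.range N, c k l * Up y l)) P (Finset.range N)
      (fun k _ => ((cq N c k).mul (cq N c k)).continuousOn)]
    apply Finset.sum_congr rfl
    intro k _
    rw [cfc_mul (a := P) (fun y : ℝ => ∑ l ∈ Finset.range N, c k l * Up y l)
      (fun y : ℝ => ∑ l ∈ Finset.range N, c k l * Up y l) (cq N c k).continuousOn
      (cq N c k).continuousOn, cfc_q P hP N c k]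
  rw [e]
  refine norm_cfc_le (sq_nonneg B) fun y hy => ?_
  have hy2 : |y| ≤ 2 := by
    have := spectrum.norm_le_norm_of_mem hy
    rw [Real.norm_eq_abs] at this
    exact this.trans hn
  rw [Real.norm_eq_abs, abs_of_nonneg (Finset.sum_nonneg fun k _ => sq_nonneg _)]
  exact hB y hy2

lemma CC_mono {A : Type} [CStarAlgebra A] {s t : Set A} (h : s ⊆ t) : CC s ≤ CC t :=
  StarSubalgebra.topologicalClosure_mono (StarAlgebra.adjoin_mono h)

lemma CC_le_DD (F : Fock κ H) {i σ : κ} (h : i ≠ σ) : CC {F.S i} ≤ F.DD σ := by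
  apply CC_mono
  rintro _ rfl
  exact ⟨i, h, rfl⟩

variable {F : Fock κ H} {i₀ i₁ σ : κ} {a b : unitary (H →L[ℂ] H)}

lemma ro_mem (hs : Setg F i₀ i₁ σ a b) (g : G2) : ro a b g ∈ F.DD σ := by
  have ha : (a : H →L[ℂ] H) ∈ F.DD σ := CC_le_DD F hs.h0 hs.ma
  have hb : (b : H →L[ℂ] H) ∈ F.DD σ := CC_le_DD F hs.h1 hs.mb
  have hof : ∀ c : Bool, ro a b (FreeGroup.of c) ∈ F.DD σ := by
    intro c
    simp only [ro, rho, FreeGroup.lift_apply_of]
    cases c
    · simpa using ha
    · simpa using hb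
  induction g using FreeGroup.induction_on with
  | C1 => simp only [ro, map_one]; exact one_mem _
  | of c => exact hof c
  | inv_of c _ =>
    have : ro a b (FreeGroup.of c)⁻¹ = star (ro a b (FreeGroup.of c)) := by
      simp only [ro, map_inv]
      rfl
    rw [this]
    exact star_mem (hof c)
  | mul x y hx hy =>
    have : ro a b (x * y) = ro a b x * ro a b y := by
      simp only [ro, map_mul]
      rfl
    rw [this]
    exact mul_mem hx hy

lemma S_mem_CC (F : Fock κ H) (i : κ) : F.S i ∈ CC {F.S i} :=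
  StarSubalgebra.le_topologicalClosure _ (StarAlgebra.subset_adjoin ℂ _ rfl)

lemma PP_mem (hs : Setg F i₀ i₁ σ a b) (m : ℕ) : PP F i₀ a b m ∈ F.DD σ :=
  mul_mem (mul_mem (star_mem (ro_mem hs _)) (CC_le_DD F hs.h0 (S_mem_CC F i₀))) (ro_mem hs _)

lemma Up_mem (D : StarSubalgebra ℂ (H →L[ℂ] H)) {P : H →L[ℂ] H} (hP : P ∈ D) (n : ℕ) :
    Up P n ∈ D := by
  induction n using Nat.strong_induction_on with
  | _ n ih =>
    match n with
    | 0 => simp only [Up]; exact one_mem _
    | 1 => simpa only [Up] using hP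
    | n + 2 =>
      simp only [Up]
      exact sub_mem (mul_mem hP (ih (n + 1) (by omega))) (ih n (by omega))

lemma star_Up {P : H →L[ℂ] H} (hP : star P = P) (n : ℕ) : star (Up P n) = Up P n ∧
    P * Up P n = Up P n * P := by
  induction n using Nat.strong_induction_on with
  | _ n ih =>
    match n with
    | 0 => simp [Up]
    | 1 => simp [Up, hP]
    | n + 2 =>
      obtain ⟨h1, h1'⟩ := ih (n + 1) (by omega)
      obtain ⟨h2, h2'⟩ := ih n (by omega)
      simp only [Up]
      refine ⟨?_, ?_⟩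
      · rw [star_sub, star_mul, h1, h2, hP, h1']
      · rw [mul_sub, sub_mul, h2', h1', ← mul_assoc, h1']

lemma star_PP (hS : star (F.S i₀) = F.S i₀) (m : ℕ) : star (PP F i₀ a b m) = PP F i₀ a b m := by
  simp only [PP, star_mul, star_star, hS, mul_assoc]

lemma norm_PP (hS : ‖F.S i₀‖ ≤ 2) (m : ℕ) : ‖PP F i₀ a b m‖ ≤ 2 := by
  have : ‖PP F i₀ a b m‖ = ‖F.S i₀‖ := by
    simp only [PP, ro]
    rw [CStarRing.norm_mul_coe_unitary, ← Unitary.coe_star, CStarRing.norm_coe_unitary_mul]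
  rw [this]; exact hS

end TNORM

open TNORM

theorem t_NORM' (h1 : S_ORTH) (h2 : S_CRE) (hb : S_BAS) : S_NORM := by
  intro κ H _ _ _ F i₀ i₁ σ a b hs m N c t B ht hB0 hB
  obtain ⟨-, -, -, -, -, hSs, hSn, -⟩ := hb κ H F
  set P := PP F i₀ a b m with hPdef
  have hPs : star P = P := star_PP (hSs i₀) m
  have hPn : ‖P‖ ≤ 2 := norm_PP (hSn i₀) m
  have hPsa : IsSelfAdjoint P := hPs
  set ℓ := F.cr σ with hℓ
  let q : ℕ → (H →L[ℂ] H) := fun k => ∑ l ∈ Finset.range N, (c k l : ℂ) • Up P l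
  have hq : ∀ k, star (q k) = q k := by
    intro k
    simp only [q, star_sum, star_smul, (star_Up hPs _).1]
    apply Finset.sum_congr rfl
    intro l _
    simp
  let x : G2 × ℕ → (H →L[ℂ] H) := fun j => ro a b j.1 * Up P j.2
  let z : G2 × ℕ → (H →L[ℂ] H) := fun j => (t j.1 : ℂ) • (q j.2 * star (ro a b j.1))
  let s : Finset (G2 × ℕ) := t.support ×ˢ Finset.range N
  have hY : cj a b t (bim P ℓ N c) = ∑ j ∈ s, x j * ℓ * z j := by
    simp only [s, Finset.sum_product, cj, Finsupp.sum, bim]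
    apply Finset.sum_congr rfl
    intro g _
    rw [Finset.mul_sum, Finset.sum_mul, Finset.smul_sum]
    apply Finset.sum_congr rfl
    intro k _
    simp only [x, z, q, Finset.sum_mul, Finset.mul_sum, Finset.smul_sum, smul_mul_assoc,
      mul_smul_comm, mul_assoc]
  have hsup : ∀ j ∈ s, j.1 ∈ Kev := by
    intro j hj
    exact ht _ (Finset.mem_product.mp hj).1
  have hro : ∀ g, star (ro a b g) * ro a b g = 1 := fun g =>
    Unitary.star_mul_self_of_mem (rho a b g).2
  have hG : ∀ j ∈ s, ∀ j' ∈ s, star ℓ * (star (x j) * x j') * ℓ = if j = j' then 1 else 0 := by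
    intro j hj j' hj'
    have hm : star (x j) * x j' ∈ F.DD σ := by
      have hx : ∀ j, x j ∈ F.DD σ := fun j =>
        mul_mem (ro_mem hs _) (Up_mem _ (PP_mem hs m) _)
      exact mul_mem (star_mem (hx j)) (hx j')
    rw [h2 κ H F σ _ hm]
    simp only [x]
    rw [h1 κ H F i₀ i₁ σ a b hs m j.1 (hsup j hj) j'.1 (hsup j' hj') j.2 j'.2]
    by_cases hjj : j = j'
    · subst hjj; simp
    · have : ¬ (j.1 = j'.1 ∧ j.2 = j'.2) := fun h => hjj (Prod.ext h.1 h.2)
      simp [this, hjj]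
  have key : star (cj a b t (bim P ℓ N c)) * cj a b t (bim P ℓ N c) =
      ∑ g ∈ t.support, ((t g ^ 2 : ℝ) : ℂ) • (ro a b g *
        (∑ k ∈ Finset.range N, q k * q k) * star (ro a b g)) := by
    rw [hY, gram s ℓ x z hG]
    simp only [s, Finset.sum_product]
    apply Finset.sum_congr rfl
    intro g _
    rw [Finset.mul_sum, Finset.sum_mul, Finset.smul_sum]
    apply Finset.sum_congr rfl
    intro k _
    simp only [z, star_smul, star_mul, star_star, hq, smul_mul_assoc, mul_smul_comm, smul_smul,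
      mul_assoc]
    congr 1
    simp [pow_two]
  have hnorm : ‖cj a b t (bim P ℓ N c)‖ * ‖cj a b t (bim P ℓ N c)‖ ≤
      (∑ g ∈ t.support, t g ^ 2) * B ^ 2 := by
    rw [← CStarRing.norm_star_mul_self, key, Finset.sum_mul]
    refine (norm_sum_le _ _).trans (Finset.sum_le_sum fun g _ => ?_)
    rw [norm_smul, Complex.norm_real, Real.norm_eq_abs, abs_of_nonneg (sq_nonneg _)]
    apply mul_le_mul_of_nonneg_left _ (sq_nonneg _)
    have : ‖ro a b g * (∑ k ∈ Finset.range N, q k * q k) * star (ro a b g)‖ =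
        ‖∑ k ∈ Finset.range N, q k * q k‖ := by
      simp only [ro]
      rw [← Unitary.coe_star, CStarRing.norm_mul_coe_unitary, CStarRing.norm_coe_unitary_mul]
    rw [this]
    exact qsum P hPsa hPn N c B hB
  have hn2 : n2 t ^ 2 = ∑ g ∈ t.support, t g ^ 2 := by
    rw [n2, Real.sq_sqrt (Finset.sum_nonneg fun g _ => sq_nonneg _)]
  have hn0 : 0 ≤ n2 t := Real.sqrt_nonneg _
  have : ‖cj a b t (bim P ℓ N c)‖ ^ 2 ≤ (n2 t * B) ^ 2 := by
    rw [mul_pow, hn2, pow_two]; exact hnorm
  exact (pow_le_pow_iff_left₀ (norm_nonneg _) (mul_nonneg hn0 hB0) (by norm_num)).mp this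

theorem t_NORM (h1 : S_ORTH) (h2 : S_CRE) (_ : S_SPAN) (hb : S_BAS) : S_NORM :=
  t_NORM' h1 h2 hb

end Pool.Agent.H875R.FP
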