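import Pool.Agent.H875R.FP.Stubs2

/-! Task NORMS. -/

namespace Pool.Agent.H875R.FP

open Pool.Agent.H667R3.FF (ev splits)
open Pool.Agent.H581R.FF (n2 act)
open scoped ComplexConjugate

theorem NORMS_comm {R : Type} [Ring R] (x : R) : ∀ k, Commute x (Up x k) ∧ Commute x (Up x (k + 1))
  | 0 => ⟨Commute.one_right x, Commute.refl x⟩
  | k + 1 => by
    obtain ⟨h1, h2⟩ := NORMS_comm x k
    refine ⟨h2, ?_⟩
    show Commute x (x * Up x (k + 1) - Up x k)
    exact ((Commute.refl x).mul_right h2).sub_right h1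

theorem NORMS_star {R : Type} [Ring R] [StarRing R] (x : R) (hx : star x = x) :
    ∀ k, star (Up x k) = Up x k ∧ star (Up x (k + 1)) = Up x (k + 1)
  | 0 => ⟨star_one R, hx⟩
  | k + 1 => by
    obtain ⟨h1, h2⟩ := NORMS_star x hx k
    refine ⟨h2, ?_⟩
    show star (x * Up x (k + 1) - Up x k) = x * Up x (k + 1) - Up x k
    rw [star_sub, star_mul, h1, h2, hx, (NORMS_comm x k).2.eq]

section

variable {κ H : Type} [NormedAddCommGroup H] [InnerProductSpace ℂ H] [CompleteSpace H]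

theorem NORMS_bim_add (P x y : H →L[ℂ] H) (N : ℕ) (c : ℕ → ℕ → ℝ) :
    bim P (x + y) N c = bim P x N c + bim P y N c := by
  unfold bim
  rw [← Finset.sum_add_distrib]
  refine Finset.sum_congr rfl fun k _ => ?_
  rw [← Finset.sum_add_distrib]
  refine Finset.sum_congr rfl fun l _ => ?_
  rw [mul_add, add_mul, smul_add]

theorem NORMS_bim_star (P x : H →L[ℂ] H) (hP : star P = P) (N : ℕ) (c : ℕ → ℕ → ℝ) (s : ℝ)
    (hc : ∀ k l, c l k = s * c k l) :
    star (bim P x N c) = (s : ℂ) • bim P (star x) N c := by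
  unfold bim
  rw [star_sum, Finset.smul_sum]
  have h1 : ∀ k ∈ Finset.range N, star (∑ l ∈ Finset.range N, (c k l : ℂ) •
      (Up P k * x * Up P l)) = ∑ l ∈ Finset.range N, (c k l : ℂ) • (Up P l * star x * Up P k) := by
    intro k _
    rw [star_sum]
    refine Finset.sum_congr rfl fun l _ => ?_
    rw [star_smul, star_mul, star_mul, (NORMS_star P hP k).1, (NORMS_star P hP l).1, mul_assoc]
    congr 1
    exact Complex.conj_ofReal _
  rw [Finset.sum_congr rfl h1, Finset.sum_comm]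
  refine Finset.sum_congr rfl fun k _ => ?_
  rw [Finset.smul_sum]
  refine Finset.sum_congr rfl fun l _ => ?_
  rw [smul_smul, hc k l, Complex.ofReal_mul]

theorem NORMS_cj_add (a b : unitary (H →L[ℂ] H)) (t : G2 →₀ ℝ) (x y : H →L[ℂ] H) :
    cj a b t (x + y) = cj a b t x + cj a b t y := by
  unfold cj Finsupp.sum
  rw [← Finset.sum_add_distrib]
  refine Finset.sum_congr rfl fun g _ => ?_
  beta_reduce
  rw [mul_add, add_mul, smul_add]

theorem NORMS_cj_smul (a b : unitary (H →L[ℂ] H)) (t : G2 →₀ ℝ) (z : ℂ) (x : H →L[ℂ] H) :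
    cj a b t (z • x) = z • cj a b t x := by
  unfold cj Finsupp.sum
  rw [Finset.smul_sum]
  refine Finset.sum_congr rfl fun g _ => ?_
  beta_reduce
  rw [mul_smul_comm, smul_mul_assoc, smul_comm]

theorem NORMS_cj_star (a b : unitary (H →L[ℂ] H)) (t : G2 →₀ ℝ) (x : H →L[ℂ] H) :
    star (cj a b t x) = cj a b t (star x) := by
  unfold cj Finsupp.sum
  rw [star_sum]
  refine Finset.sum_congr rfl fun g _ => ?_
  beta_reduce
  rw [star_smul, star_mul, star_mul, star_star, mul_assoc]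
  congr 1
  exact Complex.conj_ofReal _

end

theorem t_NORMS (h : S_NORM) (hb : S_BAS) : S_NORMS := by
  intro κ H _ _ _ F i₀ i₁ σ a b hS m N c s t B hs hc ht hB hy
  have h1 := h κ H F i₀ i₁ σ a b hS m N c t B ht hB hy
  have hSs : ∀ i, star (F.S i) = F.S i := (hb κ H F).2.2.2.2.2.1
  have hP : star (PP F i₀ a b m) = PP F i₀ a b m := by
    unfold PP
    rw [star_mul, star_mul, star_star, hSs, mul_assoc]
  have e1 : star (bim (PP F i₀ a b m) (F.cr σ) N c) =
      (s : ℂ) • bim (PP F i₀ a b m) (star (F.cr σ)) N c :=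
    NORMS_bim_star _ _ hP N c s hc
  have hss : (s : ℂ) * s = 1 := by
    rcases hs with rfl | rfl <;> norm_num
  have e2 : bim (PP F i₀ a b m) (star (F.cr σ)) N c =
      (s : ℂ) • star (bim (PP F i₀ a b m) (F.cr σ) N c) := by
    rw [e1, smul_smul, hss, one_smul]
  have e3 : bim (PP F i₀ a b m) (F.S σ) N c = bim (PP F i₀ a b m) (F.cr σ) N c +
      (s : ℂ) • star (bim (PP F i₀ a b m) (F.cr σ) N c) := by
    unfold Fock.S
    rw [NORMS_bim_add, ← e2]
  rw [e3, NORMS_cj_add, NORMS_cj_smul, ← NORMS_cj_star]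
  refine (norm_add_le _ _).trans ?_
  rw [norm_smul, norm_star]
  have hn : ‖(s : ℂ)‖ = 1 := by
    rcases hs with rfl | rfl <;> simp
  rw [hn, one_mul]
  linarith

end Pool.Agent.H875R.FP
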