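import Pool.Agent.H875R.FP.Stubs2

/-! Free powers, task ORTH: orthonormality of the `g U_k(P)`. -/

namespace Pool.Agent.H875R.FP

namespace ORTHaux

variable {κ H : Type} [NormedAddCommGroup H] [InnerProductSpace ℂ H] [CompleteSpace H]

theorem subset_CC {A : Type} [CStarAlgebra A] (s : Set A) : s ⊆ (CC s : Set A) := fun _ hx =>
  StarSubalgebra.le_topologicalClosure _ (StarAlgebra.subset_adjoin ℂ s hx)

theorem CC_mono {A : Type} [CStarAlgebra A] {s t : Set A} (h : s ⊆ t) : CC s ≤ CC t := by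
  unfold CC
  exact StarSubalgebra.topologicalClosure_mono (StarAlgebra.adjoin_mono h)

theorem Up_mem {A : Type} [CStarAlgebra A] (B : StarSubalgebra ℂ A) {x : A} (hx : x ∈ B) :
    ∀ k, Up x k ∈ B ∧ Up x (k + 1) ∈ B := by
  intro k
  induction k with
  | zero => exact ⟨B.one_mem, hx⟩
  | succ k ih => exact ⟨ih.2, sub_mem (mul_mem hx ih.2) ih.1⟩

theorem Up_conj {A : Type} [Ring A] [StarRing A] {x V : A} (hV : V * star V = 1)
    (hV' : star V * V = 1) :
    ∀ k, Up (star V * x * V) k = star V * Up x k * V ∧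
      Up (star V * x * V) (k + 1) = star V * Up x (k + 1) * V := by
  intro k
  induction k with
  | zero =>
    refine ⟨?_, rfl⟩
    show (1 : A) = star V * 1 * V
    rw [mul_one, hV']
  | succ k ih =>
    refine ⟨ih.2, ?_⟩
    show (star V * x * V) * Up (star V * x * V) (k + 1) - Up (star V * x * V) k =
      star V * (x * Up x (k + 1) - Up x k) * V
    rw [ih.1, ih.2]
    have : star V * x * V * (star V * Up x (k + 1) * V) =
        star V * x * (V * star V) * Up x (k + 1) * V := by
      simp only [mul_assoc]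
    rw [this, hV, mul_one]
    simp only [mul_sub, sub_mul, mul_assoc]

theorem ro_mem (B : StarSubalgebra ℂ (H →L[ℂ] H)) {a b : unitary (H →L[ℂ] H)}
    (ha : (a : H →L[ℂ] H) ∈ B) (hb : (b : H →L[ℂ] H) ∈ B) (g : G2) : ro a b g ∈ B := by
  unfold ro rho
  induction g using FreeGroup.induction_on with
  | C1 => rw [map_one]; exact B.one_mem
  | of c =>
    rw [FreeGroup.lift_apply_of]
    cases c
    · exact ha
    · exact hb
  | inv_of c ih =>
    rw [map_inv]
    exact star_mem ih
  | mul g h hg hh =>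
    rw [map_mul]
    exact mul_mem hg hh

end ORTHaux

open ORTHaux in
theorem t_ORTH (h1 : S_STG) (h3 : S_VFIRST) (h4 : S_ST) (h5 : S_CHEB) (h6 : S_TR)
    (_hb : S_BAS) : S_ORTH := by
  intro κ H _ _ _ F i₀ i₁ σ a b hset m g hg g' hg' k k'
  classical
  obtain ⟨c1, c2, c3⟩ := h5 κ H F i₀
  set V : H →L[ℂ] H := ro a b (vv m) with hV
  have hVV : V * star V = 1 := Unitary.coe_mul_star_self _
  have hVV' : star V * V = 1 := Unitary.coe_star_mul_self _
  have hS0 : F.S i₀ ∈ F.AA := subset_CC _ ⟨i₀, rfl⟩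
  have hsub : ∀ i, CC {F.S i} ≤ F.AA := fun i => CC_mono (by
    rintro _ rfl
    exact ⟨i, rfl⟩)
  have haA : (a : H →L[ℂ] H) ∈ F.AA := hsub i₀ hset.ma
  have hbA : (b : H →L[ℂ] H) ∈ F.AA := hsub i₁ hset.mb
  have hro : ∀ g, ro a b g ∈ F.AA := ro_mem F.AA haA hbA
  have hUp : ∀ k, Up (F.S i₀) k ∈ F.AA := fun k => (Up_mem F.AA hS0 k).1
  set γ : G2 := vv m * (g⁻¹ * g') * (vv m)⁻¹ with hγ
  have hPP : ∀ k, Up (PP F i₀ a b m) k = star V * Up (F.S i₀) k * V := fun k =>
    (Up_conj (x := F.S i₀) hVV hVV' k).1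
  have hroinv : ∀ g : G2, star (ro a b g) = ro a b g⁻¹ := by
    intro g
    unfold ro
    rw [map_inv]
    rfl
  have hromul : ∀ g h : G2, ro a b (g * h) = ro a b g * ro a b h := by
    intro g h
    unfold ro
    rw [map_mul]
    rfl
  have hroone : ro a b (1 : G2) = 1 := by
    unfold ro
    rw [map_one]
    rfl
  have hX : star (ro a b g * Up (PP F i₀ a b m) k) * (ro a b g' * Up (PP F i₀ a b m) k') =
      star V * (Up (F.S i₀) k * ro a b γ * Up (F.S i₀) k' * V) := by
    rw [hPP, hPP, star_mul, star_mul, star_mul, star_star, c3, hroinv g, hγ, hromul, hromul, hromul,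
      ← hroinv (vv m), ← hV]
    simp only [mul_assoc]
  have htr : F.tau (star (ro a b g * Up (PP F i₀ a b m) k) * (ro a b g' * Up (PP F i₀ a b m) k')) =
      F.tau (Up (F.S i₀) k * ro a b γ * Up (F.S i₀) k') := by
    rw [hX, h6 κ H F _ (star_mem (hro (vv m))) _
      (mul_mem (mul_mem (mul_mem (hUp k) (hro γ)) (hUp k')) (hro (vv m)))]
    rw [mul_assoc, hVV, mul_one]
  rw [htr]
  by_cases hgg : g = g'
  · subst hgg
    have hγ1 : γ = 1 := by rw [hγ]; group
    rw [hγ1, hroone, mul_one, c2]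
    by_cases hk : k = k'
    · rw [if_pos hk, if_pos ⟨rfl, hk⟩]
    · rw [if_neg hk, if_neg fun h => hk h.2]
  · rw [if_neg fun h => hgg h.1]
    have hst : st γ = some true := (h3 m).2 g hg g' hg' hgg
    have hst' : st γ⁻¹ = some true := by
      have e : γ⁻¹ = vv m * (g'⁻¹ * g) * (vv m)⁻¹ := by rw [hγ]; group
      rw [e]
      exact (h3 m).2 g' hg' g hg (Ne.symm hgg)
    set ξ : H := Up (F.S i₀) k' (F.e []) with hξ
    have hξe : ξ = F.e (List.replicate k' i₀ ++ []) := c1 k' [] (by simp)
    have hNot : F.NotSt (if true then i₁ else i₀) ξ := by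
      intro w
      rw [if_pos rfl, hξe]
      have horth := F.e.orthonormal
      apply horth.2
      intro he
      cases k' with
      | zero => simp at he
      | succ n =>
        rw [List.replicate_succ, List.cons_append, List.cons.injEq] at he
        exact hset.h01 he.1.symm
    have hSt := (h1 κ H F i₀ i₁ σ a b hset γ true true hst hst' ξ hNot).1
    rw [if_pos rfl] at hSt
    show inner ℂ F.Om ((Up (F.S i₀) k * ro a b γ * Up (F.S i₀) k') F.Om) = (0 : ℂ)
    have e1 : (Up (F.S i₀) k * ro a b γ * Up (F.S i₀) k') F.Om =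
        Up (F.S i₀) k (ro a b γ ξ) := rfl
    rw [e1]
    rcases Nat.eq_zero_or_pos k with hk | hk
    · subst hk
      exact hSt [] (by simp)
    · have hNot2 : F.NotSt i₀ (ro a b γ ξ) := by
        intro w
        apply hSt
        intro w' he
        rw [List.cons.injEq] at he
        exact hset.h01 he.1
      have htau : F.tau (Up (F.S i₀) k) = 0 := by
        have := c2 k 0
        rw [if_neg (by omega)] at this
        have e2 : Up (F.S i₀) k * Up (F.S i₀) 0 = Up (F.S i₀) k := mul_one _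
        rw [e2] at this
        exact this
      have hmem : Up (F.S i₀) k ∈ CC {F.S i₀} :=
        (Up_mem (CC {F.S i₀}) (subset_CC _ rfl) k).1
      exact h4 κ H F i₀ _ hmem htau _ hNot2 [] (by simp)

end Pool.Agent.H875R.FP
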