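import Pool.Agent.H875R.FP.Stubs2

/-! Free powers, task R: right creation operators. -/

namespace Pool.Agent.H875R.FP

namespace Raux

variable {κ H : Type} [NormedAddCommGroup H] [InnerProductSpace ℂ H] [CompleteSpace H]

theorem ext_vec (F : Fock κ H) {x y : H} (h : ∀ w, inner ℂ (F.e w) x = (inner ℂ (F.e w) y : ℂ)) :
    x = y := by
  apply F.e.repr.injective
  apply lp.ext
  funext w
  rw [F.e.repr_apply_apply, F.e.repr_apply_apply]
  exact h w

theorem ext_op (F : Fock κ H) {x y : H →L[ℂ] H} (h : ∀ w, x (F.e w) = y (F.e w)) : x = y := by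
  have hd : Dense (Submodule.span ℂ (Set.range F.e) : Set H) := by
    have := F.e.dense_span
    rw [← Submodule.dense_iff_topologicalClosure_eq_top] at this
    exact this
  refine ContinuousLinearMap.ext_on hd ?_
  rintro _ ⟨w, rfl⟩
  exact h w

theorem inner_e (F : Fock κ H) (u w : List κ) [Decidable (u = w)] :
    (inner ℂ (F.e u) (F.e w) : ℂ) = if u = w then 1 else 0 := by
  classical
  have h := orthonormal_iff_ite.1 F.e.orthonormal u w
  rw [h]
  by_cases huw : u = w
  · rw [if_pos huw, if_pos huw]
  · rw [if_neg huw, if_neg huw]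

theorem nil_or_snoc (w : List κ) : w = [] ∨ ∃ w' j, w = w' ++ [j] := by
  rcases List.eq_nil_or_concat w with h | ⟨w', j, h⟩
  · exact Or.inl h
  · exact Or.inr ⟨w', j, by rw [h, List.concat_eq_append]⟩

theorem exists_shift (F : Fock κ H) (σ : κ) :
    ∃ R : H →L[ℂ] H, ∀ w, R (F.e w) = F.e (w ++ [σ]) := by
  classical
  have hv : Orthonormal ℂ (fun w : List κ => F.e (w ++ [σ])) :=
    F.e.orthonormal.comp _ (fun a b hab => List.append_cancel_right hab)
  refine ⟨(hv.orthogonalFamily.linearIsometry.comp F.e.repr.toLinearIsometry).toContinuousLinearMap,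
    fun w => ?_⟩
  show hv.orthogonalFamily.linearIsometry (F.e.repr (F.e w)) = _
  rw [F.e.repr_self, OrthogonalFamily.linearIsometry_apply_single]
  simp

theorem comm_cc {s : Set (H →L[ℂ] H)} (hs : ∀ x ∈ s, star x = x) {R : H →L[ℂ] H}
    (h : ∀ x ∈ s, R * x = x * R) : ∀ x ∈ CC s, R * x = x * R := by
  intro x hx
  have hcl : IsClosed {x : H →L[ℂ] H | R * x = x * R} :=
    isClosed_eq (continuous_const.mul continuous_id) (continuous_id.mul continuous_const)
  have hsub : (StarAlgebra.adjoin ℂ s : Set (H →L[ℂ] H)) ⊆ {x : H →L[ℂ] H | R * x = x * R} := by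
    intro y hy
    have hy' : y ∈ Algebra.adjoin ℂ (s ∪ star s) := by
      rw [← StarAlgebra.adjoin_toSubalgebra]
      exact hy
    induction hy' using Algebra.adjoin_induction with
    | mem z hz =>
      rcases hz with hz | hz
      · exact h z hz
      · have h1 := hs _ hz
        rw [star_star] at h1
        have h2 : z ∈ s := by rw [h1]; exact hz
        exact h z h2
    | algebraMap r => exact (Algebra.commutes r R).symm
    | add a b _ _ ha hb =>
      have ha' : R * a = a * R := ha (by
        show a ∈ (StarAlgebra.adjoin ℂ s).toSubalgebra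
        rw [StarAlgebra.adjoin_toSubalgebra]; assumption)
      have hb' : R * b = b * R := hb (by
        show b ∈ (StarAlgebra.adjoin ℂ s).toSubalgebra
        rw [StarAlgebra.adjoin_toSubalgebra]; assumption)
      show R * (a + b) = (a + b) * R
      rw [mul_add, add_mul, ha', hb']
    | mul a b _ _ ha hb =>
      have ha' : R * a = a * R := ha (by
        show a ∈ (StarAlgebra.adjoin ℂ s).toSubalgebra
        rw [StarAlgebra.adjoin_toSubalgebra]; assumption)
      have hb' : R * b = b * R := hb (by
        show b ∈ (StarAlgebra.adjoin ℂ s).toSubalgebra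
        rw [StarAlgebra.adjoin_toSubalgebra]; assumption)
      show R * (a * b) = (a * b) * R
      rw [← mul_assoc, ha', mul_assoc, hb', mul_assoc]
  exact closure_minimal hsub hcl hx

end Raux

open Raux in
theorem t_R (hb : S_BAS) : S_R := by
  intro κ H _ _ _ F σ
  classical
  obtain ⟨b1, b2, b3, -, -, b6, -, -, b9, -⟩ := hb κ H F
  obtain ⟨R, hR⟩ := exists_shift F σ
  have hsR : ∀ u w, (inner ℂ (F.e u) (star R (F.e w)) : ℂ) = if u ++ [σ] = w then 1 else 0 := by
    intro u w
    rw [ContinuousLinearMap.star_eq_adjoint, ContinuousLinearMap.adjoint_inner_right, hR, inner_e]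
  have hs1 : ∀ w, star R (F.e (w ++ [σ])) = F.e w := by
    intro w
    apply ext_vec F
    intro u
    rw [hsR, inner_e]
    by_cases h : u = w
    · subst h; simp
    · rw [if_neg h, if_neg fun h' => h (List.append_cancel_right h')]
  have hs2 : ∀ w j, j ≠ σ → star R (F.e (w ++ [j])) = 0 := by
    intro w j hj
    apply ext_vec F
    intro u
    rw [hsR, inner_zero_right, if_neg]
    intro h
    have := congrArg (fun l => l.getLast?) h
    simp at this
    exact hj this.symm
  have hs0 : star R (F.e []) = 0 := by
    apply ext_vec F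
    intro u
    rw [hsR, inner_zero_right, if_neg]
    simp
  have hP0 : F.P0 (F.e []) = F.e [] := by
    rw [b9]
    show (inner ℂ (F.e []) (F.e []) : ℂ) • F.e [] = F.e []
    rw [inner_e, if_pos rfl, one_smul]
  have hP1 : ∀ w j, F.P0 (F.e (w ++ [j])) = 0 := by
    intro w j
    rw [b9]
    show (inner ℂ (F.e []) (F.e (w ++ [j])) : ℂ) • F.e [] = 0
    rw [inner_e, if_neg (by simp), zero_smul]
  -- commutator with the creation operators
  have hc1 : star R * F.cr σ - F.cr σ * star R = F.P0 := by
    apply ext_op F
    intro w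
    show star R (F.cr σ (F.e w)) - F.cr σ (star R (F.e w)) = F.P0 (F.e w)
    rcases nil_or_snoc w with rfl | ⟨w', j, rfl⟩
    · rw [hs0, map_zero, sub_zero, F.cr_e, hP0]
      exact hs1 []
    · rw [F.cr_e, hP1, ← List.cons_append]
      by_cases hj : j = σ
      · subst hj
        rw [hs1, hs1, F.cr_e, sub_self]
      · rw [hs2 _ _ hj, hs2 _ _ hj, map_zero, sub_self]
  have hc2 : ∀ i, i ≠ σ → star R * F.cr i - F.cr i * star R = 0 := by
    intro i hi
    apply ext_op F
    intro w
    show star R (F.cr i (F.e w)) - F.cr i (star R (F.e w)) = 0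
    rcases nil_or_snoc w with rfl | ⟨w', j, rfl⟩
    · rw [hs0, map_zero, sub_zero, F.cr_e]
      exact hs2 [] i hi
    · rw [F.cr_e, ← List.cons_append]
      by_cases hj : j = σ
      · subst hj
        rw [hs1, hs1, F.cr_e, sub_self]
      · rw [hs2 _ _ hj, hs2 _ _ hj, map_zero, sub_self]
  have hc3 : ∀ i, star R * star (F.cr i) - star (F.cr i) * star R = 0 := by
    intro i
    apply ext_op F
    intro w
    show star R (star (F.cr i) (F.e w)) - star (F.cr i) (star R (F.e w)) = 0
    rcases w with _ | ⟨k, w⟩
    · rw [hs0, b1, map_zero, map_zero, sub_self]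
    · rcases nil_or_snoc w with rfl | ⟨w', j, rfl⟩
      · have e1 : star (F.cr i) (star R (F.e [k])) = 0 := by
          by_cases hk : k = σ
          · subst hk
            have := hs1 []
            rw [List.nil_append] at this
            rw [this, b1]
          · have := hs2 [] k hk
            rw [List.nil_append] at this
            rw [this, map_zero]
        rw [e1, sub_zero]
        by_cases hik : i = k
        · subst hik
          rw [b2, hs0]
        · rw [b3 i k _ hik, map_zero]
      · have e0 : k :: (w' ++ [j]) = (k :: w') ++ [j] := rfl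
        by_cases hj : j = σ
        · subst hj
          have e1 : star R (F.e (k :: (w' ++ [j]))) = F.e (k :: w') := by rw [e0, hs1]
          rw [e1]
          by_cases hik : i = k
          · subst hik
            rw [b2, b2, hs1, sub_self]
          · rw [b3 i k _ hik, b3 i k _ hik, map_zero, sub_self]
        · have e1 : star R (F.e (k :: (w' ++ [j]))) = 0 := by rw [e0, hs2 _ _ hj]
          rw [e1, map_zero, sub_zero]
          by_cases hik : i = k
          · subst hik
            rw [b2, hs2 _ _ hj]
          · rw [b3 i k _ hik, map_zero]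
  refine ⟨R, ?_, ?_, ?_, ?_⟩
  · show R (F.e []) = (F.cr σ + star (F.cr σ)) (F.e [])
    rw [hR, ContinuousLinearMap.add_apply, F.cr_e, b1, add_zero, List.nil_append]
  · exact hs0
  · show star R * (F.cr σ + star (F.cr σ)) - (F.cr σ + star (F.cr σ)) * star R = F.P0
    have : star R * (F.cr σ + star (F.cr σ)) - (F.cr σ + star (F.cr σ)) * star R =
        (star R * F.cr σ - F.cr σ * star R) +
          (star R * star (F.cr σ) - star (F.cr σ) * star R) := by
      rw [mul_add, add_mul]; abel
    rw [this, hc1, hc3, add_zero]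
  · refine comm_cc ?_ ?_
    · rintro _ ⟨i, -, rfl⟩
      exact b6 i
    · rintro _ ⟨i, hi, rfl⟩
      have hi' : i ≠ σ := hi
      show star R * (F.cr i + star (F.cr i)) = (F.cr i + star (F.cr i)) * star R
      rw [mul_add, add_mul, sub_eq_zero.1 (hc2 i hi'), sub_eq_zero.1 (hc3 i)]

end Pool.Agent.H875R.FP
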