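import Pool.Agent.H875R.FP.Stubs2

/-! Task RFPF: semicirculars generate reduced free powers. -/

namespace Pool.Agent.H875R.FP

namespace RFPFx

theorem CC_mono {A : Type} [CStarAlgebra A] {s t : Set A} (h : s ⊆ t) : CC s ≤ CC t :=
  StarSubalgebra.topologicalClosure_mono (StarAlgebra.adjoin_mono h)

variable {κ H : Type} [NormedAddCommGroup H] [InnerProductSpace ℂ H] [CompleteSpace H]

theorem tau_star_mul (F : Fock κ H) (x : H →L[ℂ] H) :
    F.tau (star x * x) = ((‖x F.Om‖ ^ 2 : ℝ) : ℂ) := by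
  unfold Fock.tau
  rw [mul_apply_eq_comp, ContinuousLinearMap.star_eq_adjoint,
    ContinuousLinearMap.adjoint_inner_right, inner_self_eq_norm_sq_to_K]
  norm_cast

theorem coe_prod {A : Type} [CStarAlgebra A] (B : StarSubalgebra ℂ A) {X : Type} (l : List X)
    (f : X → B) : (((l.map f).prod : B) : A) = (l.map fun x => (f x : A)).prod := by
  induction l with
  | nil => simp
  | cons a l ih => simp [ih]

end RFPFx

open RFPFx in
theorem t_RFPF (h1 : S_IOTA) (h2 : S_FREE) (h3 : S_FAITH) (hb : S_BAS) : S_RFPF := by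
  intro κ H _ _ _ F n j hj
  choose ι hι using fun i => h1 κ H F (j i)
  have hsub : ∀ i, CC {F.S (j i)} ≤ CC (Set.range fun i => F.S (j i)) := fun i =>
    CC_mono (by rw [Set.singleton_subset_iff]; exact ⟨i, rfl⟩)
  let τ : CC (Set.range fun i => F.S (j i)) →ₗ[ℂ] ℂ :=
    { toFun := fun x => F.tau (x : H →L[ℂ] H)
      map_add' := fun x y => by
        simp only [Fock.tau, StarMemClass.coe_star, AddMemClass.coe_add,
          add_apply, inner_add_right]
      map_smul' := fun c x => by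
        change inner ℂ F.Om (c • (x : H →L[ℂ] H) F.Om) = c * inner ℂ F.Om ((x : H →L[ℂ] H) F.Om)
        rw [inner_smul_right] }
  have hτ : ∀ x, τ x = F.tau (x : H →L[ℂ] H) := fun x => rfl
  let ι' : ∀ _ : Fin n, C(unitInterval, ℂ) →⋆ₐ[ℂ] CC (Set.range fun i => F.S (j i)) :=
    fun i => (ι i).codRestrict _ fun f => hsub i ((hι i).1 f)
  have hι' : ∀ i f, ((ι' i f : CC (Set.range fun i => F.S (j i))) : H →L[ℂ] H) = ι i f :=
    fun i f => rfl
  refine ⟨{
    τ := τ
    ι := ι'
    one := ?_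
    pos := ?_
    law := ?_
    free := ?_
    gen := ?_
    faith := ?_ }⟩
  · have h4 : ‖F.Om‖ = 1 := (hb κ H F).2.2.2.2.2.2.2.1
    change inner ℂ F.Om F.Om = (1 : ℂ)
    rw [inner_self_eq_norm_sq_to_K, h4]
    norm_num
  · intro x
    have h4 : τ (star x * x) = ((‖(x : H →L[ℂ] H) F.Om‖ ^ 2 : ℝ) : ℂ) :=
      tau_star_mul F (x : H →L[ℂ] H)
    rw [h4]
    exact ⟨by rw [Complex.ofReal_re]; positivity, Complex.ofReal_im _⟩
  · intro i f
    exact (hι i).2.2 f
  · intro l hl hchain hint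
    rw [hτ, coe_prod]
    have h4 := h2 κ H F (l.map fun x => (j x.1, ι x.1 x.2)) (by simpa using hl) ?_ ?_
    · rw [List.map_map] at h4
      exact h4
    · rw [List.isChain_map]
      exact hchain.imp fun x y hxy => fun h => hxy (hj h)
    · intro x hx
      rw [List.mem_map] at hx
      obtain ⟨y, hy, rfl⟩ := hx
      refine ⟨(hι y.1).1 y.2, ?_⟩
      change F.tau (ι y.1 y.2) = 0
      rw [(hι y.1).2.2, hint y hy]
  · rw [eq_top_iff]
    intro x _
    have hBc : IsClosed ((StarAlgebra.adjoin ℂ (⋃ i, Set.range (ι' i))).topologicalClosure :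
        Set (CC (Set.range fun i => F.S (j i)))) :=
      StarSubalgebra.isClosed_topologicalClosure _
    have hAc : IsClosed (CC (Set.range fun i => F.S (j i)) : Set (H →L[ℂ] H)) := inferInstance
    have hB'c : IsClosed (((StarAlgebra.adjoin ℂ (⋃ i, Set.range (ι' i))).topologicalClosure.map
        (CC (Set.range fun i => F.S (j i))).subtype : StarSubalgebra ℂ (H →L[ℂ] H)) :
          Set (H →L[ℂ] H)) := by
      rw [StarSubalgebra.coe_map]
      exact hAc.isClosedEmbedding_subtypeVal.isClosedMap _ hBc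
    have hle : CC (Set.range fun i => F.S (j i)) ≤
        (StarAlgebra.adjoin ℂ (⋃ i, Set.range (ι' i))).topologicalClosure.map
        (CC (Set.range fun i => F.S (j i))).subtype := by
      refine StarSubalgebra.topologicalClosure_minimal ?_ hB'c
      rw [StarAlgebra.adjoin_le_iff]
      rintro _ ⟨i, rfl⟩
      obtain ⟨g, hg⟩ := (hι i).2.1
      exact ⟨ι' i g, StarSubalgebra.le_topologicalClosure _
        (StarAlgebra.subset_adjoin ℂ _ (Set.mem_iUnion.2 ⟨i, g, rfl⟩)), hg⟩
    obtain ⟨y, hy, hyx⟩ := hle x.2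
    have hyx' : y = x := Subtype.ext hyx
    rw [← hyx']
    exact hy
  · intro x hx
    have h4 := hx 1
    rw [mul_one] at h4
    have h5 : τ (star x * x) = ((‖(x : H →L[ℂ] H) F.Om‖ ^ 2 : ℝ) : ℂ) :=
      tau_star_mul F (x : H →L[ℂ] H)
    rw [h5] at h4
    have h6 : ‖(x : H →L[ℂ] H) F.Om‖ ^ 2 = 0 := by exact_mod_cast h4
    have h7 : (x : H →L[ℂ] H) F.Om = 0 := norm_eq_zero.1 (pow_eq_zero_iff two_ne_zero |>.1 h6)
    have h8 : (x : H →L[ℂ] H) ∈ F.AA := by
      have h9 : CC (Set.range fun i => F.S (j i)) ≤ F.AA :=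
        CC_mono (by rintro _ ⟨i, rfl⟩; exact ⟨j i, rfl⟩)
      exact h9 x.2
    exact Subtype.ext (h3 κ H F x h8 h7)

end Pool.Agent.H875R.FP
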