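import Pool.Agent.H875R.FP.Stubs

namespace Pool.Agent.H875R.FP

open scoped ComplexConjugate

namespace ROTx

/-- powers of an automorphism -/
noncomputable def pw {A : Type} [CStarAlgebra A] (α : A ≃⋆ₐ[ℂ] A) : ℕ → (A ≃⋆ₐ[ℂ] A)
  | 0 => StarAlgEquiv.refl ℂ A
  | k + 1 => α.trans (pw α k)

lemma pw_zero {A : Type} [CStarAlgebra A] (α : A ≃⋆ₐ[ℂ] A) (x : A) : pw α 0 x = x := rfl

lemma pw_succ {A : Type} [CStarAlgebra A] (α : A ≃⋆ₐ[ℂ] A) (k : ℕ) (x : A) :
    pw α (k + 1) x = pw α k (α x) := rfl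

lemma tele {A : Type} [CStarAlgebra A] (u : ℕ → A) (b : ℝ) (h : ∀ k, ‖u (k + 1) - u k‖ ≤ b)
    (N : ℕ) : ‖u N - u 0‖ ≤ N * b := by
  induction N with
  | zero => simp
  | succ N ih =>
    have e : u (N + 1) - u 0 = (u (N + 1) - u N) + (u N - u 0) := by abel
    rw [e]
    refine le_trans (norm_add_le _ _) ?_
    push_cast
    linarith [h N]

lemma trig (φ h : ℝ) (h0 : 0 ≤ h) (h1 : h ≤ 1) :
    |Real.sin φ - Real.sin (φ - h) - h * Real.cos φ| ≤ h ^ 2 ∧
    |Real.cos φ - Real.cos (φ - h) + h * Real.sin φ| ≤ h ^ 2 := by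
  have hc1 := Real.one_sub_sq_div_two_le_cos (x := h)
  have hc2 := Real.cos_le_one h
  have hs1 := Real.sin_le h0
  have hs2 : h - h ^ 3 / 6 ≤ Real.sin h := by
    rcases eq_or_lt_of_le h0 with h0 | h0
    · rw [← h0]; simp
    · exact (Real.sin_gt_sub_cube h0).le
  have h3 : h ^ 3 ≤ h ^ 2 := by nlinarith [sq_nonneg h]
  have a1 : |1 - Real.cos h| ≤ h ^ 2 / 2 := by rw [abs_le]; constructor <;> linarith [sq_nonneg h]
  have a2 : |h - Real.sin h| ≤ h ^ 2 / 2 := by
    rw [abs_le]; constructor <;> linarith [sq_nonneg h]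
  have bS := Real.abs_sin_le_one φ
  have bC := Real.abs_cos_le_one φ
  constructor
  · have e : Real.sin φ - Real.sin (φ - h) - h * Real.cos φ =
        Real.sin φ * (1 - Real.cos h) - Real.cos φ * (h - Real.sin h) := by
      rw [Real.sin_sub]; ring
    rw [e]
    refine le_trans (abs_sub _ _) ?_
    rw [abs_mul, abs_mul]
    have := mul_le_mul bS a1 (abs_nonneg _) zero_le_one
    have := mul_le_mul bC a2 (abs_nonneg _) zero_le_one
    linarith
  · have e : Real.cos φ - Real.cos (φ - h) + h * Real.sin φ =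
        Real.cos φ * (1 - Real.cos h) + Real.sin φ * (h - Real.sin h) := by
      rw [Real.cos_sub]; ring
    rw [e]
    refine le_trans (abs_add_le _ _) ?_
    rw [abs_mul, abs_mul]
    have := mul_le_mul bC a1 (abs_nonneg _) zero_le_one
    have := mul_le_mul bS a2 (abs_nonneg _) zero_le_one
    linarith

end ROTx

open ROTx in
theorem t_ROT : S_ROT := by
  intro A _ k P s E x M h₀ C hh₀ hC hM hα ε hε
  set K : ℝ := 2 * C + ‖P‖ + ‖s‖ with hK
  have hK0 : 0 ≤ K := by positivity
  set δ : ℝ := min (min h₀ 1) (ε / (2 * (K + 1))) with hδ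
  have hδ0 : 0 < δ := by
    refine lt_min (lt_min hh₀ one_pos) (by positivity)
  obtain ⟨N₀, hN₀⟩ := exists_nat_ge (Real.pi / (2 * δ))
  set N : ℕ := N₀ + 1 with hN
  have hNpos : (0 : ℝ) < N := by rw [hN]; positivity
  set h : ℝ := Real.pi / (2 * N) with hh
  have hh0 : 0 ≤ h := by rw [hh]; positivity
  have hhδ : h ≤ δ := by
    rw [hh, div_le_iff₀ (by positivity)]
    rw [div_le_iff₀ (by positivity)] at hN₀
    have : (N : ℝ) = N₀ + 1 := by rw [hN]; push_cast; ring
    rw [this]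
    nlinarith
  have hNh : (N : ℝ) * h = Real.pi / 2 := by
    rw [hh]; field_simp
  have hh1 : h ≤ 1 := le_trans hhδ (le_trans (min_le_left _ _) (min_le_right _ _))
  have hhh : h ≤ h₀ := le_trans hhδ (le_trans (min_le_left _ _) (min_le_left _ _))
  have hKε : 2 * h * K ≤ ε := by
    have h1 : h ≤ ε / (2 * (K + 1)) := le_trans hhδ (min_le_right _ _)
    rw [le_div_iff₀ (by positivity)] at h1
    nlinarith
  obtain ⟨α, ha1, ha2, ha3⟩ := hα h hh0 hhh
  have hpi : Real.pi / 2 ≤ 2 := by linarith [Real.pi_le_four]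
  refine ⟨pw α N, ?_, ?_⟩
  · set u : ℕ → A := fun k => ((Real.sin (k * h) : ℝ) : ℂ) • pw α k P +
      ((Real.cos (k * h) : ℝ) : ℂ) • pw α k s with hu
    have hstep : ∀ k, ‖u (k + 1) - u k‖ ≤ h * ‖E‖ + h ^ 2 * K := by
      intro k
      set φ : ℝ := ((k + 1 : ℕ) : ℝ) * h with hφ
      have hφ' : (k : ℝ) * h = φ - h := by rw [hφ]; push_cast; ring
      obtain ⟨t1, t2⟩ := trig φ h hh0 hh1
      have e1 : u (k + 1) - u k = pw α k (((Real.sin φ : ℝ) : ℂ) • α P +
          ((Real.cos φ : ℝ) : ℂ) • α s - ((Real.sin (φ - h) : ℝ) : ℂ) • P -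
          ((Real.cos (φ - h) : ℝ) : ℂ) • s) := by
        simp only [hu, pw_succ, map_sub, map_add, map_smul, hφ']
        rw [← hφ]
        abel
      have e2 : ((Real.sin φ : ℝ) : ℂ) • α P +
          ((Real.cos φ : ℝ) : ℂ) • α s - ((Real.sin (φ - h) : ℝ) : ℂ) • P -
          ((Real.cos (φ - h) : ℝ) : ℂ) • s =
          ((Real.sin φ : ℝ) : ℂ) • (α P - P - (h : ℂ) • (s + E)) +
          ((Real.cos φ : ℝ) : ℂ) • (α s - s + (h : ℂ) • P) +
          ((Real.sin φ - Real.sin (φ - h) - h * Real.cos φ : ℝ) : ℂ) • P +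
          ((Real.cos φ - Real.cos (φ - h) + h * Real.sin φ : ℝ) : ℂ) • s +
          ((h * Real.sin φ : ℝ) : ℂ) • E := by
        push_cast
        module
      rw [e1, StarAlgEquiv.norm_map, e2]
      have bS := Real.abs_sin_le_one φ
      have bC := Real.abs_cos_le_one φ
      have n1 : ‖((Real.sin φ : ℝ) : ℂ) • (α P - P - (h : ℂ) • (s + E))‖ ≤ C * h ^ 2 := by
        rw [norm_smul, Complex.norm_real, Real.norm_eq_abs]
        calc _ ≤ 1 * ‖α P - P - (h : ℂ) • (s + E)‖ :=
              mul_le_mul_of_nonneg_right bS (norm_nonneg _)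
          _ ≤ _ := by rw [one_mul]; exact ha1
      have n2 : ‖((Real.cos φ : ℝ) : ℂ) • (α s - s + (h : ℂ) • P)‖ ≤ C * h ^ 2 := by
        rw [norm_smul, Complex.norm_real, Real.norm_eq_abs]
        calc _ ≤ 1 * ‖α s - s + (h : ℂ) • P‖ :=
              mul_le_mul_of_nonneg_right bC (norm_nonneg _)
          _ ≤ _ := by rw [one_mul]; exact ha2
      have n3 : ‖((Real.sin φ - Real.sin (φ - h) - h * Real.cos φ : ℝ) : ℂ) • P‖ ≤
          h ^ 2 * ‖P‖ := by
        rw [norm_smul, Complex.norm_real, Real.norm_eq_abs]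
        exact mul_le_mul_of_nonneg_right t1 (norm_nonneg _)
      have n4 : ‖((Real.cos φ - Real.cos (φ - h) + h * Real.sin φ : ℝ) : ℂ) • s‖ ≤
          h ^ 2 * ‖s‖ := by
        rw [norm_smul, Complex.norm_real, Real.norm_eq_abs]
        exact mul_le_mul_of_nonneg_right t2 (norm_nonneg _)
      have n5 : ‖((h * Real.sin φ : ℝ) : ℂ) • E‖ ≤ h * ‖E‖ := by
        rw [norm_smul, Complex.norm_real, Real.norm_eq_abs, abs_mul, abs_of_nonneg hh0]
        apply mul_le_mul_of_nonneg_right _ (norm_nonneg _)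
        calc h * |Real.sin φ| ≤ h * 1 := mul_le_mul_of_nonneg_left bS hh0
          _ = h := mul_one h
      refine le_trans (norm_add_le _ _) ?_
      refine le_trans (add_le_add_left (norm_add_le _ _) _) ?_
      refine le_trans (add_le_add_left (add_le_add_left (norm_add_le _ _) _) _) ?_
      refine le_trans (add_le_add_left (add_le_add_left (add_le_add_left
        (norm_add_le _ _) _) _) _) ?_
      rw [hK]
      nlinarith
    have ht := tele u _ hstep N
    have hu0 : u 0 = s := by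
      simp [hu, pw_zero]
    have huN : u N = pw α N P := by
      simp only [hu, hNh, Real.sin_pi_div_two, Real.cos_pi_div_two]
      simp
    rw [hu0, huN] at ht
    refine le_trans ht ?_
    have e3 : (N : ℝ) * (h * ‖E‖ + h ^ 2 * K) = Real.pi / 2 * ‖E‖ + Real.pi / 2 * (h * K) := by
      rw [← hNh]; ring
    rw [e3]
    have m1 := mul_le_mul_of_nonneg_right hpi (norm_nonneg E)
    have m2 := mul_le_mul_of_nonneg_right hpi (mul_nonneg hh0 hK0)
    linarith
  · intro i
    have hstep : ∀ k, ‖(fun k => pw α k (x i)) (k + 1) - (fun k => pw α k (x i)) k‖ ≤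
        M i * h + C * h ^ 2 := by
      intro k
      simp only [pw_succ]
      rw [← map_sub, StarAlgEquiv.norm_map]
      exact ha3 i
    have ht := tele (fun k => pw α k (x i)) _ hstep N
    simp only [pw_zero] at ht
    refine le_trans ht ?_
    have e3 : (N : ℝ) * (M i * h + C * h ^ 2) = Real.pi / 2 * M i + Real.pi / 2 * (h * C) := by
      rw [← hNh]; ring
    rw [e3]
    have m1 := mul_le_mul_of_nonneg_right hpi (hM i)
    have m2 := mul_le_mul_of_nonneg_right hpi (mul_nonneg hh0 hC)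
    have m3 : h * C ≤ h * K := by
      apply mul_le_mul_of_nonneg_left _ hh0
      rw [hK]
      linarith [norm_nonneg P, norm_nonneg s]
    linarith

end Pool.Agent.H875R.FP
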