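import Pool.Agent.H875R.FP.Stubs2

/-! Task SPA: two points with the same moments and the same closed algebra are conjugate. -/

namespace Pool.Agent.H875R.FP

open Pool.Agent.H667R3.FF (ev splits InAlg)
open scoped ComplexConjugate InnerProductSpace

namespace SPAx

section monoid

variable {L B : Type} [Monoid B] (p : L → B)

theorem ev_nil : ev p [] = 1 := rfl

theorem ev_cons (l : L) (w : List L) : ev p (l :: w) = p l * ev p w := by
  simp [ev]

theorem ev_append (v w : List L) : ev p (v ++ w) = ev p v * ev p w := by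
  simp [ev]

theorem closure_range : (Submonoid.closure (Set.range p) : Set B) = Set.range (ev p) := by
  apply Set.Subset.antisymm
  · intro x hx
    refine Submonoid.closure_induction (motive := fun x _ => x ∈ Set.range (ev p)) ?_ ?_ ?_ hx
    · rintro _ ⟨l, rfl⟩
      exact ⟨[l], by simp [ev]⟩
    · exact ⟨[], rfl⟩
    · rintro _ _ _ _ ⟨v, rfl⟩ ⟨w, rfl⟩
      exact ⟨v ++ w, ev_append p v w⟩
  · rintro _ ⟨w, rfl⟩
    induction w with
    | nil => exact (Submonoid.closure (Set.range p)).one_mem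
    | cons l w ih =>
      rw [ev_cons]
      exact (Submonoid.closure (Set.range p)).mul_mem (Submonoid.subset_closure ⟨l, rfl⟩) ih

theorem star_ev [StarMul B] {iv : L → L} (h : ∀ l, p (iv l) = star (p l)) (w : List L) :
    star (ev p w) = ev p (w.map iv).reverse := by
  induction w with
  | nil => simp [ev]
  | cons l w ih =>
    rw [ev_cons, star_mul, ih, List.map_cons, List.reverse_cons, ev_append, ev_cons, ev_nil,
      mul_one, h]

end monoid

section alg

variable {L A : Type} [CStarAlgebra A] {p : L → A} {iv : L → L}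

theorem adjoin_eq (hiv : ∀ l, iv (iv l) = l) (h : ∀ l, p (iv l) = star (p l)) :
    (StarAlgebra.adjoin ℂ (Set.range p) : Set A) =
      (Submodule.span ℂ (Set.range (ev p)) : Set A) := by
  have h1 : star (Set.range p) = Set.range p := by
    ext x
    constructor
    · rintro ⟨l, hl⟩
      exact ⟨iv l, by rw [h, hl, star_star]⟩
    · rintro ⟨l, rfl⟩
      exact ⟨iv l, by rw [h]⟩
  have h2 : (StarAlgebra.adjoin ℂ (Set.range p)).toSubalgebra =
      Algebra.adjoin ℂ (Set.range p) := by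
    rw [StarAlgebra.adjoin_toSubalgebra, h1, Set.union_self]
  have h3 : (StarAlgebra.adjoin ℂ (Set.range p) : Set A) =
      (Algebra.adjoin ℂ (Set.range p) : Set A) := by
    rw [← h2]; rfl
  rw [h3]
  have h4 := Algebra.adjoin_eq_span ℂ (Set.range p)
  rw [closure_range] at h4
  rw [← h4]
  rfl

theorem mem_CC_iff (hiv : ∀ l, iv (iv l) = l) (h : ∀ l, p (iv l) = star (p l)) (x : A) :
    x ∈ CC (Set.range p) ↔ x ∈ closure (Submodule.span ℂ (Set.range (ev p)) : Set A) := by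
  rw [← adjoin_eq hiv h]
  unfold CC
  rw [← SetLike.mem_coe, StarSubalgebra.topologicalClosure_coe]

theorem inAlg_mem {x : A} (h : InAlg p x) :
    x ∈ closure (Submodule.span ℂ (Set.range (ev p)) : Set A) := by
  rw [Metric.mem_closure_iff]
  intro ε hε
  obtain ⟨R, hR⟩ := h ε hε
  refine ⟨R.sum fun w c => c • ev p w, ?_, by rwa [dist_eq_norm]⟩
  exact (Finsupp.mem_span_range_iff_exists_finsupp).2 ⟨R, rfl⟩

theorem CC_le {s t : Set A} (h : ∀ x ∈ s, x ∈ CC t) : CC s ≤ CC t := by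
  unfold CC
  apply StarSubalgebra.topologicalClosure_minimal
  · exact StarAlgebra.adjoin_le h
  · exact StarSubalgebra.isClosed_topologicalClosure _

end alg

section hilb

variable {L H : Type} [NormedAddCommGroup H] [InnerProductSpace ℂ H] [CompleteSpace H]

/-- the dense map -/
noncomputable def em (Ω : H) (p : L → (H →L[ℂ] H)) : (List L →₀ ℂ) →ₗ[ℂ] H :=
  Finsupp.linearCombination ℂ (fun w => ev p w Ω)

theorem em_apply (Ω : H) (p : L → (H →L[ℂ] H)) (c : List L →₀ ℂ) :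
    em Ω p c = (Finsupp.linearCombination ℂ (ev p) c) Ω := by
  unfold em
  rw [Finsupp.linearCombination_apply, Finsupp.linearCombination_apply]
  unfold Finsupp.sum
  rw [ContinuousLinearMap.sum_apply]
  rfl

theorem gram (Ω : H) (iv : L → L) (p : L → (H →L[ℂ] H)) (h : ∀ l, p (iv l) = star (p l))
    (v w : List L) :
    ⟪ev p v Ω, ev p w Ω⟫_ℂ = ⟪Ω, ev p ((v.map iv).reverse ++ w) Ω⟫_ℂ := by
  rw [ev_append, ← star_ev p h, ContinuousLinearMap.star_eq_adjoint]
  show _ = ⟪Ω, (ContinuousLinearMap.adjoint (ev p v)) (ev p w Ω)⟫_ℂ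
  rw [ContinuousLinearMap.adjoint_inner_right]

theorem norm_em (Ω : H) (iv : L → L) (p p' : L → (H →L[ℂ] H)) (h : ∀ l, p (iv l) = star (p l))
    (h' : ∀ l, p' (iv l) = star (p' l))
    (hm : ∀ w : List L, (inner ℂ Ω (ev p' w Ω) : ℂ) = inner ℂ Ω (ev p w Ω))
    (c : List L →₀ ℂ) : ‖em Ω p' c‖ = ‖em Ω p c‖ := by
  have h1 : ⟪em Ω p' c, em Ω p' c⟫_ℂ = ⟪em Ω p c, em Ω p c⟫_ℂ := by
    unfold em
    rw [Finsupp.linearCombination_apply, Finsupp.linearCombination_apply]
    unfold Finsupp.sum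
    simp only [sum_inner, inner_sum, inner_smul_left, inner_smul_right]
    refine Finset.sum_congr rfl fun v _ => ?_
    congr 1
    refine Finset.sum_congr rfl fun w _ => ?_
    rw [gram Ω iv p' h', gram Ω iv p h, hm]
  have h2 : ‖em Ω p' c‖ ^ 2 = ‖em Ω p c‖ ^ 2 := by
    rw [← inner_self_eq_norm_sq (𝕜 := ℂ), ← inner_self_eq_norm_sq (𝕜 := ℂ), h1]
  exact (pow_left_inj₀ (norm_nonneg _) (norm_nonneg _) two_ne_zero).1 h2

theorem dense_em (Ω : H) (p : L → (H →L[ℂ] H))
    (hd : ∀ (ξ : H) (ε : ℝ), 0 < ε → ∃ x ∈ Submodule.span ℂ (Set.range (ev p)), ‖ξ - x Ω‖ < ε) :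
    DenseRange (em Ω p) := by
  intro ξ
  rw [Metric.mem_closure_iff]
  intro ε hε
  obtain ⟨x, hx, hxε⟩ := hd ξ ε hε
  obtain ⟨c, rfl⟩ := (Finsupp.mem_span_range_iff_exists_finsupp).1 hx
  refine ⟨em Ω p c, ⟨c, rfl⟩, ?_⟩
  rw [dist_eq_norm, em_apply, Finsupp.linearCombination_apply]
  exact hxε

theorem dense_em' (Ω : H) (iv : L → L) (p p' : L → (H →L[ℂ] H)) (hiv : ∀ l, iv (iv l) = l)
    (h : ∀ l, p (iv l) = star (p l)) (h' : ∀ l, p' (iv l) = star (p' l))
    (hd : ∀ (ξ : H) (ε : ℝ), 0 < ε → ∃ x ∈ Submodule.span ℂ (Set.range (ev p)), ‖ξ - x Ω‖ < ε)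
    (hle : CC (Set.range p) ≤ CC (Set.range p')) : DenseRange (em Ω p') := by
  have h1 : ∀ x : H →L[ℂ] H, x ∈ CC (Set.range p') → x Ω ∈ closure (Set.range (em Ω p')) := by
    intro x hx
    rw [mem_CC_iff hiv h'] at hx
    have h2 : Continuous fun y : H →L[ℂ] H => y Ω := by fun_prop
    have h3 := image_closure_subset_closure_image h2 ⟨x, hx, rfl⟩
    refine closure_mono ?_ h3
    rintro _ ⟨y, hy, rfl⟩
    obtain ⟨c, rfl⟩ := (Finsupp.mem_span_range_iff_exists_finsupp).1 hy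
    exact ⟨c, by rw [em_apply, Finsupp.linearCombination_apply]⟩
  intro ξ
  rw [← closure_closure, Metric.mem_closure_iff]
  intro ε hε
  obtain ⟨x, hx, hxε⟩ := hd ξ ε hε
  refine ⟨x Ω, h1 x (hle ?_), by rwa [dist_eq_norm]⟩
  rw [mem_CC_iff hiv h]
  exact subset_closure hx

/-- the unitary -/
theorem exists_V (Ω : H) (iv : L → L) (p p' : L → (H →L[ℂ] H)) (hiv : ∀ l, iv (iv l) = l)
    (h : ∀ l, p (iv l) = star (p l)) (h' : ∀ l, p' (iv l) = star (p' l))
    (hd : ∀ (ξ : H) (ε : ℝ), 0 < ε → ∃ x ∈ Submodule.span ℂ (Set.range (ev p)), ‖ξ - x Ω‖ < ε)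
    (hm : ∀ w : List L, (inner ℂ Ω (ev p' w Ω) : ℂ) = inner ℂ Ω (ev p w Ω))
    (hle : CC (Set.range p) ≤ CC (Set.range p')) :
    ∃ V : H ≃ₗᵢ[ℂ] H, ∀ w, V.conjStarAlgEquiv (ev p w) = ev p' w := by
  have d1 := dense_em Ω p hd
  have d2 := dense_em' Ω iv p p' hiv h h' hd hle
  let V : H ≃ₗᵢ[ℂ] H := (LinearEquiv.refl ℂ (List L →₀ ℂ)).extendOfIsometry (em Ω p) (em Ω p')
    d1 d2 (fun c => norm_em Ω iv p p' h h' hm c)
  have hV : ∀ w, V (ev p w Ω) = ev p' w Ω := by
    intro w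
    have h1 := LinearEquiv.extendOfIsometry_eq (LinearEquiv.refl ℂ (List L →₀ ℂ)) (em Ω p)
      (em Ω p') d1 d2 (fun c => norm_em Ω iv p p' h h' hm c) (Finsupp.single w 1)
    have h2 : ∀ q : L → (H →L[ℂ] H), em Ω q (Finsupp.single w 1) = ev q w Ω := by
      intro q
      unfold em
      rw [Finsupp.linearCombination_single, one_smul]
    rw [h2, LinearEquiv.refl_apply, h2] at h1
    exact h1
  refine ⟨V, fun w => ?_⟩
  have hdense : Dense ((Submodule.span ℂ (Set.range fun u => ev p u Ω) : Submodule ℂ H) :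
      Set H) := by
    rw [← Finsupp.range_linearCombination]
    exact d1
  have hcomm : (V : H →L[ℂ] H) ∘L (ev p w) = (ev p' w) ∘L (V : H →L[ℂ] H) := by
    apply ContinuousLinearMap.ext_on hdense
    rintro _ ⟨u, rfl⟩
    show V (ev p w (ev p u Ω)) = ev p' w (V (ev p u Ω))
    rw [hV]
    have h3 : ev p w (ev p u Ω) = ev p (w ++ u) Ω := by rw [ev_append]; rfl
    have h4 : ev p' w (ev p' u Ω) = ev p' (w ++ u) Ω := by rw [ev_append]; rfl
    rw [h3, h4, hV]
  ext η
  rw [LinearIsometryEquiv.conjStarAlgEquiv_apply_apply]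
  have h5 := congrArg (fun T : H →L[ℂ] H => T (V.symm η)) hcomm
  change V (ev p w (V.symm η)) = ev p' w (V (V.symm η)) at h5
  rw [h5, LinearIsometryEquiv.apply_symm_apply]

end hilb

end SPAx

open SPAx in
theorem t_SPA : S_SPA := by
  intro L H _ _ _ Ω iv p p' hiv h h' hd hm hin hin'
  have hle : CC (Set.range p) ≤ CC (Set.range p') := by
    apply CC_le
    rintro _ ⟨l, rfl⟩
    rw [mem_CC_iff hiv h']
    exact inAlg_mem (hin' l)
  have hle' : CC (Set.range p') ≤ CC (Set.range p) := by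
    apply CC_le
    rintro _ ⟨l, rfl⟩
    rw [mem_CC_iff hiv h]
    exact inAlg_mem (hin l)
  obtain ⟨V, hV⟩ := exists_V Ω iv p p' hiv h h' hd hm hle
  have hcont : Continuous V.conjStarAlgEquiv := by
    have : (V.conjStarAlgEquiv : (H →L[ℂ] H) → (H →L[ℂ] H)) =
        fun x => (V : H →L[ℂ] H) ∘L x ∘L (V.symm : H →L[ℂ] H) := by
      funext x
      rfl
    rw [this]
    fun_prop
  have hcont' : Continuous V.conjStarAlgEquiv.symm := by
    have : (V.conjStarAlgEquiv.symm : (H →L[ℂ] H) → (H →L[ℂ] H)) =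
        fun x => (V.symm : H →L[ℂ] H) ∘L x ∘L (V : H →L[ℂ] H) := by
      funext x
      rfl
    rw [this]
    fun_prop
  have hV' : ∀ w, V.conjStarAlgEquiv.symm (ev p' w) = ev p w := by
    intro w
    rw [← hV w, StarAlgEquiv.symm_apply_apply]
  have m1 : ∀ x : H →L[ℂ] H, x ∈ CC (Set.range p) → V.conjStarAlgEquiv x ∈ CC (Set.range p) := by
    intro x hx
    apply hle'
    rw [mem_CC_iff hiv h] at hx
    rw [mem_CC_iff hiv h']
    refine closure_mono ?_ (image_closure_subset_closure_image hcont ⟨x, hx, rfl⟩)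
    rintro _ ⟨y, hy, rfl⟩
    obtain ⟨c, rfl⟩ := (Finsupp.mem_span_range_iff_exists_finsupp).1 hy
    unfold Finsupp.sum
    rw [map_sum]
    refine Submodule.sum_mem _ fun w _ => ?_
    rw [map_smul, hV]
    exact Submodule.smul_mem _ _ (Submodule.subset_span ⟨w, rfl⟩)
  have m2 : ∀ x : H →L[ℂ] H, x ∈ CC (Set.range p) →
      V.conjStarAlgEquiv.symm x ∈ CC (Set.range p) := by
    intro x hx
    have hx2 := hle hx
    rw [mem_CC_iff hiv h'] at hx2
    rw [mem_CC_iff hiv h]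
    refine closure_mono ?_ (image_closure_subset_closure_image hcont' ⟨x, hx2, rfl⟩)
    rintro _ ⟨y, hy, rfl⟩
    obtain ⟨c, rfl⟩ := (Finsupp.mem_span_range_iff_exists_finsupp).1 hy
    unfold Finsupp.sum
    rw [map_sum]
    refine Submodule.sum_mem _ fun w _ => ?_
    rw [map_smul, hV']
    exact Submodule.smul_mem _ _ (Submodule.subset_span ⟨w, rfl⟩)
  refine ⟨{
    toFun := fun x => ⟨V.conjStarAlgEquiv x, m1 _ x.2⟩
    invFun := fun x => ⟨V.conjStarAlgEquiv.symm x, m2 _ x.2⟩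
    left_inv := fun x => Subtype.ext (StarAlgEquiv.symm_apply_apply _ _)
    right_inv := fun x => Subtype.ext (StarAlgEquiv.apply_symm_apply _ _)
    map_mul' := fun x y => Subtype.ext (map_mul V.conjStarAlgEquiv (x : H →L[ℂ] H) y)
    map_add' := fun x y => Subtype.ext (map_add V.conjStarAlgEquiv (x : H →L[ℂ] H) y)
    map_star' := fun x => Subtype.ext (map_star V.conjStarAlgEquiv (x : H →L[ℂ] H))
    map_smul' := fun c x => Subtype.ext (map_smul V.conjStarAlgEquiv c (x : H →L[ℂ] H)) }, ?_⟩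
  intro w x hx
  show V.conjStarAlgEquiv (x : H →L[ℂ] H) = ev p' w
  rw [hx, hV]

end Pool.Agent.H875R.FP
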