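import Mathlib
import Pool.Agent.H875R.FP.Stubs2

/-! Membership and star compatibility of the vector field (helper227). -/

set_option autoImplicit false

namespace Pool.Agent.H875R.FP

open Pool.Agent.H667R3.FF (ev splits)
open Pool.Agent.H581R.FF (n2 act)
open scoped ComplexConjugate

namespace SPANaux

section general

variable {L B : Type} [Ring B] [Algebra ℂ B]

theorem span_one (p : L → B) : (1 : B) ∈ Submodule.span ℂ (Set.range (ev p)) :=
  Submodule.subset_span ⟨[], by simp [ev]⟩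

theorem span_letter (p : L → B) (l : L) : p l ∈ Submodule.span ℂ (Set.range (ev p)) :=
  Submodule.subset_span ⟨[l], by simp [ev]⟩

theorem span_mul (p : L → B) {x y : B}
    (hx : x ∈ Submodule.span ℂ (Set.range (ev p))) (hy : y ∈ Submodule.span ℂ (Set.range (ev p))) :
    x * y ∈ Submodule.span ℂ (Set.range (ev p)) := by
  have := Submodule.mul_mem_mul hx hy
  rw [Submodule.span_mul_span] at this
  refine Submodule.span_mono ?_ this
  rintro _ ⟨_, ⟨w1, rfl⟩, _, ⟨w2, rfl⟩, rfl⟩
  exact ⟨w1 ++ w2, by simp [ev]⟩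

end general

theorem Up_mem {B : Type} [Ring B] (M : Set B) (h1 : (1 : B) ∈ M)
    (hm : ∀ x ∈ M, ∀ y ∈ M, x * y ∈ M) (hs : ∀ x ∈ M, ∀ y ∈ M, x - y ∈ M) (x : B) (hx : x ∈ M) :
    ∀ k, Up x k ∈ M := by
  have : ∀ k, Up x k ∈ M ∧ Up x (k + 1) ∈ M := by
    intro k
    induction k with
    | zero => exact ⟨h1, hx⟩
    | succ k ih => exact ⟨ih.2, hs _ (hm _ hx _ ih.2) _ ih.1⟩
  exact fun k => (this k).1

theorem Up_comm {B : Type} [Ring B] (x : B) : ∀ k, x * Up x k = Up x k * x := by
  have : ∀ k, x * Up x k = Up x k * x ∧ x * Up x (k + 1) = Up x (k + 1) * x := by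
    intro k
    induction k with
    | zero => exact ⟨by simp [Up], by simp [Up]⟩
    | succ k ih =>
      refine ⟨ih.2, ?_⟩
      show x * (x * Up x (k + 1) - Up x k) = (x * Up x (k + 1) - Up x k) * x
      rw [mul_sub, sub_mul, ih.1, mul_assoc, ih.2]
  exact fun k => (this k).1

theorem Up_star {B : Type} [Ring B] [StarRing B] (x : B) (hx : star x = x) :
    ∀ k, star (Up x k) = Up x k := by
  have : ∀ k, star (Up x k) = Up x k ∧ star (Up x (k + 1)) = Up x (k + 1) := by
    intro k
    induction k with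
    | zero => exact ⟨by simp [Up], by simp [Up, hx]⟩
    | succ k ih =>
      refine ⟨ih.2, ?_⟩
      show star (x * Up x (k + 1) - Up x k) = (x * Up x (k + 1) - Up x k)
      rw [star_sub, star_mul, ih.1, ih.2, hx, Up_comm]
  exact fun k => (this k).1

section op

variable {κ H : Type} [NormedAddCommGroup H] [InnerProductSpace ℂ H] [CompleteSpace H]

theorem S_star (F : Fock κ H) (i : κ) : star (F.S i) = F.S i := by
  unfold Fock.S
  rw [star_add, star_star, add_comm]

theorem ro_mul (a b : unitary (H →L[ℂ] H)) (g h : G2) : ro a b (g * h) = ro a b g * ro a b h := by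
  simp [ro]

theorem ro_one (a b : unitary (H →L[ℂ] H)) : ro a b 1 = 1 := by
  simp [ro]

theorem ro_inv (a b : unitary (H →L[ℂ] H)) (g : G2) : ro a b g⁻¹ = star (ro a b g) := by
  unfold ro
  rw [map_inv]
  rfl

theorem ro_of (a b : unitary (H →L[ℂ] H)) (c : Bool) :
    ro a b (FreeGroup.of c) = if c then (b : H →L[ℂ] H) else a := by
  unfold ro rho
  rw [FreeGroup.lift_apply_of]
  cases c <;> rfl

theorem ro_ind (a b : unitary (H →L[ℂ] H)) (M : Set (H →L[ℂ] H)) (h1 : (1 : H →L[ℂ] H) ∈ M)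
    (hm : ∀ x ∈ M, ∀ y ∈ M, x * y ∈ M) (ha : (a : H →L[ℂ] H) ∈ M) (hb : (b : H →L[ℂ] H) ∈ M)
    (ha' : star (a : H →L[ℂ] H) ∈ M) (hb' : star (b : H →L[ℂ] H) ∈ M) : ∀ g, ro a b g ∈ M := by
  intro g
  induction g using FreeGroup.induction_on with
  | C1 => rw [ro_one]; exact h1
  | of c =>
    rw [ro_of]
    cases c
    · exact ha
    · exact hb
  | inv_of c _ =>
    rw [ro_inv, ro_of]
    cases c
    · exact ha'
    · exact hb'
  | mul x y hx hy =>
    rw [ro_mul]
    exact hm _ hx _ hy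

theorem CC_mono {A : Type} [CStarAlgebra A] {s t : Set A} (h : s ⊆ t) : CC s ≤ CC t := by
  unfold CC
  exact StarSubalgebra.topologicalClosure_mono (StarAlgebra.adjoin_mono h)

theorem sub_CC {A : Type} [CStarAlgebra A] {s : Set A} {x : A} (hx : x ∈ s) : x ∈ CC s :=
  StarSubalgebra.le_topologicalClosure _ (StarAlgebra.subset_adjoin ℂ s hx)

end op

end SPANaux

open SPANaux

theorem t_SPAN : S_SPAN := by
  intro κ H _ _ _ F i₀ i₁ σ a b hS m N kap t ε' hker
  set p := pt F a b with hp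
  set W := Submodule.span ℂ (Set.range (ev p)) with hW
  have hW1 : (1 : H →L[ℂ] H) ∈ W := span_one p
  have hWm : ∀ x ∈ W, ∀ y ∈ W, x * y ∈ W := fun x hx y hy => span_mul p hx hy
  have hWl : ∀ l, p l ∈ W := fun l => span_letter p l
  have hro : ∀ g, ro a b g ∈ W := by
    refine ro_ind a b (W : Set (H →L[ℂ] H)) hW1 hWm ?_ ?_ ?_ ?_
    · exact hWl (Sum.inr (false, true))
    · exact hWl (Sum.inr (true, true))
    · exact hWl (Sum.inr (false, false))
    · exact hWl (Sum.inr (true, false))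
  have hros : ∀ g, star (ro a b g) ∈ W := fun g => by rw [← ro_inv]; exact hro _
  have hPW : PP F i₀ a b m ∈ W :=
    hWm _ (hWm _ (hros _) _ (hWl (Sum.inl i₀))) _ (hro _)
  have hUW : ∀ k, Up (PP F i₀ a b m) k ∈ W :=
    Up_mem (W : Set (H →L[ℂ] H)) hW1 hWm (fun x hx y hy => W.sub_mem hx hy) _ hPW
  have hbim : bim (PP F i₀ a b m) (F.S σ) N kap ∈ W := by
    unfold bim
    refine W.sum_mem fun k _ => W.sum_mem fun l _ => W.smul_mem _ ?_
    exact hWm _ (hWm _ (hUW k) _ (hWl (Sum.inl σ))) _ (hUW l)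
  have hhW : hh F i₀ σ a b m N kap t ∈ W := by
    unfold hh cj
    refine W.sum_mem fun g _ => W.smul_mem _ ?_
    exact hWm _ (hWm _ (hro g) _ (W.smul_mem _ hbim)) _ (hros g)
  have hstP : star (PP F i₀ a b m) = PP F i₀ a b m := by
    unfold PP
    rw [star_mul, star_mul, star_star, S_star, mul_assoc]
  have hstU : ∀ k, star (Up (PP F i₀ a b m) k) = Up (PP F i₀ a b m) k := Up_star _ hstP
  have hstb : star (bim (PP F i₀ a b m) (F.S σ) N kap) =
      - bim (PP F i₀ a b m) (F.S σ) N kap := by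
    unfold bim
    simp only [star_sum]
    rw [Finset.sum_comm, ← Finset.sum_neg_distrib]
    refine Finset.sum_congr rfl fun k _ => ?_
    rw [← Finset.sum_neg_distrib]
    refine Finset.sum_congr rfl fun l _ => ?_
    rw [star_smul, star_mul, star_mul, hstU, hstU, S_star, ← mul_assoc, hker.anti k l]
    simp
  have hstK : star (KK F i₀ σ a b m N kap) = KK F i₀ σ a b m N kap := by
    unfold KK
    rw [star_smul, hstb]
    simp
  have hsth : star (hh F i₀ σ a b m N kap t) = hh F i₀ σ a b m N kap t := by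
    unfold hh cj
    rw [Finsupp.sum, star_sum]
    refine Finset.sum_congr rfl fun g _ => ?_
    rw [star_smul, star_mul, star_mul, star_star, hstK, mul_assoc]
    simp
  have hptst : ∀ l, p (linv l) = star (p l) := by
    intro l
    rcases l with i | ⟨c, e⟩
    · exact (S_star F i).symm
    · cases e <;> simp [hp, pt, linv]
  have hCa : (a : H →L[ℂ] H) ∈ F.DD σ :=
    CC_mono (by rintro _ ⟨⟩; exact ⟨i₀, hS.h0, rfl⟩) hS.ma
  have hCb : (b : H →L[ℂ] H) ∈ F.DD σ :=
    CC_mono (by rintro _ ⟨⟩; exact ⟨i₁, hS.h1, rfl⟩) hS.mb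
  have hDA : F.DD σ ≤ F.AA := CC_mono (by rintro _ ⟨i, _, rfl⟩; exact ⟨i, rfl⟩)
  have hroD : ∀ g, ro a b g ∈ F.DD σ := by
    refine ro_ind a b (F.DD σ : Set (H →L[ℂ] H)) (one_mem _) (fun x hx y hy => mul_mem hx hy)
      hCa hCb (star_mem hCa) (star_mem hCb)
  have hPD : PP F i₀ a b m ∈ F.DD σ :=
    mul_mem (mul_mem (star_mem (hroD _)) (sub_CC ⟨i₀, hS.h0, rfl⟩)) (hroD _)
  refine ⟨hro, hUW, ?_, hptst, ?_, ?_, hroD, ?_⟩
  · intro l
    rcases l with i | ⟨c, e⟩
    · simp only [eta]
      split_ifs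
      · exact W.neg_mem hPW
      · exact W.smul_mem _ (W.sub_mem (hWm _ (hWl (Sum.inl i)) _ hhW) (hWm _ hhW _ (hWl (Sum.inl i))))
      · exact W.zero_mem
    · simp only [eta]
      split_ifs
      · exact W.smul_mem _ (W.sub_mem (hWm _ (hWl _) _ hhW) (hWm _ hhW _ (hWl _)))
      · exact W.zero_mem
  · intro l
    have key : ∀ y z : H →L[ℂ] H, z = star y → ∀ h : H →L[ℂ] H, star h = h →
        Complex.I • (z * h - h * z) = star (Complex.I • (y * h - h * y)) := by
      intro y z hz h hh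
      rw [star_smul, star_sub, star_mul, star_mul, hh, hz]
      simp only [RCLike.star_def, Complex.conj_I, neg_smul, ← smul_neg, neg_sub]
    rcases l with i | ⟨c, e⟩
    · simp only [eta, linv]
      split_ifs
      · rw [star_neg, hstP]
      · exact key _ _ (S_star F i).symm _ hsth
      · rw [star_zero]
    · have hl := hptst (Sum.inr (c, e))
      simp only [linv] at hl
      simp only [eta, linv]
      split_ifs
      · exact key _ _ hl _ hsth
      · rw [star_zero]
  · intro l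
    rcases l with i | ⟨c, e⟩
    · exact sub_CC ⟨i, rfl⟩
    · cases c <;> cases e
      · exact star_mem (hDA hCa)
      · exact hDA hCa
      · exact star_mem (hDA hCb)
      · exact hDA hCb
  · exact Up_mem (F.DD σ : Set (H →L[ℂ] H)) (one_mem _) (fun x hx y hy => mul_mem hx hy)
      (fun x hx y hy => sub_mem hx hy) _ hPD

end Pool.Agent.H875R.FP
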