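import Mathlib
import Pool.Agent.H875R.FP.Stubs2

/-! Task ST (helper485): centred elements of `C*(S_i)` create the letter `i`. -/

set_option autoImplicit false

namespace Pool.Agent.H875R.FP

namespace TSTaux

open scoped InnerProductSpace

variable {κ H : Type} [NormedAddCommGroup H] [InnerProductSpace ℂ H] [CompleteSpace H]

theorem ext_e (F : Fock κ H) {x y : H} (h : ∀ w, inner ℂ (F.e w) x = inner ℂ (F.e w) y) :
    x = y := by
  apply F.e.repr.injective
  ext w
  rw [F.e.repr_apply_apply, F.e.repr_apply_apply, h]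

open Classical in
theorem inner_e (F : Fock κ H) (w w' : List κ) :
    (inner ℂ (F.e w) (F.e w') : ℂ) = if w = w' then 1 else 0 :=
  (orthonormal_iff_ite.1 F.e.orthonormal) w w'

theorem star_cr_inner (F : Fock κ H) (i : κ) (w : List κ) (x : H) :
    (inner ℂ (F.e w) (star (F.cr i) x) : ℂ) = inner ℂ (F.e (i :: w)) x := by
  rw [ContinuousLinearMap.star_eq_adjoint, ContinuousLinearMap.adjoint_inner_right, F.cr_e]

theorem star_cr_cons (F : Fock κ H) (i : κ) (w : List κ) : star (F.cr i) (F.e (i :: w)) = F.e w := by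
  classical
  apply ext_e F
  intro w'
  rw [star_cr_inner, inner_e, inner_e]
  simp

theorem star_cr_not (F : Fock κ H) (i : κ) (w : List κ) (hw : ∀ w', w ≠ i :: w') :
    star (F.cr i) (F.e w) = 0 := by
  classical
  apply ext_e F
  intro w'
  rw [star_cr_inner, inner_e, inner_zero_right, if_neg (fun h => hw w' h.symm)]

theorem S_cons (F : Fock κ H) (i : κ) (w : List κ) :
    F.S i (F.e (i :: w)) = F.e (i :: i :: w) + F.e w := by
  unfold Fock.S
  rw [add_apply, F.cr_e, star_cr_cons]

theorem S_not (F : Fock κ H) (i : κ) (w : List κ) (hw : ∀ w', w ≠ i :: w') :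
    F.S i (F.e w) = F.e (i :: w) := by
  unfold Fock.S
  rw [add_apply, F.cr_e, star_cr_not F i w hw, add_zero]

theorem Up_e (F : Fock κ H) (i : κ) : ∀ (n : ℕ) (w : List κ), (∀ w', w ≠ i :: w') →
    Up (F.S i) n (F.e w) = F.e (List.replicate n i ++ w)
  | 0, w, _ => rfl
  | 1, w, hw => S_not F i w hw
  | n + 2, w, hw => by
    have h1 := Up_e F i (n + 1) w hw
    have h2 := Up_e F i n w hw
    show F.S i (Up (F.S i) (n + 1) (F.e w)) - Up (F.S i) n (F.e w) = _
    rw [h1, h2, List.replicate_succ, List.cons_append, S_cons]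
    rw [add_sub_cancel_right]
    rfl

theorem star_S (F : Fock κ H) (i : κ) : star (F.S i) = F.S i := by
  unfold Fock.S
  rw [star_add, star_star, add_comm]

theorem Up_comm {R : Type} [Ring R] (x : R) : ∀ n : ℕ, x * Up x n = Up x n * x
  | 0 => by show x * 1 = 1 * x; rw [mul_one, one_mul]
  | 1 => rfl
  | n + 2 => by
    have h1 := Up_comm x (n + 1)
    have h2 := Up_comm x n
    show x * (x * Up x (n + 1) - Up x n) = (x * Up x (n + 1) - Up x n) * x
    rw [mul_sub, sub_mul, h2, mul_assoc x, ← h1]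

theorem star_Up (F : Fock κ H) (i : κ) : ∀ n : ℕ, star (Up (F.S i) n) = Up (F.S i) n
  | 0 => star_one _
  | 1 => star_S F i
  | n + 2 => by
    have h1 := star_Up F i (n + 1)
    have h2 := star_Up F i n
    show star (F.S i * Up (F.S i) (n + 1) - Up (F.S i) n) = F.S i * Up (F.S i) (n + 1) - Up (F.S i) n
    rw [star_sub, star_mul, h1, h2, star_S, Up_comm]

/-- the elements which satisfy the claim -/
def Q (F : Fock κ H) (i : κ) : Set (H →L[ℂ] H) :=
  {y | ∀ w : List κ, (∀ w', w ≠ i :: w') → ∀ ξ : H, F.NotSt i ξ →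
    (inner ℂ (F.e w) (y ξ) : ℂ) = F.tau y * inner ℂ (F.e w) ξ}

theorem Q_closed (F : Fock κ H) (i : κ) : IsClosed (Q F i) := by
  have h : Q F i = ⋂ (w : List κ) (_ : ∀ w', w ≠ i :: w') (ξ : H) (_ : F.NotSt i ξ),
      {y : H →L[ℂ] H | (inner ℂ (F.e w) (y ξ) : ℂ) = F.tau y * inner ℂ (F.e w) ξ} := by
    ext y
    simp only [Q, Set.mem_ofPred_eq, Set.mem_iInter]
  rw [h]
  refine isClosed_iInter fun w => isClosed_iInter fun _ => isClosed_iInter fun ξ =>
    isClosed_iInter fun _ => ?_
  apply isClosed_eq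
  · fun_prop
  · unfold Fock.tau
    fun_prop

theorem Q_add (F : Fock κ H) (i : κ) {x y : H →L[ℂ] H} (hx : x ∈ Q F i) (hy : y ∈ Q F i) :
    x + y ∈ Q F i := by
  intro w hw ξ hξ
  have h1 := hx w hw ξ hξ
  have h2 := hy w hw ξ hξ
  have h3 : F.tau (x + y) = F.tau x + F.tau y := by
    unfold Fock.tau
    rw [add_apply, inner_add_right]
  rw [add_apply, inner_add_right, h1, h2, h3]
  ring

theorem Q_smul (F : Fock κ H) (i : κ) (c : ℂ) {x : H →L[ℂ] H} (hx : x ∈ Q F i) :
    c • x ∈ Q F i := by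
  intro w hw ξ hξ
  have h1 := hx w hw ξ hξ
  have h3 : F.tau (c • x) = c * F.tau x := by
    unfold Fock.tau
    rw [smul_apply, inner_smul_right]
  rw [smul_apply, inner_smul_right, h1, h3]
  ring

theorem Q_Up (F : Fock κ H) (i : κ) (n : ℕ) : Up (F.S i) n ∈ Q F i := by
  classical
  intro w hw ξ hξ
  have h1 : (inner ℂ (F.e w) (Up (F.S i) n ξ) : ℂ) = inner ℂ (F.e (List.replicate n i ++ w)) ξ := by
    rw [← Up_e F i n w hw]
    conv_lhs => rw [← star_Up F i n]
    rw [ContinuousLinearMap.star_eq_adjoint, ContinuousLinearMap.adjoint_inner_right]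
  have h2 : F.tau (Up (F.S i) n) = if n = 0 then 1 else 0 := by
    unfold Fock.tau Fock.Om
    rw [Up_e F i n [] (fun w' h => by simp at h), inner_e]
    cases n with
    | zero => simp
    | succ n => simp [List.replicate_succ]
  rw [h1, h2]
  cases n with
  | zero => simp
  | succ n =>
    rw [List.replicate_succ, List.cons_append, hξ]
    simp

/-- polynomials in `S i` are combinations of Chebyshev polynomials -/
theorem mul_mem {R : Type} [Ring R] [Algebra ℂ R] (x y : R)
    (hy : y ∈ Submodule.span ℂ (Set.range (Up x))) :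
    x * y ∈ Submodule.span ℂ (Set.range (Up x)) := by
  induction hy using Submodule.span_induction with
  | mem y hy =>
    obtain ⟨n, rfl⟩ := hy
    cases n with
    | zero =>
      have : x * Up x 0 = Up x 1 := mul_one x
      rw [this]
      exact Submodule.subset_span ⟨1, rfl⟩
    | succ n =>
      have : x * Up x (n + 1) = Up x (n + 2) + Up x n := by
        show _ = (x * Up x (n + 1) - Up x n) + Up x n
        rw [sub_add_cancel]
      rw [this]
      exact Submodule.add_mem _ (Submodule.subset_span ⟨n + 2, rfl⟩)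
        (Submodule.subset_span ⟨n, rfl⟩)
  | zero => rw [mul_zero]; exact Submodule.zero_mem _
  | add y z _ _ h1 h2 => rw [mul_add]; exact Submodule.add_mem _ h1 h2
  | smul c y _ h1 => rw [mul_smul_comm]; exact Submodule.smul_mem _ c h1

theorem aeval_mem {R : Type} [Ring R] [Algebra ℂ R] (x : R) (p : Polynomial ℂ) :
    Polynomial.aeval x p ∈ Submodule.span ℂ (Set.range (Up x)) := by
  have hpow : ∀ n : ℕ, x ^ n ∈ Submodule.span ℂ (Set.range (Up x)) := by
    intro n
    induction n with
    | zero => rw [pow_zero]; exact Submodule.subset_span ⟨0, rfl⟩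
    | succ n ih => rw [pow_succ']; exact mul_mem x _ ih
  rw [Polynomial.aeval_eq_sum_range]
  exact Submodule.sum_mem _ fun k _ => Submodule.smul_mem _ _ (hpow k)

theorem span_Q (F : Fock κ H) (i : κ) {y : H →L[ℂ] H}
    (hy : y ∈ Submodule.span ℂ (Set.range (Up (F.S i)))) : y ∈ Q F i := by
  induction hy using Submodule.span_induction with
  | mem y hy =>
    obtain ⟨n, rfl⟩ := hy
    exact Q_Up F i n
  | zero =>
    have := Q_smul F i 0 (Q_Up F i 0)
    rwa [zero_smul] at this
  | add y z _ _ h1 h2 => exact Q_add F i h1 h2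
  | smul c y _ h1 => exact Q_smul F i c h1

theorem adjoin_Q (F : Fock κ H) (i : κ) {y : H →L[ℂ] H}
    (hy : y ∈ StarAlgebra.adjoin ℂ {F.S i}) : y ∈ Q F i := by
  have h1 : y ∈ (StarAlgebra.adjoin ℂ {F.S i}).toSubalgebra := hy
  rw [StarAlgebra.adjoin_toSubalgebra] at h1
  have h2 : ({F.S i} ∪ star {F.S i} : Set (H →L[ℂ] H)) = {F.S i} := by
    rw [Set.star_singleton, star_S, Set.union_self]
  rw [h2, Algebra.adjoin_singleton_eq_range_aeval] at h1
  obtain ⟨p, hp⟩ := h1
  rw [← hp]
  exact span_Q F i (aeval_mem _ p)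

end TSTaux

open TSTaux in
theorem t_ST : S_ST := by
  intro κ H _ _ _ F i y hy hτ ξ hξ w hw
  have h1 : y ∈ Q F i := by
    have h2 : y ∈ closure ((StarAlgebra.adjoin ℂ {F.S i} : StarSubalgebra ℂ (H →L[ℂ] H)) :
        Set (H →L[ℂ] H)) := hy
    exact closure_minimal (fun z hz => adjoin_Q F i hz) (Q_closed F i) h2
  rw [h1 w hw ξ hξ, hτ, zero_mul]

end Pool.Agent.H875R.FP
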