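import Mathlib
import Pool.Agent.H875R.FP.Stubs2

/-! Task STAGE: the stage lemma. -/

namespace Pool.Agent.H875R.FP

open Pool.Agent.H667R3.FF (ev splits)
open Pool.Agent.H581R.FF (n2 act)
open scoped ComplexConjugate

namespace StageAux

theorem blk_mem (i : ℕ) : blk i ∈ Kev := by
  unfold blk
  rw [pow_mul]
  refine Subgroup.pow_mem _ ?_ i
  refine Subgroup.subset_closure ?_
  cases (i % 2 == 0) <;> simp

theorem zz_mem (m i : ℕ) : zz m i ∈ Kev := by
  unfold zz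
  refine Subgroup.list_prod_mem _ ?_
  intro x hx
  rw [List.mem_map] at hx
  obtain ⟨j, _, rfl⟩ := hx
  exact blk_mem j

theorem act_supp (x : G2) (t : G2 →₀ ℝ) (hx : x ∈ Kev)
    (ht : t ∈ Finsupp.supported ℝ ℝ (Kev : Set G2)) :
    act x t ∈ Finsupp.supported ℝ ℝ (Kev : Set G2) := by
  classical
  rw [Finsupp.mem_supported] at ht ⊢
  intro g hg
  have h := Finsupp.mapDomain_support hg
  rw [Finset.mem_image] at h
  obtain ⟨g', hg', rfl⟩ := h
  exact Kev.mul_mem hx (ht hg')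

theorem Zt_supp (m : ℕ) (t : G2 →₀ ℝ) (ht : ∀ g ∈ t.support, g ∈ Kev) :
    ∀ g ∈ (Zt m t - Finsupp.single 1 1).support, g ∈ Kev := by
  have ht' : t ∈ Finsupp.supported ℝ ℝ (Kev : Set G2) := by
    rw [Finsupp.mem_supported]; exact fun g hg => ht g hg
  have h : Zt m t - Finsupp.single 1 1 ∈ Finsupp.supported ℝ ℝ (Kev : Set G2) := by
    refine Submodule.sub_mem _ ?_ ?_
    · unfold Zt
      refine Submodule.sum_mem _ fun i _ => Submodule.smul_mem _ _ ?_
      exact act_supp _ _ (Kev.inv_mem (zz_mem m (i + 1))) ht'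
    · exact Finsupp.single_mem_supported ℝ _ Kev.one_mem
  rw [Finsupp.mem_supported] at h
  exact fun g hg => h hg

theorem fm_symm {ε : ℝ} {N : ℕ} {kap : ℕ → ℕ → ℝ} (hk : Ker ε N kap) (k l : ℕ) :
    fm kap l k = 1 * fm kap k l := by
  unfold fm
  have h := hk.anti
  rcases k with _ | k <;> rcases l with _ | l
  · simp
  · have h1 := h l 0
    have h2 := h (l + 2) 0
    have h3 := h (l + 1) 1
    have h4 := h 0 (l+1)
    simp
    linarith [h (l+1+1) 0]
  · have h1 := h k 0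
    have h2 := h (k + 2) 0
    have h3 := h (k + 1) 1
    have h4 := h 0 (k+1)
    simp
    linarith [h (k+1+1) 0]
  · simp
    linarith [h l (k+1), h (l+1+1) (k+1), h (l+1) k, h (l+1) (k+1+1)]

theorem Up_cont (l : ℕ) : Continuous fun y : ℝ => Up y l := by
  induction l using Nat.strong_induction_on with
  | _ l ih =>
    rcases l with _ | _ | l
    · simp only [Up]; exact continuous_const
    · simp only [Up]; exact continuous_id
    · simp only [Up]
      exact (continuous_id.mul (ih (l + 1) (by omega))).sub (ih l (by omega))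

theorem exB (N : ℕ) (kap : ℕ → ℕ → ℝ) : ∃ B : ℝ, 0 ≤ B ∧ ∀ y : ℝ, |y| ≤ 2 →
    ∑ k ∈ Finset.range N, (∑ l ∈ Finset.range N, kap k l * Up y l) ^ 2 ≤ B ^ 2 := by
  have hc : Continuous fun y : ℝ =>
      ∑ k ∈ Finset.range N, (∑ l ∈ Finset.range N, kap k l * Up y l) ^ 2 := by
    refine continuous_finsetSum _ fun k _ => (continuous_finsetSum _ fun l _ => ?_).pow 2
    exact continuous_const.mul (Up_cont l)
  obtain ⟨C, hC⟩ := (isCompact_Icc (a := (-2 : ℝ)) (b := 2)).exists_bound_of_continuousOn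
    hc.continuousOn
  refine ⟨|C| + 1, by positivity, fun y hy => ?_⟩
  have h1 := hC y (by rw [Set.mem_Icc]; exact abs_le.mp hy)
  rw [Real.norm_eq_abs] at h1
  have h2 := le_abs_self (∑ k ∈ Finset.range N, (∑ l ∈ Finset.range N, kap k l * Up y l) ^ 2)
  have h3 := le_abs_self C
  nlinarith [abs_nonneg C]

variable {κ H : Type} [NormedAddCommGroup H] [InnerProductSpace ℂ H] [CompleteSpace H]

theorem cj_smul (a b : unitary (H →L[ℂ] H)) (t : G2 →₀ ℝ) (c : ℂ) (x : H →L[ℂ] H) :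
    cj a b t (c • x) = c • cj a b t x := by
  unfold cj
  rw [Finsupp.sum, Finsupp.sum, Finset.smul_sum]
  refine Finset.sum_congr rfl fun g _ => ?_
  rw [mul_smul_comm, smul_mul_assoc, smul_comm]

theorem n2_single : n2 (Finsupp.single (1 : G2) (1 : ℝ)) = 1 := by
  unfold n2
  rw [Finsupp.support_single_ne_zero _ one_ne_zero]
  simp

theorem norm_conj_le (a b : unitary (H →L[ℂ] H)) (g : G2) (x : H →L[ℂ] H) :
    ‖star (ro a b g) * x * ro a b g‖ ≤ ‖x‖ := by
  have h1 : ‖star (ro a b g) * x * ro a b g‖ = ‖star (ro a b g) * x‖ :=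
    CStarRing.norm_mul_coe_unitary _ _
  have h2 : ‖star (ro a b g) * x‖ = ‖x‖ := by
    have : star (ro a b g) = ((star (rho a b g) : unitary (H →L[ℂ] H)) : H →L[ℂ] H) := by
      simp
    rw [this]
    exact CStarRing.norm_coe_unitary_mul _ _
  rw [h1, h2]

theorem CC_mono {A : Type} [CStarAlgebra A] {s t : Set A} (h : s ⊆ t) : CC s ≤ CC t :=
  StarSubalgebra.topologicalClosure_mono (StarAlgebra.adjoin_mono h)

theorem subset_CC {A : Type} [CStarAlgebra A] (s : Set A) : s ⊆ CC s :=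
  fun _ hx => StarSubalgebra.le_topologicalClosure _ (StarAlgebra.subset_adjoin ℂ s hx)

theorem CC_le {A : Type} [CStarAlgebra A] {s : Set A} {S : StarSubalgebra ℂ A}
    (hS : IsClosed (S : Set A)) (h : s ⊆ S) : CC s ≤ S :=
  StarSubalgebra.topologicalClosure_minimal (StarAlgebra.adjoin_le h) hS

theorem splits_single {α : Type} (a : α) : splits [a] = [([], a, [])] := rfl

theorem dev_single {L B : Type} [Ring B] (p η : L → B) (l : L) : dev p η [l] = η l := by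
  simp [dev, splits, ev]

end StageAux

open StageAux

theorem t_STAGE (hCORE : S_CORE) (hKER : S_KER) (hHAAR : S_HAAR) (hNORMS : S_NORMS)
    (hLAW : S_LAW) (hDERV : S_DERV) (hCJ : S_CJ) (hCOMM : S_COMM) (hFLOW : S_FLOW)
    (hROT : S_ROT) (hSPAN : S_SPAN) (hCYC : S_CYC) (hBAS : S_BAS) : S_STAGE := by
  intro n H _ _ _ F hn ε hε
  obtain ⟨-, -, -, -, -, -, hSnorm, hOm, -, -⟩ := hBAS _ _ F
  -- indices
  obtain ⟨i₀, hi0⟩ : ∃ i₀ : Fin (n + 1), i₀.val = 0 := ⟨⟨0, by omega⟩, rfl⟩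
  obtain ⟨i₁, hi1⟩ : ∃ i₁ : Fin (n + 1), i₁.val = 1 := ⟨⟨1, by omega⟩, rfl⟩
  obtain ⟨σ, hσ⟩ : ∃ σ : Fin (n + 1), σ = Fin.last n := ⟨_, rfl⟩
  have hσv : σ.val = n := by rw [hσ]; rfl
  rw [← hσ]
  obtain ⟨a, ha, ha'⟩ := hHAAR _ _ F i₀
  obtain ⟨b, hb, hb'⟩ := hHAAR _ _ F i₁
  have hset : Setg F i₀ i₁ σ a b := by
    refine ⟨?_, ?_, ?_, ha, hb, ha', hb'⟩
    · intro h; have := congrArg Fin.val h; omega
    · intro h; have := congrArg Fin.val h; omega
    · intro h; have := congrArg Fin.val h; omega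
  -- kernel, bound, core
  obtain ⟨N, kap, hK⟩ := hKER (ε / 16) (by positivity)
  obtain ⟨B, hB0, hB⟩ := exB N kap
  obtain ⟨m, t, hT⟩ := hCORE (ε / (64 * (B + 1))) (by positivity)
  have hδ : ε / (64 * (B + 1)) * B ≤ ε / 64 := by
    rw [div_mul_eq_mul_div, div_le_div_iff₀ (by positivity) (by positivity)]
    nlinarith
  obtain ⟨hS1, hS2, hS3, hS4, hS5, hS6, hS7, hS8⟩ := hSPAN _ _ F i₀ i₁ σ a b hset m N kap t _ hK
  obtain ⟨P, hP⟩ : ∃ P, P = PP F i₀ a b m := ⟨_, rfl⟩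
  obtain ⟨K, hKd⟩ : ∃ K, K = KK F i₀ σ a b m N kap := ⟨_, rfl⟩
  obtain ⟨h, hhd⟩ : ∃ h, h = hh F i₀ σ a b m N kap t := ⟨_, rfl⟩
  have hcjK : ∀ t' : G2 →₀ ℝ, (∀ g ∈ t'.support, g ∈ Kev) → ‖cj a b t' K‖ ≤ 2 * (n2 t' * B) := by
    intro t' ht'
    have h1 := hNORMS _ _ F i₀ i₁ σ a b hset m N kap (-1) t' B (Or.inr rfl)
      (fun k l => by rw [hK.anti l k]; ring) ht' hB0 hB
    rw [hKd, KK, cj_smul, norm_smul]
    simpa using h1
  have hn2 : ∀ x : G2 →₀ ℝ, n2 x ≤ ε / (64 * (B + 1)) → 2 * (n2 x * B) ≤ ε / 32 := by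
    intro x hx
    have := mul_le_mul_of_nonneg_right hx hB0
    linarith
  have hh_norm : ‖h‖ ≤ ε / 32 := by
    rw [hhd, hh, ← hKd]
    exact (hcjK t hT.supp).trans (hn2 _ hT.small)
  -- the derivative of P
  obtain ⟨w, hw1, hw2⟩ := hDERV _ _ F i₀ i₁ σ a b hset m h P hT.odd
  rw [← hP] at hw1 hw2
  obtain ⟨hC1, -, -⟩ := hCJ H a b m t t K
  have hC2 := (hCJ H a b m (Zt m t) (Finsupp.single 1 1) K).2.1
  have hC3 := (hCJ H a b m t t K).2.2
  obtain ⟨Sg, hSg⟩ : ∃ Sg, Sg = (∑ i ∈ Finset.range m, ((-1 : ℂ) ^ i) •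
      (star (ro a b (zz m (i + 1))) * h * ro a b (zz m (i + 1)))) -
        star (ro a b (vv m)) * h * ro a b (vv m) := ⟨_, rfl⟩
  rw [← hSg] at hw2
  have hSgK : ‖Sg - K‖ ≤ ε / 16 := by
    have e1 : Sg - K = cj a b (Zt m t - Finsupp.single 1 1) K -
        star (ro a b (vv m)) * h * ro a b (vv m) := by
      rw [hC2, hC3, hSg, ← hC1]
      have : h = cj a b t K := by rw [hhd, hh, hKd]
      rw [← this]
      abel
    rw [e1]
    refine (norm_sub_le _ _).trans ?_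
    have e2 := (hcjK _ (Zt_supp m t hT.supp)).trans (hn2 _ hT.inv)
    have e3 := (norm_conj_le a b (vv m) h).trans hh_norm
    linarith
  have hPn : ‖P‖ ≤ 2 := by
    rw [hP, PP]
    exact (norm_conj_le a b (vv m) _).trans (hSnorm i₀)
  have hPK : Complex.I • (P * K - K * P) = F.S σ - bim P (F.S σ) (N + 1) (fm kap) := by
    have := hCOMM H P (F.S σ) N kap _ hK
    rw [← this, hKd, KK, ← hP]
  have hbim : ‖bim P (F.S σ) (N + 1) (fm kap)‖ ≤ ε / 8 := by
    have h1 := hNORMS _ _ F i₀ i₁ σ a b hset m (N + 1) (fm kap) 1 (Finsupp.single 1 1) (ε / 16)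
      (Or.inl rfl) (fm_symm hK) (by
        intro g hg
        rw [Finsupp.support_single_ne_zero _ one_ne_zero, Finset.mem_singleton] at hg
        rw [hg]; exact Kev.one_mem) (by positivity) hK.small
    rw [(hCJ H a b m t t _).2.2, n2_single, ← hP] at h1
    linarith
  -- the error
  obtain ⟨E, hE⟩ : ∃ E, E = dev (pt F a b) (eta F i₁ σ a b h P) w - F.S σ := ⟨_, rfl⟩
  have hEn : ‖E‖ ≤ 3 * ε / 8 := by
    have e1 : E = -bim P (F.S σ) (N + 1) (fm kap) +
        Complex.I • (P * (Sg - K) - (Sg - K) * P) := by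
      have : E = Complex.I • (P * K - K * P) - F.S σ +
        Complex.I • (P * (Sg - K) - (Sg - K) * P) := by
        rw [hE, hw2]
        simp only [mul_sub, sub_mul, smul_sub]
        abel
      rw [this, hPK]
      abel
    rw [e1]
    refine (norm_add_le _ _).trans ?_
    rw [norm_neg, norm_smul, Complex.norm_I, one_mul]
    have e2 : ‖P * (Sg - K) - (Sg - K) * P‖ ≤ 2 * (2 * (ε / 16)) := by
      refine (norm_sub_le _ _).trans ?_
      have e3 : ‖P * (Sg - K)‖ ≤ 2 * (ε / 16) :=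
        (norm_mul_le _ _).trans (mul_le_mul hPn hSgK (norm_nonneg _) (by norm_num))
      have e4 : ‖(Sg - K) * P‖ ≤ (ε / 16) * 2 :=
        (norm_mul_le _ _).trans (mul_le_mul hSgK hPn (norm_nonneg _) (by positivity))
      linarith
    linarith
  -- the flow
  rw [← hhd, ← hP] at hS3 hS5
  have hcyc : ∀ (ξ : H) (ε : ℝ), 0 < ε →
      ∃ x ∈ Submodule.span ℂ (Set.range (ev (pt F a b))), ‖ξ - x F.Om‖ < ε := by
    intro ξ e he
    obtain ⟨x, hx, hx'⟩ := hCYC _ _ F ξ e he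
    refine ⟨x, Submodule.span_mono ?_ hx, hx'⟩
    rintro _ ⟨v, rfl⟩
    refine ⟨v.map Sum.inl, ?_⟩
    simp [ev, List.map_map, Function.comp_def, pt]
  have hlaw : ∀ v : List (Lt (Fin (n + 1))), (inner ℂ F.Om
      (dev (pt F a b) (eta F i₁ σ a b h P) v F.Om) : ℂ) = 0 := by
    intro v
    have := hLAW _ _ F i₀ i₁ σ a b hset m N kap t _ _ hT hK v
    rw [← hhd, ← hP] at this
    exact this
  obtain ⟨h₀, hh0, C, hflow⟩ := hFLOW (Lt (Fin (n + 1))) H F.Om linv (pt F a b)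
    (eta F i₁ σ a b h P) hOm (by rintro (i | ⟨c, e⟩) <;> simp [linv]) hS4 hS5 hS3 hcyc hlaw
  have hclosed : IsClosed (F.AA : Set (H →L[ℂ] H)) := by
    unfold Fock.AA; infer_instance
  have hSmem : ∀ i, F.S i ∈ F.AA := fun i => subset_CC _ ⟨i, rfl⟩
  have hAA : CC (Set.range (pt F a b)) = F.AA := by
    apply le_antisymm
    · refine CC_le hclosed ?_
      rintro _ ⟨l, rfl⟩
      exact hS6 l
    · refine CC_mono ?_
      rintro _ ⟨i, rfl⟩
      exact ⟨Sum.inl i, rfl⟩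
  rw [hAA] at hflow
  have hPD : P ∈ F.DD σ := by
    have := hS8 1
    rw [← hP] at this
    simpa [Up] using this
  have hPA : P ∈ F.AA := by
    refine CC_mono ?_ hPD
    rintro _ ⟨i, -, rfl⟩
    exact ⟨i, rfl⟩
  have := hclosed
  -- E in the algebra
  have hKA : ∀ x ∈ Submodule.span ℂ (Set.range (ev (pt F a b))), x ∈ F.AA := by
    intro x hx
    have : Submodule.span ℂ (Set.range (ev (pt F a b))) ≤ F.AA.toSubalgebra.toSubmodule := by
      rw [Submodule.span_le]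
      rintro _ ⟨v, rfl⟩
      have : ev (pt F a b) v ∈ F.AA := by
        unfold ev
        refine list_prod_mem ?_
        intro y hy
        rw [List.mem_map] at hy
        obtain ⟨l, -, rfl⟩ := hy
        exact hS6 l
      exact this
    exact this hx
  have hdevA : ∀ v, dev (pt F a b) (eta F i₁ σ a b h P) v ∈ F.AA := by
    intro v
    unfold dev
    refine list_sum_mem ?_
    intro y hy
    rw [List.mem_map] at hy
    obtain ⟨⟨v1, l, v2⟩, -, rfl⟩ := hy
    exact mul_mem (mul_mem (hKA _ (Submodule.subset_span ⟨_, rfl⟩)) (hKA _ (hS3 l)))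
      (hKA _ (Submodule.subset_span ⟨_, rfl⟩))
  have hEA : E ∈ F.AA := by rw [hE]; exact sub_mem (hdevA w) (hSmem σ)
  have hrot := hROT F.AA n ⟨P, hPA⟩ ⟨F.S σ, hSmem σ⟩ ⟨E, hEA⟩
    (fun i => ⟨F.S i.castSucc, hSmem _⟩) (fun _ => 4 * ‖h‖) h₀
    (|C w| + |C [Sum.inl σ]| + ∑ i : Fin n, |C [Sum.inl i.castSucc]|) hh0 (by positivity)
    (fun _ => by positivity) ?_ (ε / 8) (by positivity)
  · obtain ⟨α, hα1, hα2⟩ := hrot
    refine ⟨α, ?_, ⟨P, hPA⟩, hPD, ?_⟩
    · intro i x hx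
      have hx' : x = ⟨F.S i.castSucc, hSmem _⟩ := Subtype.ext hx
      rw [hx']
      have := hα2 i
      linarith
    · have h1 : ‖(⟨E, hEA⟩ : F.AA)‖ = ‖E‖ := rfl
      rw [h1] at hα1
      have h2 : ‖α ⟨P, hPA⟩ - ⟨F.S σ, hSmem σ⟩‖ =
        ‖((α ⟨P, hPA⟩ : F.AA) : H →L[ℂ] H) - F.S σ‖ := rfl
      rw [← h2]
      linarith
  · intro r hr0 hr1
    obtain ⟨α, hα⟩ := hflow r hr0 hr1
    have hsum : 0 ≤ ∑ i : Fin n, |C [Sum.inl i.castSucc]| :=
      Finset.sum_nonneg fun _ _ => abs_nonneg _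
    refine ⟨α, ?_, ?_, ?_⟩
    · have h1 := hα w ⟨P, hPA⟩ hw1.symm
      have e : ‖α ⟨P, hPA⟩ - ⟨P, hPA⟩ - (r : ℂ) • (⟨F.S σ, hSmem σ⟩ + ⟨E, hEA⟩)‖ =
        ‖((α ⟨P, hPA⟩ : F.AA) : H →L[ℂ] H) - P - (r : ℂ) • (F.S σ + E)‖ := rfl
      have e2 : F.S σ + E = dev (pt F a b) (eta F i₁ σ a b h P) w := by rw [hE]; abel
      rw [e, e2]
      rw [hw1] at h1
      refine h1.trans (mul_le_mul_of_nonneg_right ?_ (sq_nonneg r))
      have := le_abs_self (C w)
      have h3 : 0 ≤ |C [Sum.inl σ]| := abs_nonneg _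
      linarith
    · have h1 := hα [Sum.inl σ] ⟨F.S σ, hSmem σ⟩ (by simp [ev, pt])
      have e : ‖α ⟨F.S σ, hSmem σ⟩ - ⟨F.S σ, hSmem σ⟩ + (r : ℂ) • ⟨P, hPA⟩‖ =
        ‖((α ⟨F.S σ, hSmem σ⟩ : F.AA) : H →L[ℂ] H) - F.S σ + (r : ℂ) • P‖ := rfl
      have e2 : ev (pt F a b) [Sum.inl σ] = F.S σ := by simp [ev, pt]
      have e3 : eta F i₁ σ a b h P (Sum.inl σ) = -P := by simp [eta]
      rw [e]
      rw [e2, dev_single, e3, smul_neg, sub_neg_eq_add] at h1
      refine h1.trans (mul_le_mul_of_nonneg_right ?_ (sq_nonneg r))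
      have := le_abs_self (C [Sum.inl σ])
      have h3 : 0 ≤ |C w| := abs_nonneg _
      linarith
    · intro i
      have h1 := hα [Sum.inl i.castSucc] ⟨F.S i.castSucc, hSmem _⟩ (by simp [ev, pt])
      have e : ‖α ⟨F.S i.castSucc, hSmem _⟩ - ⟨F.S i.castSucc, hSmem _⟩‖ =
        ‖((α ⟨F.S i.castSucc, hSmem _⟩ : F.AA) : H →L[ℂ] H) - F.S i.castSucc‖ := rfl
      have e2 : ev (pt F a b) [Sum.inl i.castSucc] = F.S i.castSucc := by simp [ev, pt]
      rw [e]
      rw [e2, dev_single] at h1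
      have hne : i.castSucc ≠ σ := by
        intro hc
        have := congrArg Fin.val hc
        rw [hσv] at this
        have := i.isLt
        simp at *
        omega
      have e3 : ‖eta F i₁ σ a b h P (Sum.inl i.castSucc)‖ ≤ 4 * ‖h‖ := by
        unfold eta
        simp only [hne, if_false]
        split_ifs with hc
        · rw [norm_smul, Complex.norm_I, one_mul]
          refine (norm_sub_le _ _).trans ?_
          have e4 : ‖F.S i.castSucc * h‖ ≤ 2 * ‖h‖ :=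
            (norm_mul_le _ _).trans (mul_le_mul_of_nonneg_right (hSnorm _) (norm_nonneg _))
          have e5 : ‖h * F.S i.castSucc‖ ≤ ‖h‖ * 2 :=
            (norm_mul_le _ _).trans (mul_le_mul_of_nonneg_left (hSnorm _) (norm_nonneg _))
          linarith
        · rw [norm_zero]; positivity
      have e6 : ((α ⟨F.S i.castSucc, hSmem _⟩ : F.AA) : H →L[ℂ] H) - F.S i.castSucc =
        (((α ⟨F.S i.castSucc, hSmem _⟩ : F.AA) : H →L[ℂ] H) - F.S i.castSucc -
          (r : ℂ) • eta F i₁ σ a b h P (Sum.inl i.castSucc)) +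
          (r : ℂ) • eta F i₁ σ a b h P (Sum.inl i.castSucc) := by abel
      rw [e6]
      refine (norm_add_le _ _).trans ?_
      have e7 : ‖(r : ℂ) • eta F i₁ σ a b h P (Sum.inl i.castSucc)‖ ≤ 4 * ‖h‖ * r := by
        rw [norm_smul, Complex.norm_real, Real.norm_eq_abs, abs_of_nonneg hr0, mul_comm]
        exact mul_le_mul_of_nonneg_right e3 hr0
      have e8 : C [Sum.inl i.castSucc] * r ^ 2 ≤ (|C w| + |C [Sum.inl σ]| +
          ∑ i : Fin n, |C [Sum.inl i.castSucc]|) * r ^ 2 := by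
        refine mul_le_mul_of_nonneg_right ?_ (sq_nonneg r)
        have := le_abs_self (C [Sum.inl i.castSucc])
        have h3 : 0 ≤ |C w| := abs_nonneg _
        have h4 : 0 ≤ |C [Sum.inl σ]| := abs_nonneg _
        have h5 : |C [Sum.inl i.castSucc]| ≤ ∑ i : Fin n, |C [Sum.inl i.castSucc]| :=
          Finset.single_le_sum (f := fun i : Fin n => |C [Sum.inl i.castSucc]|)
            (fun _ _ => abs_nonneg _) (Finset.mem_univ i)
        linarith
      linarith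

end Pool.Agent.H875R.FP
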