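import Pool.Agent.H875R.FP.Stubs2

/-! Reduced words in `a, b` acting on vectors. -/

set_option autoImplicit false

namespace Pool.Agent.H875R.FP

namespace STGaux

theorem zpow_mem {A : Type} [CStarAlgebra A] {s : Set A} {u : unitary A}
    (hu : (u : A) ∈ CC s) (n : ℤ) : ((u ^ n : unitary A) : A) ∈ CC s := by
  cases n with
  | ofNat n =>
    simp only [Int.ofNat_eq_natCast, zpow_natCast, SubmonoidClass.coe_pow]
    exact pow_mem hu n
  | negSucc n =>
    rw [zpow_negSucc, ← Unitary.star_eq_inv, Unitary.coe_star, SubmonoidClass.coe_pow]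
    exact star_mem (pow_mem hu _)

theorem CC_mono {A : Type} [CStarAlgebra A] {s t : Set A} (h : s ⊆ t) : CC s ≤ CC t :=
  StarSubalgebra.topologicalClosure_mono (StarAlgebra.adjoin_mono h)

variable {κ H : Type} [NormedAddCommGroup H] [InnerProductSpace ℂ H] [CompleteSpace H]

/-- the letter -/
noncomputable def gn (a b : unitary (H →L[ℂ] H)) (x : Bool) : unitary (H →L[ℂ] H) :=
  if x then b else a

/-- signed letter -/
noncomputable def lt (a b : unitary (H →L[ℂ] H)) (x : Bool × Bool) : unitary (H →L[ℂ] H) :=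
  cond x.2 (gn a b x.1) (gn a b x.1)⁻¹

theorem lt_pow (a b : unitary (H →L[ℂ] H)) (x e : Bool) (k : ℕ) :
    ∃ n : ℤ, n ≠ 0 ∧ lt a b (x, e) ^ (k + 1) = gn a b x ^ n := by
  cases e with
  | true =>
    refine ⟨((k + 1 : ℕ) : ℤ), by positivity, ?_⟩
    rw [zpow_natCast]
    rfl
  | false =>
    refine ⟨-((k + 1 : ℕ) : ℤ), by simp; omega, ?_⟩
    rw [zpow_neg, zpow_natCast, ← inv_pow]
    rfl

theorem st_notSt (F : Fock κ H) {i j : κ} (hij : i ≠ j) {ξ : H} (h : F.St i ξ) : F.NotSt j ξ := by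
  intro w
  apply h
  intro w' e
  injection e with e1 e2
  exact hij e1.symm

theorem st_Om (F : Fock κ H) {i : κ} {ξ : H} (h : F.St i ξ) : inner ℂ F.Om ξ = (0 : ℂ) := by
  apply h
  intro w' e
  cases e

theorem P0_apply (F : Fock κ H) (ξ : H) : F.P0 ξ = (inner ℂ F.Om ξ : ℂ) • F.Om := by
  simp [Fock.P0]

theorem syll (hST : S_ST) (F : Fock κ H) (i₀ i₁ σ : κ) (a b : unitary (H →L[ℂ] H))
    (hS : Setg F i₀ i₁ σ a b) (x e : Bool) (k : ℕ) (η : H)
    (hη : F.NotSt (if x then i₁ else i₀) η) :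
    F.St (if x then i₁ else i₀)
      (((lt a b (x, e) ^ (k + 1) : unitary (H →L[ℂ] H)) : H →L[ℂ] H) η) ∧
    (inner ℂ F.Om η = (0 : ℂ) → ∀ T, F.IsT i₁ T →
      T (((lt a b (x, e) ^ (k + 1) : unitary (H →L[ℂ] H)) : H →L[ℂ] H) η) =
        ((lt a b (x, e) ^ (k + 1) : unitary (H →L[ℂ] H)) : H →L[ℂ] H) (T η)) := by
  obtain ⟨n, hn, hy⟩ := lt_pow a b x e k
  rw [hy]
  cases x with
  | true =>
    simp only [gn, if_true] at hη ⊢
    have hmem := zpow_mem hS.mb n
    have hst := hST κ H F i₁ _ hmem (hS.hb n hn) η hη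
    refine ⟨hst, ?_⟩
    intro h0 T hT
    have h1 := hT.self _ hmem
    have h2 := congrArg (fun f : H →L[ℂ] H => f η) h1
    simp only [sub_apply, ContinuousLinearMap.mul_apply, P0_apply, h0, zero_smul, map_zero,
      st_Om F hst, sub_zero] at h2
    exact sub_eq_zero.mp h2
  | false =>
    simp only [gn, Bool.false_eq_true, if_false] at hη ⊢
    have hmem := zpow_mem hS.ma n
    have hst := hST κ H F i₀ _ hmem (hS.ha n hn) η hη
    refine ⟨hst, ?_⟩
    intro h0 T hT
    have hmem2 : ((a ^ n : unitary (H →L[ℂ] H)) : H →L[ℂ] H) ∈ F.DD i₁ := by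
      refine CC_mono ?_ hmem
      rintro _ rfl
      exact ⟨i₀, hS.h01, rfl⟩
    have h1 := hT.comm _ hmem2
    have h2 := congrArg (fun f : H →L[ℂ] H => f η) h1
    simpa only [ContinuousLinearMap.mul_apply] using h2

theorem key (hST : S_ST) (F : Fock κ H) (i₀ i₁ σ : κ) (a b : unitary (H →L[ℂ] H))
    (hS : Setg F i₀ i₁ σ a b) : ∀ (w : List (Bool × Bool)) (x e : Bool) (k : ℕ) (c' : Bool),
    FreeGroup.IsReduced ((x, e) :: w) → (((x, e) :: w).getLast?).map Prod.fst = some c' →
    ∀ ξ : H, F.NotSt (if c' then i₁ else i₀) ξ →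
    F.St (if x then i₁ else i₀) (((lt a b (x, e) ^ k * (((x, e) :: w).map (lt a b)).prod :
      unitary (H →L[ℂ] H)) : H →L[ℂ] H) ξ) ∧
    (inner ℂ F.Om ξ = (0 : ℂ) → ∀ T, F.IsT i₁ T →
      T (((lt a b (x, e) ^ k * (((x, e) :: w).map (lt a b)).prod :
        unitary (H →L[ℂ] H)) : H →L[ℂ] H) ξ) =
      ((lt a b (x, e) ^ k * (((x, e) :: w).map (lt a b)).prod :
        unitary (H →L[ℂ] H)) : H →L[ℂ] H) (T ξ)) := by
  intro w
  induction w with
  | nil =>
    intro x e k c' _ hl ξ hξ
    simp only [List.getLast?_singleton, Option.map_some, Option.some.injEq] at hl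
    subst hl
    have e1 : lt a b (x, e) ^ k * (([(x, e)] : List (Bool × Bool)).map (lt a b)).prod =
        lt a b (x, e) ^ (k + 1) := by
      simp [pow_succ]
    rw [e1]
    exact syll hST F i₀ i₁ σ a b hS x e k ξ hξ
  | cons p w ih =>
    intro x e k c' hr hl ξ hξ
    obtain ⟨x', e'⟩ := p
    rw [List.getLast?_cons_cons] at hl
    have hr2 : FreeGroup.IsReduced ((x', e') :: w) := by
      unfold FreeGroup.IsReduced at hr ⊢
      exact hr.tail
    have hr3 : x = x' → e = e' := by
      unfold FreeGroup.IsReduced at hr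
      exact (List.isChain_cons_cons.mp hr).1
    by_cases hx : x = x'
    · have he := hr3 hx
      subst hx
      subst he
      have e1 : lt a b (x, e) ^ k * (((x, e) :: (x, e) :: w).map (lt a b)).prod =
          lt a b (x, e) ^ (k + 1) * (((x, e) :: w).map (lt a b)).prod := by
        simp only [List.map_cons, List.prod_cons, pow_succ, mul_assoc]
      rw [e1]
      exact ih x e (k + 1) c' hr2 hl ξ hξ
    · have e1 : lt a b (x, e) ^ k * (((x, e) :: (x', e') :: w).map (lt a b)).prod =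
          lt a b (x, e) ^ (k + 1) * (lt a b (x', e') ^ 0 *
            (((x', e') :: w).map (lt a b)).prod) := by
        simp only [List.map_cons, List.prod_cons, pow_succ, pow_zero, one_mul, mul_assoc]
      obtain ⟨h1, h2⟩ := ih x' e' 0 c' hr2 hl ξ hξ
      have hne : (if x' then i₁ else i₀) ≠ (if x then i₁ else i₀) := by
        have h01 := hS.h01
        cases x <;> cases x' <;> simp_all [Ne.symm]
      have h3 := syll hST F i₀ i₁ σ a b hS x e k _ (st_notSt F hne h1)
      rw [e1]
      simp only [Submonoid.coe_mul, ContinuousLinearMap.mul_apply] at h1 h2 h3 ⊢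
      refine ⟨h3.1, ?_⟩
      intro h0 T hT
      rw [h3.2 (st_Om F h1) T hT, h2 h0 T hT]

end STGaux

open STGaux in
theorem t_STG (h : S_ST) : S_STG := by
  intro κ H _ _ _ F i₀ i₁ σ a b hS g c c' hc hc' ξ hξ
  have hro : ro a b g = (((g.toWord).map (lt a b)).prod : unitary (H →L[ℂ] H)) := by
    conv_lhs => rw [← FreeGroup.mk_toWord (x := g)]
    unfold ro rho
    rw [FreeGroup.lift_mk]
    rfl
  have hst' : (g.toWord.getLast?).map Prod.fst = some c' := by
    unfold st at hc'
    rw [FreeGroup.toWord_inv, FreeGroup.invRev, List.head?_reverse, List.getLast?_map,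
      Option.map_map] at hc'
    exact hc'
  have hred : FreeGroup.IsReduced g.toWord := FreeGroup.isReduced_toWord
  unfold st at hc
  rw [hro]
  revert hc hst' hred
  generalize g.toWord = L
  intro hc hst' hred
  cases L with
  | nil => simp at hc
  | cons p w =>
    obtain ⟨x, e⟩ := p
    simp only [List.head?_cons, Option.map_some, Option.some.injEq] at hc
    subst hc
    have h1 := key h F i₀ i₁ σ a b hS w x e 0 c' hred hst' ξ hξ
    rw [pow_zero, one_mul] at h1
    exact h1

end Pool.Agent.H875R.FP
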