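import Mathlib
import Pool.Agent.H875R.FP.Stubs2

/-! Task T: the projection onto the words which end with `j`. -/

namespace Pool.Agent.H875R.FP

open scoped ComplexConjugate

section

variable {κ H : Type} [NormedAddCommGroup H] [InnerProductSpace ℂ H] [CompleteSpace H]

theorem T_inner_ne (F : Fock κ H) {w w' : List κ} (h : w ≠ w') :
    inner ℂ (F.e w) (F.e w') = 0 := F.e.orthonormal.2 h

theorem T_inner_self (F : Fock κ H) (w : List κ) : inner ℂ (F.e w) (F.e w) = (1 : ℂ) := by
  have := F.e.orthonormal.1 w
  rw [inner_self_eq_norm_sq_to_K, this]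
  simp

theorem T_ext (F : Fock κ H) {A B : H →L[ℂ] H} (h : ∀ w, A (F.e w) = B (F.e w)) : A = B := by
  refine ContinuousLinearMap.ext_on
    (Submodule.dense_iff_topologicalClosure_eq_top.mpr F.e.dense_span) ?_
  rintro _ ⟨w, rfl⟩
  exact h w

theorem T_star_cr_nil (F : Fock κ H) (i : κ) : star (F.cr i) F.Om = 0 := by
  refine F.e.dense_span |> fun hd => ?_
  apply ext_inner_right ℂ
  intro v
  rw [ContinuousLinearMap.star_eq_adjoint, ContinuousLinearMap.adjoint_inner_left, inner_zero_left]
  have hA : ((innerSL ℂ F.Om).smulRight F.Om ∘L F.cr i : H →L[ℂ] H) = 0 := by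
    apply T_ext F
    intro w
    simp only [ContinuousLinearMap.comp_apply, ContinuousLinearMap.smulRight_apply, innerSL_apply_apply,
      F.cr_e, ContinuousLinearMap.zero_apply]
    rw [show F.Om = F.e [] from rfl, T_inner_ne F (by simp), zero_smul]
  have h1 := congrArg (fun A : H →L[ℂ] H => inner ℂ F.Om (A v)) hA
  simp only [ContinuousLinearMap.comp_apply, ContinuousLinearMap.smulRight_apply, innerSL_apply_apply,
      ContinuousLinearMap.zero_apply, inner_zero_right, inner_smul_right] at h1
  rw [show inner ℂ F.Om F.Om = (1 : ℂ) from T_inner_self F [], mul_one] at h1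
  exact h1

theorem T_P0 (F : Fock κ H) (ξ : H) : F.P0 ξ = (inner ℂ F.Om ξ : ℂ) • F.Om := rfl

theorem T_P0_star (F : Fock κ H) : star F.P0 = F.P0 := by
  apply ContinuousLinearMap.ext
  intro ξ
  apply ext_inner_right ℂ
  intro v
  rw [ContinuousLinearMap.star_eq_adjoint, ContinuousLinearMap.adjoint_inner_left, T_P0, T_P0,
    inner_smul_right, inner_smul_left, inner_conj_symm]
  ring

theorem T_cr_P0 (F : Fock κ H) (i : κ) : F.P0 * F.cr i = 0 := by
  apply ContinuousLinearMap.ext
  intro ξ
  rw [ContinuousLinearMap.mul_apply, T_P0, ← ContinuousLinearMap.adjoint_inner_left,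
    ← ContinuousLinearMap.star_eq_adjoint, T_star_cr_nil, inner_zero_left, zero_smul]
  rfl

theorem T_star_cr_P0 (F : Fock κ H) (i : κ) : star (F.cr i) * F.P0 = 0 := by
  have h := congrArg star (T_cr_P0 F i)
  rw [star_mul, star_zero, T_P0_star] at h
  exact h

open Classical in
theorem t_T : S_T := by
  intro κ H _ _ _ F j
  set K : Submodule ℂ H := (Submodule.span ℂ (F.e '' {w | w.getLast? = some j})).topologicalClosure
    with hK
  haveI : CompleteSpace K := (Submodule.isClosed_topologicalClosure _).completeSpace_coe
  set T : H →L[ℂ] H := K.starProjection with hT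
  have hTin : ∀ w : List κ, w.getLast? = some j → T (F.e w) = F.e w := by
    intro w hw
    rw [hT, Submodule.starProjection_eq_self_iff]
    exact Submodule.le_topologicalClosure _ (Submodule.subset_span ⟨w, hw, rfl⟩)
  have hTout : ∀ w : List κ, w.getLast? ≠ some j → T (F.e w) = 0 := by
    intro w hw
    have h1 : F.e w ∈ Kᗮ := by
      rw [hK, Submodule.orthogonal_closure, Submodule.mem_orthogonal]
      intro u hu
      induction hu using Submodule.span_induction with
      | mem x hx =>
        obtain ⟨w', hw', rfl⟩ := hx
        apply T_inner_ne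
        rintro rfl
        exact hw hw'
      | zero => exact inner_zero_left _
      | add x y _ _ hx hy => rw [inner_add_left, hx, hy, add_zero]
      | smul a x _ hx => rw [inner_smul_left, hx, mul_zero]
    rw [hT, Submodule.starProjection_apply, Submodule.orthogonalProjectionOnto_apply_of_mem_orthogonal h1]
    rfl
  have hTstar : star T = T := by
    have := isSelfAdjoint_starProjection K
    exact this
  have hcr : ∀ i, T * F.cr i - F.cr i * T = if i = j then F.cr j * F.P0 else 0 := by
    intro i
    apply T_ext F
    intro w
    rw [ContinuousLinearMap.sub_apply, ContinuousLinearMap.mul_apply, ContinuousLinearMap.mul_apply,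
      F.cr_e]
    rcases w with _ | ⟨k, w⟩
    · rw [hTout [] (by simp), map_zero, sub_zero]
      by_cases h : i = j
      · subst h
        rw [if_pos rfl, hTin [i] (by simp), ContinuousLinearMap.mul_apply, T_P0,
          show inner ℂ F.Om (F.e []) = (1 : ℂ) from T_inner_self F [], one_smul]
        exact (F.cr_e i []).symm
      · rw [if_neg h, hTout [i] (by simpa using h)]
        rfl
    · have h0 : (if i = j then F.cr j * F.P0 else 0) (F.e (k :: w)) = 0 := by
        split_ifs
        · rw [ContinuousLinearMap.mul_apply, T_P0,
            show inner ℂ F.Om (F.e (k :: w)) = (0 : ℂ) from T_inner_ne F (by simp), zero_smul,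
            map_zero]
        · rfl
      rw [h0]
      have hl : (i :: k :: w).getLast? = (k :: w).getLast? := by simp [List.getLast?_cons_cons]
      by_cases hkw : (k :: w).getLast? = some j
      · rw [hTin _ hkw, hTin _ (hl.trans hkw), F.cr_e, sub_self]
      · rw [hTout _ hkw, hTout _ (by rw [hl]; exact hkw), map_zero, sub_zero]
  have hcrs : ∀ i, T * star (F.cr i) - star (F.cr i) * T =
      if i = j then - (F.P0 * star (F.cr j)) else 0 := by
    intro i
    have h := congrArg star (hcr i)
    rw [star_sub, star_mul, star_mul, hTstar] at h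
    have h2 : T * star (F.cr i) - star (F.cr i) * T = -(star (F.cr i) * T - T * star (F.cr i)) := by
      abel
    rw [h2, h]
    split_ifs
    · rw [star_mul, T_P0_star]
    · rw [star_zero, neg_zero]
  have hS : ∀ i, i ≠ j → T * F.S i = F.S i * T := by
    intro i hi
    have h1 := hcr i
    have h2 := hcrs i
    rw [if_neg hi] at h1 h2
    rw [← sub_eq_zero]
    unfold Fock.S
    rw [mul_add, add_mul, add_sub_add_comm, h1, h2, add_zero]
  have hSj : T * F.S j - F.S j * T = F.S j * F.P0 - F.P0 * F.S j := by
    have h1 := hcr j
    have h2 := hcrs j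
    rw [if_pos rfl] at h1 h2
    unfold Fock.S
    rw [mul_add, add_mul, add_sub_add_comm, h1, h2, add_mul, mul_add, T_star_cr_P0, T_cr_P0]
    abel
  refine ⟨T, hTstar, hTout [] (by simp), ?_, ?_⟩
  · intro y hy
    have hcl : IsClosed {y : H →L[ℂ] H | T * y - y * T = y * F.P0 - F.P0 * y} :=
      isClosed_eq (by fun_prop) (by fun_prop)
    have hsub : (StarAlgebra.adjoin ℂ {F.S j} : Set (H →L[ℂ] H)) ⊆
        {y : H →L[ℂ] H | T * y - y * T = y * F.P0 - F.P0 * y} := by
      intro x hx
      induction hx using StarAlgebra.adjoin_induction with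
      | mem x hx =>
        rw [Set.mem_singleton_iff] at hx
        subst hx
        exact hSj
      | algebraMap r =>
        simp only [Set.mem_setOf_eq]
        rw [Algebra.commutes r T, Algebra.commutes r F.P0, sub_self, sub_self]
      | add x y _ _ hx hy =>
        simp only [Set.mem_setOf_eq] at hx hy ⊢
        rw [mul_add, add_mul, add_sub_add_comm, hx, hy, add_mul, mul_add]
        abel
      | mul x y _ _ hx hy =>
        simp only [Set.mem_setOf_eq] at hx hy ⊢
        have e : T * (x * y) - x * y * T = (T * x - x * T) * y + x * (T * y - y * T) := by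
          noncomm_ring
        rw [e, hx, hy]
        noncomm_ring
      | star x _ hx =>
        simp only [Set.mem_setOf_eq] at hx ⊢
        have h := congrArg star hx
        rw [star_sub, star_sub, star_mul, star_mul, star_mul, star_mul, hTstar, T_P0_star] at h
        have e1 : T * star x - star x * T = -(star x * T - T * star x) := by abel
        rw [e1, h]
        abel
    have hy' : y ∈ closure (StarAlgebra.adjoin ℂ {F.S j} : Set (H →L[ℂ] H)) := hy
    exact closure_minimal hsub hcl hy'
  · intro y hy
    have hcl : IsClosed {y : H →L[ℂ] H | T * y = y * T} :=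
      isClosed_eq (by fun_prop) (by fun_prop)
    have hsub : (StarAlgebra.adjoin ℂ (F.S '' {i | i ≠ j}) : Set (H →L[ℂ] H)) ⊆
        {y : H →L[ℂ] H | T * y = y * T} := by
      intro x hx
      induction hx using StarAlgebra.adjoin_induction with
      | mem x hx =>
        obtain ⟨i, hi, rfl⟩ := hx
        exact hS i hi
      | algebraMap r => exact (Algebra.commutes r T).symm
      | add x y _ _ hx hy =>
        simp only [Set.mem_setOf_eq] at hx hy ⊢
        rw [mul_add, add_mul, hx, hy]
      | mul x y _ _ hx hy =>
        simp only [Set.mem_setOf_eq] at hx hy ⊢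
        rw [← mul_assoc, hx, mul_assoc, hy, mul_assoc]
      | star x _ hx =>
        simp only [Set.mem_setOf_eq] at hx ⊢
        have h := congrArg star hx
        rw [star_mul, star_mul, hTstar] at h
        exact h.symm
    have hy' : y ∈ closure (StarAlgebra.adjoin ℂ (F.S '' {i | i ≠ j}) : Set (H →L[ℂ] H)) := hy
    exact closure_minimal hsub hcl hy'

end

end Pool.Agent.H875R.FP
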