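import Pool.Agent.H875R.FP.Stubs2

/-! Task TEIG: `T` on the vectors `U_n(P) g⁻¹ Ω`. -/

namespace Pool.Agent.H875R.FP

namespace TEIGx

theorem st_some {g : G2} (hg : g ≠ 1) : ∃ c, st g = some c := by
  unfold st
  cases h : g.toWord with
  | nil => exact absurd (FreeGroup.toWord_eq_nil_iff.1 h) hg
  | cons a l => exact ⟨a.1, by simp⟩

theorem st_one : st (1 : G2) = none := by
  simp [st, FreeGroup.toWord_one]

variable {κ H : Type} [NormedAddCommGroup H] [InnerProductSpace ℂ H] [CompleteSpace H]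

theorem star_ro (a b : unitary (H →L[ℂ] H)) (g : G2) : star (ro a b g) = ro a b g⁻¹ := by
  unfold ro
  rw [map_inv]
  rfl

theorem ro_mul (a b : unitary (H →L[ℂ] H)) (g g' : G2) :
    ro a b (g * g') = ro a b g * ro a b g' := by
  unfold ro
  rw [map_mul]
  rfl

theorem ro_star_mul (a b : unitary (H →L[ℂ] H)) (g : G2) :
    star (ro a b g) * ro a b g = 1 := by
  unfold ro
  exact Unitary.coe_star_mul_self _

theorem ro_mul_star (a b : unitary (H →L[ℂ] H)) (g : G2) :
    ro a b g * star (ro a b g) = 1 := by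
  unfold ro
  exact Unitary.coe_mul_star_self _

/-- conjugation of Chebyshev polynomials -/
theorem Up_conj (V S : H →L[ℂ] H) (h : V * star V = 1) (h' : star V * V = 1) :
    ∀ n : ℕ, Up (star V * S * V) n = star V * Up S n * V
  | 0 => by simp only [Up]; rw [mul_one, h']
  | 1 => by simp only [Up]
  | n + 2 => by
    have h1 := Up_conj V S h h' n
    have h2 := Up_conj V S h h' (n + 1)
    simp only [Up] at h1 h2 ⊢
    rw [h1, h2]
    calc star V * S * V * (star V * Up S (n + 1) * V) - star V * Up S n * V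
        = star V * S * (V * star V) * Up S (n + 1) * V - star V * Up S n * V := by
          simp only [mul_assoc]
      _ = star V * (S * Up S (n + 1) - Up S n) * V := by
          rw [h, mul_one, mul_sub, sub_mul]
          simp only [mul_assoc]

theorem Up_mem {A : Type} [CStarAlgebra A] (s : StarSubalgebra ℂ A) {x : A} (hx : x ∈ s) :
    ∀ n : ℕ, Up x n ∈ s
  | 0 => by simp only [Up]; exact one_mem s
  | 1 => by simp only [Up]; exact hx
  | n + 2 => by
    have h1 := Up_mem s hx n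
    have h2 := Up_mem s hx (n + 1)
    simp only [Up]
    exact sub_mem (mul_mem hx h2) h1

theorem CC_mono {A : Type} [CStarAlgebra A] {s t : Set A} (h : s ⊆ t) : CC s ≤ CC t :=
  StarSubalgebra.topologicalClosure_mono (StarAlgebra.adjoin_mono h)

theorem mem_CC {A : Type} [CStarAlgebra A] {s : Set A} {x : A} (hx : x ∈ s) : x ∈ CC s :=
  StarSubalgebra.le_topologicalClosure _ (StarAlgebra.subset_adjoin ℂ s hx)

theorem notSt_Om (F : Fock κ H) (i : κ) : F.NotSt i F.Om := by
  intro w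
  have h := F.e.orthonormal.inner_eq_zero (i := i :: w) (j := []) (by simp)
  exact h

theorem St_Om {F : Fock κ H} {i : κ} {ξ : H} (h : F.St i ξ) : inner ℂ F.Om ξ = (0 : ℂ) :=
  h [] (fun w' => by simp)

theorem St_notSt {F : Fock κ H} {i j : κ} (hij : i ≠ j) {ξ : H} (h : F.St i ξ) :
    F.NotSt j ξ := by
  intro w
  apply h
  intro w' hw
  rw [List.cons.injEq] at hw
  exact hij hw.1.symm

end TEIGx

open TEIGx in
theorem t_TEIG (h1 : S_STG) (h2 : S_TOM) (h3 : S_VFIRST) (h4 : S_ST) (h5 : S_CHEB) (hb : S_BAS) :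
    S_TEIG := by
  intro κ H _ _ _ F i₀ i₁ σ a b hs m T hT g hg n
  rcases Nat.eq_zero_or_pos n with hn | hn
  · subst hn
    rw [if_pos rfl]
    have e : Up (PP F i₀ a b m) 0 * star (ro a b g) = ro a b g⁻¹ := by
      simp only [Up]
      rw [one_mul, star_ro]
    rw [e]
    have h := h2 κ H F i₀ i₁ σ a b hs g⁻¹ T hT
    rw [inv_inv] at h
    exact h
  · rw [if_neg hn.ne']
    have hγ : st (vv m * g⁻¹) = some true := (h3 m).1 g hg
    have hγ1 : vv m * g⁻¹ ≠ 1 := by
      intro h
      rw [h, st_one] at hγ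
      exact absurd hγ (by simp)
    obtain ⟨c', hc'⟩ := st_some (inv_ne_one.2 hγ1)
    have hv : st (vv m) = some true := by
      have h := (h3 m).1 1 (one_mem _)
      rwa [inv_one, mul_one] at h
    have hv1 : vv m ≠ 1 := by
      intro h
      rw [h, st_one] at hv
      exact absurd hv (by simp)
    obtain ⟨c, hc⟩ := st_some (inv_ne_one.2 hv1)
    -- the vector
    have vec : (Up (PP F i₀ a b m) n * star (ro a b g)) F.Om =
        ro a b (vv m)⁻¹ (Up (F.S i₀) n (ro a b (vv m * g⁻¹) F.Om)) := by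
      unfold PP
      rw [Up_conj _ _ (ro_mul_star a b (vv m)) (ro_star_mul a b (vv m)), ro_mul, ← star_ro,
        ← star_ro]
      rfl
    have st1 : F.St i₁ (ro a b (vv m * g⁻¹) F.Om) := by
      have h := (h1 κ H F i₀ i₁ σ a b hs (vv m * g⁻¹) true c' hγ hc' F.Om (notSt_Om F _)).1
      exact h
    have hy : Up (F.S i₀) n ∈ CC {F.S i₀} := Up_mem _ (mem_CC (Set.mem_singleton _)) n
    have hy0 : F.tau (Up (F.S i₀) n) = 0 := by
      have h := ((h5 κ H F i₀).2.1 0 n)
      rw [if_neg hn.ne] at h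
      have e : Up (F.S i₀) 0 * Up (F.S i₀) n = Up (F.S i₀) n := by
        simp only [Up]
        rw [one_mul]
      rwa [e] at h
    have st2 : F.St i₀ (Up (F.S i₀) n (ro a b (vv m * g⁻¹) F.Om)) :=
      h4 κ H F i₀ _ hy hy0 _ (St_notSt hs.h01.symm st1)
    have hcomm : T * Up (F.S i₀) n = Up (F.S i₀) n * T := by
      apply hT.comm
      refine CC_mono ?_ hy
      rw [Set.singleton_subset_iff]
      exact ⟨i₀, hs.h01, rfl⟩
    have hTξ : T (Up (F.S i₀) n (ro a b (vv m * g⁻¹) F.Om)) =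
        ((stb (g * (vv m)⁻¹) : ℝ) : ℂ) • Up (F.S i₀) n (ro a b (vv m * g⁻¹) F.Om) := by
      have e1 : T (Up (F.S i₀) n (ro a b (vv m * g⁻¹) F.Om)) =
          Up (F.S i₀) n (T (ro a b (vv m * g⁻¹) F.Om)) := by
        change (T * Up (F.S i₀) n) (ro a b (vv m * g⁻¹) F.Om) =
          (Up (F.S i₀) n * T) (ro a b (vv m * g⁻¹) F.Om)
        rw [hcomm]
      have h := h2 κ H F i₀ i₁ σ a b hs (vv m * g⁻¹) T hT
      have e2 : (vv m * g⁻¹)⁻¹ = g * (vv m)⁻¹ := by group
      rw [e2] at h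
      rw [e1, h, map_smul]
    have fin := (h1 κ H F i₀ i₁ σ a b hs (vv m)⁻¹ c true hc (by rw [inv_inv]; exact hv)
      (Up (F.S i₀) n (ro a b (vv m * g⁻¹) F.Om)) (St_notSt hs.h01 st2)).2 (St_Om st2) T hT
    rw [vec, fin, hTξ, map_smul]

end Pool.Agent.H875R.FP
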