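import Pool.Agent.H875R.FP.Stubs2

namespace Pool.Agent.H875R.FP

open Pool.Agent.H667R3.FF (ev splits)
open scoped ComplexConjugate

theorem tom_cons (c e : Bool) (w : List (Bool × Bool)) :
    FreeGroup.mk ((c, e) :: w) = FreeGroup.of c ^ (if e then (1 : ℤ) else -1) * FreeGroup.mk w := by
  have h : FreeGroup.mk ((c, e) :: w) = FreeGroup.mk [(c, e)] * FreeGroup.mk w := by
    rw [FreeGroup.mul_mk]; rfl
  rw [h]
  congr 1
  cases e
  · rw [if_neg (by decide), zpow_neg_one, FreeGroup.of, FreeGroup.inv_mk]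
    rfl
  · rw [if_pos rfl, zpow_one]
    rfl

theorem tom_dec : ∀ (w : List (Bool × Bool)) (c e : Bool), FreeGroup.IsReduced ((c, e) :: w) →
    ∃ (k : ℤ) (w' : List (Bool × Bool)), (if e then 0 < k else k < 0) ∧
      FreeGroup.mk ((c, e) :: w) = FreeGroup.of c ^ k * FreeGroup.mk w' ∧
      FreeGroup.IsReduced w' ∧ (w' = [] ∨ ∃ e' w'', w' = (!c, e') :: w'')
  | [], c, e, _ => by
    refine ⟨if e then 1 else -1, [], ?_, tom_cons c e [], FreeGroup.IsReduced.nil, Or.inl rfl⟩
    cases e <;> simp
  | (c2, e2) :: w, c, e, hr => by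
    have h0 : ((c, e).1 = (c2, e2).1 → (c, e).2 = (c2, e2).2) ∧ FreeGroup.IsReduced ((c2, e2) :: w) :=
      List.isChain_cons_cons.1 hr
    by_cases hc : c = c2
    · have he : e = e2 := h0.1 hc
      subst hc he
      obtain ⟨k, w', h1, h2, h3, h4⟩ := tom_dec w c e h0.2
      refine ⟨(if e then 1 else -1) + k, w', ?_, ?_, h3, h4⟩
      · cases e
        · simp only [Bool.false_eq_true, if_false] at h1 ⊢
          omega
        · simp only [if_true] at h1 ⊢
          omega
      · rw [tom_cons, h2, zpow_add, mul_assoc]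
    · have hc2 : c2 = !c := by
        cases c <;> cases c2 <;> simp_all
      subst hc2
      refine ⟨if e then 1 else -1, (!c, e2) :: w, ?_, tom_cons c e _, h0.2, Or.inr ⟨e2, w, rfl⟩⟩
      cases e <;> simp

theorem tom_decG (h : G2) (hh : h ≠ 1) : ∃ (c : Bool) (k : ℤ) (h' : G2), st h = some c ∧ k ≠ 0 ∧
    h = FreeGroup.of c ^ k * h' ∧ (h' = 1 ∨ st h' = some (!c)) := by
  have hw : h.toWord ≠ [] := by
    rw [Ne, FreeGroup.toWord_eq_nil_iff]; exact hh
  obtain ⟨⟨c, e⟩, w, hw'⟩ := List.exists_cons_of_ne_nil hw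
  have hr : FreeGroup.IsReduced ((c, e) :: w) := by
    rw [← hw']; exact FreeGroup.isReduced_toWord
  obtain ⟨k, w', h1, h2, h3, h4⟩ := tom_dec w c e hr
  refine ⟨c, k, FreeGroup.mk w', ?_, ?_, ?_, ?_⟩
  · unfold st; rw [hw']; rfl
  · rintro rfl
    cases e <;> simp at h1
  · rw [← h2, ← hw', FreeGroup.mk_toWord]
  · rcases h4 with rfl | ⟨e', w'', rfl⟩
    · left; rfl
    · right
      unfold st
      rw [FreeGroup.toWord_mk, h3.reduce_eq]
      rfl

section

variable {κ H : Type} [NormedAddCommGroup H] [InnerProductSpace ℂ H] [CompleteSpace H]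
  (F : Fock κ H)

theorem tom_orth (w w' : List κ) (h : w ≠ w') : inner ℂ (F.e w) (F.e w') = (0 : ℂ) :=
  F.e.orthonormal.2 h

theorem tom_Om : inner ℂ F.Om F.Om = (1 : ℂ) := by
  unfold Fock.Om
  have := F.e.orthonormal.1 []
  rw [inner_self_eq_norm_sq_to_K, this]
  simp

theorem tom_P0 (ξ : H) : F.P0 ξ = (inner ℂ F.Om ξ : ℂ) • F.Om := by
  unfold Fock.P0
  simp

theorem tom_zpow {A : Type} [CStarAlgebra A] (s : Set A) (u : unitary A)
    (hu : (u : A) ∈ CC s) (k : ℤ) : ((u ^ k : unitary A) : A) ∈ CC s := by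
  cases k with
  | ofNat n =>
    rw [Int.ofNat_eq_natCast, zpow_natCast, SubmonoidClass.coe_pow]
    exact pow_mem hu n
  | negSucc n =>
    rw [zpow_negSucc, ← Unitary.star_eq_inv, Unitary.coe_star, SubmonoidClass.coe_pow]
    exact star_mem (pow_mem hu _)

theorem tom_mono {A : Type} [CStarAlgebra A] {s t : Set A} (h : s ⊆ t) : CC s ≤ CC t :=
  StarSubalgebra.topologicalClosure_mono (StarAlgebra.adjoin_mono h)

end

theorem t_TOM (hS : S_STG) (hST : S_ST) : S_TOM := by
  intro κ H _ _ _ F i₀ i₁ σ a b hset g T hT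
  by_cases hg : g = 1
  · subst hg
    have h1 : ro a b (1 : G2) = 1 := by simp [ro]
    have h2 : stb (1 : G2)⁻¹ = 0 := by
      unfold stb st
      rw [inv_one, FreeGroup.toWord_one]
      simp
    rw [h1, h2]
    simp [hT.Om]
  · have hh : g⁻¹ ≠ 1 := by simpa using hg
    obtain ⟨c, k, h', h1, h2, h3, h4⟩ := tom_decG g⁻¹ hh
    -- g = h'⁻¹ * of c ^ (-k)
    have hgd : g = h'⁻¹ * FreeGroup.of c ^ (-k) := by
      rw [← inv_inv g, h3, mul_inv_rev, ← zpow_neg]
    set y : H →L[ℂ] H := (((if c then b else a) ^ (-k) : unitary (H →L[ℂ] H)) : H →L[ℂ] H) with hy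
    have hy' : ro a b (FreeGroup.of c ^ (-k)) = y := by
      unfold ro rho
      rw [map_zpow, FreeGroup.lift_apply_of]
    have hro : ro a b g = ro a b h'⁻¹ * y := by
      rw [← hy']
      conv_lhs => rw [hgd]
      unfold ro
      rw [map_mul]
      rfl
    have hk : -k ≠ 0 := by omega
    have hym : y ∈ CC {F.S (if c then i₁ else i₀)} := by
      rw [hy]
      cases c
      · exact tom_zpow _ _ hset.ma _
      · exact tom_zpow _ _ hset.mb _
    have hyt : F.tau y = 0 := by
      rw [hy]
      cases c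
      · exact hset.ha _ hk
      · exact hset.hb _ hk
    have hyt' : inner ℂ F.Om (y F.Om) = (0 : ℂ) := hyt
    have hTy : T (y F.Om) = (stb g⁻¹ : ℂ) • y F.Om := by
      unfold stb
      rw [h1]
      cases c
      · have e1 : y ∈ F.DD i₁ := by
          refine tom_mono ?_ hym
          intro z hz
          rw [Set.mem_singleton_iff] at hz
          rw [hz]
          exact ⟨i₀, hset.h01, rfl⟩
        have e2 := hT.comm y e1
        have e3 : T (y F.Om) = y (T F.Om) := by
          have := congrArg (fun A : H →L[ℂ] H => A F.Om) e2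
          simpa using this
        rw [e3, hT.Om]
        simp
      · have e1 := hT.self y hym
        have e2 : T (y F.Om) - y (T F.Om) = y (F.P0 F.Om) - F.P0 (y F.Om) := by
          have := congrArg (fun A : H →L[ℂ] H => A F.Om) e1
          simpa using this
        rw [hT.Om, map_zero, sub_zero, tom_P0, tom_P0, tom_Om, one_smul, hyt', zero_smul,
          sub_zero] at e2
        rw [e2]
        simp
    rcases h4 with rfl | h4
    · have : ro a b g = y := by
        rw [hro]
        simp [ro]
      rw [this]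
      exact hTy
    · -- the vector ξ = y Ω
      have hstar : F.St (if c then i₁ else i₀) (y F.Om) := by
        refine hST κ H F _ y hym hyt F.Om ?_
        intro w
        exact tom_orth F _ _ (by simp)
      have hij : (if c then i₁ else i₀) ≠ (if !c then i₁ else i₀) := by
        cases c
        · simpa using hset.h01
        · simpa using hset.h01.symm
      have hnot : F.NotSt (if !c then i₁ else i₀) (y F.Om) := by
        intro w
        refine hstar _ ?_
        intro w' hw'
        have := (List.cons_eq_cons.1 hw').1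
        exact hij this.symm
      have hne : h'⁻¹ ≠ 1 := by
        intro h0
        rw [inv_eq_one] at h0
        rw [h0] at h4
        unfold st at h4
        rw [FreeGroup.toWord_one] at h4
        simp at h4
      obtain ⟨c1, -, -, h5, -⟩ := tom_decG h'⁻¹ hne
      have h6 := (hS κ H F i₀ i₁ σ a b hset h'⁻¹ c1 (!c) h5 (by rw [inv_inv]; exact h4) (y F.Om) hnot).2
        hyt' T hT
      have e1 : ro a b g F.Om = ro a b h'⁻¹ (y F.Om) := by
        rw [hro]; rfl
      rw [e1, h6, hTy, map_smul]

end Pool.Agent.H875R.FP
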