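import Mathlib
import Pool.Agent.H875R.FP.Stubs2

/-! Task TR: the vacuum state is a trace on `AA`. -/

namespace Pool.Agent.H875R.FP

open scoped ComplexConjugate

namespace TR

variable {κ H : Type} [NormedAddCommGroup H] [InnerProductSpace ℂ H] [CompleteSpace H]
  (F : Fock κ H)

/-- two operators that agree on the basis are equal -/
theorem ext_basis {A B : H →L[ℂ] H} (h : ∀ w, A (F.e w) = B (F.e w)) : A = B := by
  refine ContinuousLinearMap.ext_on (s := Set.range F.e) ?_ ?_
  · have := F.e.dense_span
    rw [← Submodule.dense_iff_topologicalClosure_eq_top] at this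
    exact this
  · rintro _ ⟨w, rfl⟩
    exact h w

/-- the reversed basis -/
theorem exists_rev : ∃ U : H ≃ₗᵢ[ℂ] H, ∀ w, U (F.e w) = F.e w.reverse := by
  classical
  have hv : Orthonormal ℂ (fun w : List κ => F.e w.reverse) :=
    F.e.orthonormal.comp _ List.reverse_injective
  have hr : Set.range (fun w : List κ => F.e w.reverse) = Set.range F.e := by
    ext x
    constructor
    · rintro ⟨w, rfl⟩
      exact ⟨w.reverse, rfl⟩
    · rintro ⟨w, rfl⟩
      exact ⟨w.reverse, by simp⟩
  have hsp : ⊤ ≤ (Submodule.span ℂ
      (Set.range (fun w : List κ => F.e w.reverse))).topologicalClosure := by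
    rw [hr]
    exact F.e.dense_span.ge
  let e' : HilbertBasis (List κ) ℂ H := HilbertBasis.mk hv hsp
  refine ⟨F.e.repr.trans e'.repr.symm, fun w => ?_⟩
  rw [LinearIsometryEquiv.trans_apply, HilbertBasis.repr_self, HilbertBasis.repr_symm_single]
  simp [e', HilbertBasis.coe_mk]

theorem main (hBAS : S_BAS) : ∀ x ∈ F.AA, ∀ y ∈ F.AA, F.tau (x * y) = F.tau (y * x) := by
  classical
  obtain ⟨b1, b2, b3, -, -, b6, -, -, -, -⟩ := hBAS κ H F
  obtain ⟨U, hU⟩ := exists_rev F
  have hUs : ∀ w, U.symm (F.e w) = F.e w.reverse := fun w => by
    rw [LinearIsometryEquiv.symm_apply_eq, hU, List.reverse_reverse]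
  -- actions
  have Snil : ∀ i, F.S i (F.e []) = F.e [i] := fun i => by
    simp [Fock.S, F.cr_e, b1]
  have Ssame : ∀ i w, F.S i (F.e (i :: w)) = F.e (i :: i :: w) + F.e w := fun i w => by
    simp [Fock.S, F.cr_e, b2]
  have Sdiff : ∀ i j w, i ≠ j → F.S i (F.e (j :: w)) = F.e (i :: j :: w) := fun i j w hij => by
    simp [Fock.S, F.cr_e, b3 i j w hij]
  -- the right operators
  let D : κ → (H →L[ℂ] H) := fun j =>
    (U.toContinuousLinearEquiv : H →L[ℂ] H) * F.S j *
      (U.symm.toContinuousLinearEquiv : H →L[ℂ] H)
  have Dap : ∀ j w, D j (F.e w) = U (F.S j (F.e w.reverse)) := fun j w => by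
    simp [D, hUs]
  have Dnil : ∀ i, D i (F.e []) = F.e [i] := fun i => by
    rw [Dap, List.reverse_nil, Snil, hU]
    simp
  have Dsame : ∀ i w, D i (F.e (w ++ [i])) = F.e (w ++ [i] ++ [i]) + F.e w := fun i w => by
    rw [Dap]
    simp [Ssame, hU]
  have Ddiff : ∀ i j w, i ≠ j → D i (F.e (w ++ [j])) = F.e (w ++ [j] ++ [i]) :=
    fun i j w hij => by
    rw [Dap]
    simp [Sdiff i j _ hij, hU]
  have Dstar : ∀ j, star (D j) = D j := fun j => by
    apply ContinuousLinearMap.ext
    intro ξ
    refine ext_inner_left ℂ fun η => ?_
    rw [ContinuousLinearMap.star_eq_adjoint, ContinuousLinearMap.adjoint_inner_right]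
    have hS : ∀ a c : H, inner ℂ (F.S j a) c = inner ℂ a (F.S j c) := fun a c => by
      have := b6 j
      rw [ContinuousLinearMap.star_eq_adjoint] at this
      conv_rhs => rw [← this]
      rw [ContinuousLinearMap.adjoint_inner_right]
    have e1 : ∀ v, D j v = U (F.S j (U.symm v)) := fun v => by simp [D]
    rw [e1, e1]
    have h1 : inner ℂ (U (F.S j (U.symm η))) ξ = inner ℂ (F.S j (U.symm η)) (U.symm ξ) := by
      conv_lhs => rw [← U.apply_symm_apply ξ]
      rw [LinearIsometryEquiv.inner_map_map]
    have h2 : inner ℂ η (U (F.S j (U.symm ξ))) = inner ℂ (U.symm η) (F.S j (U.symm ξ)) := by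
      conv_lhs => rw [← U.apply_symm_apply η]
      rw [LinearIsometryEquiv.inner_map_map]
    rw [h1, h2, hS]
  have comm : ∀ i j, D j * F.S i = F.S i * D j := fun i j => by
    refine ext_basis F fun w => ?_
    change D j (F.S i (F.e w)) = F.S i (D j (F.e w))
    rcases w with _ | ⟨k, w⟩
    · rw [Snil, Dnil]
      by_cases hij : i = j
      · subst hij
        have := Dsame i []
        rw [List.nil_append] at this
        rw [this, Ssame]
        simp
      · have := Ddiff j i [] (Ne.symm hij)
        rw [List.nil_append] at this
        rw [this, Sdiff i j _ hij]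
        simp
    · rcases List.eq_nil_or_concat w with rfl | ⟨w, l, rfl⟩
      · by_cases hki : i = k
        · subst hki
          have h1 := Ssame i []
          rw [h1, map_add, Dnil]
          by_cases hj : j = i
          · subst hj
            have h2 := Dsame j []
            have h3 := Dsame j [j]
            simp only [List.nil_append, List.cons_append] at h2 h3
            rw [h2, h3, map_add, Ssame, Snil]
          · have h2 := Ddiff j i [] hj
            have h3 := Ddiff j i [i] hj
            simp only [List.nil_append, List.cons_append] at h2 h3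
            rw [h2, h3, Ssame]
        · have h1 := Sdiff i k [] hki
          rw [h1]
          by_cases hj : j = k
          · subst hj
            have h2 := Dsame j []
            have h3 := Dsame j [i]
            simp only [List.nil_append, List.cons_append] at h2 h3
            rw [h2, h3, map_add, Sdiff i j _ hki, Snil]
          · have h2 := Ddiff j k [] hj
            have h3 := Ddiff j k [i] hj
            simp only [List.nil_append, List.cons_append] at h2 h3
            rw [h2, h3, Sdiff i k _ hki]
      · rw [List.concat_eq_append]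
        by_cases hki : i = k
        · subst hki
          rw [Ssame, map_add]
          by_cases hj : j = l
          · subst hj
            have h2 := Dsame j (i :: w)
            have h3 := Dsame j (i :: i :: w)
            have h4 := Dsame j w
            simp only [List.cons_append] at h2 h3 h4
            rw [h2, h3, h4, map_add, Ssame, Ssame]
            abel
          · have h2 := Ddiff j l (i :: w) hj
            have h3 := Ddiff j l (i :: i :: w) hj
            have h4 := Ddiff j l w hj
            simp only [List.cons_append] at h2 h3 h4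
            rw [h2, h3, h4, Ssame]
        · rw [Sdiff i k _ hki]
          by_cases hj : j = l
          · subst hj
            have h2 := Dsame j (k :: w)
            have h3 := Dsame j (i :: k :: w)
            simp only [List.cons_append] at h2 h3
            rw [h2, h3, map_add, Sdiff i k _ hki, Sdiff i k _ hki]
          · have h2 := Ddiff j l (k :: w) hj
            have h3 := Ddiff j l (i :: k :: w) hj
            simp only [List.cons_append] at h2 h3
            rw [h2, h3, Sdiff i k _ hki]
  -- commutation with `AA`
  have commA : ∀ j, ∀ x ∈ F.AA, D j * x = x * D j := fun j x hx => by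
    have hcl : IsClosed {x : H →L[ℂ] H | D j * x = x * D j} :=
      isClosed_eq (continuous_const.mul continuous_id) (continuous_id.mul continuous_const)
    have hsub : (StarAlgebra.adjoin ℂ (Set.range F.S) : Set (H →L[ℂ] H)) ⊆
        {x : H →L[ℂ] H | D j * x = x * D j} := by
      intro x hx
      simp only [Set.mem_ofPred_eq]
      rw [SetLike.mem_coe] at hx
      refine StarAlgebra.adjoin_induction (p := fun x _ => D j * x = x * D j)
        ?_ ?_ ?_ ?_ ?_ hx
      · rintro _ ⟨i, rfl⟩
        exact comm i j
      · intro r
        exact (Algebra.commutes r (D j)).symm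
      · intro x y _ _ h1 h2
        rw [mul_add, add_mul, h1, h2]
      · intro x y _ _ h1 h2
        rw [← mul_assoc, h1, mul_assoc, h2, mul_assoc]
      · intro x _ h1
        have h2 : star (D j * x) = star (x * D j) := congrArg star h1
        rw [star_mul (D j) x, star_mul x (D j), Dstar] at h2
        exact h2.symm
    have hx' : x ∈ closure (StarAlgebra.adjoin ℂ (Set.range F.S) : Set (H →L[ℂ] H)) := hx
    exact hcl.closure_subset_iff.2 hsub hx'
  have hSO : ∀ i, F.S i F.Om = D i F.Om := fun i => by
    rw [Fock.Om, Snil, Dnil]
  have innS : ∀ i (a c : H), inner ℂ a (F.S i c) = inner ℂ (F.S i a) c := fun i a c => by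
    have := b6 i
    rw [ContinuousLinearMap.star_eq_adjoint] at this
    conv_lhs => rw [← this]
    rw [ContinuousLinearMap.adjoint_inner_right]
  have innD : ∀ i (a c : H), inner ℂ a (D i c) = inner ℂ (D i a) c := fun i a c => by
    have := Dstar i
    rw [ContinuousLinearMap.star_eq_adjoint] at this
    conv_lhs => rw [← this]
    rw [ContinuousLinearMap.adjoint_inner_right]
  have key : ∀ i, ∀ x ∈ F.AA, F.tau (x * F.S i) = F.tau (F.S i * x) := fun i x hx => by
    have h1 : D i (x F.Om) = x (D i F.Om) := by
      have := congrArg (fun T : H →L[ℂ] H => T F.Om) (commA i x hx)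
      simpa using this
    change inner ℂ F.Om (x (F.S i F.Om)) = inner ℂ F.Om (F.S i (x F.Om))
    rw [innS, hSO, ← h1, innD]
  have tau_star : ∀ x, F.tau (star x) = conj (F.tau x) := fun x => by
    rw [Fock.tau, Fock.tau, ContinuousLinearMap.star_eq_adjoint,
      ContinuousLinearMap.adjoint_inner_right, inner_conj_symm]
  have tau_add : ∀ x y, F.tau (x + y) = F.tau x + F.tau y := fun x y => by
    rw [Fock.tau, Fock.tau, Fock.tau, add_apply, inner_add_right]
  have tau_cont : Continuous F.tau := by
    unfold Fock.tau
    exact continuous_const.inner (ContinuousLinearMap.apply ℂ H F.Om).continuous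
  have hle : ∀ y ∈ StarAlgebra.adjoin ℂ (Set.range F.S), y ∈ F.AA :=
    fun y hy => (StarSubalgebra.le_topologicalClosure _) hy
  intro x hx y hy
  have hcl : IsClosed {y : H →L[ℂ] H | F.tau (x * y) = F.tau (y * x)} :=
    isClosed_eq (tau_cont.comp (continuous_const.mul continuous_id))
      (tau_cont.comp (continuous_id.mul continuous_const))
  have hsub : (StarAlgebra.adjoin ℂ (Set.range F.S) : Set (H →L[ℂ] H)) ⊆
      {y : H →L[ℂ] H | F.tau (x * y) = F.tau (y * x)} := by
    intro y hy
    simp only [Set.mem_ofPred_eq]
    rw [SetLike.mem_coe] at hy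
    have : ∀ x ∈ F.AA, F.tau (x * y) = F.tau (y * x) := by
      refine StarAlgebra.adjoin_induction
        (p := fun y _ => ∀ x ∈ F.AA, F.tau (x * y) = F.tau (y * x)) ?_ ?_ ?_ ?_ ?_ hy
      · rintro _ ⟨i, rfl⟩ x hx
        exact key i x hx
      · intro r x _
        rw [Algebra.commutes]
      · intro a c _ _ h1 h2 x hx
        rw [mul_add, add_mul, tau_add, tau_add, h1 x hx, h2 x hx]
      · intro a c ha hc h1 h2 x hx
        rw [← mul_assoc, h2 _ (mul_mem hx (hle a ha)), ← mul_assoc,
          h1 _ (mul_mem (hle c hc) hx), mul_assoc]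
      · intro a _ h1 x hx
        have e1 : x * star a = star (a * star x) := by rw [star_mul, star_star]
        have e2 : star a * x = star (star x * a) := by rw [star_mul, star_star]
        rw [e1, e2, tau_star, tau_star, h1 _ (star_mem hx)]
    exact this x hx
  have hy' : y ∈ closure (StarAlgebra.adjoin ℂ (Set.range F.S) : Set (H →L[ℂ] H)) := hy
  exact hcl.closure_subset_iff.2 hsub hy'

end TR

theorem t_TR (hBAS : S_BAS) : S_TR := fun _ _ _ _ _ F => TR.main F hBAS

end Pool.Agent.H875R.FP
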