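import Pool.Agent.H875R.FP.Stubs2

/-! C*-algebras with faithful GNS representations and the same moments are isomorphic. -/

set_option autoImplicit false

open scoped ComplexOrder

namespace Pool.Agent.H875R.FP

namespace UISO

/-- positive functionals are continuous -/
theorem pos_cont {A : Type} [CStarAlgebra A] (τ : A →ₗ[ℂ] ℂ)
    (h : ∀ a, 0 ≤ (τ (star a * a)).re ∧ (τ (star a * a)).im = 0) : Continuous τ := by
  let _ : PartialOrder A := CStarAlgebra.spectralOrder A
  have _ : StarOrderedRing A := CStarAlgebra.spectralOrderedRing A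
  let f : A →ₚ[ℂ] ℂ := PositiveLinearMap.mk₀ τ (fun a ha => by
    obtain ⟨b, hb⟩ := CStarAlgebra.nonneg_iff_eq_star_mul_self.1 ha
    rw [hb]
    exact Complex.nonneg_iff.2 ⟨(h b).1, (h b).2.symm⟩)
  exact map_continuous f

section

variable {J A B : Type} [CStarAlgebra A] [CStarAlgebra B]

/-- the generating pairs -/
def gs (x : J → A) (y : J → B) : Set (A × B) := Set.range fun j => (x j, y j)

theorem star_gs {iv : J → J} {x : J → A} {y : J → B} (hx : ∀ j, x (iv j) = star (x j))
    (hy : ∀ j, y (iv j) = star (y j)) : gs x y ∪ star (gs x y) = gs x y := by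
  apply Set.union_eq_self_of_subset_right
  rintro p ⟨j, hj⟩
  refine ⟨iv j, ?_⟩
  simp only at hj
  rw [← star_star p, ← hj]
  show (x (iv j), y (iv j)) = (star (x j), star (y j))
  rw [hx, hy]

theorem words (x : J → A) (y : J → B) (l : List (A × B)) (hl : ∀ p ∈ l, p ∈ gs x y) :
    ∃ w : List J, l.prod = ((w.map x).prod, (w.map y).prod) := by
  induction l with
  | nil => exact ⟨[], rfl⟩
  | cons p l ih =>
    obtain ⟨w, hw⟩ := ih fun q hq => hl q (by simp [hq])
    obtain ⟨j, hj⟩ := hl p (by simp)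
    refine ⟨j :: w, ?_⟩
    rw [List.prod_cons, hw, ← hj]
    simp

/-- the functionals agree on the closed algebra generated by the pairs -/
theorem agree {iv : J → J} {x : J → A} {y : J → B} (hx : ∀ j, x (iv j) = star (x j))
    (hy : ∀ j, y (iv j) = star (y j)) (τ : A →ₗ[ℂ] ℂ) (σ : B →ₗ[ℂ] ℂ)
    (hτ : Continuous τ) (hσ : Continuous σ)
    (hm : ∀ l : List J, τ ((l.map x).prod) = σ ((l.map y).prod)) :
    ∀ p ∈ CC (gs x y), τ p.1 = σ p.2 := by
  have h1 : ∀ p ∈ StarAlgebra.adjoin ℂ (gs x y), τ p.1 = σ p.2 := by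
    intro p hp
    rw [← StarSubalgebra.mem_toSubalgebra, StarAlgebra.adjoin_toSubalgebra, star_gs hx hy,
      ← Subalgebra.mem_toSubmodule, Algebra.adjoin_eq_span] at hp
    induction hp using Submodule.span_induction with
    | mem q hq =>
      obtain ⟨l, hl, rfl⟩ := Submonoid.exists_list_of_mem_closure hq
      obtain ⟨w, hw⟩ := words x y l hl
      rw [hw]
      exact hm w
    | zero => simp
    | add q r _ _ hq hr => simp only [Prod.fst_add, Prod.snd_add, map_add, hq, hr]
    | smul c q _ hq => simp only [Prod.smul_fst, Prod.smul_snd, map_smul, hq]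
  intro p hp
  have hcl : IsClosed {p : A × B | τ p.1 = σ p.2} :=
    isClosed_eq (hτ.comp continuous_fst) (hσ.comp continuous_snd)
  have h2 : closure ((StarAlgebra.adjoin ℂ (gs x y) : StarSubalgebra ℂ (A × B)) : Set (A × B)) ⊆
      {p : A × B | τ p.1 = σ p.2} := closure_minimal h1 hcl
  exact h2 hp

/-- the first coordinate -/
noncomputable def pr1 (x : J → A) (y : J → B) : CC (gs x y) →⋆ₐ[ℂ] A :=
  (StarAlgHom.fst ℂ A B).comp (CC (gs x y)).subtype

/-- the second coordinate -/
noncomputable def pr2 (x : J → A) (y : J → B) : CC (gs x y) →⋆ₐ[ℂ] B :=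
  (StarAlgHom.snd ℂ A B).comp (CC (gs x y)).subtype

theorem pr1_apply (x : J → A) (y : J → B) (c : CC (gs x y)) : pr1 x y c = (c : A × B).1 := rfl

theorem pr2_apply (x : J → A) (y : J → B) (c : CC (gs x y)) : pr2 x y c = (c : A × B).2 := rfl

theorem gen_mem (x : J → A) (y : J → B) (j : J) : (x j, y j) ∈ CC (gs x y) :=
  StarSubalgebra.le_topologicalClosure _ (StarAlgebra.subset_adjoin ℂ _ ⟨j, rfl⟩)

theorem dense1 (x : J → A) (y : J → B) (hx : CC (Set.range x) = ⊤) :
    (⊤ : StarSubalgebra ℂ A) ≤ (pr1 x y).range.topologicalClosure := by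
  rw [← hx]
  refine StarSubalgebra.topologicalClosure_mono (StarAlgebra.adjoin_le ?_)
  rintro _ ⟨j, rfl⟩
  exact ⟨⟨_, gen_mem x y j⟩, rfl⟩

theorem dense2 (x : J → A) (y : J → B) (hy : CC (Set.range y) = ⊤) :
    (⊤ : StarSubalgebra ℂ B) ≤ (pr2 x y).range.topologicalClosure := by
  rw [← hy]
  refine StarSubalgebra.topologicalClosure_mono (StarAlgebra.adjoin_le ?_)
  rintro _ ⟨j, rfl⟩
  exact ⟨⟨_, gen_mem x y j⟩, rfl⟩

end

/-- an injective star homomorphism with dense range is bijective -/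
theorem bij {C A : Type} [CStarAlgebra C] [CStarAlgebra A] (φ : C →⋆ₐ[ℂ] A)
    (hi : Function.Injective φ) (hd : (⊤ : StarSubalgebra ℂ A) ≤ φ.range.topologicalClosure) :
    Function.Bijective φ := by
  refine ⟨hi, fun a => ?_⟩
  have hiso : Isometry φ := NonUnitalStarAlgHom.isometry φ hi
  have hcl : IsClosed (Set.range φ) := hiso.isClosedEmbedding.isClosed_range
  have h1 : a ∈ φ.range.topologicalClosure := hd (StarSubalgebra.mem_top)
  have h2 : a ∈ closure (φ.range : Set A) := h1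
  have h3 : (φ.range : Set A) = Set.range φ := rfl
  rw [h3, hcl.closure_eq] at h2
  exact h2

/-- the functional on a product with an element of the second factor vanishes -/
theorem inj_of {C A B : Type} [CStarAlgebra C] [CStarAlgebra A] [CStarAlgebra B]
    (φ : C →⋆ₐ[ℂ] A) (ψ : C →⋆ₐ[ℂ] B) (τ : A →ₗ[ℂ] ℂ) (σ : B →ₗ[ℂ] ℂ) (hσ : Continuous σ)
    (hag : ∀ c, τ (φ c) = σ (ψ c))
    (hsep : ∀ c, φ c = 0 → ψ c = 0 → c = 0)
    (hd : (⊤ : StarSubalgebra ℂ B) ≤ ψ.range.topologicalClosure)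
    (hf : ∀ b, (∀ b', σ (star (b * b') * (b * b')) = 0) → b = 0) : Function.Injective φ := by
  rw [injective_iff_map_eq_zero]
  intro c hc
  refine hsep c hc (hf _ fun b' => ?_)
  have hcl : IsClosed {b' : B | σ (star (ψ c * b') * (ψ c * b')) = 0} := by
    refine isClosed_eq (hσ.comp ?_) continuous_const
    fun_prop
  have h1 : (ψ.range : Set B) ⊆ {b' : B | σ (star (ψ c * b') * (ψ c * b')) = 0} := by
    rintro _ ⟨d, rfl⟩
    show σ (star (ψ c * ψ d) * (ψ c * ψ d)) = 0
    have e : star (ψ c * ψ d) * (ψ c * ψ d) = ψ (star (c * d) * (c * d)) := by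
      simp [map_mul, map_star]
    rw [e, ← hag]
    simp [map_mul, map_star, hc]
  have h2 : b' ∈ ψ.range.topologicalClosure := hd (StarSubalgebra.mem_top)
  exact closure_minimal h1 hcl h2

end UISO

open UISO in
theorem t_UISO : S_UISO := by
  intro J A B _ _ iv x y τ σ hx hy hτ hσ hm hxt hyt hfτ hfσ
  have cτ := pos_cont τ hτ
  have cσ := pos_cont σ hσ
  have hag := agree hx hy τ σ cτ cσ hm
  have hag' : ∀ c : CC (gs x y), τ (pr1 x y c) = σ (pr2 x y c) := fun c => hag _ c.2
  have hsep : ∀ c : CC (gs x y), pr1 x y c = 0 → pr2 x y c = 0 → c = 0 := by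
    intro c h1 h2
    apply Subtype.ext
    exact Prod.ext h1 h2
  have i1 : Function.Injective (pr1 x y) :=
    inj_of (pr1 x y) (pr2 x y) τ σ cσ hag' hsep (dense2 x y hyt) hfσ
  have i2 : Function.Injective (pr2 x y) :=
    inj_of (pr2 x y) (pr1 x y) σ τ cτ (fun c => (hag' c).symm) (fun c h1 h2 => hsep c h2 h1)
      (dense1 x y hxt) hfτ
  have b1 := bij (pr1 x y) i1 (dense1 x y hxt)
  have b2 := bij (pr2 x y) i2 (dense2 x y hyt)
  exact ⟨(StarAlgEquiv.ofBijective (pr1 x y) b1).symm.trans (StarAlgEquiv.ofBijective (pr2 x y) b2)⟩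

end Pool.Agent.H875R.FP
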