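import Pool.Agent.H875R.FP.Stubs2

/-! UMOM: the moments are determined by freeness. -/

set_option autoImplicit false

namespace Pool.Agent.H875R.FP

open MeasureTheory

namespace UMOM

/-- the moments -/
noncomputable def mom {n : ℕ} {A : Type} [CStarAlgebra A] (r : RFP n A)
    (l : List (Fin n × C(unitInterval, ℂ))) : ℂ :=
  r.τ ((l.map fun x => r.ι x.1 x.2).prod)

theorem mom_merge {n : ℕ} {A : Type} [CStarAlgebra A] (r : RFP n A)
    (l1 l2 : List (Fin n × C(unitInterval, ℂ))) (i : Fin n) (f g : C(unitInterval, ℂ)) :
    mom r (l1 ++ (i, f) :: (i, g) :: l2) = mom r (l1 ++ (i, f * g) :: l2) := by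
  unfold mom
  simp only [List.map_append, List.map_cons, List.prod_append, List.prod_cons, map_mul, mul_assoc]

theorem mom_split {n : ℕ} {A : Type} [CStarAlgebra A] (r : RFP n A)
    (l1 l2 : List (Fin n × C(unitInterval, ℂ))) (i : Fin n) (f : C(unitInterval, ℂ)) (c : ℂ) :
    mom r (l1 ++ (i, f) :: l2) = mom r (l1 ++ (i, f - algebraMap ℂ _ c) :: l2) +
      c * mom r (l1 ++ l2) := by
  have h1 : r.ι i f = r.ι i (f - algebraMap ℂ _ c) + algebraMap ℂ A c := by
    rw [map_sub, AlgHomClass.commutes, sub_add_cancel]
  have h2 : ((l1 ++ (i, f) :: l2).map fun x => r.ι x.1 x.2).prod =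
      ((l1 ++ (i, f - algebraMap ℂ _ c) :: l2).map fun x => r.ι x.1 x.2).prod +
      c • ((l1 ++ l2).map fun x => r.ι x.1 x.2).prod := by
    simp only [List.map_append, List.map_cons, List.prod_append, List.prod_cons]
    have h3 : algebraMap ℂ A c = c • 1 := Algebra.algebraMap_eq_smul_one c
    rw [h1, h3, add_mul, mul_add, smul_mul_assoc, one_mul, mul_smul_comm]
  unfold mom
  rw [h2, map_add, map_smul, smul_eq_mul]

theorem not_chain {α : Type} (R : α → α → Prop) (l : List α) (h : ¬ l.IsChain R) :
    ∃ l1 x y l2, l = l1 ++ x :: y :: l2 ∧ ¬ R x y := by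
  induction l with
  | nil => exact absurd List.IsChain.nil h
  | cons x l ih =>
    cases l with
    | nil => exact absurd (List.IsChain.singleton x) h
    | cons y l =>
      rw [List.isChain_cons_cons] at h
      by_cases hxy : R x y
      · obtain ⟨l1, a, b, l2, e, hab⟩ := ih fun hc => h ⟨hxy, hc⟩
        exact ⟨x :: l1, a, b, l2, by rw [e, List.cons_append], hab⟩
      · exact ⟨[], x, y, l, rfl, hxy⟩

theorem int_center (f : C(unitInterval, ℂ)) :
    ∫ t, (f - algebraMap ℂ C(unitInterval, ℂ) (∫ t, f t)) t = 0 := by
  have hi : Integrable (fun t => f t) (volume : Measure unitInterval) :=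
    f.continuous.integrable_of_hasCompactSupport (HasCompactSupport.of_compactSpace _)
  have h1 : ∀ t, (f - algebraMap ℂ C(unitInterval, ℂ) (∫ t, f t)) t = f t - ∫ t, f t := by
    intro t
    simp [Algebra.algebraMap_eq_smul_one]
  simp only [h1]
  rw [integral_sub hi (integrable_const _), integral_const]
  simp

open Classical in
theorem main {n : ℕ} {A B : Type} [CStarAlgebra A] [CStarAlgebra B] (a : RFP n A) (b : RFP n B)
    (k : ℕ) : ∀ l : List (Fin n × C(unitInterval, ℂ)),
    2 * l.length + (l.filter fun x => decide (∫ t, x.2 t ≠ 0)).length ≤ k →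
    mom a l = mom b l := by
  induction k with
  | zero =>
    intro l hl
    have h1 : l = [] := List.eq_nil_of_length_eq_zero (by omega)
    subst h1
    unfold mom
    rw [List.map_nil, List.prod_nil, a.one, List.map_nil, List.prod_nil, b.one]
  | succ k ih =>
    intro l hl
    by_cases hc : l.IsChain (fun x y => x.1 ≠ y.1)
    · by_cases h0 : ∀ x ∈ l, ∫ t, x.2 t = 0
      · by_cases hn : l = []
        · subst hn
          unfold mom
          rw [List.map_nil, List.prod_nil, a.one, List.map_nil, List.prod_nil, b.one]
        · unfold mom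
          rw [a.free l hn hc h0, b.free l hn hc h0]
      · push Not at h0
        obtain ⟨⟨i, f⟩, hx, hf⟩ := h0
        obtain ⟨l1, l2, rfl⟩ := List.append_of_mem hx
        rw [mom_split a l1 l2 i f (∫ t, f t), mom_split b l1 l2 i f (∫ t, f t)]
        have e1 : decide (∫ t, f t ≠ 0) = true := by simpa using hf
        have e2 : decide (∫ t, (f - algebraMap ℂ C(unitInterval, ℂ) (∫ t, f t)) t ≠ 0) = false := by
          simpa using int_center f
        simp only [List.length_append, List.length_cons, List.filter_append, List.filter_cons,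
          e1, if_true] at hl
        congr 1
        · apply ih
          simp only [List.length_append, List.length_cons, List.filter_append, List.filter_cons,
            e2]
          simp only [Bool.false_eq_true, if_false]
          omega
        · congr 1
          apply ih
          simp only [List.length_append, List.filter_append]
          omega
    · obtain ⟨l1, x, y, l2, rfl, hxy⟩ := not_chain _ l hc
      obtain ⟨i, f⟩ := x
      obtain ⟨j, g⟩ := y
      have hij : i = j := by
        by_contra hne
        exact hxy hne
      subst hij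
      rw [mom_merge, mom_merge]
      apply ih
      simp only [List.length_append, List.length_cons, List.filter_append, List.filter_cons] at hl ⊢
      split_ifs at hl ⊢ <;> (try simp only [List.length_cons] at hl ⊢) <;> omega

end UMOM

theorem t_UMOM : S_UMOM := by
  intro n A B _ _ a b l
  exact UMOM.main a b _ l le_rfl

end Pool.Agent.H875R.FP
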