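import Pool.Agent.H875R.FP.Stubs2

/-! Task VFIRST: first letters of elements of `b K` and of `b K b⁻¹`. -/

namespace Pool.Agent.H875R.FP

namespace VF

/-- doubling of the letters -/
def dbl (L : List (Bool × Bool)) : List (Bool × Bool) := L.flatMap fun x => [x, x]

/-- the squaring homomorphism -/
def sq : G2 →* G2 := FreeGroup.lift fun c => FreeGroup.of c ^ 2

theorem sq_mk (L : List (Bool × Bool)) : sq (FreeGroup.mk L) = FreeGroup.mk (dbl L) := by
  induction L with
  | nil => simp [dbl, FreeGroup.one_eq_mk.symm]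
  | cons x L ih =>
    have h1 : FreeGroup.mk (x :: L) = FreeGroup.mk [x] * FreeGroup.mk L := by
      rw [FreeGroup.mul_mk]; rfl
    have h2 : FreeGroup.mk (dbl (x :: L)) = FreeGroup.mk [x] * FreeGroup.mk [x] *
        FreeGroup.mk (dbl L) := by
      rw [FreeGroup.mul_mk, FreeGroup.mul_mk]; rfl
    rw [h1, map_mul, ih, h2]
    congr 1
    obtain ⟨c, e⟩ := x
    cases e
    · have h3 : (FreeGroup.mk [(c, false)] : G2) = (FreeGroup.of c)⁻¹ := by
        rw [FreeGroup.of, FreeGroup.inv_mk]; rfl
      rw [h3, map_inv]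
      simp [sq, pow_two]
    · have h3 : (FreeGroup.mk [(c, true)] : G2) = FreeGroup.of c := rfl
      rw [h3]
      simp [sq, pow_two]

theorem dbl_red : ∀ L : List (Bool × Bool), FreeGroup.IsReduced L → FreeGroup.IsReduced (dbl L) := by
  intro L
  induction L with
  | nil => intro _; exact FreeGroup.IsReduced.nil
  | cons x L ih =>
    intro h
    cases L with
    | nil =>
      simp only [dbl, List.flatMap_cons, List.flatMap_nil, List.append_nil]
      rw [FreeGroup.IsReduced]
      simp
    | cons y L =>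
      have h' : FreeGroup.IsReduced (y :: L) := by
        rw [FreeGroup.IsReduced] at h ⊢
        exact (List.isChain_cons_cons.1 h).2
      have hxy : x.1 = y.1 → x.2 = y.2 := by
        rw [FreeGroup.IsReduced] at h
        exact (List.isChain_cons_cons.1 h).1
      have h2 := ih h'
      have e1 : dbl (y :: L) = y :: y :: dbl L := rfl
      have e2 : dbl (x :: y :: L) = x :: x :: y :: y :: dbl L := rfl
      rw [e1] at h2
      rw [e2]
      rw [FreeGroup.IsReduced] at h2 ⊢
      rw [List.isChain_cons_cons, List.isChain_cons_cons]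
      exact ⟨fun _ => rfl, hxy, h2⟩

theorem st_mk {M : List (Bool × Bool)} (h : FreeGroup.IsReduced M) :
    st (FreeGroup.mk M) = M.head?.map Prod.fst := by
  rw [st, FreeGroup.toWord_mk, h.reduce_eq]

theorem mem_range {k : G2} (hk : k ∈ Kev) : ∃ L : List (Bool × Bool), FreeGroup.IsReduced L ∧
    k = FreeGroup.mk (dbl L) := by
  have h1 : Kev ≤ sq.range := by
    rw [Kev, Subgroup.closure_le]
    rintro x hx
    simp only [Set.mem_insert_iff, Set.mem_singleton_iff] at hx
    rcases hx with rfl | rfl
    · exact ⟨FreeGroup.of false, by simp [sq]⟩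
    · exact ⟨FreeGroup.of true, by simp [sq]⟩
  obtain ⟨g, rfl⟩ := h1 hk
  refine ⟨g.toWord, FreeGroup.isReduced_toWord, ?_⟩
  rw [← sq_mk, FreeGroup.mk_toWord]

/-- `b * k` as a reduced word. -/
theorem bk {k : G2} (hk : k ∈ Kev) : ∃ (e : Bool) (R : List (Bool × Bool)),
    FreeGroup.IsReduced ((true, e) :: R) ∧
    FreeGroup.of true * k = FreeGroup.mk ((true, e) :: R) ∧
    (k ≠ 1 → R ≠ [] ∨ e = false) := by
  obtain ⟨L, hL, rfl⟩ := mem_range hk
  have hd := dbl_red L hL
  have ht : (FreeGroup.of true : G2) = FreeGroup.mk [(true, true)] := rfl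
  cases L with
  | nil =>
    refine ⟨true, [], FreeGroup.IsReduced.singleton, ?_, ?_⟩
    · rw [ht, FreeGroup.mul_mk]; rfl
    · intro h
      exact absurd (by simp [dbl, FreeGroup.one_eq_mk]) h
  | cons x L =>
    obtain ⟨c, e⟩ := x
    have e1 : dbl ((c, e) :: L) = (c, e) :: (c, e) :: dbl L := rfl
    rw [e1] at hd ⊢
    cases c
    · refine ⟨true, (false, e) :: (false, e) :: dbl L, ?_, ?_, ?_⟩
      · rw [FreeGroup.IsReduced] at hd ⊢
        rw [List.isChain_cons_cons]
        exact ⟨by simp, hd⟩
      · rw [ht, FreeGroup.mul_mk]; rfl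
      · intro _; left; simp
    · cases e
      · refine ⟨false, dbl L, ?_, ?_, ?_⟩
        · rw [FreeGroup.IsReduced] at hd ⊢
          rw [List.isChain_cons_cons] at hd
          exact hd.2
        · have h2 : (FreeGroup.mk ((true, false) :: (true, false) :: dbl L) : G2) =
              (FreeGroup.of true)⁻¹ * FreeGroup.mk ((true, false) :: dbl L) := by
            rw [ht, FreeGroup.inv_mk, FreeGroup.mul_mk]; rfl
          rw [h2, mul_inv_cancel_left]
        · intro _; right; rfl
      · refine ⟨true, (true, true) :: (true, true) :: dbl L, ?_, ?_, ?_⟩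
        · rw [FreeGroup.IsReduced] at hd ⊢
          rw [List.isChain_cons_cons]
          exact ⟨by simp, hd⟩
        · rw [ht, FreeGroup.mul_mk]; rfl
        · intro _; left; simp

theorem chain_snoc : ∀ (M : List (Bool × Bool)) (x y : Bool × Bool),
    FreeGroup.IsReduced (M ++ [x]) → (x.1 = y.1 → x.2 = y.2) →
    FreeGroup.IsReduced (M ++ [x] ++ [y]) := by
  intro M x y h hxy
  rw [FreeGroup.IsReduced] at h ⊢
  rw [List.isChain_append]
  refine ⟨h, List.isChain_singleton _, ?_⟩
  intro a ha b hb
  simp at ha hb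
  subst ha
  subst hb
  exact hxy

theorem last_step (e : Bool) (R : List (Bool × Bool))
    (h : FreeGroup.IsReduced ((true, e) :: R)) (h2 : R ≠ [] ∨ e = false) :
    st (FreeGroup.mk ((true, e) :: R) * (FreeGroup.of true)⁻¹) = some true := by
  have ht : (FreeGroup.of true : G2)⁻¹ = FreeGroup.mk [(true, false)] := by
    rw [FreeGroup.of, FreeGroup.inv_mk]; rfl
  rcases List.eq_nil_or_concat R with hR | ⟨R', y, hR⟩
  · subst hR
    have he : e = false := by
      rcases h2 with h2 | h2
      · exact absurd rfl h2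
      · exact h2
    subst he
    rw [ht, FreeGroup.mul_mk, st_mk]
    · rfl
    · simp [FreeGroup.IsReduced]
  · rw [List.concat_eq_append] at hR
    subst hR
    by_cases hy : y = (true, true)
    · subst hy
      have h3 : (FreeGroup.mk ((true, e) :: (R' ++ [(true, true)])) : G2) =
          FreeGroup.mk ((true, e) :: R') * FreeGroup.of true := by
        rw [FreeGroup.of, FreeGroup.mul_mk]; rfl
      rw [h3, mul_inv_cancel_right, st_mk]
      · rfl
      · have h5 : FreeGroup.IsReduced (((true, e) :: R') ++ [(true, true)]) := h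
        rw [FreeGroup.IsReduced] at h5 ⊢
        exact (List.isChain_append.1 h5).1
    · have h3 : FreeGroup.IsReduced ((true, e) :: R' ++ [y] ++ [(true, false)]) := by
        apply chain_snoc
        · exact h
        · obtain ⟨y1, y2⟩ := y
          cases y1 <;> cases y2 <;> simp at hy ⊢
      rw [ht, FreeGroup.mul_mk]
      have h4 : ((true, e) :: (R' ++ [y])) ++ [(true, false)] =
          (true, e) :: R' ++ [y] ++ [(true, false)] := by simp
      rw [h4, st_mk h3]
      rfl

theorem first {k : G2} (hk : k ∈ Kev) : st (FreeGroup.of true * k) = some true := by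
  obtain ⟨e, R, h1, h2, -⟩ := bk hk
  rw [h2, st_mk h1]
  rfl

theorem second {k : G2} (hk : k ∈ Kev) (h : k ≠ 1) :
    st (FreeGroup.of true * k * (FreeGroup.of true)⁻¹) = some true := by
  obtain ⟨e, R, h1, h2, h3⟩ := bk hk
  rw [h2]
  exact last_step e R h1 (h3 h)

theorem blk_mem (i : ℕ) : blk i ∈ Kev := by
  rw [blk, pow_mul]
  apply Subgroup.pow_mem
  apply Subgroup.subset_closure
  cases (i % 2 == 0) <;> simp

theorem zz_mem (m i : ℕ) : zz m i ∈ Kev := by
  rw [zz]
  apply Subgroup.list_prod_mem
  intro x hx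
  rw [List.mem_map] at hx
  obtain ⟨j, -, rfl⟩ := hx
  exact blk_mem j

end VF

open VF in
theorem t_VFIRST : S_VFIRST := by
  intro m
  constructor
  · intro g hg
    rw [vv, mul_assoc]
    exact first (Subgroup.mul_mem _ (zz_mem m 1) (Subgroup.inv_mem _ hg))
  · intro g hg g' hg' hne
    have h1 : vv m * (g⁻¹ * g') * (vv m)⁻¹ =
        FreeGroup.of true * (zz m 1 * (g⁻¹ * g') * (zz m 1)⁻¹) * (FreeGroup.of true)⁻¹ := by
      rw [vv]; group
    rw [h1]
    apply second
    · exact Subgroup.mul_mem _ (Subgroup.mul_mem _ (zz_mem m 1)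
        (Subgroup.mul_mem _ (Subgroup.inv_mem _ hg) hg')) (Subgroup.inv_mem _ (zz_mem m 1))
    · intro h
      apply hne
      have h2 : g⁻¹ * g' = 1 := by
        have := congrArg (fun x => (zz m 1)⁻¹ * x * zz m 1) h
        simpa [mul_assoc] using this
      exact (inv_mul_eq_one.1 h2)

end Pool.Agent.H875R.FP
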